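import Pool.Agent.H39.Log.ShearD

/-!
# Blow-up of the partial differential equation
-/

open MeasureTheory Set Filter Topology
open scoped ContDiff ENNReal

namespace Pool.Agent.H39.Log

open Pool.Agent.H39.Lions
open H459R3.NS (V K3 Per cube SP pd lap ee fr S N)
open Pool.Agent.H39.PDE hiding Sol Field
open Pool.Agent.H39.Dy (Rapid)
open Pool.Agent.K1H11.NS (Ev.SF)

variable {θ T : ℝ} {D : K3 → ℝ} {lam : ℕ} {B : ℝ} {α β : ℕ → ℝ} {K : ℝ}

theorem upS (hD : Sym D) (hα : ∀ n, |α n| ≤ K) (hβ : ∀ n, |β n| ≤ K) (hlam : 2 ≤ lam) (hB : 0 < B)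
    {X : ℕ → ℝ → ℝ} {T₀ : ℝ}
    (h : ∀ T, 0 ≤ T → T < T₀ → IsSolS α β B (fun n => D (kap lam n)) T X ∧ Rapid T X) (θ : ℝ) :
    SolD θ D (cascS lam B α β) T₀ (fun t => fld lam fun n => X n t) (fun _ _ => 0) := by
  have hl1 : 1 ≤ lam := by omega
  have hl : (0 : ℝ) < lam := by exact_mod_cast hl1
  obtain ⟨Cd, Rd, hRd, hCd⟩ := sym_kap hD hlam
  have hrs : ∀ t ∈ Ico 0 T₀, RS fun n => X n t := by
    intro t ht s hs
    obtain ⟨C, hC⟩ := (h t ht.1 ht.2).2 s hs
    exact ⟨C, fun n => hC n t ⟨ht.1, le_rfl⟩⟩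
  refine ⟨?_, contDiffOn_const, fun t ht => field_fld hlam (hrs t ht), fun t _ i x => rfl, fun t ht x i => ?_⟩
  · -- smoothness
    rintro ⟨t, x⟩ ⟨ht, -⟩
    obtain ⟨T1, h1, h2⟩ := exists_between ht.2
    obtain ⟨T2, h3, h4⟩ := exists_between h2
    have hT1 : 0 < T1 := ht.1.trans_lt h1
    have hT2 : 0 ≤ T2 := (hT1.trans h3).le
    obtain ⟨s1, s2⟩ := h T2 hT2 h4
    have hsm := smooth_clamp hlam (TDl_clampS hα hβ hB hRd hCd hT2 s1 s2) hT1 h3
    have hsm' : ContDiffOn ℝ ∞ (fun z : ℝ × V => fld lam (fun n => X n z.1) z.2) (Icc 0 T1 ×ˢ univ) := by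
      refine hsm.congr fun z hz => ?_
      funext i
      unfold fld
      refine tsum_congr fun n => ?_
      rw [clamp_eq hT2 X n ⟨hz.1.1, hz.1.2.trans h3.le⟩]
    refine (hsm' (t, x) ⟨⟨ht.1, h1.le⟩, mem_univ _⟩).mono_of_mem_nhdsWithin ?_
    have h5 : Ico 0 T₀ ×ˢ (univ : Set V) ∩ (Iio T1 ×ˢ univ) ⊆ Icc 0 T1 ×ˢ univ := by
      rintro z ⟨⟨hz1, -⟩, hz2, -⟩
      exact ⟨⟨hz1.1, hz2.le⟩, mem_univ _⟩
    refine Filter.mem_of_superset ?_ h5
    exact Filter.inter_mem self_mem_nhdsWithin (nhdsWithin_le_nhds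
      ((isOpen_Iio.prod isOpen_univ).mem_nhds ⟨h1, mem_univ _⟩))
  · -- the equation
    have hI : t ∈ Ico 0 T₀ := ⟨ht.1.le, ht.2⟩
    obtain ⟨T1, h1, h2⟩ := exists_between ht.2
    have hT1 : 0 < T1 := ht.1.trans h1
    obtain ⟨s1, s2⟩ := h T1 hT1.le h2
    set f : ℕ → ℝ → ℝ := fun n t => gainS α β B (fun k => X k t) n - D (kap lam n) * X n t -
      B ^ n * X (n + 1) t * (α n * X n t + β n * X (n + 1) t) with hf
    have hTD := TDl_clampS hα hβ hB hRd hCd hT1.le s1 s2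
    have hfr : RDD fun n t => f n (projIcc 0 T1 hT1.le t) :=
      (TDl_rhsS hα hβ hB hRd hCd (hTD 0)).rd
    obtain ⟨C, hC0, hC⟩ := hfr.nonneg (s := 2) two_pos
    have hfb : ∀ n, ∀ s ∈ Ioo 0 T1, |f n s| ≤ C * (1 / 2) ^ n := by
      intro n s hs
      have : 2 ^ n * |f n (projIcc 0 T1 hT1.le s)| ≤ C := hC n s
      rw [projIcc_of_mem hT1.le ⟨hs.1.le, hs.2.le⟩] at this
      rw [one_div, inv_pow, ← div_eq_mul_inv, le_div_iff₀ (by positivity)]
      linarith
    have hd : HasDerivAt (fun s => fld lam (fun n => X n s) x i) (∑' n, f n t * psi lam n x i) t := by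
      refine hasDerivAt_tsum_of_isPreconnected (t := Ioo 0 T1) (u := fun n => C * (1 / 2) ^ n)
        (g := fun n s => X n s * psi lam n x i) (g' := fun n s => f n s * psi lam n x i)
        ((summable_geometric_of_lt_one (by norm_num) (by norm_num)).mul_left _) isOpen_Ioo isPreconnected_Ioo
        (fun n s hs => ?_) (fun n s hs => ?_) (y₀ := t) ⟨ht.1, h1⟩
        (fld_summable (hrs t hI).summable_abs x i) ⟨ht.1, h1⟩
      · exact ((s1 n s ⟨hs.1.le, hs.2.le⟩).hasDerivAt (Icc_mem_nhds hs.1 hs.2)).mul_const _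
      · rw [Real.norm_eq_abs, abs_mul]
        exact (mul_le_of_le_one_right (abs_nonneg _) (abs_psi_le n x i)).trans (hfb n s hs)
    have hX := hrs t hI
    have e1 : ∑ j, fld lam (fun n => X n t) x j * pd j (fun y => fld lam (fun n => X n t) y i) x = 0 := by
      have a1 : ∀ j : Fin 3, j ≠ 0 → pd j (fun y => fld lam (fun n => X n t) y i) x = 0 := fun j hj =>
        pd_series hl1 hX hj i x
      have a0 : fld lam (fun n => X n t) x 0 = 0 := by
        unfold fld
        simp [psi_zero]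
      rw [Fin.sum_univ_three, a0, a1 1 (by decide), a1 2 (by decide)]
      ring
    have e2 : mlt D (fun y => fld lam (fun n => X n t) y i) x = ∑' n, (D (kap lam n) * X n t) * psi lam n x i :=
      congrFun (mlt_fld hD hlam hX i) x
    have e3 : cascS lam B α β (fld lam fun n => X n t) (fld lam fun n => X n t) x i =
        ∑' n, shS α β B (fun n => X n t) (fun n => X n t) n * psi lam n x i := by
      rw [cascS_eq, co_fld hlam hX.summable_abs]
      rfl
    have e4 : pd i (fun _ : V => (0 : ℝ)) x = 0 := by rw [pd_const0]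
    rw [hd.deriv, e1, e2, e3, e4, mul_zero, add_zero, add_zero, ← neg_one_mul, ← tsum_mul_left]
    have hs1 : Summable fun n => -1 * ((D (kap lam n) * X n t) * psi lam n x i) :=
      (fld_summable (RSdis hD hlam hX).summable_abs x i).mul_left (-1)
    have hs2 : Summable fun n => shS α β B (fun n => X n t) (fun n => X n t) n * psi lam n x i :=
      fld_summable (RSshS hα hβ hB hX hX).summable_abs x i
    rw [← hs1.tsum_add hs2]
    refine tsum_congr fun n => ?_
    rw [shS_self]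
    simp only [hf]
    ring

theorem SolD.mono {C : (V → V) → (V → V) → V → V} {u : ℝ → V → V} {p : ℝ → V → ℝ} (h : SolD θ D C T u p)
    {T' : ℝ} (hT : T' ≤ T) : SolD θ D C T' u p :=
  ⟨h.smooth_u.mono (prod_mono (Ico_subset_Ico_right hT) subset_rfl),
    h.smooth_p.mono (prod_mono (Ico_subset_Ico_right hT) subset_rfl),
    fun t ht => h.field t ⟨ht.1, ht.2.trans_le hT⟩, fun t ht => h.per_p t ⟨ht.1, ht.2.trans_le hT⟩,
    fun t ht => h.momentum t ⟨ht.1, ht.2.trans_le hT⟩⟩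

/-- There is a unique smooth solution with datum `u₀` on `[0, T₀)`, its Sobolev norm of order `5 / 2` is unbounded,
and every smooth solution with this datum, on an interval `[0, T')`, coincides with it and has `T' ≤ T₀`. -/
def BlowsUpD (θ : ℝ) (D : K3 → ℝ) (C : (V → V) → (V → V) → V → V) (u₀ : V → V) (T₀ : ℝ) : Prop :=
  0 < T₀ ∧ ∃ (u : ℝ → V → V) (p : ℝ → V → ℝ), SolD θ D C T₀ u p ∧ u 0 = u₀ ∧
    (∀ K : ℝ, ∃ t ∈ Ico 0 T₀, K < sob (5 / 2) (u t)) ∧
    ∀ (T' : ℝ) (v : ℝ → V → V) (q : ℝ → V → ℝ), SolD θ D C T' v q → v 0 = u₀ →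
      T' ≤ T₀ ∧ ∀ t ∈ Ico 0 T', v t = u t

theorem blowsUpD (hP2a : S_P2a) (hD : Sym D) (hD0 : ∀ k, 0 ≤ D k) (hα : ∀ n, |α n| ≤ K) (hβ : ∀ n, |β n| ≤ K)
    (hlam : 2 ≤ lam) {x : ℕ → ℝ} (hx : RS x) {T₀ : ℝ}
    (hbl : BlowsS α β ((lam : ℝ) ^ (5 / 2 : ℝ)) (fun n => D (kap lam n)) x T₀) (θ : ℝ) :
    BlowsUpD θ D (cascS lam ((lam : ℝ) ^ (5 / 2 : ℝ)) α β) (fld lam x) T₀ := by
  have hl : (0 : ℝ) < lam := by
    have : 0 < lam := by omega
    exact_mod_cast this
  have hB : (0 : ℝ) < (lam : ℝ) ^ (5 / 2 : ℝ) := Real.rpow_pos_of_pos hl _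
  set B : ℝ := (lam : ℝ) ^ (5 / 2 : ℝ) with hBd
  obtain ⟨hT₀, X, hX, hs, hunb⟩ := hbl
  have hup := upS hD hα hβ hlam hB (fun T h0 h1 => hs T h0 h1) θ
  have hX0 : (fun n => X n 0) = x := funext hX
  refine ⟨hT₀, _, _, hup, ?_, fun K => ?_, fun T' v q hv h0 => ?_⟩
  · show fld lam (fun n => X n 0) = fld lam x
    rw [hX0]
  · obtain ⟨n, t, ht, hlt⟩ := hunb (2 * K)
    refine ⟨t, ht, ?_⟩
    have h1 := co_le_sob hlam (hup.field t ht).sp n
    have hrs : RS fun n => X n t := by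
      intro s hs'
      obtain ⟨C, hC⟩ := (hs t ht.1 ht.2).2 s hs'
      exact ⟨C, fun n => hC n t ⟨ht.1, le_rfl⟩⟩
    rw [co_fld hlam hrs.summable_abs] at h1
    linarith
  · have hinv : ∀ j : Fin 3, j ≠ 0 → ∀ (r : ℝ) x', v 0 (x' + Pi.single j r) = v 0 x' := fun j hj r y => by
      rw [h0]
      funext i
      unfold fld
      refine tsum_congr fun n => ?_
      rw [psi_shift n y hj r]
    have hsh := SolD.shear hD hD0 hv hinv
    have hdy := fun {b : ℝ} (hb : b < T') => dyadicS hD hα hβ hlam hB hv hsh hb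
    have hi : ∀ n, co lam (v 0) n = x n := fun n => by
      rw [h0, co_fld hlam hx.summable_abs]
    have hrap := fun {b : ℝ} (hb : b < T') => co_rapid hlam (fun i => hv.SF i) hb B hB
    -- the coefficients agree
    have hco : ∀ t, 0 ≤ t → t < T' → t < T₀ → ∀ n, co lam (v t) n = X n t := by
      intro t ht1 ht2 ht3 n
      obtain ⟨K', hK'⟩ := hrap ht2
      obtain ⟨L, hL⟩ := (hs t ht1 ht3).2 B hB
      exact hP2a α β B K (fun n => D (kap lam n)) hB hα hβ (fun n => hD0 _) t (fun n s => co lam (v s) n) X (hdy ht2)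
        (hs t ht1 ht3).1 ⟨K', fun n s hs' => hK' n s hs'⟩ ⟨L, fun n s hs' => hL n s hs'⟩
        (fun n => (hi n).trans (hX n).symm) n t ⟨ht1, le_rfl⟩
    have hT' : T' ≤ T₀ := by
      by_contra hcon
      push Not at hcon
      obtain ⟨K, hK⟩ := hrap hcon
      obtain ⟨n, t, ht, hlt⟩ := hunb K
      rw [← hco t ht.1 (ht.2.trans hcon) ht.2 n] at hlt
      exact absurd (hK n t ⟨ht.1, ht.2.le⟩) (not_le.mpr hlt)
    refine ⟨hT', fun t ht => ?_⟩
    have hup' := SolD.mono hup hT'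
    have hcasc : ∀ t ∈ Ico 0 T', cascS lam B α β (v t) (v t) =
        cascS lam B α β (fld lam fun n => X n t) (fld lam fun n => X n t) := by
      intro t ht
      have hrs : RS fun n => X n t := by
        intro s hs'
        obtain ⟨C, hC⟩ := (hs t ht.1 (ht.2.trans_le hT')).2 s hs'
        exact ⟨C, fun n => hC n t ⟨ht.1, le_rfl⟩⟩
      rw [cascS_eq, cascS_eq, co_fld hlam hrs.summable_abs,
        show co lam (v t) = fun n => X n t from funext (hco t ht.1 ht.2 (ht.2.trans_le hT'))]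
    have s1 : FSolD θ D T' (fun t => cascS lam B α β (v t) (v t)) v q :=
      ⟨hv.smooth_u, hv.smooth_p, fun t ht i x => funext fun l => ((hv.field t ht).sp l).per i x, hv.per_p,
        fun t ht => (hv.field t ht).div, fun t ht x i => by
        have := hv.momentum t ht x i
        linarith⟩
    have s2 : FSolD θ D T' (fun t => cascS lam B α β (v t) (v t)) (fun t => fld lam fun n => X n t) (fun _ _ => 0) :=
      ⟨hup'.smooth_u, hup'.smooth_p, fun t ht i x => funext fun l => ((hup'.field t ht).sp l).per i x, hup'.per_p,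
        fun t ht => (hup'.field t ht).div, fun t ht x i => by
        have := hup'.momentum t ht x i
        rw [← hcasc t ⟨ht.1.le, ht.2⟩] at this
        linarith⟩
    exact FSolD.unique hD hD0 s1 s2 (by rw [h0]; show _ = fld lam fun n => X n 0; rw [hX0]) ht

end Pool.Agent.H39.Log
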