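import Pool.Agent.H39.Log.PartB
import Pool.Agent.H42.LogS.P1L

/-!
# Blow-up with concentration of the energy at infinitely high frequencies
-/

open MeasureTheory Set Filter Topology
open scoped ContDiff ENNReal

namespace Pool.Agent.H39.Log

open Pool.Agent.H39.Lions
open H459R3.NS (V K3 Per cube SP pd lap ee fr S N)
open Pool.Agent.H39.PDE hiding Sol Field
open Pool.Agent.H39.Dy (Rapid)

/-! ### the energy of the system -/

theorem energy_deriv {α β : ℕ → ℝ} {B T : ℝ} {d : ℕ → ℝ} {X : ℕ → ℝ → ℝ} (h : IsSolS α β B d T X) (M : ℕ) {t : ℝ}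
    (ht : t ∈ Icc 0 T) :
    HasDerivWithinAt (fun s => ∑ n ∈ Finset.range (M + 1), X n s ^ 2)
      (-(2 * ∑ n ∈ Finset.range (M + 1), d n * X n t ^ 2) -
        2 * (B ^ M * X M t * X (M + 1) t * (α M * X M t + β M * X (M + 1) t))) (Icc 0 T) t := by
  induction M with
  | zero =>
    have h0 := (h 0 t ht).pow 2
    simp only [Finset.range_one, Finset.sum_singleton, zero_add]
    refine h0.congr_deriv ?_
    simp only [gainS]
    push_cast
    ring
  | succ M ih =>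
    have h0 := (h (M + 1) t ht).pow 2
    have h1 := ih.add h0
    have e : (fun s => ∑ n ∈ Finset.range (M + 1 + 1), X n s ^ 2) =
        (fun s => ∑ n ∈ Finset.range (M + 1), X n s ^ 2) + X (M + 1) ^ 2 := by
      funext s
      rw [Finset.sum_range_succ]
      rfl
    rw [e]
    refine h1.congr_deriv ?_
    have e2 := Finset.sum_range_succ (fun n => d n * X n t ^ 2) (M + 1)
    rw [e2]
    simp only [gainS]
    push_cast
    ring

theorem energy_partial {α β : ℕ → ℝ} {K B T : ℝ} {d : ℕ → ℝ} {X : ℕ → ℝ → ℝ} (hα : ∀ n, |α n| ≤ K)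
    (hβ : ∀ n, |β n| ≤ K) (hB : 0 < B) (hd : ∀ n, 0 ≤ d n) (h : IsSolS α β B d T X) (hr : Rapid T X) {t₁ t₂ : ℝ}
    (h0 : 0 ≤ t₁) (h12 : t₁ ≤ t₂) (h2 : t₂ ≤ T) :
    ∃ R : ℝ, ∀ M : ℕ, ∑ n ∈ Finset.range (M + 1), X n t₂ ^ 2 ≤
      ∑ n ∈ Finset.range (M + 1), X n t₁ ^ 2 + R * (1 / 2) ^ M * (t₂ - t₁) := by
  obtain ⟨C, hC⟩ := hr (2 * (B + 1)) (by positivity)
  have hK : 0 ≤ K := (abs_nonneg _).trans (hα 0)
  have hs1 : 1 ≤ 2 * (B + 1) := by linarith
  have hT0 : (0 : ℝ) ∈ Icc 0 T := ⟨le_rfl, h0.trans (h12.trans h2)⟩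
  have hC0 : 0 ≤ C := le_trans (by positivity) (hC 0 0 hT0)
  have hX : ∀ n, ∀ t ∈ Icc 0 T, |X n t| ≤ C := fun n t ht => by
    have h1 := hC n t ht
    have h3 : 1 ≤ (2 * (B + 1)) ^ n := one_le_pow₀ hs1
    have h4 := mul_le_mul_of_nonneg_right h3 (abs_nonneg (X n t))
    linarith
  have hBX : ∀ n, ∀ t ∈ Icc 0 T, B ^ n * |X n t| ≤ C * (1 / 2) ^ n := fun n t ht => by
    have h1 := hC n t ht
    have h3 : B ^ n * 2 ^ n ≤ (2 * (B + 1)) ^ n := by
      rw [← mul_pow]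
      exact pow_le_pow_left₀ (by positivity) (by linarith) n
    have h4 := mul_le_mul_of_nonneg_right h3 (abs_nonneg (X n t))
    have h5 : (0 : ℝ) < 2 ^ n := by positivity
    have h6 : B ^ n * |X n t| * 2 ^ n ≤ C := by
      calc B ^ n * |X n t| * 2 ^ n = B ^ n * 2 ^ n * |X n t| := by ring
        _ ≤ C := h4.trans h1
    rw [one_div, inv_pow, ← div_eq_mul_inv, le_div_iff₀ h5]
    exact h6
  refine ⟨4 * K * C ^ 3, fun M => ?_⟩
  set f : ℝ → ℝ := fun s => ∑ n ∈ Finset.range (M + 1), X n s ^ 2 with hf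
  have hder : ∀ t ∈ Icc 0 T, HasDerivWithinAt f (-(2 * ∑ n ∈ Finset.range (M + 1), d n * X n t ^ 2) -
        2 * (B ^ M * X M t * X (M + 1) t * (α M * X M t + β M * X (M + 1) t))) (Icc 0 T) t :=
    fun t ht => energy_deriv h M ht
  have hbound : ∀ t ∈ Icc 0 T, -(2 * ∑ n ∈ Finset.range (M + 1), d n * X n t ^ 2) -
        2 * (B ^ M * X M t * X (M + 1) t * (α M * X M t + β M * X (M + 1) t)) ≤ 4 * K * C ^ 3 * (1 / 2) ^ M := by
    intro t ht
    have h1 : 0 ≤ ∑ n ∈ Finset.range (M + 1), d n * X n t ^ 2 :=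
      Finset.sum_nonneg fun n _ => mul_nonneg (hd n) (sq_nonneg _)
    have h3 : |α M * X M t + β M * X (M + 1) t| ≤ 2 * K * C := by
      have a1 : |α M * X M t| ≤ K * C := by
        rw [abs_mul]; exact mul_le_mul (hα M) (hX M t ht) (abs_nonneg _) hK
      have a2 : |β M * X (M + 1) t| ≤ K * C := by
        rw [abs_mul]; exact mul_le_mul (hβ M) (hX _ t ht) (abs_nonneg _) hK
      have := abs_add_le (α M * X M t) (β M * X (M + 1) t)
      linarith
    have h4 : |B ^ M * X M t * X (M + 1) t * (α M * X M t + β M * X (M + 1) t)| ≤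
        C * (1 / 2) ^ M * C * (2 * K * C) := by
      rw [abs_mul, abs_mul, abs_mul, abs_of_pos (pow_pos hB M)]
      exact mul_le_mul (mul_le_mul (hBX M t ht) (hX _ t ht) (abs_nonneg _) (by positivity)) h3 (abs_nonneg _)
        (by positivity)
    have h5 := neg_abs_le (B ^ M * X M t * X (M + 1) t * (α M * X M t + β M * X (M + 1) t))
    have h6 : C * (1 / 2) ^ M * C * (2 * K * C) = 2 * K * C ^ 3 * (1 / 2) ^ M := by ring
    linarith
  have hcont : ContinuousOn f (Icc t₁ t₂) := fun t ht =>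
    ((hder t ⟨h0.trans ht.1, ht.2.trans h2⟩).continuousWithinAt).mono fun s hs => ⟨h0.trans hs.1, hs.2.trans h2⟩
  have hdiff : ∀ t ∈ Ioo t₁ t₂, HasDerivAt f (-(2 * ∑ n ∈ Finset.range (M + 1), d n * X n t ^ 2) -
        2 * (B ^ M * X M t * X (M + 1) t * (α M * X M t + β M * X (M + 1) t))) t := fun t ht =>
    (hder t ⟨h0.trans ht.1.le, ht.2.le.trans h2⟩).hasDerivAt
      (Icc_mem_nhds (h0.trans_lt ht.1) (ht.2.trans_le h2))
  have key := Convex.image_sub_le_mul_sub_of_deriv_le (convex_Icc t₁ t₂) hcont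
    (fun t ht => by
      rw [interior_Icc] at ht
      exact (hdiff t ht).differentiableAt.differentiableWithinAt)
    (C := 4 * K * C ^ 3 * (1 / 2) ^ M)
    (fun t ht => by
      rw [interior_Icc] at ht
      rw [(hdiff t ht).deriv]
      exact hbound t ⟨h0.trans ht.1.le, ht.2.le.trans h2⟩) t₁ ⟨le_rfl, h12⟩ t₂ ⟨h12, le_rfl⟩ h12
  linarith

theorem summable_sq_of_rapid {T : ℝ} {X : ℕ → ℝ → ℝ} (hr : Rapid T X) {t : ℝ} (ht : t ∈ Icc 0 T) :
    Summable fun n => X n t ^ 2 := by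
  obtain ⟨C, hC⟩ := hr 2 two_pos
  have hC0 : 0 ≤ C := le_trans (by positivity) (hC 0 t ht)
  have hs : Summable fun n : ℕ => C ^ 2 * (1 / 2 : ℝ) ^ n :=
    (summable_geometric_of_lt_one (by norm_num) (by norm_num)).mul_left _
  refine Summable.of_nonneg_of_le (fun n => sq_nonneg _) (fun n => ?_) hs
  have h1 := hC n t ht
  have h5 : (0 : ℝ) < 2 ^ n := by positivity
  have h6 : |X n t| ≤ C * (1 / 2) ^ n := by
    rw [one_div, inv_pow, ← div_eq_mul_inv, le_div_iff₀ h5]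
    linarith
  have h7 : (1 / 2 : ℝ) ^ n ≤ 1 := pow_le_one₀ (by norm_num) (by norm_num)
  have h8 : (0 : ℝ) ≤ (1 / 2 : ℝ) ^ n := by positivity
  rw [← sq_abs]
  calc |X n t| ^ 2 ≤ (C * (1 / 2) ^ n) ^ 2 := pow_le_pow_left₀ (abs_nonneg _) h6 2
    _ = C ^ 2 * (1 / 2) ^ n * (1 / 2) ^ n := by ring
    _ ≤ C ^ 2 * (1 / 2) ^ n := mul_le_of_le_one_right (by positivity) h7

/-- the energy does not grow -/
theorem energy_anti {α β : ℕ → ℝ} {K B T : ℝ} {d : ℕ → ℝ} {X : ℕ → ℝ → ℝ} (hα : ∀ n, |α n| ≤ K)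
    (hβ : ∀ n, |β n| ≤ K) (hB : 0 < B) (hd : ∀ n, 0 ≤ d n) (h : IsSolS α β B d T X) (hr : Rapid T X) {t₁ t₂ : ℝ}
    (h0 : 0 ≤ t₁) (h12 : t₁ ≤ t₂) (h2 : t₂ ≤ T) : ∑' n, X n t₂ ^ 2 ≤ ∑' n, X n t₁ ^ 2 := by
  obtain ⟨R, hR⟩ := energy_partial hα hβ hB hd h hr h0 h12 h2
  have s1 := (summable_sq_of_rapid hr ⟨h0, h12.trans h2⟩).hasSum.tendsto_sum_nat
  have s2 := (summable_sq_of_rapid hr ⟨h0.trans h12, h2⟩).hasSum.tendsto_sum_nat
  have s1' := (tendsto_add_atTop_iff_nat 1).2 s1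
  have s2' := (tendsto_add_atTop_iff_nat 1).2 s2
  have s3 : Tendsto (fun M : ℕ => R * (1 / 2 : ℝ) ^ M * (t₂ - t₁)) atTop (𝓝 (R * 0 * (t₂ - t₁))) :=
    ((tendsto_pow_atTop_nhds_zero_of_lt_one (by norm_num) (by norm_num)).const_mul R).mul_const _
  have s4 := s1'.add s3
  have := le_of_tendsto_of_tendsto' s2' s4 hR
  simpa using this

/-! ### Fourier coefficients -/

theorem field_ip {v : V → V} (hv : Lions.Field v) : ip v v = sob 0 v ^ 2 := by
  rw [ip_eq hv.sp hv.sp, hv.sob_eq]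
  unfold nrm nsq
  rw [Real.sq_sqrt (tsum_nonneg fun p => by rw [mul_zero, Real.rpow_zero]; positivity)]
  refine tsum_congr fun p => ?_
  rw [mul_zero, Real.rpow_zero]
  ring

theorem fr_zero_field {v : V → V} (hv : Lions.Field v) (i : Fin 3) : fr (fun x => v x i) 0 = 0 := by
  have h1 : ha (fun x => v x i) 0 = 0 := ha_zero_of_mean (hv.mean i)
  have h2 : fr (fun x => v x i) (-0) = star (fr (fun x => v x i) 0) := fr_neg' _ 0
  rw [neg_zero] at h2
  have h3 : (fr (fun x => v x i) 0).im = 0 := by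
    have := congrArg Complex.im h2
    simp only [Complex.star_def, Complex.conj_im] at this
    linarith
  have h4 : (fr (fun x => v x i) 0).re = 0 := by
    have e : ha (fun x => v x i) 0 = (fr (fun x => v x i) 0).re - (fr (fun x => v x i) 0).im := rfl
    rw [h1, h3] at e
    linarith
  exact Complex.ext h4 h3

/-- one mode of the cascade and any other finite set of modes -/
theorem modes_le {lam : ℕ} (hlam : 2 ≤ lam) {v : V → V} (hv : Lions.Field v) (F : Finset K3) (n : ℕ)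
    (h1 : kap lam n ∉ F) (h2 : -kap lam n ∉ F) :
    ∑ k ∈ F, ∑ i, ‖fr (fun x => v x i) k‖ ^ 2 + co lam v n ^ 2 ≤ ip v v := by
  set g : K3 → ℝ := fun k => ∑ i, ‖fr (fun x => v x i) k‖ ^ 2 with hg
  have hg0 : ∀ k, 0 ≤ g k := fun k => Finset.sum_nonneg fun i _ => sq_nonneg _
  have hgz : g 0 = 0 := by
    simp only [hg]
    refine Finset.sum_eq_zero fun i _ => ?_
    rw [fr_zero_field hv i]
    simp
  have hgs : Summable g := by
    have := sob_summable 0 hv.sp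
    refine this.congr fun k => ?_
    by_cases hk : k = 0
    · rw [if_pos hk, hk, hgz]
    · rw [if_neg hk, Real.rpow_zero, one_mul]
  have htot : ip v v = ∑' k, g k := by
    rw [field_ip hv]
    unfold Pool.Agent.H39.PDE.sob
    rw [Real.sq_sqrt (tsum_nonneg fun k => ?_)]
    · refine tsum_congr fun k => ?_
      by_cases hk : k = 0
      · rw [if_pos hk, hk, hgz]
      · rw [if_neg hk, Real.rpow_zero, one_mul]
    · by_cases hk : k = 0
      · rw [if_pos hk]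
      · rw [if_neg hk, Real.rpow_zero, one_mul]
        exact hg0 k
  have hkap : kap lam n ≠ -kap lam n := by
    intro h
    have h' := congrFun h 0
    have e1 : kap lam n 0 = (lam : ℤ) ^ n := by simp [kap]
    rw [Pi.neg_apply, e1] at h'
    have hl0 : (0 : ℤ) < lam := by omega
    have : 0 < (lam : ℤ) ^ n := pow_pos hl0 n
    linarith
  have hneg : g (-kap lam n) = g (kap lam n) := by
    simp only [hg]
    refine Finset.sum_congr rfl fun i _ => ?_
    rw [fr_neg', norm_star]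
  have hco : co lam v n ^ 2 ≤ g (kap lam n) + g (-kap lam n) := by
    rw [hneg]
    simp only [hg]
    rw [co_eq_fr hv.sp, Fin.sum_univ_three]
    have a1 : (fr (fun x => v x 1) (kap lam n)).re ^ 2 ≤ ‖fr (fun x => v x 1) (kap lam n)‖ ^ 2 := by
      rw [← sq_abs]
      exact pow_le_pow_left₀ (abs_nonneg _) (Complex.abs_re_le_norm _) 2
    have a2 : (fr (fun x => v x 2) (kap lam n)).im ^ 2 ≤ ‖fr (fun x => v x 2) (kap lam n)‖ ^ 2 := by
      rw [← sq_abs]
      exact pow_le_pow_left₀ (abs_nonneg _) (Complex.abs_im_le_norm _) 2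
    nlinarith [sq_nonneg ((fr (fun x => v x 1) (kap lam n)).re + (fr (fun x => v x 2) (kap lam n)).im),
      sq_nonneg ‖fr (fun x => v x 0) (kap lam n)‖]
  have hsum : ∑ k ∈ insert (kap lam n) (insert (-kap lam n) F), g k =
      g (kap lam n) + (g (-kap lam n) + ∑ k ∈ F, g k) := by
    rw [Finset.sum_insert, Finset.sum_insert h2]
    rw [Finset.mem_insert]
    push Not
    exact ⟨hkap, h1⟩
  have hle := hgs.sum_le_tsum (insert (kap lam n) (insert (-kap lam n) F)) fun k _ => hg0 k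
  rw [hsum] at hle
  rw [htot]
  linarith

/-- the energy of the cascade fields -/
theorem ip_fld_self {lam : ℕ} (hlam : 2 ≤ lam) {a : ℕ → ℝ} (ha' : RS a) (hf : Lions.Field (fld lam a)) :
    ip (fld lam a) (fld lam a) = ∑' n, a n ^ 2 := by
  have h := ip_fld (lam := lam) ha'.summable_abs hf.sp
  rw [← h.tsum_eq]
  refine tsum_congr fun n => ?_
  rw [co_fld hlam ha'.summable_abs]
  ring

/-- all Sobolev norms of positive order see the modes of the cascade -/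
theorem co_le_sob' {lam : ℕ} (hlam : 2 ≤ lam) {s : ℝ} (hs : 0 < s) {v : V → V} (hv : ∀ i, SP fun x => v x i)
    (n : ℕ) : ((lam : ℝ) ^ s) ^ n * |co lam v n| ≤ 2 * sob s v := by
  have hl : (0 : ℝ) < lam := by
    have : 0 < lam := by omega
    exact_mod_cast this
  have hpi := Real.pi_gt_three
  have h1 := sum_co_le hlam s hv (n + 1)
  have h2 : ((2 * Real.pi * (lam : ℝ) ^ n) ^ s * |co lam v n|) ^ 2 ≤ 2 * sob s v ^ 2 :=
    (Finset.single_le_sum (f := fun n => ((2 * Real.pi * (lam : ℝ) ^ n) ^ s * |co lam v n|) ^ 2)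
      (fun i _ => sq_nonneg _) (Finset.self_mem_range_succ n)).trans h1
  have h3 : ((lam : ℝ) ^ s) ^ n ≤ (2 * Real.pi * (lam : ℝ) ^ n) ^ s := by
    rw [Real.rpow_pow_comm hl.le]
    apply Real.rpow_le_rpow (by positivity) _ hs.le
    have : 0 < (lam : ℝ) ^ n := by positivity
    nlinarith
  have h4 : 0 ≤ sob s v := Real.sqrt_nonneg _
  have h5 : (2 * Real.pi * (lam : ℝ) ^ n) ^ s * |co lam v n| ≤ 2 * sob s v := by
    apply le_of_sq_le_sq _ (by positivity)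
    nlinarith [sq_nonneg (sob s v)]
  exact (mul_le_mul_of_nonneg_right h3 (abs_nonneg _)).trans h5

/-- There is a unique smooth solution `u` with datum `u₀` on `[0, T₀)`, every smooth solution with this datum, on an
interval `[0, T')`, coincides with it and has `T' ≤ T₀`, and at the time `T₀` the energy escapes to infinitely high
frequencies: all Sobolev norms of positive order are unbounded, the energy `‖u(t)‖²` is between nine tenths of the
initial energy and the initial energy, and for every finite set `F` of frequencies there are times arbitrarily close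
to `T₀` at which at most one tenth of the initial energy is in `F`. -/
def EnergyEscapes (θ : ℝ) (D : K3 → ℝ) (C : (V → V) → (V → V) → V → V) (u₀ : V → V) (T₀ : ℝ) : Prop :=
  0 < T₀ ∧ ∃ (u : ℝ → V → V) (p : ℝ → V → ℝ), SolD θ D C T₀ u p ∧ u 0 = u₀ ∧
    (∀ s : ℝ, 0 < s → ∀ K : ℝ, ∃ t ∈ Ico 0 T₀, K < sob s (u t)) ∧
    (∀ t ∈ Ico 0 T₀, 9 / 10 * ip u₀ u₀ ≤ ip (u t) (u t) ∧ ip (u t) (u t) ≤ ip u₀ u₀) ∧
    (∀ (F : Finset K3) (t₁ : ℝ), t₁ < T₀ → ∃ t ∈ Ico 0 T₀, t₁ < t ∧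
      ∑ k ∈ F, ∑ i, ‖fr (fun x => u t x i) k‖ ^ 2 ≤ 1 / 10 * ip u₀ u₀) ∧
    ∀ (T' : ℝ) (v : ℝ → V → V) (q : ℝ → V → ℝ), SolD θ D C T' v q → v 0 = u₀ →
      T' ≤ T₀ ∧ ∀ t ∈ Ico 0 T', v t = u t

theorem escapes {lam : ℕ} {K : ℝ} {α β : ℕ → ℝ} {D : K3 → ℝ} (hD : Sym D) (hD0 : ∀ k, 0 ≤ D k)
    (hα : ∀ n, |α n| ≤ K) (hβ : ∀ n, |β n| ≤ K) (hlam : 2 ≤ lam) {A : ℝ} (hA : 0 < A) {T₀ : ℝ} (hT₀ : 0 < T₀)
    {X : ℕ → ℝ → ℝ} (hX : ∀ n, X n 0 = if n = 0 then A else 0)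
    (hs : ∀ T, 0 ≤ T → T < T₀ → IsSolS α β ((lam : ℝ) ^ (5 / 2 : ℝ)) (fun n => D (kap lam n)) T X ∧ Rapid T X)
    (h95 : ∀ n, ∃ t ∈ Ico 0 T₀, 95 / 100 * A ≤ X (2 * n) t) (θ : ℝ)
    (hbl : BlowsUpD θ D (cascS lam ((lam : ℝ) ^ (5 / 2 : ℝ)) α β) (fld lam fun n => if n = 0 then A else 0) T₀) :
    EnergyEscapes θ D (cascS lam ((lam : ℝ) ^ (5 / 2 : ℝ)) α β) (fld lam fun n => if n = 0 then A else 0) T₀ := by
  have hl : (1 : ℝ) < lam := by exact_mod_cast (by omega : 1 < lam)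
  have hB : (0 : ℝ) < (lam : ℝ) ^ (5 / 2 : ℝ) := Real.rpow_pos_of_pos (by linarith) _
  obtain ⟨-, u, p, hup, hu0, -, huniq⟩ := hbl
  have hX0 : (fun n => X n 0) = fun n => if n = 0 then A else 0 := funext hX
  have hu : ∀ t ∈ Ico 0 T₀, fld lam (fun n => X n t) = u t := fun t ht =>
    (huniq T₀ (fun t => fld lam fun n => X n t) _ (upS hD hα hβ hlam hB (fun T h0 h1 => hs T h0 h1) θ)
      (by show fld lam (fun n => X n 0) = _; rw [hX0])).2 t ht
  have hrs : ∀ t ∈ Ico 0 T₀, RS fun n => X n t := fun t ht s hs' => by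
    obtain ⟨C, hC⟩ := (hs t ht.1 ht.2).2 s hs'
    exact ⟨C, fun n => hC n t ⟨ht.1, le_rfl⟩⟩
  have hco : ∀ t ∈ Ico 0 T₀, ∀ n, co lam (u t) n = X n t := fun t ht n => by
    rw [← hu t ht, co_fld hlam (hrs t ht).summable_abs]
  have hip : ∀ t ∈ Ico 0 T₀, ip (u t) (u t) = ∑' n, X n t ^ 2 := fun t ht => by
    have hf : Lions.Field (fld lam fun n => X n t) := by rw [hu t ht]; exact hup.field t ht
    rw [← hu t ht, ip_fld_self hlam (hrs t ht) hf]
  have h00 : (0 : ℝ) ∈ Ico 0 T₀ := ⟨le_rfl, hT₀⟩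
  have hE0 : ip (u 0) (u 0) = A ^ 2 := by
    rw [hip 0 h00, tsum_eq_single 0 fun n hn => by rw [hX n, if_neg hn]; ring, hX 0, if_pos rfl]
  have hmono : ∀ t₁ t₂, 0 ≤ t₁ → t₁ ≤ t₂ → t₂ < T₀ → ip (u t₂) (u t₂) ≤ ip (u t₁) (u t₁) := by
    intro t₁ t₂ h0 h12 h2
    rw [hip t₁ ⟨h0, h12.trans_lt h2⟩, hip t₂ ⟨h0.trans h12, h2⟩]
    have := hs t₂ (h0.trans h12) h2
    exact energy_anti hα hβ hB (fun n => hD0 _) this.1 this.2 h0 h12 le_rfl
  have hlate := H42.LogS.late hA (fun T' h0 h1 => (hs T' h0 h1).2) h95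
  have hsq : ∀ t ∈ Ico 0 T₀, ∀ n, 95 / 100 * A ≤ X n t → 9 / 10 * A ^ 2 ≤ X n t ^ 2 := by
    intro t ht n h
    have h1 : 0 ≤ 95 / 100 * A := by positivity
    have h2 := pow_le_pow_left₀ h1 h 2
    nlinarith [sq_nonneg A]
  have hmode : ∀ t ∈ Ico 0 T₀, ∀ n, X n t ^ 2 ≤ ip (u t) (u t) := by
    intro t ht n
    have := modes_le hlam (hup.field t ht) ∅ n (Finset.notMem_empty _) (Finset.notMem_empty _)
    rw [Finset.sum_empty, zero_add, hco t ht] at this
    exact this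
  refine ⟨hT₀, u, p, hup, hu0, ?_, ?_, ?_, huniq⟩
  · intro s hs0 K'
    have hls : 1 < (lam : ℝ) ^ s := Real.one_lt_rpow hl hs0
    obtain ⟨m, hm⟩ := pow_unbounded_of_one_lt (2 * |K'| / (95 / 100 * A)) hls
    obtain ⟨t, ht, hXt⟩ := h95 m
    refine ⟨t, ht, ?_⟩
    have h1 := co_le_sob' hlam hs0 (hup.field t ht).sp (2 * m)
    rw [hco t ht] at h1
    have h2 : ((lam : ℝ) ^ s) ^ m ≤ ((lam : ℝ) ^ s) ^ (2 * m) := pow_le_pow_right₀ hls.le (by omega)
    have h3 : 0 < 95 / 100 * A := by positivity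
    rw [div_lt_iff₀ h3] at hm
    have h4 : 95 / 100 * A ≤ |X (2 * m) t| := hXt.trans (le_abs_self _)
    have h5 : ((lam : ℝ) ^ s) ^ m * (95 / 100 * A) ≤ ((lam : ℝ) ^ s) ^ (2 * m) * |X (2 * m) t| :=
      mul_le_mul h2 h4 h3.le (by positivity)
    have h6 := le_abs_self K'
    linarith
  · intro t ht
    rw [← hu0]
    refine ⟨?_, hmono 0 t le_rfl ht.1 ht.2⟩
    obtain ⟨N', hN'⟩ := hlate t ht
    obtain ⟨t', ht', hX'⟩ := hN' N' le_rfl
    have ht'0 : t' ∈ Ico 0 T₀ := ⟨ht.1.trans ht'.1.le, ht'.2⟩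
    have h1 := hsq t' ht'0 _ hX'
    have h2 := hmode t' ht'0 (2 * N')
    have h3 := hmono t t' ht.1 ht'.1.le ht'.2
    rw [hE0]
    linarith
  · intro F t₁ ht₁
    rw [← hu0, hE0]
    have hm : max t₁ 0 ∈ Ico 0 T₀ := ⟨le_max_right _ _, max_lt ht₁ hT₀⟩
    obtain ⟨N₁, hN₁⟩ := hlate _ hm
    -- a mode outside `F`
    obtain ⟨n, hn1, hn2, hn3⟩ : ∃ n, N₁ ≤ n ∧ kap lam (2 * n) ∉ F ∧ -kap lam (2 * n) ∉ F := by
      set R : ℕ := F.sup fun k => (k 0).natAbs with hR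
      have hlt : R < lam ^ (2 * max N₁ R) := by
        have h1 : max N₁ R < 2 ^ max N₁ R := Nat.lt_two_pow_self
        have h2 : 2 ^ max N₁ R ≤ 2 ^ (2 * max N₁ R) := Nat.pow_le_pow_right (by norm_num) (by omega)
        have h3 : 2 ^ (2 * max N₁ R) ≤ lam ^ (2 * max N₁ R) := Nat.pow_le_pow_left hlam _
        have h4 : R ≤ max N₁ R := le_max_right _ _
        omega
      have e1 : (kap lam (2 * max N₁ R) 0).natAbs = lam ^ (2 * max N₁ R) := by simp [kap, Int.natAbs_pow]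
      refine ⟨max N₁ R, le_max_left _ _, fun h => ?_, fun h => ?_⟩
      · have h5 : (kap lam (2 * max N₁ R) 0).natAbs ≤ R := Finset.le_sup (f := fun k : K3 => (k 0).natAbs) h
        rw [e1] at h5
        omega
      · have h5 : ((-kap lam (2 * max N₁ R)) 0).natAbs ≤ R := Finset.le_sup (f := fun k : K3 => (k 0).natAbs) h
        rw [Pi.neg_apply, Int.natAbs_neg, e1] at h5
        omega
    obtain ⟨t, ht, hXt⟩ := hN₁ n hn1
    have ht0 : t ∈ Ico 0 T₀ := ⟨(le_max_right _ _).trans ht.1.le, ht.2⟩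
    refine ⟨t, ht0, (le_max_left _ _).trans_lt ht.1, ?_⟩
    have h1 := modes_le hlam (hup.field t ht0) F (2 * n) hn2 hn3
    rw [hco t ht0] at h1
    have h2 := hsq t ht0 _ hXt
    have h3 := hmono 0 t le_rfl ht0.1 ht0.2
    rw [hE0] at h3
    linarith

end Pool.Agent.H39.Log
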