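import Pool.Agent.H39.Log.Decay

/-!
# Uniform bounds in all norms
-/

open Set Filter Topology

namespace Pool.Agent.H39.Log

open Pool.Agent.H39.Lions

variable {ι : Type*} {μ : ι → ℝ} {C : (ι → ℝ) → (ι → ℝ) → ι → ℝ}

/-- splitting a norm at the frequency `Λ` -/
theorem split_norm (hμ : Wt μ) {y : ι → ℝ} (hy : RD μ y) {δ b σ Λ : ℝ} (hΛ : 0 < Λ) (h1 : δ ≤ b) (h2 : b ≤ σ) :
    nrm μ b y ≤ Λ ^ (b - δ) * nrm μ δ y + Λ ^ (b - σ) * nrm μ σ y := by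
  have p1 : 0 ≤ Λ ^ (b - δ) * nrm μ δ y := mul_nonneg (Real.rpow_pos_of_pos hΛ _).le (nrm_nonneg _ _)
  have p2 : 0 ≤ Λ ^ (b - σ) * nrm μ σ y := mul_nonneg (Real.rpow_pos_of_pos hΛ _).le (nrm_nonneg _ _)
  have e1 : ∀ c : ℝ, (Λ ^ c) ^ 2 = Λ ^ (2 * c) := fun c => by
    rw [← Real.rpow_natCast, ← Real.rpow_mul hΛ.le]; congr 1; push_cast; ring
  have key : nrm μ b y ^ 2 ≤ (Λ ^ (b - δ) * nrm μ δ y) ^ 2 + (Λ ^ (b - σ) * nrm μ σ y) ^ 2 := by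
    rw [mul_pow, mul_pow, nrm_sq hμ, nrm_sq hμ, nrm_sq hμ, e1, e1]
    unfold nsq
    rw [← tsum_mul_left, ← tsum_mul_left,
      ← Summable.tsum_add ((hy.summable hμ δ).mul_left _) ((hy.summable hμ σ).mul_left _)]
    refine (hy.summable hμ b).tsum_le_tsum (fun i => ?_)
      (((hy.summable hμ δ).mul_left _).add ((hy.summable hμ σ).mul_left _))
    have q1 : 0 ≤ Λ ^ (2 * (b - δ)) * (μ i ^ (2 * δ) * y i ^ 2) :=
      mul_nonneg (Real.rpow_pos_of_pos hΛ _).le (mul_nonneg (hμ.rpow_pos i _).le (sq_nonneg _))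
    have q2 : 0 ≤ Λ ^ (2 * (b - σ)) * (μ i ^ (2 * σ) * y i ^ 2) :=
      mul_nonneg (Real.rpow_pos_of_pos hΛ _).le (mul_nonneg (hμ.rpow_pos i _).le (sq_nonneg _))
    by_cases h : μ i ≤ Λ
    · have h3 : μ i ^ (2 * b) ≤ Λ ^ (2 * (b - δ)) * μ i ^ (2 * δ) := by
        have h4 : μ i ^ (2 * b) = μ i ^ (2 * (b - δ)) * μ i ^ (2 * δ) := by
          rw [← Real.rpow_add (hμ.pos i)]; congr 1; ring
        rw [h4]
        apply mul_le_mul_of_nonneg_right _ (hμ.rpow_pos i _).le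
        exact Real.rpow_le_rpow (hμ.pos i).le h (by linarith)
      have h5 := mul_le_mul_of_nonneg_right h3 (sq_nonneg (y i))
      linarith
    · have h3 : μ i ^ (2 * b) ≤ Λ ^ (2 * (b - σ)) * μ i ^ (2 * σ) := by
        have h4 : μ i ^ (2 * b) = μ i ^ (2 * (b - σ)) * μ i ^ (2 * σ) := by
          rw [← Real.rpow_add (hμ.pos i)]; congr 1; ring
        rw [h4]
        apply mul_le_mul_of_nonneg_right _ (hμ.rpow_pos i _).le
        exact Real.rpow_le_rpow_of_nonpos hΛ (not_le.1 h).le (by linarith)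
      have h5 := mul_le_mul_of_nonneg_right h3 (sq_nonneg (y i))
      linarith
  apply le_of_sq_le_sq _ (by positivity)
  nlinarith [mul_nonneg p1 p2]

theorem prod_le (hμ : Wt μ) {y : ι → ℝ} (hy : RD μ y) {δ b₁ b₂ b₃ σ M Λ : ℝ} (hΛ : 0 < Λ) (hM : 0 ≤ M)
    (h1 : δ ≤ b₁) (h1' : b₁ ≤ σ) (h2 : δ ≤ b₂) (h2' : b₂ ≤ σ) (h3 : δ ≤ b₃) (h3' : b₃ ≤ σ)
    (hδ : nrm μ δ y ≤ M) (hN : nrm μ σ y ≤ Λ ^ (σ - δ) * M) :
    nrm μ b₁ y * nrm μ b₂ y * nrm μ b₃ y ≤ 8 * M ^ 3 * Λ ^ (b₁ + b₂ + b₃ - 3 * δ) := by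
  have key : ∀ b, δ ≤ b → b ≤ σ → nrm μ b y ≤ 2 * M * Λ ^ (b - δ) := by
    intro b hb hb'
    have a1 := split_norm hμ hy hΛ hb hb'
    have a2 : Λ ^ (b - δ) * nrm μ δ y ≤ Λ ^ (b - δ) * M :=
      mul_le_mul_of_nonneg_left hδ (Real.rpow_pos_of_pos hΛ _).le
    have a3 : Λ ^ (b - σ) * nrm μ σ y ≤ Λ ^ (b - σ) * (Λ ^ (σ - δ) * M) :=
      mul_le_mul_of_nonneg_left hN (Real.rpow_pos_of_pos hΛ _).le
    have a4 : Λ ^ (b - σ) * (Λ ^ (σ - δ) * M) = Λ ^ (b - δ) * M := by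
      rw [← mul_assoc, ← Real.rpow_add hΛ]; congr 2; ring
    linarith
  have k1 := key b₁ h1 h1'
  have k2 := key b₂ h2 h2'
  have k3 := key b₃ h3 h3'
  have e : 8 * M ^ 3 * Λ ^ (b₁ + b₂ + b₃ - 3 * δ) =
      (2 * M * Λ ^ (b₁ - δ)) * (2 * M * Λ ^ (b₂ - δ)) * (2 * M * Λ ^ (b₃ - δ)) := by
    have : b₁ + b₂ + b₃ - 3 * δ = (b₁ - δ) + (b₂ - δ) + (b₃ - δ) := by ring
    rw [this, Real.rpow_add hΛ, Real.rpow_add hΛ]; ring
  have hp : ∀ c : ℝ, 0 ≤ 2 * M * Λ ^ c := fun c => mul_nonneg (by positivity) (Real.rpow_pos_of_pos hΛ _).le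
  rw [e]
  exact mul_le_mul (mul_le_mul k1 k2 (nrm_nonneg _ _) (hp _)) k3 (nrm_nonneg _ _) (mul_nonneg (hp _) (hp _))

/-- **Absorption.** -/
theorem absorb (hμ : Wt μ) {δ b₁ b₂ b₃ σ M η : ℝ} (hη : 0 < η)
    (h1 : δ ≤ b₁) (h1' : b₁ ≤ σ) (h2 : δ ≤ b₂) (h2' : b₂ ≤ σ) (h3 : δ ≤ b₃) (h3' : b₃ ≤ σ)
    (hs : b₁ + b₂ + b₃ - 3 * δ < 2 * (σ - δ)) :
    ∃ C₀ : ℝ, 0 ≤ C₀ ∧ ∀ y, RD μ y → nrm μ δ y ≤ M → nrm μ b₁ y * nrm μ b₂ y * nrm μ b₃ y ≤ η * nsq μ σ y + C₀ := by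
  set M' : ℝ := max M 1 with hM'
  have hM1 : 1 ≤ M' := le_max_right _ _
  have hM0 : 0 < M' := lt_of_lt_of_le one_pos hM1
  set κ : ℝ := 2 * (σ - δ) - (b₁ + b₂ + b₃ - 3 * δ) with hκ
  have hκ0 : 0 < κ := by linarith
  have hσδ : 0 < σ - δ := by linarith
  -- the threshold
  obtain ⟨Λ₀, hΛ₀, hbig⟩ : ∃ Λ₀ : ℝ, 0 < Λ₀ ∧ 8 * M' / η ≤ Λ₀ ^ κ := by
    refine ⟨(8 * M' / η) ^ (1 / κ), Real.rpow_pos_of_pos (by positivity) _, ?_⟩
    rw [← Real.rpow_mul (by positivity), one_div, inv_mul_cancel₀ hκ0.ne', Real.rpow_one]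
  refine ⟨8 * M' ^ 3 * Λ₀ ^ (b₁ + b₂ + b₃ - 3 * δ), mul_nonneg (by positivity) (Real.rpow_pos_of_pos hΛ₀ _).le,
    fun y hy hyM => ?_⟩
  have hyM' : nrm μ δ y ≤ M' := hyM.trans (le_max_left _ _)
  have hns := nsq_nonneg hμ σ y
  by_cases hN : nrm μ σ y ≤ Λ₀ ^ (σ - δ) * M'
  · have := prod_le hμ hy hΛ₀ hM0.le h1 h1' h2 h2' h3 h3' hyM' hN
    have := mul_nonneg hη.le hns
    linarith
  · push Not at hN
    set N := nrm μ σ y with hNd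
    have hN0 : 0 < N := lt_trans (mul_pos (Real.rpow_pos_of_pos hΛ₀ _) hM0) hN
    set Λ : ℝ := (N / M') ^ (1 / (σ - δ)) with hΛd
    have hΛ : 0 < Λ := Real.rpow_pos_of_pos (by positivity) _
    have hpow : Λ ^ (σ - δ) = N / M' := by
      rw [hΛd, ← Real.rpow_mul (by positivity), one_div, inv_mul_cancel₀ hσδ.ne', Real.rpow_one]
    have hge : Λ₀ ≤ Λ := by
      by_contra hcon
      push Not at hcon
      have a1 := Real.rpow_le_rpow hΛ.le hcon.le hσδ.le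
      rw [hpow, div_le_iff₀ hM0] at a1
      linarith
    have a2 := prod_le hμ hy hΛ hM0.le h1 h1' h2 h2' h3 h3' hyM' (by rw [hpow]; field_simp; exact le_rfl)
    have a3 : Λ ^ (b₁ + b₂ + b₃ - 3 * δ) * Λ ^ κ = (N / M') ^ 2 := by
      rw [← Real.rpow_add hΛ, ← hpow, ← Real.rpow_natCast (Λ ^ (σ - δ)), ← Real.rpow_mul hΛ.le]
      congr 1
      rw [hκ]; push_cast; ring
    have a4 : 8 * M' / η ≤ Λ ^ κ := hbig.trans (Real.rpow_le_rpow hΛ₀.le hge hκ0.le)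
    have a5 : 8 * M' ^ 3 * Λ ^ (b₁ + b₂ + b₃ - 3 * δ) ≤ η * N ^ 2 := by
      have p := Real.rpow_pos_of_pos hΛ (b₁ + b₂ + b₃ - 3 * δ)
      have a6 : Λ ^ (b₁ + b₂ + b₃ - 3 * δ) * (8 * M' / η) ≤ (N / M') ^ 2 := by
        rw [← a3]
        exact mul_le_mul_of_nonneg_left a4 p.le
      rw [div_pow, le_div_iff₀ (by positivity)] at a6
      have a7 : Λ ^ (b₁ + b₂ + b₃ - 3 * δ) * (8 * M' / η) * M' ^ 2 =
          (8 * M' ^ 3 * Λ ^ (b₁ + b₂ + b₃ - 3 * δ)) / η := by field_simp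
      rw [a7, div_le_iff₀ hη] at a6
      linarith
    have a8 : nsq μ σ y = N ^ 2 := (nrm_sq hμ _ _).symm
    rw [a8]
    have a9 : 0 ≤ 8 * M' ^ 3 * Λ₀ ^ (b₁ + b₂ + b₃ - 3 * δ) := mul_nonneg (by positivity) (Real.rpow_pos_of_pos hΛ₀ _).le
    linarith

/-- the norm of small positive order from the tails -/
theorem layer (hμ : Wt μ) {F : Finset ι} {y : ι → ℝ} {A q δ : ℝ} (hA : 0 ≤ A) (hq : 0 ≤ q) (hδ : 0 ≤ δ)
    (hw : (2 : ℝ) ^ (2 * δ) * q < 1)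
    (h : ∀ n : ℕ, ∑ i ∈ F, (if μ i < 2 ^ n then 0 else 1) * y i ^ 2 ≤ A * q ^ n) :
    ∑ i ∈ F, μ i ^ (2 * δ) * y i ^ 2 ≤ A * (2 : ℝ) ^ (2 * δ) * (1 - 2 ^ (2 * δ) * q)⁻¹ := by
  set w : ℝ := (2 : ℝ) ^ (2 * δ) with hwd
  have hw0 : 0 < w := Real.rpow_pos_of_pos (by norm_num) _
  obtain ⟨N, hN⟩ : ∃ N : ℕ, ∀ i ∈ F, μ i < 2 ^ N := by
    obtain ⟨N, hN⟩ := pow_unbounded_of_one_lt (∑ i ∈ F, μ i) (one_lt_two : (1 : ℝ) < 2)
    exact ⟨N, fun i hi => lt_of_le_of_lt (Finset.single_le_sum (fun j _ => (hμ.pos j).le) hi) hN⟩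
  have h1 : ∀ i ∈ F, μ i ^ (2 * δ) * y i ^ 2 ≤
      ∑ n ∈ Finset.range N, w ^ (n + 1) * ((if μ i < 2 ^ n then 0 else 1) * y i ^ 2) := by
    intro i hi
    obtain ⟨k, hk1, hk2⟩ := exists_nat_pow_near (hμ.one i) (one_lt_two : (1 : ℝ) < 2)
    have hkN : k < N := by
      by_contra hcon
      push Not at hcon
      have := hN i hi
      have h2 : (2 : ℝ) ^ N ≤ 2 ^ k := pow_le_pow_right₀ (by norm_num) hcon
      linarith
    have h2 : μ i ^ (2 * δ) * y i ^ 2 ≤ w ^ (k + 1) * ((if μ i < 2 ^ k then 0 else 1) * y i ^ 2) := by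
      rw [if_neg (not_lt.2 hk1), one_mul]
      apply mul_le_mul_of_nonneg_right _ (sq_nonneg _)
      calc μ i ^ (2 * δ) ≤ ((2 : ℝ) ^ (k + 1)) ^ (2 * δ) := Real.rpow_le_rpow (hμ.pos i).le hk2.le (by linarith)
        _ = w ^ (k + 1) := by
            rw [hwd, ← Real.rpow_natCast, ← Real.rpow_natCast, ← Real.rpow_mul (by norm_num),
              ← Real.rpow_mul (by norm_num), mul_comm]
    refine h2.trans ?_
    refine Finset.single_le_sum (f := fun n => w ^ (n + 1) * ((if μ i < 2 ^ n then 0 else 1) * y i ^ 2))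
      (fun n _ => ?_) (Finset.mem_range.2 hkN)
    have : (0 : ℝ) ≤ if μ i < 2 ^ n then 0 else 1 := by split_ifs <;> norm_num
    positivity
  refine (Finset.sum_le_sum h1).trans ?_
  rw [Finset.sum_comm]
  have h2 : ∀ n, ∑ i ∈ F, w ^ (n + 1) * ((if μ i < 2 ^ n then 0 else 1) * y i ^ 2) ≤ A * w * (w * q) ^ n := by
    intro n
    rw [← Finset.mul_sum]
    refine (mul_le_mul_of_nonneg_left (h n) (by positivity)).trans (le_of_eq ?_)
    rw [mul_pow, pow_succ]; ring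
  refine (Finset.sum_le_sum fun n _ => h2 n).trans ?_
  rw [← Finset.mul_sum]
  apply mul_le_mul_of_nonneg_left _ (by positivity)
  rw [← tsum_geometric_of_lt_one (by positivity) hw]
  exact (summable_geometric_of_lt_one (by positivity) hw).sum_le_tsum _ fun n _ => by positivity

/-- the exponent -/
theorem exists_delta {q : ℝ} (hq : q < 1) : ∃ δ : ℝ, 0 < δ ∧ δ ≤ 1 / 4 ∧ (2 : ℝ) ^ (2 * δ) * q < 1 := by
  have h1 : ContinuousAt (fun δ : ℝ => (2 : ℝ) ^ (2 * δ) * q) 0 := by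
    have : Continuous fun δ : ℝ => (2 : ℝ) ^ (2 * δ) * q := by
      have h2 : Continuous fun δ : ℝ => (2 : ℝ) ^ (2 * δ) :=
        (Real.continuous_const_rpow (by norm_num)).comp (continuous_const.mul continuous_id)
      exact h2.mul continuous_const
    exact this.continuousAt
  have h2 : ∀ᶠ δ in 𝓝 (0 : ℝ), (2 : ℝ) ^ (2 * δ) * q < 1 := h1.eventually_lt_const (by simpa using hq)
  have h3 := (h2.filter_mono nhdsWithin_le_nhds).and (Ioc_mem_nhdsGT (show (0 : ℝ) < 1 / 4 by norm_num))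
  obtain ⟨δ, hδ, hδ'⟩ := h3.exists
  exact ⟨δ, hδ'.1, hδ'.2, hδ⟩

/-- **Uniform bounds of all norms.** -/
theorem bounds (hμ : Wt μ) (hC : Bil μ C) (hcr : Crit μ C) (hE : ∀ x, RD μ x → ∑' i, C x x i * x i = 0)
    {ν : ℝ} (hν : 0 < ν) {x0 : ι → ℝ} (h0 : RD μ x0) (j : ℕ) :
    ∃ B : ℝ, 0 ≤ B ∧ ∀ (ρ : ι → ℝ) (T : ℝ) (F : Finset ι) (x : ℝ → ι → ℝ),
      (∀ i, ν * μ i ^ (5 / 2 : ℝ) ≤ ρ i * (1 + Real.log (μ i))) → 0 ≤ T → GSolR C ρ T F x → (∀ i, |x 0 i| ≤ |x0 i|) →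
      ∀ t ∈ Icc 0 T, nrm μ (j + 1) (x t) ≤ B := by
  obtain ⟨A, q, hA, hq0, hq1, hdec⟩ := tail_decay hμ hC hcr hE hν h0
  obtain ⟨δ, hδ0, hδ1, hδw⟩ := exists_delta hq1
  obtain ⟨K, hK0, hK⟩ := hC.tame' j
  have hj0 : (0 : ℝ) ≤ j := Nat.cast_nonneg j
  set σ : ℝ := j + 9 / 4 - δ / 4 with hσ
  set M : ℝ := Real.sqrt (A * (2 : ℝ) ^ (2 * δ) * (1 - 2 ^ (2 * δ) * q)⁻¹) with hM
  set cδ : ℝ := 1 + 2 / δ with hcδ
  have hcδ0 : 0 < cδ := by positivity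
  set ν' : ℝ := ν / cδ with hν'
  have hν'0 : 0 < ν' := by positivity
  set η : ℝ := ν' / (4 * K + 1) with hη
  have hη0 : 0 < η := by positivity
  obtain ⟨C₀, hC₀, habs⟩ := absorb hμ (δ := δ) (b₁ := 5 / 4) (b₂ := j + 5 / 4) (b₃ := j + 2) (σ := σ) (M := M) hη0
    (by linarith) (by linarith) (by linarith) (by linarith) (by linarith) (by linarith) (by linarith)
  set c : ℝ := 4 * K * C₀ / ν' with hc
  have hc0 : 0 ≤ c := by positivity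
  refine ⟨Real.sqrt (nsq μ (j + 1) x0 + c), Real.sqrt_nonneg _, fun ρ T F x hρ hT hx hx0 t ht => ?_⟩
  apply Real.sqrt_le_sqrt
  -- the norm of order `δ`
  have hδn : ∀ t ∈ Icc 0 T, nrm μ δ (x t) ≤ M := by
    intro t ht
    apply Real.sqrt_le_sqrt
    rw [nsq_fin F (hx.supp t)]
    exact layer hμ hA hq0.le hδ0.le hδw fun n => hdec ρ T F x hρ hT hx hx0 t ht n
  have hf : ∀ t, nsq μ (j + 1) (x t) = ∑ i ∈ F, μ i ^ (2 * (j + 1) : ℝ) * x t i ^ 2 := fun t => nsq_fin F (hx.supp t) _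
  set f : ℝ → ℝ := fun t => ∑ i ∈ F, μ i ^ (2 * (j + 1) : ℝ) * x t i ^ 2 with hfd
  have hanti := antitone_of_deriv (T := T) (f := fun t => (f t - c) * Real.exp (ν' * t))
    (f' := fun t => ((-2 * ∑ i ∈ F, μ i ^ (2 * (j + 1) : ℝ) * (ρ i * x t i ^ 2) +
        2 * ∑ i ∈ F, μ i ^ (2 * (j + 1) : ℝ) * (C (x t) (x t) i * x t i))) * Real.exp (ν' * t) +
        (f t - c) * (Real.exp (ν' * t) * (ν' * 1)))
    (fun t ht => ?_) (fun t ht => ?_)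
  · have h1 := hanti (⟨le_rfl, hT⟩ : (0 : ℝ) ∈ Icc 0 T) ht ht.1
    simp only [mul_zero, Real.exp_zero, mul_one] at h1
    have h2 : f 0 ≤ nsq μ (j + 1) x0 := by
      have h3 : f 0 = nsq μ (j + 1) (x 0) := (hf 0).symm
      rw [h3, ← nrm_sq hμ, ← nrm_sq hμ]
      exact pow_le_pow_left₀ (nrm_nonneg _ _) (nrm_le_of_le hμ h0 hx0 _) 2
    have h3 : 1 ≤ Real.exp (ν' * t) := Real.one_le_exp (mul_nonneg hν'0.le ht.1)
    have h4 : 0 ≤ nsq μ (j + 1) x0 := nsq_nonneg hμ _ _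
    have h6 : nsq μ (j + 1) (x t) = f t := hf t
    rw [h6]
    by_contra hcon
    push Not at hcon
    have h5 : f t - c ≤ (f t - c) * Real.exp (ν' * t) := le_mul_of_one_le_right (by linarith) h3
    linarith
  · have he : HasDerivAt (fun t => Real.exp (ν' * t)) (Real.exp (ν' * t) * (ν' * 1)) t :=
      ((hasDerivAt_id t).const_mul ν').exp
    exact ((hx.deriv (fun i => μ i ^ (2 * (j + 1) : ℝ)) ht).sub_const c).mul he.hasDerivWithinAt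
  · have hr : RD μ (x t) := hx.rd t
    have e0 := Real.exp_pos (ν' * t)
    -- the nonlinear term
    have n1 : ∑ i ∈ F, μ i ^ (2 * (j + 1) : ℝ) * (C (x t) (x t) i * x t i) ≤
        2 * K * (nrm μ (5 / 4) (x t) * nrm μ (j + 5 / 4) (x t) * nrm μ (j + 2) (x t)) := by
      have a1 := (le_abs_self _).trans (cs_fin hμ F (hC.rd _ _ hr hr) hr j (j + 2) (j + 1) (by ring))
      have a2 := hK _ _ hr hr
      have a3 := mul_le_mul_of_nonneg_right a2 (nrm_nonneg (μ := μ) (j + 2) (x t))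
      linarith
    have n2 := habs (x t) hr (hδn t ht)
    -- the dissipation
    have n3 : ν' * nsq μ σ (x t) ≤ ∑ i ∈ F, μ i ^ (2 * (j + 1) : ℝ) * (ρ i * x t i ^ 2) := by
      rw [nsq_fin F (hx.supp t), Finset.mul_sum]
      refine Finset.sum_le_sum fun i _ => ?_
      have hm := hμ.pos i
      have b1 : Real.log (μ i) ≤ μ i ^ (δ / 2) / (δ / 2) := Real.log_le_rpow_div hm.le (by positivity)
      have b2 : 1 ≤ μ i ^ (δ / 2) := Real.one_le_rpow (hμ.one i) (by positivity)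
      have b3 : 1 + Real.log (μ i) ≤ cδ * μ i ^ (δ / 2) := by
        have : μ i ^ (δ / 2) / (δ / 2) = 2 / δ * μ i ^ (δ / 2) := by field_simp
        rw [hcδ]
        linarith
      have hlog : 0 < 1 + Real.log (μ i) := by
        have := Real.log_nonneg (hμ.one i)
        linarith
      have hρ0 : 0 ≤ ρ i := by
        have h1 : 0 < ρ i * (1 + Real.log (μ i)) := lt_of_lt_of_le (mul_pos hν (hμ.rpow_pos i _)) (hρ i)
        exact (pos_of_mul_pos_left h1 hlog.le).le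
      have b4 : ν * μ i ^ (5 / 2 : ℝ) ≤ ρ i * (cδ * μ i ^ (δ / 2)) :=
        (hρ i).trans (mul_le_mul_of_nonneg_left b3 hρ0)
      have b5 : ν' * μ i ^ (5 / 2 - δ / 2) ≤ ρ i := by
        have c1 : μ i ^ (5 / 2 : ℝ) = μ i ^ (5 / 2 - δ / 2) * μ i ^ (δ / 2) := by
          rw [← Real.rpow_add hm]; congr 1; ring
        rw [c1] at b4
        have c2 := Real.rpow_pos_of_pos hm (δ / 2)
        have c3 : ν * μ i ^ (5 / 2 - δ / 2) * μ i ^ (δ / 2) ≤ ρ i * cδ * μ i ^ (δ / 2) := by linarith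
        have c4 := le_of_mul_le_mul_right c3 c2
        rw [hν', div_mul_eq_mul_div, div_le_iff₀ hcδ0]
        exact c4
      have b6 : μ i ^ (2 * σ) = μ i ^ (2 * (j + 1) : ℝ) * μ i ^ (5 / 2 - δ / 2) := by
        rw [← Real.rpow_add hm]; congr 1; rw [hσ]; ring
      rw [b6]
      have b7 : 0 ≤ μ i ^ (2 * (j + 1) : ℝ) * x t i ^ 2 := mul_nonneg (hμ.rpow_pos i _).le (sq_nonneg _)
      have := mul_le_mul_of_nonneg_left b5 b7
      linarith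
    have n4 : f t ≤ nsq μ σ (x t) := by
      have h6 : f t = nsq μ (j + 1) (x t) := (hf t).symm
      rw [h6]
      exact nsq_mono hμ hr (by linarith)
    have n5 : 4 * K * (nrm μ (5 / 4) (x t) * nrm μ (j + 5 / 4) (x t) * nrm μ (j + 2) (x t)) ≤
        ν' * nsq μ σ (x t) + ν' * c := by
      have a1 := mul_le_mul_of_nonneg_left n2 (show 0 ≤ 4 * K by positivity)
      have a2 : ν' * c = 4 * K * C₀ := by rw [hc]; field_simp
      have a3 : 4 * K * η ≤ ν' := by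
        rw [hη, mul_div_assoc', div_le_iff₀ (by positivity)]
        nlinarith
      have a4 := mul_le_mul_of_nonneg_right a3 (nsq_nonneg hμ σ (x t))
      rw [a2]
      linarith
    have n6 : (-2 * ∑ i ∈ F, μ i ^ (2 * (j + 1) : ℝ) * (ρ i * x t i ^ 2) +
        2 * ∑ i ∈ F, μ i ^ (2 * (j + 1) : ℝ) * (C (x t) (x t) i * x t i)) + (f t - c) * ν' ≤ 0 := by
      have := mul_le_mul_of_nonneg_left n4 hν'0.le
      nlinarith
    calc _ = ((-2 * ∑ i ∈ F, μ i ^ (2 * (j + 1) : ℝ) * (ρ i * x t i ^ 2) +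
        2 * ∑ i ∈ F, μ i ^ (2 * (j + 1) : ℝ) * (C (x t) (x t) i * x t i)) + (f t - c) * ν') * Real.exp (ν' * t) := by ring
      _ ≤ 0 * Real.exp (ν' * t) := mul_le_mul_of_nonneg_right n6 e0.le
      _ = 0 := zero_mul _

end Pool.Agent.H39.Log
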