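import Pool.Agent.H39.Lions.Fld

/-!
# Fourier multipliers
-/

open MeasureTheory Set Filter Topology
open scoped ContDiff

namespace Pool.Agent.H39.Log

open Pool.Agent.H39.Lions
open H459R3.NS (V K3 Per cube SP pd lap ee fr S N)
open Pool.Agent.H39.PDE (fq sob ip)

/-- the Fourier multiplier with the real symbol `D` -/
noncomputable def mlt (D : K3 → ℝ) (f : V → ℝ) (x : V) : ℝ := (∑' k : K3, ((D k : ℝ) : ℂ) * fr f k * ee k x).re

/-- even symbols of polynomial growth -/
structure Sym (D : K3 → ℝ) : Prop where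
  even : ∀ k, D (-k) = D k
  growth : ∃ (r : ℕ) (A : ℝ), ∀ k, |D k| ≤ A * mk k ^ r

variable {D : K3 → ℝ}

theorem rd_mlt (hD : Sym D) {h : K3 → ℝ} (hh : RD mk h) : RD mk fun k => D k * h k := by
  obtain ⟨r, A, hr⟩ := hD.growth
  exact hh.fac wt_mk hr

theorem mlt_eq (hD : Sym D) {f : V → ℝ} (hf : SP f) : mlt D f = syn fun k => D k * ha f k := by
  have hsum : Summable fun k => ((D k : ℝ) : ℂ) * fr f k := by
    have h1 : Summable fun k => |D k * ha f k| + |D (-k) * ha f (-k)| :=
      ((rd_mlt hD (rd_ha hf)).summable_abs wt_mk).add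
        (((Equiv.neg K3).summable_iff (f := fun k => |D k * ha f k|)).2 ((rd_mlt hD (rd_ha hf)).summable_abs wt_mk))
    refine Summable.of_norm_bounded (h1.mul_left 2) fun k => ?_
    rw [norm_mul, Complex.norm_real, Real.norm_eq_abs, hD.even, abs_mul, abs_mul, ← mul_add, ← mul_assoc,
      mul_comm 2, mul_assoc]
    refine mul_le_mul_of_nonneg_left ?_ (abs_nonneg _)
    refine (Complex.norm_le_abs_re_add_abs_im _).trans ?_
    have e1 : (fr f k).re = (ha f k + ha f (-k)) / 2 := by
      unfold ha; rw [fr_neg']; simp only [Complex.star_def, Complex.conj_re, Complex.conj_im]; ring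
    have e2 : (fr f k).im = (ha f (-k) - ha f k) / 2 := by
      unfold ha; rw [fr_neg']; simp only [Complex.star_def, Complex.conj_re, Complex.conj_im]; ring
    rw [e1, e2, abs_div, abs_div, abs_two]
    have a1 := abs_add_le (ha f k) (ha f (-k))
    have a2 : |ha f (-k) - ha f k| ≤ |ha f (-k)| + |ha f k| := abs_sub _ _
    have a3 := abs_nonneg (ha f k)
    have a4 := abs_nonneg (ha f (-k))
    linarith
  funext x
  have h2 := re_S hsum (fun k => by
    rw [hD.even, fr_neg', star_mul', Complex.star_def, Complex.conj_ofReal]) x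
  unfold mlt
  unfold H459R3.NS.S at h2
  rw [h2]
  refine tsum_congr fun k => ?_
  rw [Complex.re_ofReal_mul, Complex.im_ofReal_mul]
  unfold ha
  ring

theorem sp_mlt (hD : Sym D) {f : V → ℝ} (hf : SP f) : SP (mlt D f) := by
  rw [mlt_eq hD hf]
  exact sp_syn (rd_mlt hD (rd_ha hf))

theorem ha_mlt (hD : Sym D) {f : V → ℝ} (hf : SP f) (k : K3) : ha (mlt D f) k = D k * ha f k := by
  rw [mlt_eq hD hf, ha_syn ((rd_mlt hD (rd_ha hf)).summable_abs wt_mk)]

theorem fr_mlt (hD : Sym D) {f : V → ℝ} (hf : SP f) (k : K3) : fr (mlt D f) k = ((D k : ℝ) : ℂ) * fr f k := by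
  rw [mlt_eq hD hf, fr_syn ((rd_mlt hD (rd_ha hf)).summable_abs wt_mk), ← cx_ha f k]
  apply Complex.ext
  · rw [Complex.re_ofReal_mul]; simp only [cx, hD.even]; ring
  · rw [Complex.im_ofReal_mul]; simp only [cx, hD.even]; ring

/-- the dissipation is nonnegative -/
theorem mlt_nonneg (hD : Sym D) (h0 : ∀ k, 0 ≤ D k) {f : V → ℝ} (hf : SP f) :
    0 ≤ ∫ x in cube, mlt D f x * f x := by
  rw [int_mul (sp_mlt hD hf) hf]
  refine tsum_nonneg fun k => ?_
  rw [ha_mlt hD hf, mul_assoc]
  exact mul_nonneg (h0 k) (mul_self_nonneg _)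

theorem mlt_sub (hD : Sym D) {f g : V → ℝ} (hf : SP f) (hg : SP g) (x : V) :
    mlt D (fun y => f y - g y) x = mlt D f x - mlt D g x := by
  have hs : SP fun y => f y + -1 * g y := hf.add (SP.smul hg (-1))
  have e : (fun y => f y - g y) = fun y => f y + -1 * g y := by funext y; ring
  have h1 : mlt D (fun y => f y + -1 * g y) = fun x => mlt D f x + -1 * mlt D g x := by
    refine ext_ha (sp_mlt hD hs) ((sp_mlt hD hf).add (SP.smul (sp_mlt hD hg) (-1))) fun k => ?_
    rw [ha_mlt hD hs, ha_add (sp_mlt hD hf) (SP.smul (sp_mlt hD hg) (-1)), ha_add hf (SP.smul hg (-1)), ha_smul, ha_smul,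
      ha_mlt hD hf, ha_mlt hD hg]
    ring
  rw [e, h1]
  ring

end Pool.Agent.H39.Log
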