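import Pool.Agent.H39.Log.CascS
import Pool.Agent.H39.Log.Mlt

/-!
# The cascade operators belong to the class; dissipation of the modes
-/

open MeasureTheory Set Filter Topology
open scoped ContDiff ENNReal

namespace Pool.Agent.H39.Log

open Pool.Agent.H39.Lions
open H459R3.NS (V K3 Per cube SP pd lap ee fr S N)
open Pool.Agent.H39.PDE hiding Sol Field
open Pool.Agent.K1H11.NS (Ev.SF)

variable {α β : ℕ → ℝ} {B : ℝ} {lam : ℕ} {K : ℝ}

theorem crit_cascS (hα : ∀ n, |α n| ≤ K) (hβ : ∀ n, |β n| ≤ K) (hlam : 2 ≤ lam) :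
    CritType (cascS lam ((lam : ℝ) ^ (5 / 2 : ℝ)) α β) := by
  have hK0 : 0 ≤ K := (abs_nonneg _).trans (hα 0)
  have hl : (0 : ℝ) < lam := by
    have : 0 < lam := by omega
    exact_mod_cast this
  have hB : (0 : ℝ) < (lam : ℝ) ^ (5 / 2 : ℝ) := Real.rpow_pos_of_pos hl _
  have hrs : ∀ {v w : V → V}, (∀ i, SP fun x => v x i) → (∀ i, SP fun x => w x i) →
      RS (shS α β ((lam : ℝ) ^ (5 / 2 : ℝ)) (co lam v) (co lam w)) :=
    fun hv hw => RSshS hα hβ hB (co_RS hlam hv) (co_RS hlam hw)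
  have hfield : ∀ v w, Lions.Field v → Lions.Field w → Lions.Field (cascS lam ((lam : ℝ) ^ (5 / 2 : ℝ)) α β v w) :=
    fun v w hv hw => by
      rw [cascS_eq]
      exact field_fld hlam (hrs hv.sp hw.sp)
  refine ⟨⟨hfield, fun v w hv hw => ?_, fun v v' w hv hv' hw => ?_, fun r v w hv hw => ?_,
    fun v hv => cascS_energy hα hβ hlam hB hv.sp,
    fun j => ⟨12 * K * (lam : ℝ) ^ (|(5 / 4 : ℝ)| + |(j + 5 / 4 : ℝ)| + |(-j : ℝ)|),
    fun v w hv hw => ?_⟩⟩, ⟨_, fun v w z hv hw hz => cascS_tri hα hβ hlam (by norm_num) hv.sp hw.sp hz.sp⟩⟩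
  · rw [cascS_eq, cascS_eq, shS_comm]
  · funext x i
    have e : co lam (fun x i => v x i + v' x i) = fun k => co lam v k + co lam v' k :=
      funext fun n => co_add hv.sp hv'.sp n
    have s1 := fld_summable (lam := lam) (hrs hv.sp hw.sp).summable_abs x i
    have s2 := fld_summable (lam := lam) (hrs hv'.sp hw.sp).summable_abs x i
    unfold cascS
    rw [e, ← s1.tsum_add s2]
    refine tsum_congr fun n => ?_
    rw [shS_add]
    ring
  · funext x i
    have e : co lam (fun x i => r * v x i) = fun k => r * co lam v k :=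
      funext fun n => co_smul v r n
    unfold cascS
    rw [e, ← tsum_mul_left]
    refine tsum_congr fun n => ?_
    rw [shS_smul]
    ring
  set c := cascS lam ((lam : ℝ) ^ (5 / 2 : ℝ)) α β v w with hc
  have hcF := hfield v w hv hw
  rw [← hc] at hcF
  set z : V → V := fun x i => flap j (fun y => c y i) x with hz
  have hzsp : ∀ i, SP fun x => z x i := fun i => sp_flap (hcF.sp i) j
  have hcz : ∀ p : K3 × Fin 3, cf z p = fq p.1 ^ (j : ℝ) * cf c p := fun p => ha_flap (hcF.sp p.2) j p.1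
  have hzm : ∀ i, ∫ x in cube, z x i = 0 := fun i => mean_of_ha (by
    rw [show ha (fun x => z x i) 0 = cf z (0, i) from rfl, hcz]
    have : cf c ((0 : K3), i) = 0 := ha_zero_of_mean (hcF.mean i)
    rw [this, mul_zero])
  have hmu : ∀ (a : ℝ) (p : K3 × Fin 3), mu p ^ (2 * a) * cf c p = fq p.1 ^ a * cf c p := by
    intro a p
    by_cases hk : p.1 = 0
    · have : cf c p = 0 := by
        have : cf c ((0 : K3), p.2) = 0 := ha_zero_of_mean (hcF.mean p.2)
        rw [show p = (p.1, p.2) from rfl, hk, this]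
      rw [this, mul_zero, mul_zero]
    · show mk p.1 ^ (2 * a) * _ = _
      rw [mk_rpow hk]
  have e1 : ip c z = sob j c ^ 2 := by
    rw [ip_eq hcF.sp hzsp, hcF.sob_eq, nrm_sq wt_mu]
    unfold nsq
    refine tsum_congr fun p => ?_
    rw [hcz]
    have := hmu j p
    linear_combination -(cf c p) * this
  have e2 : sob (-j) z = sob j c := by
    rw [Lions.sob_eq hzsp hzm, hcF.sob_eq]
    unfold nrm nsq
    congr 1
    refine tsum_congr fun p => ?_
    rw [hcz]
    by_cases hk : p.1 = 0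
    · have : cf c p = 0 := by
        have : cf c ((0 : K3), p.2) = 0 := ha_zero_of_mean (hcF.mean p.2)
        rw [show p = (p.1, p.2) from rfl, hk, this]
      rw [this]; ring
    · have h1 : mu p ^ (2 * -(j : ℝ)) = (fq p.1 ^ (j : ℝ))⁻¹ := by
        show mk p.1 ^ (2 * -(j : ℝ)) = _
        rw [mk_rpow hk, Real.rpow_neg (fq_nonneg _)]
      have h2 : mu p ^ (2 * (j : ℝ)) = fq p.1 ^ (j : ℝ) := mk_rpow hk j
      have h3 : fq p.1 ^ (j : ℝ) ≠ 0 := (Real.rpow_pos_of_pos (lt_of_lt_of_le one_pos (one_le_fq hk)) _).ne'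
      rw [h1, h2]
      field_simp
  have h1 := cascS_tri hα hβ hlam (a := 5 / 4) (b := j + 5 / 4) (c := -j) (by ring) hv.sp hw.sp hzsp
  rw [← hc, e1, e2] at h1
  set Q := 12 * K * (lam : ℝ) ^ (|(5 / 4 : ℝ)| + |(j + 5 / 4 : ℝ)| + |(-j : ℝ)|) with hQ
  have hQ0 : 0 ≤ Q := by positivity
  set P := sob (5 / 4) v * sob (j + 5 / 4) w with hP
  have hP0 : 0 ≤ P := mul_nonneg (Real.sqrt_nonneg _) (Real.sqrt_nonneg _)
  have hS0 : 0 ≤ sob j c := Real.sqrt_nonneg _
  have h2 : sob j c ^ 2 ≤ Q * (P * sob j c) := (le_abs_self _).trans h1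
  have h3 : sob j c ≤ Q * P := by
    rcases hS0.eq_or_lt with h | h
    · rw [← h]; positivity
    · nlinarith
  refine h3.trans (mul_le_mul_of_nonneg_left (le_add_of_nonneg_right ?_) hQ0)
  exact mul_nonneg (Real.sqrt_nonneg _) (Real.sqrt_nonneg _)


/-! ### symbols on the modes -/

theorem ha_cas (κ k : K3) : ha (cas κ) k = if k = κ then 1 else 0 := by
  classical
  have hs : Summable fun k => |(Pi.single κ (1 : ℝ) : K3 → ℝ) k| := by
    refine summable_of_ne_finset_zero (s := {κ}) fun k hk => ?_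
    rw [Finset.mem_singleton] at hk
    rw [Pi.single_eq_of_ne hk, abs_zero]
  have e : syn (Pi.single κ (1 : ℝ)) = cas κ := by
    funext x
    unfold syn
    rw [tsum_eq_single κ fun k hk => by rw [Pi.single_eq_of_ne hk, zero_mul], Pi.single_eq_same, one_mul]
  rw [← e, ha_syn hs]
  by_cases h : k = κ
  · subst h; simp
  · rw [if_neg h, Pi.single_eq_of_ne h]

theorem sp_cas (k : K3) : SP (cas k) := ⟨cas_contDiff k, cas_per k⟩

theorem cas_kap (n : ℕ) (x : V) : cas (kap lam n) x =
    Real.cos (2 * Real.pi * lam ^ n * x 0) + Real.sin (2 * Real.pi * lam ^ n * x 0) := by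
  have h := ee_kap (lam := lam) n x
  rw [H459R3.NS.ee_neg] at h
  have h1 := congrArg Complex.re h
  have h2 := congrArg Complex.im h
  unfold cas
  simp only [Complex.conj_re, Complex.conj_im, Complex.sub_re, Complex.sub_im, Complex.mul_re, Complex.mul_im,
    Complex.ofReal_re, Complex.ofReal_im, Complex.I_re, Complex.I_im] at h1 h2
  linarith

theorem cas_kap_neg (n : ℕ) (x : V) : cas (-kap lam n) x =
    Real.cos (2 * Real.pi * lam ^ n * x 0) - Real.sin (2 * Real.pi * lam ^ n * x 0) := by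
  have h := ee_kap (lam := lam) n x
  have h1 := congrArg Complex.re h
  have h2 := congrArg Complex.im h
  unfold cas
  simp only [Complex.sub_re, Complex.sub_im, Complex.mul_re, Complex.mul_im,
    Complex.ofReal_re, Complex.ofReal_im, Complex.I_re, Complex.I_im] at h1 h2
  linarith

/-- the modes are supported in `± κ_n` -/
theorem ha_psi_supp (n : ℕ) (i : Fin 3) {k : K3} (h1 : k ≠ kap lam n) (h2 : k ≠ -kap lam n) :
    ha (fun x => psi lam n x i) k = 0 := by
  have key : ∀ c d : ℝ, (fun x => psi lam n x i) = (fun x => c * cas (kap lam n) x + d * cas (-kap lam n) x) →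
      ha (fun x => psi lam n x i) k = 0 := by
    intro c d h
    rw [h, ha_add (SP.smul (sp_cas _) c) (SP.smul (sp_cas _) d), ha_smul, ha_smul, ha_cas, ha_cas, if_neg h1, if_neg h2]
    ring
  fin_cases i
  · refine key 0 0 ?_
    funext x
    simp only [Fin.zero_eta, psi_zero]
    ring
  · refine key (1 / 2) (1 / 2) ?_
    funext x
    simp only [Fin.mk_one, psi_one, cas_kap, cas_kap_neg]
    ring
  · refine key (1 / 2) (-(1 / 2)) ?_
    funext x
    simp only [Fin.reduceFinMk, psi_two, cas_kap, cas_kap_neg]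
    ring

theorem ha_psi_sym {D : K3 → ℝ} (hD : Sym D) (n : ℕ) (i : Fin 3) (k : K3) :
    D k * ha (fun x => psi lam n x i) k = D (kap lam n) * ha (fun x => psi lam n x i) k := by
  by_cases h1 : k = kap lam n
  · rw [h1]
  · by_cases h2 : k = -kap lam n
    · rw [h2, hD.even]
    · rw [ha_psi_supp n i h1 h2, mul_zero, mul_zero]

/-- growth of the rates -/
theorem sym_kap {D : K3 → ℝ} (hD : Sym D) (hlam : 2 ≤ lam) :
    ∃ C R : ℝ, 0 < R ∧ ∀ n, |D (kap lam n)| ≤ C * R ^ n := by
  obtain ⟨r, A, hA⟩ := hD.growth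
  have hl : (0 : ℝ) < lam := by
    have : 0 < lam := by omega
    exact_mod_cast this
  refine ⟨A * (2 * Real.pi) ^ r, (lam : ℝ) ^ r, by positivity, fun n => (hA _).trans (le_of_eq ?_)⟩
  have h1 : mk (kap lam n) = 2 * Real.pi * lam ^ n := by
    have h2 := mk_sq (kap_ne hlam n)
    rw [fq_kap] at h2
    have hpi := Real.pi_pos
    exact (pow_left_inj₀ (mk_pos _).le (by positivity) two_ne_zero).1 h2
  rw [h1, mul_pow, ← pow_mul, ← pow_mul, mul_comm n r]
  ring

theorem RSdis {D : K3 → ℝ} (hD : Sym D) (hlam : 2 ≤ lam) {a : ℕ → ℝ} (ha' : RS a) :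
    RS fun n => D (kap lam n) * a n := by
  obtain ⟨C, R, hR, h⟩ := sym_kap hD hlam
  intro s hs
  obtain ⟨M, hM⟩ := ha' (s * R) (by positivity)
  refine ⟨|C| * |M|, fun n => ?_⟩
  rw [abs_mul]
  calc s ^ n * (|D (kap lam n)| * |a n|) ≤ s ^ n * ((|C| * R ^ n) * |a n|) := by
        have := (h n).trans (mul_le_mul_of_nonneg_right (le_abs_self C) (by positivity : 0 ≤ R ^ n))
        gcongr
    _ = |C| * ((s * R) ^ n * |a n|) := by rw [mul_pow]; ring
    _ ≤ |C| * |M| := mul_le_mul_of_nonneg_left ((hM n).trans (le_abs_self M)) (abs_nonneg _)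

/-- the dissipation of a series of modes -/
theorem mlt_fld {D : K3 → ℝ} (hD : Sym D) (hlam : 2 ≤ lam) {a : ℕ → ℝ} (ha' : RS a) (i : Fin 3) :
    mlt D (fun y => fld lam a y i) = fun x => fld lam (fun n => D (kap lam n) * a n) x i := by
  refine ext_ha (sp_mlt hD (fld_sp hlam ha' i)) (fld_sp hlam (RSdis hD hlam ha') i) fun k => ?_
  rw [ha_mlt hD (fld_sp hlam ha' i)]
  have h1 := (ha_fld hlam ha' i k).mul_left (D k)
  have h2 := ha_fld hlam (RSdis hD hlam ha') i k
  refine h1.unique ?_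
  have e : (fun n => D k * (a n * ha (fun x => psi lam n x i) k)) = fun n =>
      D (kap lam n) * a n * ha (fun x => psi lam n x i) k := by
    funext n
    have := ha_psi_sym (lam := lam) hD n i k
    linear_combination a n * this
  rw [e]
  exact h2

/-- the coefficients of the dissipation -/
theorem co_mlt {D : K3 → ℝ} (hD : Sym D) {v : V → V} (hv : ∀ i, SP fun x => v x i) (n : ℕ) :
    co lam (fun x i => mlt D (fun y => v y i) x) n = D (kap lam n) * co lam v n := by
  rw [co_eq_fr (v := fun x i => mlt D (fun y => v y i) x) (fun i => sp_mlt hD (hv i)) n, co_eq_fr hv n]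
  have h1 : fr (fun x => mlt D (fun y => v y 1) x) (kap lam n) = _ := fr_mlt hD (hv 1) (kap lam n)
  have h2 : fr (fun x => mlt D (fun y => v y 2) x) (kap lam n) = _ := fr_mlt hD (hv 2) (kap lam n)
  rw [h1, h2, Complex.re_ofReal_mul, Complex.im_ofReal_mul]
  ring

end Pool.Agent.H39.Log
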