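import Pool.Agent.H39.Log.CvCrit

/-!
# Operators of Euler type with the critical trilinear estimate
-/

open MeasureTheory Set Filter Topology
open scoped ContDiff ENNReal

namespace Pool.Agent.H39.Log

open Pool.Agent.H39.Lions
open H459R3.NS (V K3 Per cube SP pd lap ee fr S N)
open Pool.Agent.H39.PDE (fq sob ip)

/-- operators of Euler type which obey, in addition, the critical trilinear estimate
`|⟨C(v, w), z⟩| ≤ K ‖v‖_(5/4) ‖w‖_1 ‖z‖_(1/4)` -/
structure CritType (C : (V → V) → (V → V) → V → V) : Prop extends EulerType C where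
  crit : ∃ K : ℝ, ∀ v w z, Lions.Field v → Lions.Field w → Lions.Field z →
    |ip (C v w) z| ≤ K * (sob (5 / 4) v * sob 1 w * sob (1 / 4) z)

theorem opC_pair {C : (V → V) → (V → V) → V → V} (hC : EulerType C) {x y z : K3 × Fin 3 → ℝ} (hx : RD mu x)
    (hy : RD mu y) (hz : RD mu z) : ∑' p, opC C x y p * z p = ip (C (fd (pr x)) (fd (pr y))) (fd (pr z)) := by
  have hX := field_fd hx
  have hY := field_fd hy
  have hZ := field_fd hz
  have hCX := hC.field _ _ hX hY
  unfold opC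
  rw [ip_eq hCX.sp hZ.sp, cf_fd (rd_pr hz), ← hCX.pr_cf, tsum_orth (rd_cf hCX.sp) hz]

theorem opG_pair {x y z : K3 × Fin 3 → ℝ} (hx : RD mu x) (hy : RD mu y) (hz : RD mu z) :
    ∑' p, pr (opG x y) p * z p = ip (cv (fd (pr x)) (fd (pr y))) (fd (pr z)) := by
  have hX := field_fd hx
  have hY := field_fd hy
  have hZ := field_fd hz
  have hG := sp_cv hX.sp hY.sp
  have hr : RD mu (opG x y) := opG_bil.rd x y hx hy
  rw [tsum_orth hr hz]
  have h3 := tsum_orth hz hr
  rw [ip_eq hG hZ.sp, cf_fd (rd_pr hz)]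
  have h4 : ∑' p, cf (cv (fd (pr x)) (fd (pr y))) p * pr z p = ∑' p, pr z p * opG x y p :=
    tsum_congr fun p => mul_comm _ _
  rw [h4, h3]
  exact tsum_congr fun p => mul_comm _ _

theorem opA_crit (θ : ℝ) {C : (V → V) → (V → V) → V → V} (hC : CritType C) : Crit mu (opA θ C) := by
  obtain ⟨K, hK⟩ := hC.crit
  have hCE := hC.toEulerType
  have mono : ∀ {x y z : K3 × Fin 3 → ℝ}, RD mu x → RD mu y → RD mu z →
      nrm mu (5 / 4) (pr x) * nrm mu 1 (pr y) * nrm mu (1 / 4) (pr z) ≤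
      nrm mu (5 / 4) x * nrm mu 1 y * nrm mu (1 / 4) z := fun hx hy hz =>
    mul_le_mul (mul_le_mul (nrm_pr hx _) (nrm_pr hy _) (nrm_nonneg _ _) (nrm_nonneg _ _)) (nrm_pr hz _)
      (nrm_nonneg _ _) (mul_nonneg (nrm_nonneg _ _) (nrm_nonneg _ _))
  refine ⟨|K| + |θ| * 856, by positivity, fun x y z hx hy hz => ?_⟩
  have hX := field_fd hx
  have hY := field_fd hy
  have hZ := field_fd hz
  set P := nrm mu (5 / 4) x * nrm mu 1 y * nrm mu (1 / 4) z with hP
  have hP0 : 0 ≤ P := mul_nonneg (mul_nonneg (nrm_nonneg _ _) (nrm_nonneg _ _)) (nrm_nonneg _ _)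
  have hcrit : |ip (C (fd (pr x)) (fd (pr y))) (fd (pr z))| ≤ |K| * P := by
    have h1 := hK _ _ _ hX hY hZ
    rw [hX.sob_eq, hY.sob_eq, hZ.sob_eq, cf_fd (rd_pr hx), cf_fd (rd_pr hy), cf_fd (rd_pr hz)] at h1
    have h0 : 0 ≤ nrm mu (5 / 4) (pr x) * nrm mu 1 (pr y) * nrm mu (1 / 4) (pr z) :=
      mul_nonneg (mul_nonneg (nrm_nonneg _ _) (nrm_nonneg _ _)) (nrm_nonneg _ _)
    exact (h1.trans (mul_le_mul_of_nonneg_right (le_abs_self K) h0)).trans
      (mul_le_mul_of_nonneg_left (mono hx hy hz) (abs_nonneg K))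
  have hcv := cv_crit hX.sp hY.sp hZ.sp
  rw [cf_fd (rd_pr hx), cf_fd (rd_pr hy), cf_fd (rd_pr hz)] at hcv
  have hcv1 : |ip (cv (fd (pr x)) (fd (pr y))) (fd (pr z))| ≤ 856 * P := by
    have := mono hx hy hz
    have := hcv.1
    linarith
  have hcv2 : |ip (cv (fd (pr y)) (fd (pr x))) (fd (pr z))| ≤ 856 * P := by
    have := mono hx hy hz
    have := hcv.2
    linarith
  have split : ∀ {x y : K3 × Fin 3 → ℝ}, RD mu x → RD mu y → ∑' p, opA θ C x y p * z p =
      ip (C (fd (pr x)) (fd (pr y))) (fd (pr z)) + (-θ) * ip (cv (fd (pr x)) (fd (pr y))) (fd (pr z)) := by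
    intro x y hx hy
    have s1 := summable_mul ((opC_bil hCE).rd x y hx hy) hz
    have s2 := summable_mul (rd_pr (opG_bil.rd x y hx hy)) hz
    have e : ∀ p, opA θ C x y p * z p = opC C x y p * z p + (-θ) * (pr (opG x y) p * z p) := fun p => by
      unfold opA; ring
    simp_rw [e]
    rw [s1.tsum_add (s2.mul_left _), tsum_mul_left, opC_pair hCE hx hy hz, opG_pair hx hy hz]
  have fin : ∀ {a b : ℝ}, |a| ≤ |K| * P → |b| ≤ 856 * P → |a + (-θ) * b| ≤ (|K| + |θ| * 856) * P := by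
    intro a b h1 h2
    refine (abs_add_le _ _).trans ?_
    rw [abs_mul, abs_neg]
    have := mul_le_mul_of_nonneg_left h2 (abs_nonneg θ)
    linarith
  constructor
  · rw [split hx hy]
    exact fin hcrit hcv1
  · rw [split hy hx, hCE.symm _ _ hY hX]
    exact fin hcrit hcv2

end Pool.Agent.H39.Log
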