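import Pool.Agent.H39.Log.Defs
import Pool.Agent.H39.Log.ClsD
import Pool.Agent.H39.Lions.Blow

/-!
# The cascade operator with variable coefficients
-/

open MeasureTheory Set Filter Topology
open scoped ContDiff ENNReal

namespace Pool.Agent.H39.Log

open Pool.Agent.H39.Lions
open H459R3.NS (V K3 Per cube SP pd lap ee fr S N)
open Pool.Agent.H39.PDE hiding Sol Field
open Pool.Agent.K1H11.NS (Ev.SF)

variable {α β : ℕ → ℝ} {B : ℝ}

/-- what shell `n` gains from shell `n - 1` (symmetric bilinear form of `gainS`) -/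
noncomputable def gainBS (α β : ℕ → ℝ) (B : ℝ) (x y : ℕ → ℝ) : ℕ → ℝ
  | 0 => 0
  | m + 1 => B ^ m * (α m * (x m * y m) + β m * ((x m * y (m + 1) + y m * x (m + 1)) / 2))

/-- The symmetric bilinear form of the dyadic nonlinearity. -/
noncomputable def shS (α β : ℕ → ℝ) (B : ℝ) (x y : ℕ → ℝ) (n : ℕ) : ℝ :=
  gainBS α β B x y n -
    B ^ n * (α n * ((x n * y (n + 1) + y n * x (n + 1)) / 2) + β n * (x (n + 1) * y (n + 1)))

/-- **The cascade operator** `C(v, w) = ∑ₙ c_n(⟨v, ψ⟩, ⟨w, ψ⟩) ψ_n`. -/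
noncomputable def cascS (lam : ℕ) (B : ℝ) (α β : ℕ → ℝ) (v w : V → V) (x : V) : V := fun i =>
  ∑' n, shS α β B (co lam v) (co lam w) n * psi lam n x i

theorem cascS_eq {lam : ℕ} (B : ℝ) (α β : ℕ → ℝ) (v w : V → V) :
    cascS lam B α β v w = fld lam (shS α β B (co lam v) (co lam w)) := rfl

theorem gainBS_self (x : ℕ → ℝ) (n : ℕ) : gainBS α β B x x n = gainS α β B x n := by
  cases n with
  | zero => rfl
  | succ m => simp only [gainBS, gainS]; ring

theorem shS_self (x : ℕ → ℝ) (n : ℕ) :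
    shS α β B x x n = gainS α β B x n - B ^ n * x (n + 1) * (α n * x n + β n * x (n + 1)) := by
  rw [shS, gainBS_self]
  ring

theorem shS_comm (x y : ℕ → ℝ) : shS α β B x y = shS α β B y x := by
  funext n
  cases n with
  | zero => simp only [shS, gainBS]; ring
  | succ m => simp only [shS, gainBS]; ring

theorem shS_add (x x' y : ℕ → ℝ) (n : ℕ) :
    shS α β B (fun k => x k + x' k) y n = shS α β B x y n + shS α β B x' y n := by
  cases n with
  | zero => simp only [shS, gainBS]; ring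
  | succ m => simp only [shS, gainBS]; ring

theorem shS_smul (a : ℝ) (x y : ℕ → ℝ) (n : ℕ) :
    shS α β B (fun k => a * x k) y n = a * shS α β B x y n := by
  cases n with
  | zero => simp only [shS, gainBS]; ring
  | succ m => simp only [shS, gainBS]; ring

/-- products with bounded sequences -/
theorem bmul {K : ℝ} {c : ℕ → ℝ} (hc : ∀ n, |c n| ≤ K) {x : ℕ → ℝ} (hx : RS x) : RS fun n => c n * x n :=
  (hx.mul_bdd hc).congr fun n => mul_comm _ _

theorem RSshS {K : ℝ} (hα : ∀ n, |α n| ≤ K) (hβ : ∀ n, |β n| ≤ K) (hB : 0 < B) {x y : ℕ → ℝ} (hx : RS x) (hy : RS y) :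
    RS (shS α β B x y) := by
  obtain ⟨L, hL⟩ := hy.bdd
  obtain ⟨L', hL'⟩ := hx.bdd
  have hmix : RS fun n => (x n * y (n + 1) + y n * x (n + 1)) / 2 :=
    (((hx.mul_bdd (y := fun m => y (m + 1)) fun n => hL _).add
      (hy.mul_bdd (y := fun m => x (m + 1)) fun n => hL' _)).const_mul (1 / 2)).congr fun n => by ring
  have h1 : RS (gainBS α β B x y) :=
    RS.pred (x := fun m => B ^ m * (α m * (x m * y m) + β m * ((x m * y (m + 1) + y m * x (m + 1)) / 2)))
      (RS.pow_mul ((bmul hα (hx.mul_bdd hL)).add (bmul hβ hmix)) hB) fun _ => rfl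
  have h2 : RS fun n => B ^ n * (α n * ((x n * y (n + 1) + y n * x (n + 1)) / 2) + β n * (x (n + 1) * y (n + 1))) :=
    RS.pow_mul ((bmul hα hmix).add (bmul hβ ((hx.succ).mul_bdd (y := fun m => y (m + 1)) fun n => hL _))) hB
  exact (h1.add (h2.const_mul (-1))).congr fun n => by unfold shS; ring

/-- the coefficients of the cascade operator -/
theorem co_cascS {K : ℝ} (hα : ∀ n, |α n| ≤ K) (hβ : ∀ n, |β n| ≤ K) {lam : ℕ} (hlam : 2 ≤ lam) (hB : 0 < B)
    {v w : V → V} (hv : ∀ i, SP fun x => v x i) (hw : ∀ i, SP fun x => w x i) (n : ℕ) :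
    co lam (cascS lam B α β v w) n = shS α β B (co lam v) (co lam w) n :=
  co_series hlam (RSshS hα hβ hB (co_RS hlam hv) (co_RS hlam hw)).summable_abs n

/-- a telescoping sum -/
theorem hasSum_shS_self {K : ℝ} (hα : ∀ n, |α n| ≤ K) (hβ : ∀ n, |β n| ≤ K) (hB : 0 < B) {x : ℕ → ℝ} (hx : RS x) :
    HasSum (fun n => shS α β B x x n * x n) 0 := by
  obtain ⟨L, hL⟩ := hx.bdd
  have hs : Summable fun n => shS α β B x x n * x n :=
    ((RSshS hα hβ hB hx hx).mul_bdd hL).summable_abs.of_abs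
  set f : ℕ → ℝ := fun n => B ^ n * x n * x (n + 1) * (α n * x n + β n * x (n + 1)) with hf
  have hpart : ∀ M, ∑ n ∈ Finset.range (M + 1), shS α β B x x n * x n = -f M := by
    intro M
    induction M with
    | zero =>
      rw [Finset.sum_range_one, shS_self]
      simp only [gainS, hf]
      ring
    | succ M ih =>
      rw [Finset.sum_range_succ, ih, shS_self]
      simp only [gainS, hf]
      ring
  have hft : Tendsto (fun M => -f M) atTop (𝓝 0) := by
    have h3 : RS fun n => B ^ n * (x n * (x (n + 1) * (α n * x n + β n * x (n + 1)))) := by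
      refine RS.pow_mul ?_ hB
      have hL0 : 0 ≤ L := (abs_nonneg _).trans (hL 0)
      have hK0 : 0 ≤ K := (abs_nonneg _).trans (hα 0)
      refine hx.mul_bdd (y := fun n => x (n + 1) * (α n * x n + β n * x (n + 1)))
        (K := L * (K * L + K * L)) fun n => ?_
      rw [abs_mul]
      refine mul_le_mul (hL _) ((abs_add_le _ _).trans (add_le_add ?_ ?_)) (abs_nonneg _) hL0
      · rw [abs_mul]; exact mul_le_mul (hα n) (hL n) (abs_nonneg _) hK0
      · rw [abs_mul]; exact mul_le_mul (hβ n) (hL _) (abs_nonneg _) hK0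
    have h2 : RS f := h3.congr fun n => by simp only [hf]; ring
    have h5 := (tendsto_zero_iff_abs_tendsto_zero _).2 h2.summable_abs.tendsto_atTop_zero
    simpa using h5.neg
  have h6 := hs.hasSum.tendsto_sum_nat
  rw [← tendsto_add_atTop_iff_nat 1] at h6
  simp_rw [hpart] at h6
  have := tendsto_nhds_unique h6 hft
  rw [← this]
  exact hs.hasSum

/-- **Energy cancellation.** -/
theorem cascS_energy {K : ℝ} (hα : ∀ n, |α n| ≤ K) (hβ : ∀ n, |β n| ≤ K) {lam : ℕ} (hlam : 2 ≤ lam) (hB : 0 < B)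
    {v : V → V} (hv : ∀ i, SP fun x => v x i) : ip (cascS lam B α β v v) v = 0 := by
  have hrs := co_RS hlam hv
  rw [cascS_eq]
  exact (ip_fld ((RSshS hα hβ hB hrs hrs).summable_abs) hv).unique (hasSum_shS_self hα hβ hB hrs)

/-- **The scale-critical trilinear estimates.** -/
theorem cascS_tri {K : ℝ} (hα : ∀ n, |α n| ≤ K) (hβ : ∀ n, |β n| ≤ K) {lam : ℕ} (hlam : 2 ≤ lam) {a b c : ℝ} (habc : a + b + c = 5 / 2) {v w z : V → V}
    (hv : ∀ i, SP fun x => v x i) (hw : ∀ i, SP fun x => w x i) (hz : ∀ i, SP fun x => z x i) :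
    |ip (cascS lam ((lam : ℝ) ^ (5 / 2 : ℝ)) α β v w) z| ≤
      12 * K * (lam : ℝ) ^ (|a| + |b| + |c|) * (sob a v * sob b w * sob c z) := by
  have hK0 : 0 ≤ K := (abs_nonneg _).trans (hα 0)
  have hl1 : (1 : ℝ) ≤ lam := by
    have : 1 ≤ lam := by omega
    exact_mod_cast this
  have hl : (0 : ℝ) < lam := by linarith
  have hpi := Real.pi_gt_three
  set B : ℝ := (lam : ℝ) ^ (5 / 2 : ℝ) with hB
  have hB0 : 0 < B := Real.rpow_pos_of_pos hl _
  set f : ℕ → ℝ := fun n => 2 * Real.pi * (lam : ℝ) ^ n with hf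
  have hf0 : ∀ n, 0 < f n := fun n => by simp only [hf]; positivity
  set x := co lam v with hx
  set y := co lam w with hy
  set u := co lam z with hu
  set x' : ℕ → ℝ := fun n => f n ^ a * |x n| with hx'
  set y' : ℕ → ℝ := fun n => f n ^ b * |y n| with hy'
  set u' : ℕ → ℝ := fun n => f n ^ c * |u n| with hu'
  have x0 : ∀ n, 0 ≤ x' n := fun n => mul_nonneg (Real.rpow_nonneg (hf0 n).le _) (abs_nonneg _)
  have y0 : ∀ n, 0 ≤ y' n := fun n => mul_nonneg (Real.rpow_nonneg (hf0 n).le _) (abs_nonneg _)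
  have u0 : ∀ n, 0 ≤ u' n := fun n => mul_nonneg (Real.rpow_nonneg (hf0 n).le _) (abs_nonneg _)
  set L : ℝ := (lam : ℝ) ^ (|a| + |b| + |c|) with hL
  have hL0 : 0 < L := Real.rpow_pos_of_pos hl _
  -- one term
  have shiftf : ∀ (s : ℝ) (n i : ℕ), i ≤ 1 → f n ^ s ≤ (lam : ℝ) ^ |s| * f (n + i) ^ s := by
    intro s n i hi
    have h1 : 1 ≤ (lam : ℝ) ^ |s| := Real.one_le_rpow hl1 (abs_nonneg _)
    interval_cases i
    · rw [add_zero]
      exact le_mul_of_one_le_left (Real.rpow_nonneg (hf0 n).le _) h1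
    · have e1 : f (n + 1) = lam * f n := by simp only [hf, pow_succ]; ring
      rw [e1, Real.mul_rpow hl.le (hf0 n).le, ← mul_assoc, ← Real.rpow_add hl]
      refine le_mul_of_one_le_left (Real.rpow_nonneg (hf0 n).le _) (Real.one_le_rpow hl1 ?_)
      have := neg_abs_le s
      linarith
  have hterm : ∀ (n i j k : ℕ), i ≤ 1 → j ≤ 1 → k ≤ 1 →
      B ^ n * (|x (n + i)| * |y (n + j)| * |u (n + k)|) ≤ L * (x' (n + i) * y' (n + j) * u' (n + k)) := by
    intro n i j k hi hj hk
    have h1 : B ^ n ≤ f n ^ a * f n ^ b * f n ^ c := by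
      rw [← Real.rpow_add (hf0 n), ← Real.rpow_add (hf0 n), habc, hB, Real.rpow_pow_comm hl.le]
      apply Real.rpow_le_rpow (by positivity) _ (by norm_num)
      simp only [hf]
      have : 0 < (lam : ℝ) ^ n := by positivity
      nlinarith
    have h2 : f n ^ a * f n ^ b * f n ^ c ≤
        ((lam : ℝ) ^ |a| * f (n + i) ^ a) * ((lam : ℝ) ^ |b| * f (n + j) ^ b) * ((lam : ℝ) ^ |c| * f (n + k) ^ c) := by
      have q : ∀ (s : ℝ) (m : ℕ), 0 ≤ f m ^ s := fun s m => Real.rpow_nonneg (hf0 m).le _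
      have q' : ∀ s : ℝ, 0 ≤ (lam : ℝ) ^ s := fun s => Real.rpow_nonneg hl.le _
      exact mul_le_mul (mul_le_mul (shiftf a n i hi) (shiftf b n j hj) (q _ _) (mul_nonneg (q' _) (q _ _)))
        (shiftf c n k hk) (q _ _) (mul_nonneg (mul_nonneg (q' _) (q _ _)) (mul_nonneg (q' _) (q _ _)))
    calc B ^ n * (|x (n + i)| * |y (n + j)| * |u (n + k)|) ≤
        (((lam : ℝ) ^ |a| * f (n + i) ^ a) * ((lam : ℝ) ^ |b| * f (n + j) ^ b) * ((lam : ℝ) ^ |c| * f (n + k) ^ c)) *
          (|x (n + i)| * |y (n + j)| * |u (n + k)|) := by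
          apply mul_le_mul_of_nonneg_right (h1.trans h2) (by positivity)
      _ = L * (x' (n + i) * y' (n + j) * u' (n + k)) := by
          rw [hL, Real.rpow_add hl, Real.rpow_add hl]
          simp only [hx', hy', hu']
          ring
  -- the sums
  set P := sob a v * sob b w * sob c z with hP
  have hts : ∀ (i j k M : ℕ), ∑ m ∈ Finset.range M, x' (m + i) * y' (m + j) * u' (m + k) ≤ 3 * P :=
    fun i j k M => tri_sum x0 y0 u0 (Real.sqrt_nonneg _) (Real.sqrt_nonneg _) (Real.sqrt_nonneg _)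
      (sum_co_le hlam a hv) (sum_co_le hlam b hw) (sum_co_le hlam c hz) i j k M
  have hS : ∀ (i j k M : ℕ), i ≤ 1 → j ≤ 1 → k ≤ 1 →
      ∑ n ∈ Finset.range M, B ^ n * (|x (n + i)| * |y (n + j)| * |u (n + k)|) ≤ L * (3 * P) := by
    intro i j k M hi hj hk
    refine (Finset.sum_le_sum fun n _ => hterm n i j k hi hj hk).trans ?_
    rw [← Finset.mul_sum]
    exact mul_le_mul_of_nonneg_left (hts i j k M) hL0.le
  -- gains
  have hgain : ∀ M, ∑ n ∈ Finset.range M, |gainBS α β B x y n * u n| ≤ (K + K) * (L * (3 * P)) := by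
    intro M
    cases M with
    | zero =>
      simp only [Finset.range_zero, Finset.sum_empty]
      have : 0 ≤ P := mul_nonneg (mul_nonneg (Real.sqrt_nonneg _) (Real.sqrt_nonneg _)) (Real.sqrt_nonneg _)
      positivity
    | succ M =>
      rw [Finset.sum_range_succ']
      have e0 : |gainBS α β B x y 0 * u 0| = 0 := by simp [gainBS]
      rw [e0, add_zero]
      have h1 : ∀ m ∈ Finset.range M, |gainBS α β B x y (m + 1) * u (m + 1)| ≤
          K * (B ^ m * (|x (m + 0)| * |y (m + 0)| * |u (m + 1)|)) +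
          K / 2 * (B ^ m * (|x (m + 0)| * |y (m + 1)| * |u (m + 1)|)) +
          K / 2 * (B ^ m * (|x (m + 1)| * |y (m + 0)| * |u (m + 1)|)) := by
        intro m _
        simp only [gainBS, add_zero]
        have hBm : 0 < B ^ m := by positivity
        rw [abs_mul, abs_mul, abs_of_pos hBm]
        have h2 : |α m * (x m * y m) + β m * ((x m * y (m + 1) + y m * x (m + 1)) / 2)| ≤
            K * (|x m| * |y m|) + K * ((|x m| * |y (m + 1)| + |y m| * |x (m + 1)|) / 2) := by
          refine (abs_add_le _ _).trans (add_le_add (by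
            rw [abs_mul, abs_mul]
            exact mul_le_mul_of_nonneg_right (hα m) (by positivity)) ?_)
          rw [abs_mul, abs_div, abs_two]
          refine mul_le_mul (hβ m) ?_ (by positivity) hK0
          refine div_le_div_of_nonneg_right ?_ (by norm_num)
          refine (abs_add_le _ _).trans (le_of_eq ?_)
          rw [abs_mul, abs_mul]
        calc B ^ m * |α m * (x m * y m) + β m * ((x m * y (m + 1) + y m * x (m + 1)) / 2)| * |u (m + 1)| ≤
            B ^ m * (K * (|x m| * |y m|) + K * ((|x m| * |y (m + 1)| + |y m| * |x (m + 1)|) / 2)) *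
              |u (m + 1)| := by gcongr
          _ = _ := by ring
      refine (Finset.sum_le_sum h1).trans ?_
      rw [Finset.sum_add_distrib, Finset.sum_add_distrib, ← Finset.mul_sum, ← Finset.mul_sum, ← Finset.mul_sum]
      have b1 := mul_le_mul_of_nonneg_left (hS 0 0 1 M (by norm_num) (by norm_num) le_rfl) hK0
      have b2 := mul_le_mul_of_nonneg_left (hS 0 1 1 M (by norm_num) le_rfl le_rfl) (by positivity : 0 ≤ K / 2)
      have b3 := mul_le_mul_of_nonneg_left (hS 1 0 1 M le_rfl (by norm_num) le_rfl) (by positivity : 0 ≤ K / 2)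
      linarith
  -- losses
  have hloss : ∀ M, ∑ n ∈ Finset.range M, |B ^ n * (α n * ((x n * y (n + 1) + y n * x (n + 1)) / 2) +
      β n * (x (n + 1) * y (n + 1))) * u n| ≤ (K + K) * (L * (3 * P)) := by
    intro M
    have h1 : ∀ m ∈ Finset.range M, |B ^ m * (α m * ((x m * y (m + 1) + y m * x (m + 1)) / 2) +
        β m * (x (m + 1) * y (m + 1))) * u m| ≤
        K / 2 * (B ^ m * (|x (m + 0)| * |y (m + 1)| * |u (m + 0)|)) +
        K / 2 * (B ^ m * (|x (m + 1)| * |y (m + 0)| * |u (m + 0)|)) +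
        K * (B ^ m * (|x (m + 1)| * |y (m + 1)| * |u (m + 0)|)) := by
      intro m _
      simp only [add_zero]
      have hBm : 0 < B ^ m := by positivity
      rw [abs_mul, abs_mul, abs_of_pos hBm]
      have h2 : |α m * ((x m * y (m + 1) + y m * x (m + 1)) / 2) + β m * (x (m + 1) * y (m + 1))| ≤
          K * ((|x m| * |y (m + 1)| + |y m| * |x (m + 1)|) / 2) + K * (|x (m + 1)| * |y (m + 1)|) := by
        refine (abs_add_le _ _).trans (add_le_add ?_ (by
          rw [abs_mul, abs_mul]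
          exact mul_le_mul_of_nonneg_right (hβ m) (by positivity)))
        rw [abs_mul, abs_div, abs_two]
        refine mul_le_mul (hα m) ?_ (by positivity) hK0
        refine div_le_div_of_nonneg_right ?_ (by norm_num)
        refine (abs_add_le _ _).trans (le_of_eq ?_)
        rw [abs_mul, abs_mul]
      calc B ^ m * |α m * ((x m * y (m + 1) + y m * x (m + 1)) / 2) + β m * (x (m + 1) * y (m + 1))| * |u m| ≤
          B ^ m * (K * ((|x m| * |y (m + 1)| + |y m| * |x (m + 1)|) / 2) +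
            K * (|x (m + 1)| * |y (m + 1)|)) * |u m| := by gcongr
        _ = _ := by ring
    refine (Finset.sum_le_sum h1).trans ?_
    rw [Finset.sum_add_distrib, Finset.sum_add_distrib, ← Finset.mul_sum, ← Finset.mul_sum, ← Finset.mul_sum]
    have b1 := mul_le_mul_of_nonneg_left (hS 0 1 0 M (by norm_num) le_rfl (by norm_num)) (by positivity : 0 ≤ K / 2)
    have b2 := mul_le_mul_of_nonneg_left (hS 1 0 0 M le_rfl (by norm_num) (by norm_num)) (by positivity : 0 ≤ K / 2)
    have b3 := mul_le_mul_of_nonneg_left (hS 1 1 0 M le_rfl le_rfl (by norm_num)) hK0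
    linarith
  -- the pairing
  have hrs : RS (shS α β B x y) := RSshS hα hβ hB0 (co_RS hlam hv) (co_RS hlam hw)
  have hsum := (ip_fld (lam := lam) hrs.summable_abs hz).tendsto_sum_nat
  rw [cascS_eq]
  refine le_of_tendsto hsum.abs (Eventually.of_forall fun M => ?_)
  have h9 : ∀ n ∈ Finset.range M, |shS α β B x y n * u n| ≤ |gainBS α β B x y n * u n| +
      |B ^ n * (α n * ((x n * y (n + 1) + y n * x (n + 1)) / 2) + β n * (x (n + 1) * y (n + 1))) * u n| := by
    intro n _
    unfold shS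
    rw [sub_mul]
    exact _root_.abs_sub _ _
  calc |∑ n ∈ Finset.range M, shS α β B x y n * u n| ≤ ∑ n ∈ Finset.range M, |shS α β B x y n * u n| :=
        Finset.abs_sum_le_sum_abs _ _
    _ ≤ _ := Finset.sum_le_sum h9
    _ = _ := Finset.sum_add_distrib
    _ ≤ (K + K) * (L * (3 * P)) + (K + K) * (L * (3 * P)) := add_le_add (hgain M) (hloss M)
    _ = 12 * K * L * P := by ring

end Pool.Agent.H39.Log
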