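import Pool.Agent.H39.Lions.Ladder

/-!
# The energy flux through a frequency
-/

open Set Filter Topology

namespace Pool.Agent.H39.Log

open Pool.Agent.H39.Lions

variable {ι : Type*} {μ : ι → ℝ} {C : (ι → ℝ) → (ι → ℝ) → ι → ℝ}

/-- the critical trilinear estimate -/
def Crit (μ : ι → ℝ) (C : (ι → ℝ) → (ι → ℝ) → ι → ℝ) : Prop :=
  ∃ K : ℝ, 0 ≤ K ∧ ∀ x y z, RD μ x → RD μ y → RD μ z →
    |∑' i, C x y i * z i| ≤ K * (nrm μ (5 / 4) x * nrm μ 1 y * nrm μ (1 / 4) z) ∧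
    |∑' i, C y x i * z i| ≤ K * (nrm μ (5 / 4) x * nrm μ 1 y * nrm μ (1 / 4) z)

/-- low frequencies -/
noncomputable def lo (μ : ι → ℝ) (Λ : ℝ) (y : ι → ℝ) (i : ι) : ℝ := if μ i < Λ then y i else 0

/-- high frequencies -/
noncomputable def hi (μ : ι → ℝ) (Λ : ℝ) (y : ι → ℝ) (i : ι) : ℝ := if μ i < Λ then 0 else y i

theorem lo_add_hi (Λ : ℝ) (y : ι → ℝ) : (fun i => lo μ Λ y i + hi μ Λ y i) = y := by
  funext i
  unfold lo hi
  split_ifs <;> simp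

theorem abs_lo_le (Λ : ℝ) (y : ι → ℝ) (i : ι) : |lo μ Λ y i| ≤ |y i| := by
  unfold lo
  split_ifs
  · exact le_rfl
  · rw [abs_zero]; exact abs_nonneg _

theorem abs_hi_le (Λ : ℝ) (y : ι → ℝ) (i : ι) : |hi μ Λ y i| ≤ |y i| := by
  unfold hi
  split_ifs
  · rw [abs_zero]; exact abs_nonneg _
  · exact le_rfl

/-- the weight of the flux -/
noncomputable def om (r : ℝ) : ℝ := if r < 1 then r ^ (1 / 2 : ℝ) else r ^ (-(1 / 2) : ℝ)

theorem om_pos {r : ℝ} (hr : 0 < r) : 0 < om r := by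
  unfold om
  split_ifs <;> exact Real.rpow_pos_of_pos hr _

/-- the dissipation near the frequency `Λ` -/
noncomputable def Qf (μ : ι → ℝ) (F : Finset ι) (Λ : ℝ) (y : ι → ℝ) : ℝ :=
  ∑ i ∈ F, om (μ i / Λ) * (μ i ^ (5 / 2 : ℝ) * y i ^ 2)

theorem pw_low {m Λ b : ℝ} (hm : 0 < m) (hΛ : 0 < Λ) (h : m < Λ) (hb : 1 / 2 ≤ b) :
    m ^ (b + 5 / 2) ≤ Λ ^ b * (om (m / Λ) * m ^ (5 / 2 : ℝ)) := by
  have hr : m / Λ < 1 := (div_lt_one hΛ).2 h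
  have hr0 : 0 < m / Λ := by positivity
  have e : m ^ (b + 5 / 2) = Λ ^ b * ((m / Λ) ^ b * m ^ (5 / 2 : ℝ)) := by
    rw [Real.rpow_add hm, Real.div_rpow hm.le hΛ.le]
    have := (Real.rpow_pos_of_pos hΛ b).ne'
    field_simp
  rw [e]
  have h1 : (m / Λ) ^ b ≤ om (m / Λ) := by
    unfold om
    rw [if_pos hr]
    exact Real.rpow_le_rpow_of_exponent_ge hr0 hr.le hb
  gcongr

theorem pw_high {m Λ b : ℝ} (hΛ : 0 < Λ) (h : Λ ≤ m) (hb : b ≤ -(1 / 2)) :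
    m ^ (b + 5 / 2) ≤ Λ ^ b * (om (m / Λ) * m ^ (5 / 2 : ℝ)) := by
  have hm : 0 < m := hΛ.trans_le h
  have hr : 1 ≤ m / Λ := (one_le_div hΛ).2 h
  have e : m ^ (b + 5 / 2) = Λ ^ b * ((m / Λ) ^ b * m ^ (5 / 2 : ℝ)) := by
    rw [Real.rpow_add hm, Real.div_rpow hm.le hΛ.le]
    have := (Real.rpow_pos_of_pos hΛ b).ne'
    field_simp
  rw [e]
  have h1 : (m / Λ) ^ b ≤ om (m / Λ) := by
    unfold om
    rw [if_neg (not_lt.2 hr)]
    exact Real.rpow_le_rpow_of_exponent_le hr hb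
  gcongr

variable {F : Finset ι} {y : ι → ℝ} {Λ : ℝ}

theorem Qf_nonneg (hμ : Wt μ) (hΛ : 0 < Λ) : 0 ≤ Qf μ F Λ y :=
  Finset.sum_nonneg fun i _ => mul_nonneg (om_pos (div_pos (hμ.pos i) hΛ)).le
    (mul_nonneg (hμ.rpow_pos i _).le (sq_nonneg _))

/-- comparison of norms with the weighted dissipation -/
theorem nrm_le_Qf (hμ : Wt μ) (hΛ : 0 < Λ) {z : ι → ℝ} (hz : ∀ i, i ∉ F → z i = 0) (hzy : ∀ i, |z i| ≤ |y i|) {a : ℝ}
    (h : ∀ i, z i ≠ 0 → μ i ^ (2 * a) ≤ Λ ^ (2 * a - 5 / 2) * (om (μ i / Λ) * μ i ^ (5 / 2 : ℝ))) :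
    nrm μ a z ≤ Λ ^ (a - 5 / 4) * Real.sqrt (Qf μ F Λ y) := by
  have h1 : nsq μ a z ≤ Λ ^ (2 * a - 5 / 2) * Qf μ F Λ y := by
    rw [nsq_fin F hz]
    unfold Qf
    rw [Finset.mul_sum]
    refine Finset.sum_le_sum fun i _ => ?_
    have hp : 0 ≤ om (μ i / Λ) := (om_pos (div_pos (hμ.pos i) hΛ)).le
    have hp2 := (hμ.rpow_pos i (5 / 2)).le
    have hp3 := (Real.rpow_pos_of_pos hΛ (2 * a - 5 / 2)).le
    by_cases hzi : z i = 0
    · rw [hzi]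
      have : 0 ≤ Λ ^ (2 * a - 5 / 2) * (om (μ i / Λ) * (μ i ^ (5 / 2 : ℝ) * y i ^ 2)) := by positivity
      simpa using this
    · calc μ i ^ (2 * a) * z i ^ 2 ≤ (Λ ^ (2 * a - 5 / 2) * (om (μ i / Λ) * μ i ^ (5 / 2 : ℝ))) * y i ^ 2 :=
            mul_le_mul (h i hzi) (sq_le_sq.2 (hzy i)) (sq_nonneg _) (by positivity)
        _ = _ := by ring
  unfold nrm
  refine (Real.sqrt_le_sqrt h1).trans (le_of_eq ?_)
  rw [Real.sqrt_mul (Real.rpow_pos_of_pos hΛ _).le, Real.sqrt_eq_rpow (Λ ^ (2 * a - 5 / 2)), ← Real.rpow_mul hΛ.le]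
  congr 2
  ring

/-- **The flux estimate.** -/
theorem flux (hμ : Wt μ) (hC : Bil μ C) (hcr : Crit μ C) (hE : ∀ x, RD μ x → ∑' i, C x x i * x i = 0) :
    ∃ K : ℝ, 0 ≤ K ∧ ∀ (F : Finset ι) (y : ι → ℝ) (Λ : ℝ), (∀ i, i ∉ F → y i = 0) → 0 < Λ →
      |∑ i ∈ F, C y y i * hi μ Λ y i| ≤ K * (Λ ^ (-(5 / 4) : ℝ) * nrm μ (5 / 4) (lo μ Λ y)) * Qf μ F Λ y := by
  obtain ⟨K1, hK10, hK1⟩ := hC.tame' 1
  obtain ⟨K2, hK20, hK2⟩ := hcr
  refine ⟨2 * K1 + 2 * K2, by positivity, fun F y Λ hy hΛ => ?_⟩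
  set l := lo μ Λ y with hl
  set h := hi μ Λ y with hh
  have hl0 : ∀ i, i ∉ F → l i = 0 := fun i hi' => by
    have := abs_lo_le (μ := μ) Λ y i
    rw [hy i hi', abs_zero] at this
    exact abs_nonpos_iff.1 this
  have hh0 : ∀ i, i ∉ F → h i = 0 := fun i hi' => by
    have := abs_hi_le (μ := μ) Λ y i
    rw [hy i hi', abs_zero] at this
    exact abs_nonpos_iff.1 this
  have hlr : RD μ l := RD.fin F hl0
  have hhr : RD μ h := RD.fin F hh0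
  have hyr : RD μ y := RD.fin F hy
  have hye : y = fun i => l i + h i := (lo_add_hi Λ y).symm
  have hexp : C y y = fun i => (C l l i + C h l i) + (C l h i + C h h i) := by
    have e1 : C y y = fun i => C l y i + C h y i := by
      conv_lhs => rw [show C y y = C (fun i => l i + h i) y from by rw [← hye]]
      exact hC.add_left l h y hlr hhr hyr
    have e2 : C l y = fun i => C l l i + C l h i := by
      conv_lhs => rw [hye]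
      exact hC.add_right l l h hlr hlr hhr
    have e3 : C h y = fun i => C h l i + C h h i := by
      conv_lhs => rw [hye]
      exact hC.add_right h l h hhr hlr hhr
    rw [e1, e2, e3]
    funext i; ring
  have ht : ∀ f : ι → ℝ, ∑' i, f i * h i = ∑ i ∈ F, f i * h i := fun f =>
    tsum_eq_sum fun i hi' => by rw [hh0 i hi', mul_zero]
  set Q := Qf μ F Λ y with hQ
  have hQ0 : 0 ≤ Q := Qf_nonneg hμ hΛ
  have hsq : Real.sqrt Q * Real.sqrt Q = Q := Real.mul_self_sqrt hQ0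
  -- the norms
  have nl : nrm μ (9 / 4) l ≤ Λ ^ (9 / 4 - 5 / 4 : ℝ) * Real.sqrt Q :=
    nrm_le_Qf hμ hΛ hl0 (fun i => abs_lo_le Λ y i) fun i hi' => by
      have hlt : μ i < Λ := by
        by_contra hcon
        exact hi' (if_neg hcon)
      have := pw_low (hμ.pos i) hΛ hlt (b := 2) (by norm_num)
      norm_num at this ⊢
      exact this
  have nh : ∀ a : ℝ, 2 * a - 5 / 2 ≤ -(1 / 2) → nrm μ a h ≤ Λ ^ (a - 5 / 4) * Real.sqrt Q := fun a ha =>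
    nrm_le_Qf hμ hΛ hh0 (fun i => abs_hi_le Λ y i) fun i hi' => by
      have hge : Λ ≤ μ i := by
        by_contra hcon
        exact hi' (if_pos (not_le.1 hcon))
      have := pw_high hΛ hge (b := 2 * a - 5 / 2) ha
      rwa [sub_add_cancel] at this
  have nh1 := nh (-1) (by norm_num)
  have nh2 := nh 1 (by norm_num)
  have nh3 := nh (1 / 4) (by norm_num)
  set n1 := nrm μ (5 / 4) l with hn1
  have pn1 : 0 ≤ n1 := nrm_nonneg _ _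
  -- the first term
  have t1 : |∑ i ∈ F, C l l i * h i| ≤ 2 * K1 * (Λ ^ (-(5 / 4) : ℝ) * n1) * Q := by
    have a1 := cs_fin hμ F (hC.rd l l hlr hlr) hhr 1 (-1) 0 (by norm_num)
    have e1 : ∑ i ∈ F, μ i ^ (2 * 0 : ℝ) * (C l l i * h i) = ∑ i ∈ F, C l l i * h i :=
      Finset.sum_congr rfl fun i _ => by rw [mul_zero, Real.rpow_zero, one_mul]
    rw [e1] at a1
    have a2 := hK1 l l hlr hlr
    rw [Nat.cast_one, show (1 + 5 / 4 : ℝ) = 9 / 4 by norm_num] at a2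
    have a3 : nrm μ 1 (C l l) ≤ 2 * K1 * n1 * (Λ ^ (9 / 4 - 5 / 4 : ℝ) * Real.sqrt Q) := by
      have := mul_le_mul_of_nonneg_left nl pn1
      have := mul_le_mul_of_nonneg_left this hK10
      linarith
    refine a1.trans ((mul_le_mul a3 nh1 (nrm_nonneg _ _) (by positivity)).trans (le_of_eq ?_))
    have e2 : Λ ^ (9 / 4 - 5 / 4 : ℝ) * Λ ^ (-1 - 5 / 4 : ℝ) = Λ ^ (-(5 / 4) : ℝ) := by
      rw [← Real.rpow_add hΛ]; norm_num
    calc 2 * K1 * n1 * (Λ ^ (9 / 4 - 5 / 4 : ℝ) * Real.sqrt Q) * (Λ ^ (-1 - 5 / 4 : ℝ) * Real.sqrt Q) =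
        2 * K1 * n1 * (Λ ^ (9 / 4 - 5 / 4 : ℝ) * Λ ^ (-1 - 5 / 4 : ℝ)) * (Real.sqrt Q * Real.sqrt Q) := by ring
      _ = _ := by rw [e2, hsq]; ring
  have t2 : K2 * (n1 * nrm μ 1 h * nrm μ (1 / 4) h) ≤ K2 * (Λ ^ (-(5 / 4) : ℝ) * n1) * Q := by
    have a1 : nrm μ 1 h * nrm μ (1 / 4) h ≤ (Λ ^ (1 - 5 / 4 : ℝ) * Real.sqrt Q) * (Λ ^ (1 / 4 - 5 / 4 : ℝ) * Real.sqrt Q) :=
      mul_le_mul nh2 nh3 (nrm_nonneg _ _) (by positivity)
    have e2 : Λ ^ (1 - 5 / 4 : ℝ) * Λ ^ (1 / 4 - 5 / 4 : ℝ) = Λ ^ (-(5 / 4) : ℝ) := by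
      rw [← Real.rpow_add hΛ]; norm_num
    calc K2 * (n1 * nrm μ 1 h * nrm μ (1 / 4) h) = K2 * n1 * (nrm μ 1 h * nrm μ (1 / 4) h) := by ring
      _ ≤ K2 * n1 * ((Λ ^ (1 - 5 / 4 : ℝ) * Real.sqrt Q) * (Λ ^ (1 / 4 - 5 / 4 : ℝ) * Real.sqrt Q)) :=
          mul_le_mul_of_nonneg_left a1 (by positivity)
      _ = K2 * n1 * (Λ ^ (1 - 5 / 4 : ℝ) * Λ ^ (1 / 4 - 5 / 4 : ℝ)) * (Real.sqrt Q * Real.sqrt Q) := by ring
      _ = _ := by rw [e2, hsq]; ring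
  obtain ⟨b1, b2⟩ := hK2 l h h hlr hhr hhr
  rw [ht] at b1 b2
  have b3 := hE h hhr
  rw [ht] at b3
  have e4 : ∑ i ∈ F, C y y i * h i = ∑ i ∈ F, C l l i * h i + ∑ i ∈ F, C h l i * h i + ∑ i ∈ F, C l h i * h i := by
    rw [hexp]
    have : ∀ i, ((C l l i + C h l i) + (C l h i + C h h i)) * h i =
        C l l i * h i + C h l i * h i + C l h i * h i + C h h i * h i := fun i => by ring
    simp only [this]
    rw [Finset.sum_add_distrib, Finset.sum_add_distrib, Finset.sum_add_distrib, b3, add_zero]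
  rw [e4]
  have c1 := abs_add_le (∑ i ∈ F, C l l i * h i + ∑ i ∈ F, C h l i * h i) (∑ i ∈ F, C l h i * h i)
  have c2 := abs_add_le (∑ i ∈ F, C l l i * h i) (∑ i ∈ F, C h l i * h i)
  have c3 : (2 * K1 + 2 * K2) * (Λ ^ (-(5 / 4) : ℝ) * n1) * Q =
      2 * K1 * (Λ ^ (-(5 / 4) : ℝ) * n1) * Q + 2 * (K2 * (Λ ^ (-(5 / 4) : ℝ) * n1) * Q) := by ring
  rw [c3]
  linarith

end Pool.Agent.H39.Log
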