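import Pool.Agent.H39.Lions.Cls
import Pool.Agent.H39.Log.Flux

/-!
# The critical trilinear estimate for the convection term
-/

open MeasureTheory Set Filter Topology
open scoped ContDiff ENNReal

namespace Pool.Agent.H39.Log

open Pool.Agent.H39.Lions
open H459R3.NS (V K3 Per cube SP pd lap ee fr S N)
open Pool.Agent.H39.PDE (fq sob ip)

/-- change of variables -/
theorem tri_swap (F G H : K3 → ℝ≥0∞) :
    ∑' r, (∑' p, F p * G (r - p)) * H r = ∑' q, G q * ∑' p, F (-p) * H (q - p) := by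
  calc ∑' r, (∑' p, F p * G (r - p)) * H r = ∑' r, ∑' p, F p * G (r - p) * H r :=
        tsum_congr fun r => ENNReal.tsum_mul_right.symm
    _ = ∑' p, ∑' r, F p * G (r - p) * H r := ENNReal.tsum_comm
    _ = ∑' p, ∑' q, F p * G q * H (q + p) := by
        refine tsum_congr fun p => ?_
        rw [← (Equiv.addRight p).tsum_eq fun r => F p * G (r - p) * H r]
        refine tsum_congr fun q => ?_
        simp only [Equiv.coe_addRight, add_sub_cancel_right]
    _ = ∑' q, ∑' p, F p * G q * H (q + p) := ENNReal.tsum_comm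
    _ = _ := by
        refine tsum_congr fun q => ?_
        rw [← ENNReal.tsum_mul_left, ← (Equiv.neg K3).tsum_eq fun p => F p * G q * H (q + p)]
        refine tsum_congr fun p => ?_
        simp only [Equiv.neg_apply, ← sub_eq_add_neg]
        ring

/-- the trilinear inequality -/
theorem tri_ineq (α β γ : K3 → ℝ≥0∞) :
    (∑' r, (∑' p, (W (-(5 / 4)) p * α p) * β (r - p)) * (W (-(1 / 4)) r * γ r)) ^ 2 ≤
      424 * ((∑' p, α p ^ 2) * (∑' p, β p ^ 2) * ∑' p, γ p ^ 2) := by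
  rw [tri_swap (fun p => W (-(5 / 4)) p * α p) β fun r => W (-(1 / 4)) r * γ r]
  refine (cs_sq _ _).trans ?_
  have h1 := conv_ineq (fun p => α (-p)) γ
  have h2 : ∀ q, ∑' p, (W (-(5 / 4)) (-p) * α (-p)) * (W (-(1 / 4)) (q - p) * γ (q - p)) =
      ∑' p, (W (-(5 / 4)) p * α (-p)) * (W (-(1 / 4)) (q - p) * γ (q - p)) := fun q => by
    refine tsum_congr fun p => ?_
    unfold W
    rw [mk_neg]
  simp_rw [h2]
  have h3 : ∑' p, α (-p) ^ 2 = ∑' p, α p ^ 2 := (Equiv.neg K3).tsum_eq fun p => α p ^ 2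
  rw [h3] at h1
  refine (mul_le_mul' le_rfl h1).trans (le_of_eq ?_)
  ring

/-- comparison of the weights -/
theorem W_max (p q : K3) : W (-1) p * W (-(1 / 4)) q ≤ W (-(5 / 4)) p + W (-(5 / 4)) q := by
  have hp := mk_pos p
  have hq := mk_pos q
  rcases le_total (mk p) (mk q) with h | h
  · refine le_trans ?_ le_self_add
    rw [show (-(5 / 4) : ℝ) = -1 + -(1 / 4) by norm_num, ← W_mul]
    refine mul_le_mul' le_rfl ?_
    unfold W
    apply ENNReal.ofReal_le_ofReal
    exact Real.rpow_le_rpow_of_nonpos hp h (by norm_num)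
  · refine le_trans ?_ le_add_self
    rw [show W (-(5 / 4)) q = W (-1) q * W (-(1 / 4)) q by rw [W_mul]; norm_num]
    refine mul_le_mul' ?_ le_rfl
    unfold W
    apply ENNReal.ofReal_le_ofReal
    exact Real.rpow_le_rpow_of_nonpos hq h (by norm_num)

/-- the inner product in terms of Fourier coefficients -/
theorem ip_le {f z : V → V} (hf : ∀ i, SP fun x => f x i) (hz : ∀ i, SP fun x => z x i) {T : K3 → ℝ≥0∞}
    (hT : ∀ i k, ENNReal.ofReal ‖fr (fun x => f x i) k‖ ≤ T k) :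
    ENNReal.ofReal |ip f z| ≤ 4 * ∑' k, T k * ENNReal.ofReal (am z k) := by
  rw [ip_eq hf hz]
  have hs := summable_mul (rd_cf hf) (rd_cf hz)
  have h1 : |∑' p, cf f p * cf z p| ≤ ∑' p, |cf f p * cf z p| := by
    have := norm_tsum_le_tsum_norm hs.norm
    simpa only [Real.norm_eq_abs] using this
  refine (ENNReal.ofReal_le_ofReal h1).trans ?_
  rw [ENNReal.ofReal_tsum_of_nonneg (fun _ => abs_nonneg _) hs.abs]
  have h2 : ∀ p : K3 × Fin 3, ENNReal.ofReal |cf f p * cf z p| ≤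
      4 * (T p.1 * ENNReal.ofReal ‖fr (fun x => z x p.2) p.1‖) := by
    intro p
    rw [abs_mul, ENNReal.ofReal_mul (abs_nonneg _)]
    have a1 : ENNReal.ofReal |cf f p| ≤ 2 * T p.1 := by
      refine (ENNReal.ofReal_le_ofReal (abs_ha_le _ _)).trans ?_
      rw [ENNReal.ofReal_mul (by norm_num), ENNReal.ofReal_ofNat]
      exact mul_le_mul' le_rfl (hT p.2 p.1)
    have a2 : ENNReal.ofReal |cf z p| ≤ 2 * ENNReal.ofReal ‖fr (fun x => z x p.2) p.1‖ := by
      refine (ENNReal.ofReal_le_ofReal (abs_ha_le _ _)).trans ?_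
      rw [ENNReal.ofReal_mul (by norm_num), ENNReal.ofReal_ofNat]
    refine (mul_le_mul' a1 a2).trans (le_of_eq ?_)
    ring
  refine (ENNReal.tsum_le_tsum h2).trans ?_
  rw [ENNReal.tsum_mul_left]
  refine mul_le_mul' le_rfl ?_
  rw [ENNReal.tsum_prod']
  refine ENNReal.tsum_le_tsum fun k => ?_
  rw [tsum_fintype]
  show ∑ b, T k * ENNReal.ofReal ‖fr (fun x => z x b) k‖ ≤ T k * ENNReal.ofReal (am z k)
  rw [← Finset.mul_sum]
  refine mul_le_mul' le_rfl (le_of_eq ?_)
  unfold am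
  exact (ENNReal.ofReal_sum_of_nonneg fun _ _ => norm_nonneg _).symm

theorem toReal_aux {a b c r K : ℝ} {X : ℝ≥0∞} (hK : 0 ≤ K) (ha : 0 ≤ a) (hb : 0 ≤ b) (hc : 0 ≤ c)
    (h1 : ENNReal.ofReal |r| ≤ X) (h2 : X ≤ ENNReal.ofReal (K * (a * b * c))) : |r| ≤ K * (a * b * c) :=
  (ENNReal.ofReal_le_ofReal_iff (by positivity)).1 (h1.trans h2)

theorem tri_nrm {v w z : V → V} (hv : ∀ i, SP fun x => v x i) (hw : ∀ i, SP fun x => w x i)
    (hz : ∀ i, SP fun x => z x i) (a b c : ℝ) :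
    ∑' r, (∑' p, (W (-(5 / 4)) p * (W a p * ENNReal.ofReal (am v p))) * (W b (r - p) * ENNReal.ofReal (am w (r - p)))) *
      (W (-(1 / 4)) r * (W c r * ENNReal.ofReal (am z r))) ≤
      ENNReal.ofReal (107 * (nrm mu a (cf v) * nrm mu b (cf w) * nrm mu c (cf z))) := by
  have h1 := tri_ineq (fun p => W a p * ENNReal.ofReal (am v p)) (fun p => W b p * ENNReal.ofReal (am w p))
    fun p => W c p * ENNReal.ofReal (am z p)
  have h2 := mul_le_mul' (mul_le_mul' (E_le hv a) (E_le hw b)) (E_le hz c)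
  have h3 := h1.trans (mul_le_mul' (le_refl (424 : ℝ≥0∞)) h2)
  set x := nrm mu a (cf v) with hx
  set y := nrm mu b (cf w) with hy
  set u := nrm mu c (cf z) with hu
  have x0 : 0 ≤ x := nrm_nonneg _ _
  have y0 : 0 ≤ y := nrm_nonneg _ _
  have u0 : 0 ≤ u := nrm_nonneg _ _
  rw [← nrm_sq wt_mu, ← nrm_sq wt_mu, ← nrm_sq wt_mu, ← hx, ← hy, ← hu] at h3
  have h4 : 424 * ((3 * ENNReal.ofReal (x ^ 2)) * (3 * ENNReal.ofReal (y ^ 2)) * (3 * ENNReal.ofReal (u ^ 2))) ≤
      (ENNReal.ofReal (107 * (x * y * u))) ^ 2 := by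
    have e : 424 * ((3 * ENNReal.ofReal (x ^ 2)) * (3 * ENNReal.ofReal (y ^ 2)) * (3 * ENNReal.ofReal (u ^ 2))) =
        ENNReal.ofReal (11448 * (x ^ 2 * y ^ 2 * u ^ 2)) := by
      rw [ENNReal.ofReal_mul (by norm_num), ENNReal.ofReal_mul (by positivity), ENNReal.ofReal_mul (by positivity),
        ENNReal.ofReal_ofNat]
      ring
    rw [e, ← ENNReal.ofReal_pow (by positivity)]
    apply ENNReal.ofReal_le_ofReal
    have : 0 ≤ x ^ 2 * y ^ 2 * u ^ 2 := by positivity
    nlinarith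
  have h5 := h3.trans h4
  exact (ENNReal.pow_le_pow_left_iff (two_ne_zero)).1 h5

/-- **The critical trilinear estimates for the convection term.** -/
theorem cv_crit {v w z : V → V} (hv : ∀ i, SP fun x => v x i) (hw : ∀ i, SP fun x => w x i)
    (hz : ∀ i, SP fun x => z x i) :
    |ip (cv v w) z| ≤ 428 * (nrm mu (5 / 4) (cf v) * nrm mu 1 (cf w) * nrm mu (1 / 4) (cf z)) ∧
    |ip (cv w v) z| ≤ 856 * (nrm mu (5 / 4) (cf v) * nrm mu 1 (cf w) * nrm mu (1 / 4) (cf z)) := by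
  have x0 := nrm_nonneg (μ := mu) (5 / 4) (cf v)
  have y0 := nrm_nonneg (μ := mu) 1 (cf w)
  have u0 := nrm_nonneg (μ := mu) (1 / 4) (cf z)
  have e1 : ∀ (c : ℝ) (v : V → V) p, W (-c) p * (W c p * ENNReal.ofReal (am v p)) = ENNReal.ofReal (am v p) := by
    intro c v p
    rw [← mul_assoc, W_mul, neg_add_cancel, W_zero, one_mul]
  constructor
  · refine toReal_aux (X := 4 * ENNReal.ofReal (107 * (nrm mu (5 / 4) (cf v) * nrm mu 1 (cf w) *
      nrm mu (1 / 4) (cf z)))) (by norm_num) x0 y0 u0 ((ip_le (sp_cv hv hw) hz (fr_cv hv hw)).trans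
      (mul_le_mul' le_rfl ?_)) (le_of_eq ?_)
    · have h := tri_nrm hv hw hz (5 / 4) 1 (1 / 4)
      simp_rw [e1] at h
      exact h
    · rw [show (4 : ℝ≥0∞) = ENNReal.ofReal 4 by norm_num, ← ENNReal.ofReal_mul (by norm_num)]
      congr 1; ring
  · refine toReal_aux (X := 4 * (ENNReal.ofReal (107 * (nrm mu 1 (cf w) * nrm mu (5 / 4) (cf v) *
      nrm mu (1 / 4) (cf z))) + ENNReal.ofReal (107 * (nrm mu (5 / 4) (cf v) * nrm mu 1 (cf w) *
      nrm mu (1 / 4) (cf z))))) (by norm_num) x0 y0 u0 ((ip_le (sp_cv hw hv) hz (fr_cv hw hv)).trans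
      (mul_le_mul' le_rfl ?_)) (le_of_eq ?_)
    · have h1 := tri_nrm hw hv hz 1 (5 / 4) (1 / 4)
      have h2 := tri_nrm hv hw hz (5 / 4) 1 (1 / 4)
      refine le_trans ?_ (add_le_add h1 h2)
      rw [← ENNReal.tsum_add]
      refine ENNReal.tsum_le_tsum fun k => ?_
      rw [← add_mul, e1 (1 / 4) z k]
      refine mul_le_mul' ?_ le_rfl
      have h3 : ∑' p, (W (-(5 / 4)) p * (W (5 / 4) p * ENNReal.ofReal (am v p))) *
          (W 1 (k - p) * ENNReal.ofReal (am w (k - p))) =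
          ∑' p, (W (-(5 / 4)) (k - p) * (W (5 / 4) (k - p) * ENNReal.ofReal (am v (k - p)))) *
          (W 1 p * ENNReal.ofReal (am w p)) := by
        rw [← (Equiv.subLeft k).tsum_eq]
        refine tsum_congr fun p => ?_
        simp only [Equiv.subLeft_apply, sub_sub_cancel]
      rw [h3, ← ENNReal.tsum_add]
      refine ENNReal.tsum_le_tsum fun p => ?_
      have a1 : ENNReal.ofReal (am w p) = W (-1) p * (W 1 p * ENNReal.ofReal (am w p)) := (e1 1 w p).symm
      have a2 : W 1 (k - p) * ENNReal.ofReal (am v (k - p)) =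
          W (-(1 / 4)) (k - p) * (W (5 / 4) (k - p) * ENNReal.ofReal (am v (k - p))) := by
        rw [← mul_assoc, W_mul]; norm_num
      rw [a2]
      calc ENNReal.ofReal (am w p) * (W (-(1 / 4)) (k - p) * (W (5 / 4) (k - p) * ENNReal.ofReal (am v (k - p)))) =
          (W (-1) p * W (-(1 / 4)) (k - p)) * ((W 1 p * ENNReal.ofReal (am w p)) *
            (W (5 / 4) (k - p) * ENNReal.ofReal (am v (k - p)))) := by
            conv_lhs => rw [a1]
            ring
        _ ≤ (W (-(5 / 4)) p + W (-(5 / 4)) (k - p)) * ((W 1 p * ENNReal.ofReal (am w p)) *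
            (W (5 / 4) (k - p) * ENNReal.ofReal (am v (k - p)))) := mul_le_mul' (W_max p (k - p)) le_rfl
        _ = _ := by ring
    · rw [show (4 : ℝ≥0∞) = ENNReal.ofReal 4 by norm_num, ← ENNReal.ofReal_add (by positivity) (by positivity),
        ← ENNReal.ofReal_mul (by norm_num)]
      congr 1; ring

end Pool.Agent.H39.Log
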