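import Pool.Agent.H39.Log.Tail

/-!
# Uniform decay of the tail energies: logarithmically supercritical dissipation
-/

open Set Filter Topology

namespace Pool.Agent.H39.Log

open Pool.Agent.H39.Lions

variable {ι : Type*} {μ : ι → ℝ} {C : (ι → ℝ) → (ι → ℝ) → ι → ℝ}

theorem two_rpow_le : (2 : ℝ) ^ (-(5 / 2) : ℝ) ≤ 1 / 5 := by
  rw [Real.rpow_neg (by norm_num), ← one_div]
  apply one_div_le_one_div_of_le (by norm_num)
  have h1 : ((2 : ℝ) ^ (5 / 2 : ℝ)) ^ 2 = 32 := by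
    rw [← Real.rpow_natCast, ← Real.rpow_mul (by norm_num)]; norm_num
  have h2 : 0 < (2 : ℝ) ^ (5 / 2 : ℝ) := Real.rpow_pos_of_pos (by norm_num) _
  nlinarith

/-- the low frequency norm through the energy -/
theorem low_sq (hμ : Wt μ) (F : Finset ι) {y : ι → ℝ} (hy : ∀ i, i ∉ F → y i = 0) {Λ : ℝ} (hΛ : 0 < Λ) :
    (Λ ^ (-(5 / 4) : ℝ) * nrm μ (5 / 4) (lo μ Λ y)) ^ 2 =
      ∑ i ∈ F, (if μ i < Λ then (μ i / Λ) ^ (5 / 2 : ℝ) else 0) * y i ^ 2 := by
  have hl0 : ∀ i, i ∉ F → lo μ Λ y i = 0 := fun i hi' => by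
    have := abs_lo_le (μ := μ) Λ y i
    rw [hy i hi', abs_zero] at this
    exact abs_nonpos_iff.1 this
  rw [mul_pow, nrm_sq hμ, nsq_fin F hl0, Finset.mul_sum]
  refine Finset.sum_congr rfl fun i _ => ?_
  unfold lo
  split_ifs with h
  · have e1 : (Λ ^ (-(5 / 4) : ℝ)) ^ 2 = (Λ ^ (5 / 2 : ℝ))⁻¹ := by
      rw [← Real.rpow_natCast, ← Real.rpow_mul hΛ.le, ← Real.rpow_neg hΛ.le]; norm_num
    rw [e1, Real.div_rpow (hμ.pos i).le hΛ.le, show (2 * (5 / 4) : ℝ) = 5 / 2 by norm_num]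
    ring
  · ring

/-- **Uniform decay of the tail energies.** -/
theorem tail_decay (hμ : Wt μ) (hC : Bil μ C) (hcr : Crit μ C) (hE : ∀ x, RD μ x → ∑' i, C x x i * x i = 0)
    {ν : ℝ} (hν : 0 < ν) {x0 : ι → ℝ} (h0 : RD μ x0) :
    ∃ A q : ℝ, 0 ≤ A ∧ 0 < q ∧ q < 1 ∧ ∀ (ρ : ι → ℝ) (T : ℝ) (F : Finset ι) (x : ℝ → ι → ℝ),
      (∀ i, ν * μ i ^ (5 / 2 : ℝ) ≤ ρ i * (1 + Real.log (μ i))) → 0 ≤ T → GSolR C ρ T F x → (∀ i, |x 0 i| ≤ |x0 i|) →
      ∀ t ∈ Icc 0 T, ∀ n : ℕ, ∑ i ∈ F, (if μ i < 2 ^ n then 0 else 1) * x t i ^ 2 ≤ A * q ^ n := by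
  obtain ⟨K, hK0, hK⟩ := flux hμ hC hcr hE
  set E : ℝ := nsq μ 0 x0 with hEd
  have hE0 : 0 ≤ E := nsq_nonneg hμ _ _
  set N1 : ℝ := nsq μ 1 x0 with hN1
  have hN10 : 0 ≤ N1 := nsq_nonneg hμ _ _
  set G : ℝ := 10 * K / ν with hG
  have hG0 : 0 ≤ G := by positivity
  set D : ℝ := N1 + Real.sqrt (5 * N1) with hD
  have hD0 : 0 ≤ D := by positivity
  obtain ⟨A, q, hq0, hq1, hdec⟩ := seq_decay (E := E) (cb := Real.sqrt E) (κ := kc⁻¹) (G := G) (H := 10 * kc⁻¹ * G)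
    (D := D) hE0 (Real.sqrt_nonneg _) (inv_pos.2 kc_pos) hG0 (by have := kc_pos; positivity) hD0
  refine ⟨A ^ 2, q ^ 2, sq_nonneg _, by positivity, pow_lt_one₀ hq0.le hq1 (by norm_num), fun ρ T F x hρ hT hx hx0 t ht n => ?_⟩
  obtain ⟨R, hR⟩ := hx.exists_diss hT
  have hTm : T ∈ Icc 0 T := ⟨hT, le_rfl⟩
  have h0m : (0 : ℝ) ∈ Icc 0 T := ⟨le_rfl, hT⟩
  have hlog : ∀ i, 0 < 1 + Real.log (μ i) := fun i => by
    have := Real.log_nonneg (hμ.one i)
    linarith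
  have hρ0 : ∀ i, 0 ≤ ρ i := fun i => by
    have h1 : 0 < ρ i * (1 + Real.log (μ i)) := lt_of_lt_of_le (mul_pos hν (hμ.rpow_pos i _)) (hρ i)
    exact (pos_of_mul_pos_left h1 (hlog i).le).le
  -- the dissipated energies
  set Δ : ι → ℝ := fun i => ρ i * R i T with hΔ
  have hΔ0 : ∀ i, 0 ≤ Δ i := fun i => mul_nonneg (hρ0 i) (hR.nonneg i hTm)
  -- total energy
  have hx0s : ∑ i ∈ F, x 0 i ^ 2 ≤ E := by
    have h1 : nsq μ 0 (x 0) ≤ nsq μ 0 x0 := by
      rw [← nrm_sq hμ, ← nrm_sq hμ]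
      exact pow_le_pow_left₀ (nrm_nonneg _ _) (nrm_le_of_le hμ h0 hx0 0) 2
    rw [nsq_fin F (hx.supp 0)] at h1
    refine le_trans (le_of_eq ?_) h1
    exact Finset.sum_congr rfl fun i _ => by rw [mul_zero, Real.rpow_zero, one_mul]
  have hen : ∀ t ∈ Icc 0 T, ∑ i ∈ F, x t i ^ 2 ≤ E := fun t ht => by
    have h1 := hx.energy (μ := μ) hE hR ht
    have h2 : 0 ≤ ∑ i ∈ F, ρ i * R i t := Finset.sum_nonneg fun i _ => mul_nonneg (hρ0 i) (hR.nonneg i ht)
    linarith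
  have hΔE : 2 * ∑ i ∈ F, Δ i ≤ E := by
    have h1 := hx.energy (μ := μ) hE hR hTm
    have h2 : 0 ≤ ∑ i ∈ F, x T i ^ 2 := Finset.sum_nonneg fun i _ => sq_nonneg _
    simp only [hΔ]
    linarith
  -- the sequences
  set ch : ℕ → ι → ℝ := fun n i => if μ i < 2 ^ n then 0 else 1 with hch
  have hch0 : ∀ n i, 0 ≤ ch n i := fun n i => by simp only [hch]; split_ifs <;> norm_num
  have hch1 : ∀ n i, ch n i ≤ 1 := fun n i => by simp only [hch]; split_ifs <;> norm_num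
  have hr : ∀ (n : ℕ) i, 0 < μ i / 2 ^ n := fun n i => by have := hμ.pos i; positivity
  set ε : ℕ → ℝ := fun n => ∑ i ∈ F, ch n i * x 0 i ^ 2 with hε
  set Dn : ℕ → ℝ := fun n => ∑ i ∈ F, omt (μ i / 2 ^ n) * Δ i with hDn
  set S : ℕ → ℝ := fun n => ∑ i ∈ F, ch n i * Δ i with hS
  set U : ℕ → ℝ := fun n => ∑ i ∈ F, vv (μ i / 2 ^ n) * Δ i with hU
  set Et : ℕ → ℝ → ℝ := fun n t => ∑ i ∈ F, ch n i * x t i ^ 2 with hEt
  have hDn0 : ∀ n, 0 ≤ Dn n := fun n => Finset.sum_nonneg fun i _ => mul_nonneg (omt_pos (hr n i)).le (hΔ0 i)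
  have hS0 : ∀ n, 0 ≤ S n := fun n => Finset.sum_nonneg fun i _ => mul_nonneg (hch0 n i) (hΔ0 i)
  have hε0 : ∀ n, 0 ≤ ε n := fun n => Finset.sum_nonneg fun i _ => mul_nonneg (hch0 n i) (sq_nonneg _)
  have hEt0 : ∀ n t, 0 ≤ Et n t := fun n t => Finset.sum_nonneg fun i _ => mul_nonneg (hch0 n i) (sq_nonneg _)
  have hεle : ∀ n, ε n ≤ N1 * (1 / 4) ^ n := by
    intro n
    have h1 : ∑ i ∈ F, ch n i * x 0 i ^ 2 ≤ ∑ i ∈ F, (1 / 4) ^ n * (μ i ^ (2 * 1 : ℝ) * x 0 i ^ 2) := by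
      refine Finset.sum_le_sum fun i _ => ?_
      rw [← mul_assoc]
      apply mul_le_mul_of_nonneg_right _ (sq_nonneg _)
      simp only [hch]
      have h3 := hμ.pos i
      rw [show (2 * 1 : ℝ) = ((2 : ℕ) : ℝ) by norm_num, Real.rpow_natCast]
      split_ifs with h
      · positivity
      · have h2 : (2 : ℝ) ^ n ≤ μ i := not_lt.1 h
        have h4 : ((2 : ℝ) ^ n) ^ 2 ≤ μ i ^ 2 := pow_le_pow_left₀ (by positivity) h2 2
        calc (1 : ℝ) = (1 / 4) ^ n * ((2 : ℝ) ^ n) ^ 2 := by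
              rw [← pow_mul, mul_comm n 2, pow_mul, ← mul_pow]; norm_num
          _ ≤ (1 / 4) ^ n * μ i ^ 2 := by gcongr
    have h2 : ∑ i ∈ F, (1 / 4 : ℝ) ^ n * (μ i ^ (2 * 1 : ℝ) * x 0 i ^ 2) ≤ (1 / 4) ^ n * N1 := by
      rw [← Finset.mul_sum]
      apply mul_le_mul_of_nonneg_left _ (by positivity)
      have h3 : nsq μ 1 (x 0) ≤ nsq μ 1 x0 := by
        rw [← nrm_sq hμ, ← nrm_sq hμ]
        exact pow_le_pow_left₀ (nrm_nonneg _ _) (nrm_le_of_le hμ h0 hx0 1) 2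
      rwa [nsq_fin F (hx.supp 0)] at h3
    simp only [hε]
    linarith
  -- the main recursion for the tails
  set cs : ℕ → ℝ := fun n => Nat.rec (Real.sqrt E) (fun n c => min (Real.sqrt E)
    (Real.sqrt (c ^ 2 / 5 + ε n + G * ((n : ℝ) + 1) * Dn n * c))) n with hcs
  have hcsz : cs 0 = Real.sqrt E := rfl
  have hcss : ∀ n, cs (n + 1) = min (Real.sqrt E)
    (Real.sqrt (cs n ^ 2 / 5 + ε n + G * ((n : ℝ) + 1) * Dn n * cs n)) := fun n => rfl
  have hcs0 : ∀ n, 0 ≤ cs n := by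
    intro n
    cases n with
    | zero => exact Real.sqrt_nonneg _
    | succ n => rw [hcss]; exact le_min (Real.sqrt_nonneg _) (Real.sqrt_nonneg _)
  have hcsE : ∀ n, cs n ≤ Real.sqrt E := by
    intro n
    cases n with
    | zero => exact le_rfl
    | succ n => rw [hcss]; exact min_le_left _ _
  -- general bound of the low norm
  have hlowE : ∀ (n : ℕ), ∀ t ∈ Icc 0 T, ((2 : ℝ) ^ n) ^ (-(5 / 4) : ℝ) * nrm μ (5 / 4) (lo μ (2 ^ n) (x t)) ≤
      Real.sqrt E := by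
    intro n t ht
    apply Real.le_sqrt_of_sq_le
    rw [low_sq hμ F (hx.supp t) (by positivity)]
    refine le_trans (Finset.sum_le_sum fun i _ => ?_) (hen t ht)
    split_ifs with h
    · have : (μ i / 2 ^ n) ^ (5 / 2 : ℝ) ≤ 1 :=
        Real.rpow_le_one (hr n i).le ((div_lt_one (by positivity)).2 h).le (by norm_num)
      exact mul_le_of_le_one_left (sq_nonneg _) this
    · rw [zero_mul]; exact sq_nonneg _
  have key : ∀ n : ℕ, (∀ t ∈ Icc 0 T, ((2 : ℝ) ^ n) ^ (-(5 / 4) : ℝ) * nrm μ (5 / 4) (lo μ (2 ^ n) (x t)) ≤ cs n) →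
      (∀ t ∈ Icc 0 T, Et n t ≤ ε n + G * ((n : ℝ) + 1) * Dn n * cs n) ∧
      2 * S n ≤ ε n + G * ((n : ℝ) + 1) * Dn n * cs n := by
    intro n hn
    have hpt : ∀ t ∈ Icc 0 T, 2 * K * cs n * ∑ i ∈ F, om (μ i / 2 ^ n) * (μ i ^ (5 / 2 : ℝ) * R i t) ≤
        G * ((n : ℝ) + 1) * Dn n * cs n := by
      intro t ht
      have h1 : ∑ i ∈ F, om (μ i / 2 ^ n) * (μ i ^ (5 / 2 : ℝ) * R i t) ≤ 5 * ((n : ℝ) + 1) / ν * Dn n := by
        simp only [hDn]
        rw [Finset.mul_sum]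
        refine Finset.sum_le_sum fun i _ => ?_
        have a1 := hR.mono i ht hTm ht.2
        have a2 := hR.nonneg i ht
        have a3 := hρ i
        have a4 := om_log (hμ.one i) n
        have a5 := om_pos (hr n i)
        have a6 := (hμ.rpow_pos i (5 / 2)).le
        have a7 := hR.nonneg i hTm
        have a8 : μ i ^ (5 / 2 : ℝ) ≤ ρ i * (1 + Real.log (μ i)) / ν := by
          rw [le_div_iff₀ hν]; linarith
        calc om (μ i / 2 ^ n) * (μ i ^ (5 / 2 : ℝ) * R i t) ≤ om (μ i / 2 ^ n) * (μ i ^ (5 / 2 : ℝ) * R i T) := by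
              gcongr
          _ ≤ om (μ i / 2 ^ n) * (ρ i * (1 + Real.log (μ i)) / ν * R i T) := by gcongr
          _ = om (μ i / 2 ^ n) * (1 + Real.log (μ i)) * (ρ i * R i T / ν) := by ring
          _ ≤ 5 * ((n : ℝ) + 1) * omt (μ i / 2 ^ n) * (ρ i * R i T / ν) := by
              apply mul_le_mul_of_nonneg_right a4
              exact div_nonneg (hΔ0 i) hν.le
          _ = _ := by simp only [hΔ]; ring
      have h2 := mul_le_mul_of_nonneg_left h1 (show 0 ≤ 2 * K * cs n by have := hcs0 n; positivity)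
      refine h2.trans (le_of_eq ?_)
      rw [hG]; ring
    refine ⟨fun t ht => ?_, ?_⟩
    · have h1 := hx.tail hμ hK hK0 hR (Λ := 2 ^ n) (c := cs n) (by positivity) hn ht
      have h2 := hpt t ht
      have h3 : 0 ≤ ∑ i ∈ F, ch n i * (ρ i * R i t) :=
        Finset.sum_nonneg fun i _ => mul_nonneg (hch0 n i) (mul_nonneg (hρ0 i) (hR.nonneg i ht))
      simp only [hEt, hε, hch] at h3 ⊢
      linarith
    · have h1 := hx.tail hμ hK hK0 hR (Λ := 2 ^ n) (c := cs n) (by positivity) hn hTm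
      have h2 := hpt T hTm
      have h3 := hEt0 n T
      simp only [hS, hε, hch, hEt, hΔ] at h3 ⊢
      linarith
  have hcsl : ∀ n : ℕ, ∀ t ∈ Icc 0 T, ((2 : ℝ) ^ n) ^ (-(5 / 4) : ℝ) * nrm μ (5 / 4) (lo μ (2 ^ n) (x t)) ≤ cs n := by
    intro n
    induction n with
    | zero => exact hlowE 0
    | succ n ih =>
      intro t ht
      rw [hcss]
      refine le_min (hlowE _ t ht) ?_
      apply Real.le_sqrt_of_sq_le
      rw [low_sq hμ F (hx.supp t) (by positivity)]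
      have h1 := (key n ih).1 t ht
      have h2 := ih t ht
      have h3 : (((2 : ℝ) ^ n) ^ (-(5 / 4) : ℝ) * nrm μ (5 / 4) (lo μ (2 ^ n) (x t))) ^ 2 ≤ cs n ^ 2 := by
        apply pow_le_pow_left₀ _ h2
        exact mul_nonneg (Real.rpow_pos_of_pos (by positivity) _).le (nrm_nonneg _ _)
      rw [low_sq hμ F (hx.supp t) (by positivity)] at h3
      have h4 : ∑ i ∈ F, (if μ i < 2 ^ (n + 1) then (μ i / 2 ^ (n + 1)) ^ (5 / 2 : ℝ) else 0) * x t i ^ 2 ≤
          1 / 5 * ∑ i ∈ F, (if μ i < 2 ^ n then (μ i / 2 ^ n) ^ (5 / 2 : ℝ) else 0) * x t i ^ 2 + Et n t := by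
        simp only [hEt]
        rw [Finset.mul_sum, ← Finset.sum_add_distrib]
        refine Finset.sum_le_sum fun i _ => ?_
        have hsq : 0 ≤ x t i ^ 2 := sq_nonneg _
        simp only [hch]
        by_cases hA : μ i < 2 ^ n
        · have hB : μ i < 2 ^ (n + 1) := hA.trans_le (pow_le_pow_right₀ (by norm_num) (Nat.le_succ n))
          rw [if_pos hA, if_pos hA, if_pos hB, zero_mul, add_zero, ← mul_assoc]
          apply mul_le_mul_of_nonneg_right _ hsq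
          have e1 : μ i / 2 ^ (n + 1) = (μ i / 2 ^ n) * 2⁻¹ := by rw [pow_succ]; field_simp
          rw [e1, Real.mul_rpow (hr n i).le (by norm_num), mul_comm]
          apply mul_le_mul_of_nonneg_right _ (Real.rpow_pos_of_pos (hr n i) _).le
          have := two_rpow_le
          rwa [Real.rpow_neg (by norm_num), ← Real.inv_rpow (by norm_num)] at this
        · rw [if_neg hA, if_neg hA, zero_mul, mul_zero, zero_add, one_mul]
          split_ifs with hB
          · have : (μ i / 2 ^ (n + 1)) ^ (5 / 2 : ℝ) ≤ 1 :=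
              Real.rpow_le_one (hr _ i).le ((div_lt_one (by positivity)).2 hB).le (by norm_num)
            exact mul_le_of_le_one_left hsq this
          · rw [zero_mul]; exact hsq
      linarith
  -- application of the sequence lemma
  have hfin := hdec U cs ε (fun n => Real.sqrt (5 * ε n)) (fun n => ⟨hε0 n, ?_⟩) (fun n => ⟨Real.sqrt_nonneg _, ?_⟩)
    (fun n => Finset.sum_nonneg fun i _ => mul_nonneg (vv_nonneg (hr n i)) (hΔ0 i)) ?_ (fun n => ?_)
    (fun n => ⟨hcs0 n, hcsE n⟩) (fun n => ?_) (fun n => ?_)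
  · -- conclusion
    have h1 := (key n (hcsl n)).1 t ht
    have h2 : Et n t ≤ E := by
      refine le_trans (Finset.sum_le_sum fun i _ => ?_) (hen t ht)
      exact mul_le_of_le_one_left (sq_nonneg _) (hch1 n i)
    have h3 : Et n t ≤ cs (n + 1) ^ 2 := by
      rw [hcss]
      have h4 : Real.sqrt (Et n t) ≤ min (Real.sqrt E)
          (Real.sqrt (cs n ^ 2 / 5 + ε n + G * ((n : ℝ) + 1) * Dn n * cs n)) := by
        refine le_min (Real.sqrt_le_sqrt h2) (Real.sqrt_le_sqrt ?_)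
        have := sq_nonneg (cs n)
        linarith
      calc Et n t = Real.sqrt (Et n t) ^ 2 := (Real.sq_sqrt (hEt0 n t)).symm
        _ ≤ _ := pow_le_pow_left₀ (Real.sqrt_nonneg _) h4 2
    have h4 : cs (n + 1) ≤ A * q ^ (n + 1) := hfin (n + 1)
    calc Et n t ≤ cs (n + 1) ^ 2 := h3
      _ ≤ (A * q ^ (n + 1)) ^ 2 := pow_le_pow_left₀ (hcs0 (n + 1)) h4 2
      _ = A ^ 2 * ((q ^ 2) ^ n * q ^ 2) := by
          have e1 : (q ^ (n + 1)) ^ 2 = (q ^ 2) ^ n * q ^ 2 := by ring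
          rw [mul_pow, e1]
      _ ≤ A ^ 2 * ((q ^ 2) ^ n * 1) := by
          gcongr
          exact pow_le_one₀ hq0.le hq1.le
      _ = _ := by rw [mul_one]
  · -- the data
    refine (hεle n).trans ?_
    have h1 : (1 / 4 : ℝ) ^ n ≤ (1 / 2) ^ n := pow_le_pow_left₀ (by norm_num) (by norm_num) n
    have h2 : N1 ≤ D := by rw [hD]; linarith [Real.sqrt_nonneg (5 * N1)]
    exact mul_le_mul h2 h1 (by positivity) hD0
  · have h1 : 5 * ε n ≤ (5 * N1) * ((1 / 2) ^ n) ^ 2 := by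
      have := hεle n
      rw [← pow_mul, mul_comm n 2, pow_mul]
      norm_num at this ⊢
      linarith
    calc Real.sqrt (5 * ε n) ≤ Real.sqrt ((5 * N1) * ((1 / 2) ^ n) ^ 2) := Real.sqrt_le_sqrt h1
      _ = Real.sqrt (5 * N1) * (1 / 2) ^ n := by
          rw [Real.sqrt_mul (by positivity), Real.sqrt_sq (by positivity)]
      _ ≤ D * (1 / 2) ^ n := by
          apply mul_le_mul_of_nonneg_right _ (by positivity)
          rw [hD]; linarith
  · -- the first value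
    refine le_trans (Finset.sum_le_sum fun i _ => mul_le_mul_of_nonneg_right (vv_le_two (hr 0 i)) (hΔ0 i)) ?_
    rw [← Finset.mul_sum]
    exact hΔE
  · -- monotone
    refine Finset.sum_le_sum fun i _ => mul_le_mul_of_nonneg_right ?_ (hΔ0 i)
    have := vv_half_le (hr n i)
    rwa [div_div, ← pow_succ] at this
  · -- the first recursion
    have h1 := (key n (hcsl n)).2
    have h2 : U n ≤ 2 * S n + Dn n := by
      simp only [hU, hS, hDn]
      rw [Finset.mul_sum, ← Finset.sum_add_distrib]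
      refine Finset.sum_le_sum fun i _ => ?_
      have h3 := mul_le_mul_of_nonneg_right (vv_le (hr n i)) (hΔ0 i)
      have h4 : (μ i / 2 ^ n < 1) ↔ (μ i < 2 ^ n) := div_lt_one (by positivity)
      simp only [h4] at h3
      simp only [hch]
      linarith
    have h5 : Dn n ≤ kc⁻¹ * (U n - U (n + 1)) := by
      rw [← div_eq_inv_mul, le_div_iff₀ kc_pos]
      simp only [hU, hDn]
      rw [← Finset.sum_sub_distrib, Finset.sum_mul]
      refine Finset.sum_le_sum fun i _ => ?_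
      have := mul_le_mul_of_nonneg_right (vv_sub (hr n i)) (hΔ0 i)
      rw [div_div, ← pow_succ] at this
      linarith
    have hk1 : 1 ≤ kc⁻¹ := (one_le_inv₀ kc_pos).2 kc_lt_one.le
    set Rn : ℝ := kc⁻¹ * (1 + G * ((n : ℝ) + 1) * cs n) with hRn
    have hcn := hcs0 n
    have hp : 0 ≤ G * ((n : ℝ) + 1) * cs n := by positivity
    have hRn1 : 1 ≤ Rn := by
      rw [hRn]
      nlinarith
    have h6 : U n - ε n ≤ Rn * (U n - U (n + 1)) := by
      have h7 : U n - ε n ≤ (1 + G * ((n : ℝ) + 1) * cs n) * Dn n := by linarith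
      refine h7.trans ((mul_le_mul_of_nonneg_left h5 (by linarith)).trans (le_of_eq ?_))
      rw [hRn]; ring
    have h8 : 0 ≤ ε n := hε0 n
    have h9 : U (n + 1) ≤ U n - (U n - ε n) / Rn := by
      have : (U n - ε n) / Rn ≤ U n - U (n + 1) := by
        rw [div_le_iff₀ (by linarith)]; linarith
      linarith
    have h10 : ε n / Rn ≤ ε n := div_le_self h8 hRn1
    calc U (n + 1) ≤ U n - (U n - ε n) / Rn := h9
      _ = (1 - Rn⁻¹) * U n + ε n / Rn := by field_simp; ring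
      _ ≤ (1 - Rn⁻¹) * U n + ε n := by linarith
  · -- the second recursion
    have h5 : Dn n ≤ kc⁻¹ * (U n - U (n + 1)) := by
      rw [← div_eq_inv_mul, le_div_iff₀ kc_pos]
      simp only [hU, hDn]
      rw [← Finset.sum_sub_distrib, Finset.sum_mul]
      refine Finset.sum_le_sum fun i _ => ?_
      have := mul_le_mul_of_nonneg_right (vv_sub (hr n i)) (hΔ0 i)
      rw [div_div, ← pow_succ] at this
      linarith
    have hcn := hcs0 n
    have hdn := hDn0 n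
    have h1 : cs (n + 1) ^ 2 ≤ cs n ^ 2 / 5 + ε n + G * ((n : ℝ) + 1) * Dn n * cs n := by
      rw [hcss]
      have h2 : 0 ≤ cs n ^ 2 / 5 + ε n + G * ((n : ℝ) + 1) * Dn n * cs n := by
        have := hε0 n
        positivity
      calc _ ≤ Real.sqrt (cs n ^ 2 / 5 + ε n + G * ((n : ℝ) + 1) * Dn n * cs n) ^ 2 :=
            pow_le_pow_left₀ (le_min (Real.sqrt_nonneg _) (Real.sqrt_nonneg _)) (min_le_right _ _) 2
        _ = _ := Real.sq_sqrt h2
    have h2 := quad hcn (hcs0 (n + 1)) (hε0 n) (b := G * ((n : ℝ) + 1) * Dn n) (by positivity) h1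
    have h3 : 10 * (G * ((n : ℝ) + 1) * Dn n) ≤ 10 * kc⁻¹ * G * ((n : ℝ) + 1) * (U n - U (n + 1)) := by
      have := mul_le_mul_of_nonneg_left h5 (show 0 ≤ 10 * (G * ((n : ℝ) + 1)) by positivity)
      linarith
    linarith

end Pool.Agent.H39.Log
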