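import Pool.Agent.H39.Dy.Identity

/-!
# Dyadic systems with variable coefficients

`X_n' = B^(n-1) X_(n-1) (α_(n-1) X_(n-1) + β_(n-1) X_n) - B^n X_(n+1) (α_n X_n + β_n X_(n+1)) - d_n X_n`.
-/

open Set Filter Topology

namespace Pool.Agent.H39.Log

open Pool.Agent.H39.Dy (Rapid)

/-- what shell `n` gains from shell `n - 1` -/
def gainS (α β : ℕ → ℝ) (B : ℝ) (x : ℕ → ℝ) : ℕ → ℝ
  | 0 => 0
  | n + 1 => B ^ n * x n * (α n * x n + β n * x (n + 1))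

/-- the dyadic system with the coefficients `α`, `β` and the dissipation rates `d`, on `[0, T]` -/
def IsSolS (α β : ℕ → ℝ) (B : ℝ) (d : ℕ → ℝ) (T : ℝ) (X : ℕ → ℝ → ℝ) : Prop :=
  ∀ n, ∀ t ∈ Icc 0 T, HasDerivWithinAt (X n)
    (gainS α β B (fun k => X k t) n - d n * X n t - B ^ n * X (n + 1) t * (α n * X n t + β n * X (n + 1) t))
    (Icc 0 T) t

/-- the coefficients of the lossless cascade: links `(2 n, 2 n + 1)` are of Obukhov type with a small seed `al n`,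
links `(2 n + 1, 2 n + 2)` of Katz-Pavlovic type -/
noncomputable def alS (al : ℕ → ℝ) (m : ℕ) : ℝ := if Even m then al (m / 2) else ((2 : ℝ) ^ (5 / 2 : ℝ))⁻¹

noncomputable def beS (m : ℕ) : ℝ := if Even m then 1 else 0

/-- **P1** (blow-up for the lossless cascade, all log-supercritical dissipations at once) -/
def S_P1 : Prop := ∃ al : ℕ → ℝ, (∀ n, 0 < al n ∧ al n ≤ 1) ∧
  ∀ γ : ℝ, 1 < γ → ∀ M T : ℝ, 0 < T → ∃ A₀ : ℝ, ∀ A, A₀ ≤ A → ∀ d : ℕ → ℝ,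
    (∀ n, 0 ≤ d n ∧ d n ≤ M * ((2 : ℝ) ^ (5 / 2 : ℝ)) ^ n / ((n : ℝ) + 1) ^ γ) →
    ¬ ∃ X : ℕ → ℝ → ℝ, IsSolS (alS al) beS ((2 : ℝ) ^ (5 / 2 : ℝ)) d T X ∧ Rapid T X ∧ X 0 0 = A ∧
      ∀ n, 1 ≤ n → X n 0 = 0

/-- rapidly decreasing sequences -/
def Fast (x : ℕ → ℝ) : Prop := ∀ s : ℝ, 0 < s → ∃ C : ℝ, ∀ n, s ^ n * |x n| ≤ C

/-- the smooth solution with data `x` exists on `[0, T₀)`, is unique there, and `B ^ n |X_n(t)|` is unbounded -/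
def BlowsS (α β : ℕ → ℝ) (B : ℝ) (d : ℕ → ℝ) (x : ℕ → ℝ) (T₀ : ℝ) : Prop :=
  0 < T₀ ∧ ∃ X : ℕ → ℝ → ℝ, (∀ n, X n 0 = x n) ∧
    (∀ T, 0 ≤ T → T < T₀ → IsSolS α β B d T X ∧ Rapid T X) ∧
    ∀ K : ℝ, ∃ n, ∃ t ∈ Ico 0 T₀, K < B ^ n * |X n t|

/-- **P2a** (uniqueness in the class of solutions with `B ^ n |X_n|` bounded) -/
def S_P2a : Prop := ∀ (α β : ℕ → ℝ) (B K₀ : ℝ) (d : ℕ → ℝ), 0 < B → (∀ n, |α n| ≤ K₀) → (∀ n, |β n| ≤ K₀) →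
  (∀ n, 0 ≤ d n) → ∀ (T : ℝ) (X Y : ℕ → ℝ → ℝ), IsSolS α β B d T X → IsSolS α β B d T Y →
    (∃ K : ℝ, ∀ n, ∀ t ∈ Icc 0 T, B ^ n * |X n t| ≤ K) → (∃ K : ℝ, ∀ n, ∀ t ∈ Icc 0 T, B ^ n * |Y n t| ≤ K) →
    (∀ n, X n 0 = Y n 0) → ∀ n, ∀ t ∈ Icc 0 T, X n t = Y n t

/-- **P2b** (global smooth solution or blow-up) -/
def S_P2b : Prop := ∀ (α β : ℕ → ℝ) (B K₀ : ℝ) (d : ℕ → ℝ), 0 < B → (∀ n, |α n| ≤ K₀) → (∀ n, |β n| ≤ K₀) →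
  (∀ n, 0 ≤ d n) → ∀ x : ℕ → ℝ, Fast x →
    (∃ X : ℕ → ℝ → ℝ, (∀ n, X n 0 = x n) ∧ ∀ T, 0 ≤ T → IsSolS α β B d T X ∧ Rapid T X) ∨
    ∃ T₀, BlowsS α β B d x T₀

end Pool.Agent.H39.Log
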