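import Pool.Agent.H39.Log.ExD

/-!
# The Euler nonlinearity belongs to the class
-/

open MeasureTheory Set Filter Topology
open scoped ContDiff ENNReal

namespace Pool.Agent.H39.Log

open Pool.Agent.H39.Lions
open H459R3.NS (V K3 Per cube SP pd lap ee fr S N)
open Pool.Agent.H39.PDE (fq sob ip)

/-- the coefficients of `-P ((v · ∇) w + (w · ∇) v) / 2` -/
noncomputable def ec (v w : V → V) (p : K3 × Fin 3) : ℝ :=
  (-(1 / 2)) * (pr (cf (cv v w)) p + pr (cf (cv w v)) p)

/-- the symmetric Euler nonlinearity `-P ((v · ∇) w + (w · ∇) v) / 2`, with the Leray projection `P` -/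
noncomputable def euler (v w : V → V) : V → V := fd (ec v w)

variable {v v' w z : V → V}

theorem rd_ec (hv : ∀ i, SP fun x => v x i) (hw : ∀ i, SP fun x => w x i) : RD mu (ec v w) :=
  (RD.add wt_mu (rd_pr (rd_cf (sp_cv hv hw))) (rd_pr (rd_cf (sp_cv hw hv)))).smul _

theorem pr_ec (v w : V → V) : pr (ec v w) = ec v w := by
  have h1 := pr_smul (-(1 / 2)) fun p => pr (cf (cv v w)) p + pr (cf (cv w v)) p
  have h2 := pr_add (pr (cf (cv v w))) (pr (cf (cv w v)))
  unfold ec
  rw [h1, h2, pr_pr, pr_pr]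

theorem euler_field (hv : ∀ i, SP fun x => v x i) (hw : ∀ i, SP fun x => w x i) : Lions.Field (euler v w) :=
  field_of_pr (rd_ec hv hw) (pr_ec v w)

theorem ip_euler (hv : ∀ i, SP fun x => v x i) (hw : ∀ i, SP fun x => w x i) (hz : Lions.Field z) :
    ip (euler v w) z = (-(1 / 2)) * (ip (cv v w) z + ip (cv w v) z) := by
  have key : ∀ {f : V → V}, (∀ i, SP fun x => f x i) → ∑' p, pr (cf f) p * cf z p = ip f z := by
    intro f hf
    rw [ip_eq hf hz.sp, tsum_orth (rd_cf hf) (rd_cf hz.sp)]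
    have h3 := tsum_orth (rd_cf hz.sp) (rd_cf hf)
    rw [hz.pr_cf] at h3 ⊢
    rw [← tsum_congr fun p => mul_comm (cf z p) (pr (cf f) p), ← h3]
    exact tsum_congr fun p => mul_comm _ _
  have s1 := summable_mul (rd_pr (rd_cf (sp_cv hv hw))) (rd_cf hz.sp)
  have s2 := summable_mul (rd_pr (rd_cf (sp_cv hw hv))) (rd_cf hz.sp)
  rw [ip_eq (euler_field hv hw).sp hz.sp, ← key (sp_cv hv hw), ← key (sp_cv hw hv), ← s1.tsum_add s2, ← tsum_mul_left]
  refine tsum_congr fun p => ?_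
  unfold euler
  rw [cf_fd (rd_ec hv hw)]
  unfold ec
  ring

/-- **The Euler nonlinearity belongs to the class.** -/
theorem crit_euler : CritType euler := by
  refine ⟨⟨fun v w hv hw => euler_field hv.sp hw.sp, fun v w _ _ => ?_, fun v v' w hv hv' hw => ?_,
    fun r v w hv hw => ?_, fun v hv => ?_, fun j => ?_⟩, ⟨642, fun v w z hv hw hz => ?_⟩⟩
  · unfold euler
    congr 1; funext p; unfold ec; ring
  · have e : ec (fun x i => v x i + v' x i) w = fun p => ec v w p + ec v' w p := by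
      funext p
      unfold ec
      rw [cv_add_left, cv_add_right w hv.sp hv'.sp, cf_add (sp_cv hv.sp hw.sp) (sp_cv hv'.sp hw.sp),
        cf_add (sp_cv hw.sp hv.sp) (sp_cv hw.sp hv'.sp), pr_add, pr_add]
      ring
    unfold euler
    rw [e, fd_add (rd_ec hv.sp hw.sp) (rd_ec hv'.sp hw.sp)]
  · have e : ec (fun x i => r * v x i) w = fun p => r * ec v w p := by
      funext p
      unfold ec
      rw [cv_smul_left, cv_smul_right w hv.sp r, cf_smul, cf_smul, pr_smul, pr_smul]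
      ring
    unfold euler
    rw [e, fd_smul]
  · rw [ip_euler hv.sp hv.sp hv]
    have h : ip (cv v v) v = 0 := by
      have h1 := cv_energy hv
      unfold Pool.Agent.H39.PDE.ip at h1 ⊢
      rw [← h1]
      congr 1; funext x
      exact Finset.sum_congr rfl fun i _ => mul_comm _ _
    rw [h]; ring
  · obtain ⟨K, hK0, hK⟩ := cv_tame j
    refine ⟨2 * K, fun v w hv hw => ?_⟩
    rw [(euler_field hv.sp hw.sp).sob_eq, hv.sob_eq, hv.sob_eq, hw.sob_eq, hw.sob_eq]
    have h1 := hK v w hv.sp hw.sp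
    have h2 := hK w v hw.sp hv.sp
    have e1 : cf (euler v w) = ec v w := cf_fd (rd_ec hv.sp hw.sp)
    have r1 := rd_cf (sp_cv hv.sp hw.sp)
    have r2 := rd_cf (sp_cv hw.sp hv.sp)
    have h3 : nrm mu j (ec v w) ≤ nrm mu j (cf (cv v w)) + nrm mu j (cf (cv w v)) := by
      have a1 := nrm_smul (μ := mu) j (-(1 / 2)) fun p => pr (cf (cv v w)) p + pr (cf (cv w v)) p
      have a2 := nrm_add wt_mu (rd_pr r1) (rd_pr r2) j
      have a3 := nrm_pr r1 j
      have a4 := nrm_pr r2 j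
      have a5 : |(-(1 / 2) : ℝ)| = 1 / 2 := by rw [abs_neg, abs_of_pos (by norm_num)]
      rw [a5] at a1
      show nrm mu j (fun p => (-(1 / 2)) * (pr (cf (cv v w)) p + pr (cf (cv w v)) p)) ≤ _
      rw [a1]
      linarith
    rw [e1]
    refine h3.trans ((add_le_add h1 h2).trans (le_of_eq ?_))
    ring
  · rw [ip_euler hv.sp hw.sp hz, hv.sob_eq, hw.sob_eq, hz.sob_eq]
    obtain ⟨h1, h2⟩ := cv_crit hv.sp hw.sp hz.sp
    rw [abs_mul, abs_neg, abs_of_pos (by norm_num : (0 : ℝ) < 1 / 2)]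
    have h3 := abs_add_le (ip (cv v w) z) (ip (cv w v) z)
    linarith

/-- the defining property: `euler v w = -((v · ∇) w + (w · ∇) v) / 2 - ∇ q` -/
theorem euler_eq (hv : Lions.Field v) (hw : Lions.Field w) : ∃ q : V → ℝ, SP q ∧ ∀ x i,
    euler v w x i = -(1 / 2) * (∑ j, v x j * pd j (fun y => w y i) x + ∑ j, w x j * pd j (fun y => v y i) x) -
      pd i q x := by
  set g1 : K3 × Fin 3 → ℝ := cf (cv v w) with hg1
  set g2 : K3 × Fin 3 → ℝ := cf (cv w v) with hg2
  have r1 : RD mu g1 := rd_cf (sp_cv hv.sp hw.sp)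
  have r2 : RD mu g2 := rd_cf (sp_cv hw.sp hv.sp)
  have rq : ∀ {g : K3 × Fin 3 → ℝ}, RD mu g → RD mk (pq g) := by
    intro g hg
    have h := pq_Tn (const_Tn hg 0)
    exact h.1.at 0
  set π : K3 → ℝ := fun k => (-(1 / 2)) * (pq g1 k + pq g2 k) with hπ
  have rπ : RD mk π := (RD.add wt_mk (rq r1) (rq r2)).smul _
  have hq : SP (syn π) := sp_syn rπ
  refine ⟨syn π, hq, fun x i => ?_⟩
  have c1 := sp_cv hv.sp hw.sp i
  have c2 := sp_cv hw.sp hv.sp i
  have q1 := SP.smul (c1.add c2) (-(1 / 2))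
  have q2 := SP.smul (hq.pd i) (-1)
  have key : (fun x => euler v w x i) = fun x => (-(1 / 2)) * (cv v w x i + cv w v x i) + (-1) * pd i (syn π) x := by
    refine ext_ha ((euler_field hv.sp hw.sp).sp i) (q1.add q2) fun k => ?_
    rw [ha_add q1 q2, ha_smul, ha_smul, ha_add c1 c2, ha_pd hq]
    have a1 : ha (fun x => euler v w x i) k = ec v w (k, i) := congrFun (cf_fd (rd_ec hv.sp hw.sp)) (k, i)
    have a2 : ha (fun x => cv v w x i) k = g1 (k, i) := rfl
    have a3 : ha (fun x => cv w v x i) k = g2 (k, i) := rfl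
    have a5 : ha (syn π) (-k) = π (-k) := ha_syn (rπ.summable_abs wt_mk) (-k)
    have z1 : ∀ i, g1 (0, i) = 0 := fun i => ha_zero_of_mean (mean_cv hv hw.sp i)
    have z2 : ∀ i, g2 (0, i) = 0 := fun i => ha_zero_of_mean (mean_cv hw hv.sp i)
    have a7 := grad_pq g1 z1 k i
    have a8 := grad_pq g2 z2 k i
    rw [a1, a2, a3, a5]
    have a9 : ec v w (k, i) = (-(1 / 2)) * (pr g1 (k, i) + pr g2 (k, i)) := rfl
    rw [a9]
    simp only [hπ]
    linear_combination (1 / 2) * a7 + (1 / 2) * a8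
  have h := congrFun key x
  rw [h]
  unfold cv
  ring

end Pool.Agent.H39.Log
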