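import Pool.Agent.H39.Log.GlobR

/-!
# Uniqueness with general dissipation rates
-/

open Set Filter Topology Metric
open scoped ContDiff NNReal

namespace Pool.Agent.H39.Log

open Pool.Agent.H39.Lions

variable {ι : Type*} {μ : ι → ℝ} {C : (ι → ℝ) → (ι → ℝ) → ι → ℝ}

/-- uniformly small tails -/
theorem tail_unif (hμ : Wt μ) {w : ℝ → ι → ℝ} {S : Set ℝ} (hw : ∀ m : ℕ, ∃ B : ℝ, ∀ t ∈ S, ∀ i, μ i ^ m * |w t i| ≤ B)
    (a : ℝ) {ε : ℝ} (hε : 0 < ε) :
    ∃ F₀ : Finset ι, ∀ F, F₀ ⊆ F → ∀ t ∈ S, nsq μ a (w t) ≤ ∑ i ∈ F, μ i ^ (2 * a) * w t i ^ 2 + ε := by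
  obtain ⟨m, v, hv, hmaj⟩ := hμ.major a
  obtain ⟨B, hB⟩ := hw m
  have hs := (hv.mul_left (B ^ 2)).hasSum
  have h1 : ∀ᶠ F in atTop, ∑' i, B ^ 2 * v i - ε < ∑ i ∈ F, B ^ 2 * v i :=
    hs.eventually_const_lt (by linarith)
  obtain ⟨F₀, hF₀⟩ := eventually_atTop.1 h1
  refine ⟨F₀, fun F hF t ht => ?_⟩
  have h2 := hF₀ F hF
  have h3 := hmaj (w t) B (hB t ht)
  have h4 : Summable fun i => μ i ^ (2 * a) * w t i ^ 2 :=
    Summable.of_nonneg_of_le (fun i => mul_nonneg (hμ.rpow_pos i _).le (sq_nonneg _)) h3 (hv.mul_left _)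
  have h5 := ((hv.mul_left (B ^ 2)).sub h4).sum_le_tsum F fun i _ => sub_nonneg.2 (h3 i)
  rw [(hv.mul_left (B ^ 2)).tsum_sub h4, Finset.sum_sub_distrib] at h5
  unfold nsq
  linarith

/-- interpolation -/
theorem interp (hμ : Wt μ) {w : ι → ℝ} (hw : RD μ w) {η : ℝ} (hη : 0 < η) :
    nsq μ (5 / 4) w ≤ η * nsq μ (13 / 8) w + (η ^ 2)⁻¹ * nsq μ (1 / 2) w := by
  unfold nsq
  rw [← tsum_mul_left, ← tsum_mul_left,
    ← Summable.tsum_add ((hw.summable hμ (13 / 8)).mul_left η) ((hw.summable hμ (1 / 2)).mul_left _)]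
  refine (hw.summable hμ _).tsum_le_tsum (fun i => ?_)
    (((hw.summable hμ (13 / 8)).mul_left η).add ((hw.summable hμ (1 / 2)).mul_left _))
  have hm := hμ.pos i
  set a : ℝ := μ i ^ (3 / 4 : ℝ) with ha
  have ha0 : 0 < a := hμ.rpow_pos i _
  have e1 : μ i ^ (2 * (5 / 4) : ℝ) = μ i * a ^ 2 := by
    rw [ha, ← Real.rpow_natCast, ← Real.rpow_mul hm.le]
    conv_rhs => rw [show μ i * μ i ^ (3 / 4 * ((2 : ℕ) : ℝ)) = μ i ^ (1 : ℝ) * μ i ^ (3 / 4 * ((2 : ℕ) : ℝ)) by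
      rw [Real.rpow_one]]
    rw [← Real.rpow_add hm]; norm_num
  have e2 : μ i ^ (2 * (13 / 8) : ℝ) = μ i * a ^ 3 := by
    rw [ha, ← Real.rpow_natCast, ← Real.rpow_mul hm.le]
    conv_rhs => rw [show μ i * μ i ^ (3 / 4 * ((3 : ℕ) : ℝ)) = μ i ^ (1 : ℝ) * μ i ^ (3 / 4 * ((3 : ℕ) : ℝ)) by
      rw [Real.rpow_one]]
    rw [← Real.rpow_add hm]; norm_num
  have e3 : μ i ^ (2 * (1 / 2) : ℝ) = μ i := by norm_num
  rw [e1, e2, e3]
  have key : a ^ 2 ≤ η * a ^ 3 + (η ^ 2)⁻¹ := by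
    by_cases h : 1 ≤ η * a
    · have h1 : a ^ 2 * 1 ≤ a ^ 2 * (η * a) := mul_le_mul_of_nonneg_left h (by positivity)
      have h2 : 0 < (η ^ 2)⁻¹ := by positivity
      nlinarith
    · push Not at h
      have h1 : (η * a) ^ 2 ≤ 1 := pow_le_one₀ (by positivity) h.le
      have h2 : a ^ 2 ≤ (η ^ 2)⁻¹ := by
        rw [← one_div, le_div_iff₀ (by positivity)]
        nlinarith
      have h3 : 0 ≤ η * a ^ 3 := by positivity
      linarith
  have h1 : 0 ≤ μ i * w i ^ 2 := by positivity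
  have := mul_le_mul_of_nonneg_right key h1
  linarith

/-- **Uniqueness of solutions with uniform bounds.** -/
theorem uniqR (hμ : Wt μ) (hC : Bil μ C) {ρ : ι → ℝ} {ν b : ℝ} (hν : 0 < ν) (hρ : ∀ i, ν * μ i ^ (9 / 4 : ℝ) ≤ ρ i)
    {x y : ℝ → ι → ℝ}
    (hxB : ∀ m : ℕ, ∃ B : ℝ, ∀ t ∈ Icc 0 b, ∀ i, μ i ^ m * |x t i| ≤ B)
    (hyB : ∀ m : ℕ, ∃ B : ℝ, ∀ t ∈ Icc 0 b, ∀ i, μ i ^ m * |y t i| ≤ B)
    (hx : ∀ t ∈ Icc 0 b, ∀ i, HasDerivWithinAt (fun s => x s i) (-(ρ i) * x t i + C (x t) (x t) i) (Icc 0 b) t)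
    (hy : ∀ t ∈ Icc 0 b, ∀ i, HasDerivWithinAt (fun s => y s i) (-(ρ i) * y t i + C (y t) (y t) i) (Icc 0 b) t)
    (h0 : x 0 = y 0) {t : ℝ} (ht : t ∈ Icc 0 b) : x t = y t := by
  classical
  have hxr : ∀ t ∈ Icc 0 b, RD μ (x t) := fun t ht m => by
    obtain ⟨B, h⟩ := hxB m
    exact ⟨B, h t ht⟩
  have hyr : ∀ t ∈ Icc 0 b, RD μ (y t) := fun t ht m => by
    obtain ⟨B, h⟩ := hyB m
    exact ⟨B, h t ht⟩
  set w : ℝ → ι → ℝ := fun t i => x t i - y t i with hw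
  have hwr : ∀ t ∈ Icc 0 b, RD μ (w t) := fun t ht => RD.sub hμ (hxr t ht) (hyr t ht)
  have hwB : ∀ m : ℕ, ∃ B : ℝ, ∀ t ∈ Icc 0 b, ∀ i, μ i ^ m * |w t i| ≤ B := by
    intro m
    obtain ⟨B, hB⟩ := hxB m
    obtain ⟨B', hB'⟩ := hyB m
    refine ⟨B + B', fun t ht i => ?_⟩
    have h1 : 0 ≤ μ i ^ m := (pow_pos (hμ.pos i) m).le
    have h3 : |x t i - y t i| ≤ |x t i| + |y t i| := by
      have := abs_add_le (x t i) (-(y t i))
      rwa [abs_neg, ← sub_eq_add_neg] at this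
    have := mul_le_mul_of_nonneg_left h3 h1
    have := hB t ht i
    have := hB' t ht i
    simp only [hw]
    linarith
  obtain ⟨K, hK0, hK⟩ := hC.tame' 0
  obtain ⟨m1, A1, hA1, h1⟩ := hμ.nrm_le (5 / 4)
  obtain ⟨Bx, hBx⟩ := hxB m1
  obtain ⟨By, hBy⟩ := hyB m1
  set A : ℝ := (|Bx| + |By|) * A1 with hA
  have hA0 : 0 ≤ A := by positivity
  have nx : ∀ t ∈ Icc 0 b, nrm μ (5 / 4) (x t) ≤ A := fun t ht => (h1 _ Bx (hBx t ht)).trans
    (mul_le_mul_of_nonneg_right (le_add_of_nonneg_right (abs_nonneg _)) hA1)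
  have ny : ∀ t ∈ Icc 0 b, nrm μ (5 / 4) (y t) ≤ A := fun t ht => (h1 _ By (hBy t ht)).trans
    (mul_le_mul_of_nonneg_right (le_add_of_nonneg_left (abs_nonneg _)) hA1)
  set D : ℝ → ι → ℝ := fun t i => C (w t) (x t) i + C (y t) (w t) i with hD
  have hwd : ∀ t ∈ Icc 0 b, ∀ i, HasDerivWithinAt (fun s => w s i) (-(ρ i) * w t i + D t i) (Icc 0 b) t := by
    intro t ht i
    refine ((hx t ht i).sub (hy t ht i)).congr_deriv ?_
    simp only [hD, hw]
    rw [hC.sub_left (hxr t ht) (hyr t ht) (hxr t ht), hC.sub_right (hyr t ht) (hxr t ht) (hyr t ht)]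
    ring
  have hDr : ∀ t ∈ Icc 0 b, RD μ (D t) := fun t ht =>
    RD.add hμ (hC.rd _ _ (hwr t ht) (hxr t ht)) (hC.rd _ _ (hyr t ht) (hwr t ht))
  have hDn : ∀ t ∈ Icc 0 b, nrm μ 0 (D t) ≤ 8 * (K * A) * nrm μ (5 / 4) (w t) := by
    intro t ht
    have a1 := nrm_add hμ (hC.rd _ _ (hwr t ht) (hxr t ht)) (hC.rd _ _ (hyr t ht) (hwr t ht)) 0
    have a2 := hK _ _ (hwr t ht) (hxr t ht)
    have a3 := hK _ _ (hyr t ht) (hwr t ht)
    simp only [Nat.cast_zero, zero_add] at a2 a3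
    have pw := nrm_nonneg (μ := μ) (5 / 4) (w t)
    have a4 : nrm μ (5 / 4) (w t) * nrm μ (5 / 4) (x t) ≤ nrm μ (5 / 4) (w t) * A :=
      mul_le_mul_of_nonneg_left (nx t ht) pw
    have a5 : nrm μ (5 / 4) (y t) * nrm μ (5 / 4) (w t) ≤ A * nrm μ (5 / 4) (w t) :=
      mul_le_mul_of_nonneg_right (ny t ht) pw
    have a6 : K * (nrm μ (5 / 4) (w t) * nrm μ (5 / 4) (x t) + nrm μ (5 / 4) (w t) * nrm μ (5 / 4) (x t)) ≤
        K * (2 * (nrm μ (5 / 4) (w t) * A)) := mul_le_mul_of_nonneg_left (by linarith) hK0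
    have a7 : K * (nrm μ (5 / 4) (y t) * nrm μ (5 / 4) (w t) + nrm μ (5 / 4) (y t) * nrm μ (5 / 4) (w t)) ≤
        K * (2 * (A * nrm μ (5 / 4) (w t))) := mul_le_mul_of_nonneg_left (by linarith) hK0
    calc nrm μ 0 (D t) ≤ 2 * (nrm μ 0 (C (w t) (x t)) + nrm μ 0 (C (y t) (w t))) := a1
      _ ≤ 2 * (K * (2 * (nrm μ (5 / 4) (w t) * A)) + K * (2 * (A * nrm μ (5 / 4) (w t)))) := by linarith
      _ = _ := by ring
  set η : ℝ := ν / (8 * (K * A) + 1) with hη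
  have hη0 : 0 < η := by positivity
  set M : ℝ := 16 * (K * A) * (η ^ 2)⁻¹ + 1 with hM
  have hM0 : 0 < M := by positivity
  set c : ℝ := 2 * ν + M with hc
  have hc0 : 0 < c := by positivity
  have key : ∀ ε : ℝ, 0 < ε → ∀ i, μ i * w t i ^ 2 ≤ c * ε / M * Real.exp (M * t) := by
    intro ε hε i
    obtain ⟨F1, hF1⟩ := tail_unif hμ hwB (13 / 8) hε
    obtain ⟨F2, hF2⟩ := tail_unif hμ hwB (1 / 2) hε
    set F : Finset ι := F1 ∪ F2 ∪ {i} with hF
    have hFt1 := hF1 F (by intro j hj; simp [hF, hj])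
    have hFt2 := hF2 F (by intro j hj; simp [hF, hj])
    set e : ℝ → ℝ := fun t => ∑ i ∈ F, μ i ^ (2 * (1 / 2) : ℝ) * w t i ^ 2 with he
    have hd : ∀ t ∈ Icc 0 b, HasDerivWithinAt e
        (∑ i ∈ F, μ i ^ (2 * (1 / 2) : ℝ) * (((2 : ℕ) : ℝ) * w t i ^ (2 - 1) * (-(ρ i) * w t i + D t i))) (Icc 0 b) t :=
      fun t ht => HasDerivWithinAt.fun_sum fun i _ => ((hwd t ht i).pow 2).const_mul _
    have hle : ∀ t ∈ Icc 0 b,
        ∑ i ∈ F, μ i ^ (2 * (1 / 2) : ℝ) * (((2 : ℕ) : ℝ) * w t i ^ (2 - 1) * (-(ρ i) * w t i + D t i)) ≤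
        M * e t + c * ε := by
      intro t ht
      have c5 : ∑ i ∈ F, μ i ^ (2 * (1 / 2) : ℝ) * (((2 : ℕ) : ℝ) * w t i ^ (2 - 1) * (-(ρ i) * w t i + D t i)) =
          -2 * ∑ i ∈ F, μ i ^ (2 * (1 / 2) : ℝ) * (ρ i * w t i ^ 2) +
          2 * ∑ i ∈ F, μ i ^ (2 * (1 / 2) : ℝ) * (D t i * w t i) := by
        rw [Finset.mul_sum, Finset.mul_sum, ← Finset.sum_add_distrib]
        refine Finset.sum_congr rfl fun i _ => ?_
        simp only [Nat.cast_ofNat, Nat.add_one_sub_one, pow_one]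
        ring
      rw [c5]
      have c1 : ν * ∑ i ∈ F, μ i ^ (2 * (13 / 8) : ℝ) * w t i ^ 2 ≤
          ∑ i ∈ F, μ i ^ (2 * (1 / 2) : ℝ) * (ρ i * w t i ^ 2) := by
        rw [Finset.mul_sum]
        refine Finset.sum_le_sum fun i _ => ?_
        have e3 : μ i ^ (2 * (13 / 8) : ℝ) = μ i ^ (2 * (1 / 2) : ℝ) * μ i ^ (9 / 4 : ℝ) := by
          rw [← Real.rpow_add (hμ.pos i)]; norm_num
        have e4 : 0 ≤ μ i ^ (2 * (1 / 2) : ℝ) * w t i ^ 2 := mul_nonneg (hμ.rpow_pos i _).le (sq_nonneg _)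
        rw [e3]
        have := mul_le_mul_of_nonneg_left (hρ i) e4
        linarith
      have c2 : ∑ i ∈ F, μ i ^ (2 * (1 / 2) : ℝ) * (D t i * w t i) ≤ 8 * (K * A) * nsq μ (5 / 4) (w t) := by
        have a1 := (le_abs_self _).trans (cs_fin hμ F (hDr t ht) (hwr t ht) 0 1 (1 / 2) (by norm_num))
        have a2 := mul_le_mul (hDn t ht) (nrm_mono hμ (hwr t ht) (show (1 : ℝ) ≤ 5 / 4 by norm_num))
          (nrm_nonneg _ _) (by have := nrm_nonneg (μ := μ) (5 / 4) (w t); positivity)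
        refine a1.trans (a2.trans (le_of_eq ?_))
        rw [← nrm_sq hμ]; ring
      have c3 := interp hμ (hwr t ht) hη0
      have c4 := mul_le_mul_of_nonneg_left c3 (show 0 ≤ 16 * (K * A) by positivity)
      have c6 : 16 * (K * A) * η ≤ 2 * ν := by
        rw [hη, mul_div_assoc', div_le_iff₀ (by positivity)]
        have : 0 ≤ K * A := by positivity
        nlinarith
      have c7 := mul_le_mul_of_nonneg_right c6 (nsq_nonneg hμ (13 / 8) (w t))
      have c8 := mul_le_mul_of_nonneg_left (hFt1 t ht) (show 0 ≤ 2 * ν by positivity)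
      have c9 := mul_le_mul_of_nonneg_left (hFt2 t ht) hM0.le
      have c10 : 16 * (K * A) * (η ^ 2)⁻¹ * nsq μ (1 / 2) (w t) ≤ M * nsq μ (1 / 2) (w t) := by
        apply mul_le_mul_of_nonneg_right _ (nsq_nonneg hμ _ _)
        rw [hM]; linarith
      have c11 : e t = ∑ i ∈ F, μ i ^ (2 * (1 / 2) : ℝ) * w t i ^ 2 := rfl
      rw [c11, hc]
      nlinarith
    have hanti := antitone_of_deriv (T := b) (f := fun t => (e t + c * ε / M) * Real.exp (-M * t))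
      (f' := fun t => (∑ i ∈ F, μ i ^ (2 * (1 / 2) : ℝ) * (((2 : ℕ) : ℝ) * w t i ^ (2 - 1) *
        (-(ρ i) * w t i + D t i))) * Real.exp (-M * t) + (e t + c * ε / M) * (Real.exp (-M * t) * (-M * 1)))
      (fun t ht => by
        have he' : HasDerivAt (fun t => Real.exp (-M * t)) (Real.exp (-M * t) * (-M * 1)) t :=
          ((hasDerivAt_id t).const_mul (-M)).exp
        exact ((hd t ht).add_const _).mul he'.hasDerivWithinAt)
      (fun t ht => by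
        have p := Real.exp_pos (-M * t)
        have h3 := hle t ht
        calc _ = ((∑ i ∈ F, μ i ^ (2 * (1 / 2) : ℝ) * (((2 : ℕ) : ℝ) * w t i ^ (2 - 1) *
              (-(ρ i) * w t i + D t i))) - (M * e t + M * (c * ε / M))) * Real.exp (-M * t) := by ring
          _ ≤ 0 * Real.exp (-M * t) := by
              apply mul_le_mul_of_nonneg_right _ p.le
              have : M * (c * ε / M) = c * ε := by field_simp
              rw [this]; linarith
          _ = 0 := zero_mul _)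
    have h6 := hanti (⟨le_rfl, ht.1.trans ht.2⟩ : (0 : ℝ) ∈ Icc 0 b) ht ht.1
    have h7 : e 0 = 0 := by
      refine Finset.sum_eq_zero fun i _ => ?_
      simp only [hw, h0]
      simp
    simp only [h7, mul_zero, Real.exp_zero, mul_one, zero_add] at h6
    have h8 : e t + c * ε / M ≤ c * ε / M * Real.exp (M * t) := by
      have p := Real.exp_pos (M * t)
      have h9 := mul_le_mul_of_nonneg_right h6 p.le
      have h10 : (e t + c * ε / M) * Real.exp (-M * t) * Real.exp (M * t) = e t + c * ε / M := by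
        rw [mul_assoc, ← Real.exp_add]; simp
      rwa [h10] at h9
    have h9 : 0 ≤ c * ε / M := by positivity
    have h10 : μ i * w t i ^ 2 ≤ e t := by
      have h11 := Finset.single_le_sum (f := fun i => μ i ^ (2 * (1 / 2) : ℝ) * w t i ^ 2) (s := F)
        (fun j _ => mul_nonneg (hμ.rpow_pos j _).le (sq_nonneg _)) (show i ∈ F by simp [hF])
      have e3 : μ i ^ (2 * (1 / 2) : ℝ) = μ i := by norm_num
      simp only [e3] at h11
      refine le_trans h11 (le_of_eq ?_)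
      rfl
    linarith
  funext i
  have h2 : μ i * w t i ^ 2 ≤ 0 := by
    have hlim : Tendsto (fun ε : ℝ => c * ε / M * Real.exp (M * t)) (𝓝[>] 0) (𝓝 0) := by
      have : ContinuousAt (fun ε : ℝ => c * ε / M * Real.exp (M * t)) 0 := by fun_prop
      have h3 := this.tendsto
      simp only [mul_zero, zero_div, zero_mul] at h3
      exact h3.mono_left nhdsWithin_le_nhds
    refine ge_of_tendsto hlim ?_
    filter_upwards [self_mem_nhdsWithin] with ε hε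
    exact key ε hε i
  have h3 := hμ.pos i
  have h4 : w t i ^ 2 ≤ 0 := by
    by_contra hcon
    push Not at hcon
    have := mul_pos h3 hcon
    linarith
  have h5 : w t i = 0 := by
    have := sq_nonneg (w t i)
    exact pow_eq_zero_iff (two_ne_zero) |>.1 (le_antisymm h4 this)
  simp only [hw] at h5
  linarith

end Pool.Agent.H39.Log
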