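import Pool.Agent.H39.Log.ClsD
import Pool.Agent.H39.Log.Mlt
import Pool.Agent.H39.Log.UniqR
import Pool.Agent.H39.Lions.UniqP

/-!
# Smooth solutions of the partial differential equation with a general dissipation
-/

open MeasureTheory Set Filter Topology
open scoped ContDiff ENNReal

namespace Pool.Agent.H39.Log

open Pool.Agent.H39.Lions
open H459R3.NS (V K3 Per cube SP pd lap ee fr S N)
open Pool.Agent.H39.PDE (fq sob ip)
open Pool.Agent.K1H11.NS (Ev.SF)

/-- `(u, p)` is a smooth `1`-periodic solution on the time interval `[0, T)` of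
`∂ₜ u + θ (u · ∇) u + ∇ p = -D u + C(u, u)`, `div u = 0`, with vanishing mean, where `D` acts as a Fourier multiplier:
`u` and `p` are `C^∞` on `[0, T) × ℝ³`. -/
structure SolD (θ : ℝ) (D : K3 → ℝ) (C : (V → V) → (V → V) → V → V) (T : ℝ) (u : ℝ → V → V) (p : ℝ → V → ℝ) :
    Prop where
  smooth_u : ContDiffOn ℝ ∞ (fun z : ℝ × V => u z.1 z.2) (Ico 0 T ×ˢ univ)
  smooth_p : ContDiffOn ℝ ∞ (fun z : ℝ × V => p z.1 z.2) (Ico 0 T ×ˢ univ)
  field : ∀ t ∈ Ico 0 T, Lions.Field (u t)
  per_p : ∀ t ∈ Ico 0 T, Per (p t)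
  momentum : ∀ t ∈ Ioo 0 T, ∀ x i,
    deriv (fun τ => u τ x i) t + θ * ∑ j, u t x j * pd j (fun y => u t y i) x + pd i (p t) x
      = -mlt D (fun y => u t y i) x + C (u t) (u t) x i

/-- **Global smooth solutions from a priori bounds.** -/
theorem exists_solD (θ : ℝ) {C : (V → V) → (V → V) → V → V} (hC : EulerType C) {D R : K3 → ℝ} (hD : Sym D)
    (hR0 : ∀ k, 0 ≤ R k) (hRD : ∀ k, k ≠ 0 → R k = D k)
    (hRr : ∃ (r : ℕ) (A : ℝ), 0 ≤ A ∧ ∀ p : K3 × Fin 3, R p.1 ≤ A * mu p ^ r)
    {u₀ : V → V} (h0 : Lions.Field u₀) (hap : APri mu (opA θ C) (fun p => R p.1) (cf u₀)) :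
    ∃ (u : ℝ → V → V) (p : ℝ → V → ℝ), u 0 = u₀ ∧ ∀ T, SolD θ D C T u p := by
  obtain ⟨X, hX0, hXT, hXd⟩ := exists_smoothR wt_mu (opA_bil θ hC) (opA_energy θ hC) (ρ := fun p => R p.1)
    (fun p => hR0 p.1) hRr hap
  have hXr : ∀ t, RD mu (X t) := fun t => (hXT 0).1.at t
  -- the solution stays in the range of the projection
  have hpr : ∀ t, 0 ≤ t → pr (X t) = X t := by
    intro t ht
    funext p
    set m : ℝ := R p.1 with hm
    set f : ℝ → ℝ := fun τ => Real.exp (m * τ) * (X τ p - pr (X τ) p) with hf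
    have hc : Continuous f := (by fun_prop : Continuous fun τ => Real.exp (m * τ)).mul
      (((hXT 0).2 p).sub (pr_cont (hXT 0).2 p))
    have hd : ∀ τ ∈ Ioo 0 t, HasDerivAt f 0 τ := by
      intro τ hτ
      have h1 : ∀ p, HasDerivAt (fun s => X s p) (-(R p.1) * X τ p + opA θ C (X τ) (X τ) p) τ :=
        hXd τ hτ.1
      have h2 := pr_deriv h1 p
      have e1 : pr (fun p => -(R p.1) * X τ p + opA θ C (X τ) (X τ) p) p =
          -m * pr (X τ) p + opA θ C (X τ) (X τ) p := by
        have h3 := pr_add (fun p => -(R p.1) * X τ p) (opA θ C (X τ) (X τ))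
        have h4 := pr_mult (fun k => -(R k)) (X τ)
        rw [h4, pr_opA θ hC (hXr τ)] at h3
        exact congrFun h3 p
      rw [e1] at h2
      have h5 : HasDerivAt (fun τ => Real.exp (m * τ)) (Real.exp (m * τ) * m) τ := by
        have := ((hasDerivAt_id τ).const_mul m).exp
        simpa using this
      have h9 : HasDerivAt (fun s => X s p - pr (X s) p) (-(R p.1) * X τ p +
        opA θ C (X τ) (X τ) p - (-m * pr (X τ) p + opA θ C (X τ) (X τ) p)) τ := (h1 p).sub h2
      refine (h5.mul h9).congr_deriv ?_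
      simp only [hm]
      ring
    have h6 := const_of_deriv ht hc.continuousOn hd
    have h7 : f 0 = 0 := by
      simp only [hf, hX0, h0.pr_cf, sub_self, mul_zero]
    rw [h7] at h6
    have h8 := (mul_eq_zero.1 h6).resolve_left (Real.exp_pos _).ne'
    linarith
  set g : ℝ → K3 × Fin 3 → ℝ := fun t => opG (X t) (X t) with hg
  have hgT : ∀ n, Tn mu n g := fun n => (hXT n).bil wt_mu opG_bil (hXT n)
  set π : ℝ → K3 → ℝ := fun t k => (-θ) * pq (g t) k with hπ
  have hπT : ∀ n, Tn mk n π := fun n => Tn.fac wt_mk (p := fun _ => -θ) (A := |θ|) (r := 0)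
    (fun k => by rw [pow_zero, mul_one, abs_neg]) (pq_Tn (hgT n))
  refine ⟨fun t => fd (X t), fun t => syn (π t), ?_, fun T => ⟨?_, ?_, ?_, fun t _ => syn_per _, ?_⟩⟩
  · show fd (X 0) = u₀
    rw [hX0, h0.fd]
  · rw [contDiffOn_pi]
    intro i
    exact (smooth_syn fun n => (hXT n).comp i).mono (prod_mono (fun t ht => ht.1) subset_rfl)
  · exact (smooth_syn hπT).mono (prod_mono (fun t ht => ht.1) subset_rfl)
  · intro t ht
    exact field_of_pr (hXr t) (hpr t ht.1)
  · intro t ht x i
    have hF : Lions.Field (fd (X t)) := field_of_pr (hXr t) (hpr t ht.1.le)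
    obtain ⟨h1, h2, X', h3, h4⟩ := hXT 1
    have hX'r : ∀ t, RD mu (X' t) := fun t => h4.1.at t
    have hdt : deriv (fun τ => fd (X τ) x i) t = fd (X' t) x i :=
      (syn_deriv (h := fun t k => X t (k, i)) (h' := fun t k => X' t (k, i)) ((hXT 0).comp i).1 (Tn.comp h4 i).1
        (fun k t ht => h3 (k, i) t ht) ht.1 x).deriv
    have hX' : ∀ p, X' t p = -(R p.1) * X t p + opA θ C (X t) (X t) p := fun p =>
      (h3 p t ht.1).unique (hXd t ht.1 p)
    rw [hdt]
    -- compare the coefficients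
    have hsp := hF.sp
    have hcv := sp_cv hF.sp hF.sp
    have hCu := hC.field _ _ hF hF
    have hps : SP (syn (π t)) := sp_syn ((hπT 0).1.at t)
    have key : (fun x => fd (X' t) x i + θ * cv (fd (X t)) (fd (X t)) x i + pd i (syn (π t)) x) =
        fun x => -1 * mlt D (fun y => fd (X t) y i) x + C (fd (X t)) (fd (X t)) x i := by
      have q1 := sp_fd (hX'r t) i
      have q2 := SP.smul (hcv i) θ
      have q3 := hps.pd i
      have q4 := SP.smul (sp_mlt hD (hsp i)) (-1)
      refine ext_ha ((q1.add q2).add q3) (q4.add (hCu.sp i)) fun k => ?_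
      rw [ha_add (q1.add q2) q3, ha_add q1 q2, ha_add q4 (hCu.sp i), ha_smul, ha_smul, ha_pd hps, ha_mlt hD (hsp i)]
      have a1 : ha (fun x => fd (X' t) x i) k = X' t (k, i) := congrFun (cf_fd (hX'r t)) (k, i)
      have a2 : ha (fun x => fd (X t) x i) k = X t (k, i) := congrFun (cf_fd (hXr t)) (k, i)
      have a3 : ha (fun x => cv (fd (X t)) (fd (X t)) x i) k = g t (k, i) := by
        simp only [hg, opG]
        rw [hpr t ht.1.le]
        rfl
      have a4 : ha (fun x => C (fd (X t)) (fd (X t)) x i) k = opC C (X t) (X t) (k, i) := by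
        unfold opC
        rw [hpr t ht.1.le]
        rfl
      have a5 : ha (syn (π t)) (-k) = π t (-k) := ha_syn (((hπT 0).1.at t).summable_abs wt_mk) (-k)
      have a6 : ∀ i, g t (0, i) = 0 := by
        intro i
        simp only [hg, opG]
        rw [hpr t ht.1.le]
        exact ha_zero_of_mean (mean_cv hF hF.sp i)
      have a7 := grad_pq (g t) a6 k i
      rw [a1, a2, a3, a4, a5, hX']
      have a8 : R k * X t (k, i) = D k * X t (k, i) := by
        by_cases hk : k = 0
        · subst hk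
          have : X t (0, i) = 0 := by rw [← hpr t ht.1.le, pr_zero]
          rw [this, mul_zero, mul_zero]
        · rw [hRD k hk]
      simp only [opA, hπ]
      linear_combination (-1) * a8 + θ * a7
    have := congrFun key x
    show fd (X' t) x i + θ * cv (fd (X t)) (fd (X t)) x i + pd i (syn (π t)) x = _
    rw [neg_one_mul] at this
    exact this

end Pool.Agent.H39.Log
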