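import Pool.Agent.H39.Log.UniqD
import Pool.Agent.H39.PDE.Final

/-!
# Uniqueness of smooth solutions with a given force, for nonnegative symbols
-/

open MeasureTheory Set Filter Topology
open scoped ContDiff ENNReal

namespace Pool.Agent.H39.Log

open Pool.Agent.H39.Lions hiding Field
open H459R3.NS (V K3 Per cube SP pd lap ee fr S N)
open Pool.Agent.H39.PDE (fq sob ip)
open Pool.Agent.K1H11.NS (Ev.SF pd_lin zero_of_sq SF_sub)

/-- solutions of the equation with force `f` -/
structure FSolD (θ : ℝ) (D : K3 → ℝ) (T : ℝ) (f : ℝ → V → V) (u : ℝ → V → V) (p : ℝ → V → ℝ) : Prop where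
  smooth_u : ContDiffOn ℝ ∞ (fun z : ℝ × V => u z.1 z.2) (Ico 0 T ×ˢ univ)
  smooth_p : ContDiffOn ℝ ∞ (fun z : ℝ × V => p z.1 z.2) (Ico 0 T ×ˢ univ)
  per_u : ∀ t ∈ Ico 0 T, Per (u t)
  per_p : ∀ t ∈ Ico 0 T, Per (p t)
  divfree : ∀ t ∈ Ico 0 T, ∀ x, ∑ i, pd i (fun y => u t y i) x = 0
  momentum : ∀ t ∈ Ioo 0 T, ∀ x i,
    deriv (fun τ => u τ x i) t + θ * ∑ j, u t x j * pd j (fun y => u t y i) x
      = -1 * mlt D (fun y => u t y i) x - pd i (p t) x + f t x i

variable {θ T : ℝ} {D : K3 → ℝ} {f : ℝ → V → V} {u w : ℝ → V → V} {p q : ℝ → V → ℝ}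

theorem FSolD.SF (h : FSolD θ D T f u p) (i : Fin 3) : Ev.SF T fun s y => u s y i :=
  ⟨(contDiffOn_pi.1 h.smooth_u) i, fun s hs j x => by simp only [h.per_u s hs j x]⟩

theorem FSolD.SFp (h : FSolD θ D T f u p) : Ev.SF T p := ⟨h.smooth_p, h.per_p⟩

theorem FSolD.unique (hD : Sym D) (hD0 : ∀ k, 0 ≤ D k) (h1 : FSolD θ D T f u p) (h2 : FSolD θ D T f w q) (h0 : u 0 = w 0) {t : ℝ}
    (ht : t ∈ Ico 0 T) : u t = w t := by
  set a : Fin 3 → ℝ → V → ℝ := fun i s y => u s y i - w s y i with ha
  have hSF : ∀ i, Ev.SF T (a i) := fun i => SF_sub (h1.SF i) (h2.SF i)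
  have hSP : ∀ s ∈ Ico 0 T, ∀ i, SP (a i s) := fun s hs i => (hSF i).sp hs
  obtain ⟨b, hb1, hb2⟩ := exists_between ht.2
  -- bounds
  have hM : ∃ M : ℝ, 0 ≤ M ∧ ∀ i j, ∀ s ∈ Icc 0 b, ∀ x ∈ cube, |θ * pd j (fun y => w s y i) x| ≤ M := by
    choose C hC using fun i j => ((h2.SF i).pd j).bound hb2
    refine ⟨|θ| * ∑ i, ∑ j, |C i j|, by positivity, fun i j s hs x hx => ?_⟩
    rw [abs_mul]
    refine mul_le_mul_of_nonneg_left ?_ (abs_nonneg _)
    refine (hC i j s hs x hx).trans ((le_abs_self _).trans ?_)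
    refine le_trans ?_ (Finset.single_le_sum (f := fun i => ∑ j, |C i j|) (fun i _ => by positivity)
      (Finset.mem_univ i))
    exact Finset.single_le_sum (f := fun j => |C i j|) (fun j _ => abs_nonneg _) (Finset.mem_univ j)
  obtain ⟨M, hM0, hM⟩ := hM
  set e : ℝ → ℝ := fun s => ∑ i, ∫ x in cube, a i s x ^ 2 with he
  have hec : ContinuousOn e (Ico 0 T) := by
    refine continuousOn_finsetSum _ fun i _ => ?_
    exact H459R3.NS.continuousOn_int (F := fun s x => a i s x ^ 2) ((hSF i).smooth.continuousOn.pow 2)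
  have hdt : ∀ τ ∈ Ioo 0 T, ∀ i x, H459R3.NS.dt (a i) τ x = -1 * mlt D (a i τ) x -
      θ * (∑ j, u τ x j * pd j (a i τ) x) -
      ∑ j, a j τ x * (θ * pd j (fun y => w τ y i) x) - pd i (fun y => p τ y - q τ y) x := by
    intro τ hs i x
    have hI : τ ∈ Ico 0 T := ⟨hs.1.le, hs.2⟩
    have m1 := h1.momentum τ hs x i
    have m2 := h2.momentum τ hs x i
    have d1 : HasDerivAt (fun s => u s x i) (deriv (fun s => u s x i) τ) τ :=
      (H459R3.NS.hasDerivAt_slice (F := fun s y => u s y i) (H459R3.NS.mono_Ioo (f := fun s y => u s y i)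
        (h1.SF i).smooth (n := 1) (by norm_cast)) hs x).differentiableAt.hasDerivAt
    have d2 : HasDerivAt (fun s => w s x i) (deriv (fun s => w s x i) τ) τ :=
      (H459R3.NS.hasDerivAt_slice (F := fun s y => w s y i) (H459R3.NS.mono_Ioo (f := fun s y => w s y i)
        (h2.SF i).smooth (n := 1) (by norm_cast)) hs x).differentiableAt.hasDerivAt
    have e1 : H459R3.NS.dt (a i) τ x = deriv (fun s => u s x i) τ - deriv (fun s => w s x i) τ := (d1.sub d2).deriv
    have e2 : ∀ j y, pd j (a i τ) y = pd j (fun y => u τ y i) y - pd j (fun y => w τ y i) y := by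
      intro j y
      have := pd_lin ((h1.SF i).sp hI) ((h2.SF i).sp hI) 1 (-1) j y
      rw [show a i τ = fun y => 1 * u τ y i + -1 * w τ y i from funext fun y => by simp only [ha]; ring, this]
      ring
    have e3 : mlt D (a i τ) x = mlt D (fun y => u τ y i) x - mlt D (fun y => w τ y i) x :=
      mlt_sub hD ((h1.SF i).sp hI) ((h2.SF i).sp hI) x
    have e4 : pd i (fun y => p τ y - q τ y) x = pd i (p τ) x - pd i (q τ) x := by
      have := pd_lin (h1.SFp.sp hI) (h2.SFp.sp hI) 1 (-1) i x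
      rw [show (fun y => p τ y - q τ y) = fun y => 1 * p τ y + -1 * q τ y from funext fun y => by ring, this]
      ring
    rw [e1, e3, e4]
    simp only [e2]
    have e5 : θ * ∑ j, u τ x j * (pd j (fun y => u τ y i) x - pd j (fun y => w τ y i) x) +
        ∑ j, a j τ x * (θ * pd j (fun y => w τ y i) x) =
        θ * ∑ j, u τ x j * pd j (fun y => u τ y i) x - θ * ∑ j, w τ x j * pd j (fun y => w τ y i) x := by
      rw [Finset.mul_sum, Finset.mul_sum, Finset.mul_sum, ← Finset.sum_add_distrib, ← Finset.sum_sub_distrib]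
      exact Finset.sum_congr rfl fun j _ => by simp only [ha]; ring
    linarith
  have hde : ∀ τ ∈ Ioo 0 b, ∃ e', HasDerivAt e e' τ ∧ e' ≤ 6 * M * e τ := by
    intro τ hs
    have hs' : τ ∈ Ioo 0 T := ⟨hs.1, hs.2.trans hb2⟩
    have hI : τ ∈ Ico 0 T := ⟨hs.1.le, hs'.2⟩
    have d1 : ∀ i, HasDerivAt (fun s => ∫ x in cube, a i s x ^ 2) (2 * ∫ x in cube, a i τ x * H459R3.NS.dt (a i) τ x) τ := by
      intro i
      have hF : ContDiffOn ℝ 1 (fun z : ℝ × V => a i z.1 z.2 ^ 2) (Ioo 0 T ×ˢ univ) :=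
        (H459R3.NS.mono_Ioo (f := a i) (hSF i).smooth (by norm_cast)).pow 2
      have key := H459R3.NS.hasDerivAt_int (F := fun s x => a i s x ^ 2) hF hs'
      refine key.congr_deriv ?_
      rw [← integral_const_mul]
      congr 1
      funext x
      have h2 : HasDerivAt (fun s => a i s x) (H459R3.NS.dt (a i) τ x) τ := by
        have := H459R3.NS.hasDerivAt_slice (F := a i) (H459R3.NS.mono_Ioo (f := a i) (hSF i).smooth (n := 1)
          (by norm_cast)) hs' x
        rwa [← H459R3.NS.dt_eq (f := a i) (hSF i).smooth hs' x] at this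
      have h3 : HasDerivAt (fun s => a i s x ^ 2) _ τ := h2.pow 2
      rw [h3.deriv]
      simp only [Nat.cast_ofNat, Nat.add_one_sub_one, pow_one]
      ring
    refine ⟨_, HasDerivAt.fun_sum fun i _ => d1 i, ?_⟩
    have hu : ∀ i, SP (fun y => u τ y i) := fun i => (h1.SF i).sp hI
    have hdu : ∀ x, ∑ i, pd i (fun y => u τ y i) x = 0 := h1.divfree τ hI
    have hda : ∀ x, ∑ i, pd i (a i τ) x = 0 := by
      intro x
      have e2 : ∀ i, pd i (a i τ) x = pd i (fun y => u τ y i) x - pd i (fun y => w τ y i) x := by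
        intro i
        have := pd_lin ((h1.SF i).sp hI) ((h2.SF i).sp hI) 1 (-1) i x
        rw [show a i τ = fun y => 1 * u τ y i + -1 * w τ y i from funext fun y => by simp only [ha]; ring, this]
        ring
      simp only [e2]
      rw [Finset.sum_sub_distrib, h1.divfree τ hI, h2.divfree τ hI, sub_zero]
    have hA := hSP τ hI
    have hW : ∀ i, SP (fun y => w τ y i) := fun i => (h2.SF i).sp hI
    have hP : SP (fun y => p τ y - q τ y) := (SF_sub h1.SFp h2.SFp).sp hI
    have hL : ∀ i, SP (mlt D (a i τ)) := fun i => sp_mlt hD (hA i)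
    -- the four terms
    have t1 : ∀ i, ∫ x in cube, a i τ x * H459R3.NS.dt (a i) τ x = -1 * (∫ x in cube, mlt D (a i τ) x * a i τ x) -
        θ * (∑ j, ∫ x in cube, u τ x j * (a i τ x * pd j (a i τ) x)) -
        (∑ j, ∫ x in cube, a i τ x * (a j τ x * (θ * pd j (fun y => w τ y i) x))) -
        ∫ x in cube, a i τ x * pd i (fun y => p τ y - q τ y) x := by
      intro i
      have e1 : ∀ x, a i τ x * H459R3.NS.dt (a i) τ x = -1 * (mlt D (a i τ) x * a i τ x) -
          θ * (∑ j, u τ x j * (a i τ x * pd j (a i τ) x)) -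
          (∑ j, a i τ x * (a j τ x * (θ * pd j (fun y => w τ y i) x))) -
          a i τ x * pd i (fun y => p τ y - q τ y) x := by
        intro x
        rw [hdt τ hs' i x, ← Finset.mul_sum]
        have : ∑ j, u τ x j * (a i τ x * pd j (a i τ) x) =
            a i τ x * ∑ j, u τ x j * pd j (a i τ) x := by
          rw [Finset.mul_sum]; exact Finset.sum_congr rfl fun j _ => by ring
        rw [this]; ring
      simp_rw [e1]
      have i1 : IntegrableOn (fun x => -1 * (mlt D (a i τ) x * a i τ x)) cube :=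
        (((hL i).mul (hA i)).int).const_mul _
      have i2 : ∀ j, IntegrableOn (fun x => u τ x j * (a i τ x * pd j (a i τ) x)) cube := fun j =>
        ((hu j).mul ((hA i).mul ((hA i).pd j))).int
      have i3 : ∀ j, IntegrableOn (fun x => a i τ x * (a j τ x * (θ * pd j (fun y => w τ y i) x))) cube :=
        fun j => ((hA i).mul ((hA j).mul (SP.smul ((hW i).pd j) θ))).int
      have i4 : IntegrableOn (fun x => a i τ x * pd i (fun y => p τ y - q τ y) x) cube :=
        ((hA i).mul (hP.pd i)).int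
      have i2' : IntegrableOn (fun x => θ * ∑ j, u τ x j * (a i τ x * pd j (a i τ) x)) cube :=
        (integrable_finsetSum _ fun j _ => i2 j).const_mul _
      have i3' : IntegrableOn (fun x => ∑ j, a i τ x * (a j τ x * (θ * pd j (fun y => w τ y i) x))) cube :=
        integrable_finsetSum _ fun j _ => i3 j
      have i12 : IntegrableOn (fun x => -1 * (mlt D (a i τ) x * a i τ x) -
          θ * ∑ j, u τ x j * (a i τ x * pd j (a i τ) x)) cube := i1.sub i2'
      have i123 : IntegrableOn (fun x => -1 * (mlt D (a i τ) x * a i τ x) -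
          θ * (∑ j, u τ x j * (a i τ x * pd j (a i τ) x)) -
          (∑ j, a i τ x * (a j τ x * (θ * pd j (fun y => w τ y i) x)))) cube := i12.sub i3'
      rw [integral_sub i123 i4, integral_sub i12 i3', integral_sub i1 i2', integral_const_mul θ,
        integral_finsetSum _ fun j _ => i2 j, integral_finsetSum _ fun j _ => i3 j, integral_const_mul]
    have s1 : ∀ i, 0 ≤ ∫ x in cube, mlt D (a i τ) x * a i τ x := fun i => mlt_nonneg hD hD0 (hA i)
    have s2 : ∀ i, ∑ j, ∫ x in cube, u τ x j * (a i τ x * pd j (a i τ) x) = 0 := fun i =>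
      H459R3.NS.transport_zero (v := fun j y => u τ y j) hu hdu (hA i)
    have s4 : ∑ i, ∫ x in cube, a i τ x * pd i (fun y => p τ y - q τ y) x = 0 :=
      H459R3.NS.int_press (v := fun i => a i τ) hA hda hP
    have hcz : MeasurableSet cube := measurableSet_Icc
    have s3 : ∀ i j, -(∫ x in cube, a i τ x * (a j τ x * (θ * pd j (fun y => w τ y i) x))) ≤
        M / 2 * ((∫ x in cube, a i τ x ^ 2) + ∫ x in cube, a j τ x ^ 2) := by
      intro i j
      have q1 : IntegrableOn (fun x => a i τ x ^ 2) cube := H459R3.NS.integrableOn_cube ((hA i).cont.pow 2)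
      have q2 : IntegrableOn (fun x => a j τ x ^ 2) cube := H459R3.NS.integrableOn_cube ((hA j).cont.pow 2)
      rw [← integral_neg, ← integral_add q1 q2, ← integral_const_mul]
      refine setIntegral_mono_on ((hA i).mul ((hA j).mul (SP.smul ((hW i).pd j) θ))).int.neg
        ((H459R3.NS.integrableOn_cube (((hA i).cont.pow 2).add ((hA j).cont.pow 2))).const_mul _) hcz
        fun x hx => ?_
      have hb := hM i j τ ⟨hs.1.le, hs.2.le⟩ x hx
      have h1 : -(a i τ x * (a j τ x * (θ * pd j (fun y => w τ y i) x))) ≤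
          |a i τ x| * |a j τ x| * M := by
        refine (neg_le_abs _).trans ?_
        rw [abs_mul, abs_mul, ← mul_assoc]
        exact mul_le_mul_of_nonneg_left hb (by positivity)
      have h2 : |a i τ x| * |a j τ x| ≤ (a i τ x ^ 2 + a j τ x ^ 2) / 2 := by
        have := two_mul_le_add_sq |a i τ x| |a j τ x|
        rw [sq_abs, sq_abs] at this
        linarith
      calc _ ≤ |a i τ x| * |a j τ x| * M := h1
        _ ≤ (a i τ x ^ 2 + a j τ x ^ 2) / 2 * M := mul_le_mul_of_nonneg_right h2 hM0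
        _ = _ := by ring
    have hsum : ∑ i, 2 * ∫ x in cube, a i τ x * H459R3.NS.dt (a i) τ x =
        2 * (-1 * (∑ i, ∫ x in cube, mlt D (a i τ) x * a i τ x)) +
        2 * ∑ i, ∑ j, -(∫ x in cube, a i τ x * (a j τ x * (θ * pd j (fun y => w τ y i) x))) := by
      simp_rw [t1, s2]
      rw [← Finset.mul_sum]
      simp only [Finset.sum_sub_distrib, Finset.sum_neg_distrib, mul_zero, sub_zero]
      rw [s4, ← Finset.mul_sum]
      ring
    rw [hsum]
    have b1 : -1 * (∑ i, ∫ x in cube, mlt D (a i τ) x * a i τ x) ≤ 0 :=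
      mul_nonpos_of_nonpos_of_nonneg (by norm_num : (-1 : ℝ) ≤ 0) (Finset.sum_nonneg fun i _ => s1 i)
    have b2 : ∑ i, ∑ j, -(∫ x in cube, a i τ x * (a j τ x * (θ * pd j (fun y => w τ y i) x))) ≤
        3 * M * e τ := by
      calc _ ≤ ∑ i : Fin 3, ∑ j : Fin 3, M / 2 * ((∫ x in cube, a i τ x ^ 2) + ∫ x in cube, a j τ x ^ 2) :=
            Finset.sum_le_sum fun i _ => Finset.sum_le_sum fun j _ => s3 i j
        _ = 3 * M * e τ := by
            simp only [he, Fin.sum_univ_three]
            ring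
    linarith
  -- Gronwall
  have hb0 : 0 ≤ b := ht.1.trans hb1.le
  have hanti : AntitoneOn (fun s => Real.exp (-(6 * M * s)) * e s) (Icc 0 b) := by
    have hexp : Continuous fun s : ℝ => Real.exp (-(6 * M * s)) := by fun_prop
    refine antitoneOn_of_deriv_nonpos (convex_Icc 0 b)
      (hexp.continuousOn.mul (hec.mono fun s hs => ⟨hs.1, hs.2.trans_lt hb2⟩)) ?_ ?_
    · rw [interior_Icc]
      intro s hs
      obtain ⟨e', he', -⟩ := hde s hs
      exact (by fun_prop : DifferentiableAt ℝ (fun s : ℝ => Real.exp (-(6 * M * s))) s).mul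
        he'.differentiableAt |>.differentiableWithinAt
    · rw [interior_Icc]
      intro s hs
      obtain ⟨e', he', hle⟩ := hde s hs
      have h3 : HasDerivAt (fun s : ℝ => Real.exp (-(6 * M * s))) (Real.exp (-(6 * M * s)) * (-(6 * M))) s := by
        have : HasDerivAt (fun s : ℝ => -(6 * M * s)) (-(6 * M)) s := by
          have h := ((hasDerivAt_id s).const_mul (6 * M)).neg
          rw [mul_one] at h
          exact h
        exact this.exp
      have h5 : HasDerivAt (fun s => Real.exp (-(6 * M * s)) * e s) _ s := h3.mul he'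
      rw [h5.deriv]
      have h4 := Real.exp_pos (-(6 * M * s))
      nlinarith
  have he0 : e 0 = 0 := by
    simp only [he, ha, h0, sub_self]
    simp
  have het : e t ≤ 0 := by
    have h3 := hanti (⟨le_rfl, hb0⟩ : (0 : ℝ) ∈ Icc 0 b) (⟨ht.1, hb1.le⟩ : t ∈ Icc 0 b) ht.1
    simp only [he0, mul_zero] at h3
    have h4 := Real.exp_pos (-(6 * M * t))
    by_contra hcon
    push Not at hcon
    have := mul_pos h4 hcon
    linarith
  have hnn : ∀ i, 0 ≤ ∫ x in cube, a i t x ^ 2 := fun i => integral_nonneg fun x => sq_nonneg _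
  funext x i
  have hi : ∫ x in cube, a i t x ^ 2 = 0 := by
    refine le_antisymm ?_ (hnn i)
    exact (Finset.single_le_sum (f := fun i => ∫ x in cube, a i t x ^ 2) (fun i _ => hnn i) (Finset.mem_univ i)).trans
      het
  have := zero_of_sq (hSP t ht i) hi x
  simp only [ha] at this
  linarith

end Pool.Agent.H39.Log
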