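import Pool.Agent.H39.Log.Bound

/-!
# Global solutions with general dissipation rates
-/

open Set Filter Topology Metric
open scoped ContDiff NNReal

namespace Pool.Agent.H39.Log

open Pool.Agent.H39.Lions

variable {ι : Type*} {μ : ι → ℝ} {C : (ι → ℝ) → (ι → ℝ) → ι → ℝ}

/-- a priori bounds for the Galerkin solutions -/
def APri (μ : ι → ℝ) (C : (ι → ℝ) → (ι → ℝ) → ι → ℝ) (ρ : ι → ℝ) (x0 : ι → ℝ) : Prop :=
  ∀ m : ℕ, ∃ B : ℝ, ∀ (T : ℝ) (F : Finset ι) (x : ℝ → ι → ℝ), 0 ≤ T → GSolR C ρ T F x →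
    (∀ i, |x 0 i| ≤ |x0 i|) → ∀ t ∈ Icc 0 T, ∀ i, μ i ^ m * |x t i| ≤ B

theorem aPri (hμ : Wt μ) (hC : Bil μ C) (hcr : Crit μ C) (hE : ∀ x, RD μ x → ∑' i, C x x i * x i = 0)
    {ν : ℝ} (hν : 0 < ν) {x0 : ι → ℝ} (h0 : RD μ x0) {ρ : ι → ℝ}
    (hρ : ∀ i, ν * μ i ^ (5 / 2 : ℝ) ≤ ρ i * (1 + Real.log (μ i))) : APri μ C ρ x0 := by
  intro m
  obtain ⟨B, hB0, hB⟩ := bounds hμ hC hcr hE hν h0 m
  refine ⟨B, fun T F x hT hx hx0 t ht i => ?_⟩
  have h1 := hB ρ T F x hρ hT hx hx0 t ht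
  have h2 := abs_le_nrm hμ (hx.rd t) m i
  rw [Real.rpow_natCast] at h2
  exact h2.trans ((nrm_mono hμ (hx.rd t) (by linarith : (m : ℝ) ≤ m + 1)).trans h1)

section fin

variable [DecidableEq ι]

theorem gsolR (hμ : Wt μ) (hC : Bil μ C) (hE : ∀ x, RD μ x → ∑' i, C x x i * x i = 0) {ρ : ι → ℝ} (hρ : ∀ i, 0 ≤ ρ i)
    (F : Finset ι) (x0 : ι → ℝ) (h0 : ∀ i, i ∉ F → x0 i = 0) {T : ℝ} (hT : 0 ≤ T) :
    ∃ x : ℝ → ι → ℝ, x 0 = x0 ∧ GSolR C ρ T F x := by
  have hen : ∀ y : ι → ℝ, (∀ i, i ∉ F → y i = 0) → ∑ i ∈ F, y i * (-(ρ i) * y i +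
      ∑ j ∈ F, ∑ k ∈ F, C (Pi.single j 1) (Pi.single k 1) i * (y j * y k)) ≤ 0 := by
    intro y hy
    have h1 := hE y (RD.fin F hy)
    rw [tsum_eq_sum (s := F) fun i hi => by rw [hy i hi, mul_zero]] at h1
    have h2 : ∑ i ∈ F, y i * (-(ρ i) * y i + ∑ j ∈ F, ∑ k ∈ F,
        C (Pi.single j 1) (Pi.single k 1) i * (y j * y k)) =
        -∑ i ∈ F, ρ i * y i ^ 2 + ∑ i ∈ F, C y y i * y i := by
      rw [← Finset.sum_neg_distrib, ← Finset.sum_add_distrib]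
      refine Finset.sum_congr rfl fun i _ => ?_
      rw [← hC.expand hμ F hy i]
      ring
    rw [h2, h1, add_zero]
    apply neg_nonpos.2
    exact Finset.sum_nonneg fun i _ => mul_nonneg (hρ i) (sq_nonneg _)
  obtain ⟨x, hx0, hsupp, hx⟩ := gal F (fun i => ρ i)
    (fun i j k => C (Pi.single j 1) (Pi.single k 1) i) hen x0 h0 hT
  refine ⟨x, hx0, hsupp, fun t ht i hi => ?_⟩
  rw [hC.expand hμ F (hsupp t)]
  exact hx t ht i hi

end fin

/-- **Global existence, with uniform bounds.** -/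
theorem exists_globalR (hμ : Wt μ) (hC : Bil μ C) (hE : ∀ x, RD μ x → ∑' i, C x x i * x i = 0) {ρ : ι → ℝ}
    (hρ : ∀ i, 0 ≤ ρ i) (hρr : ∃ (r : ℕ) (A : ℝ), 0 ≤ A ∧ ∀ i, ρ i ≤ A * μ i ^ r) {x0 : ι → ℝ} (hap : APri μ C ρ x0) :
    ∃ X : ℝ → ι → ℝ, X 0 = x0 ∧ (∀ m : ℕ, ∃ B : ℝ, ∀ t, 0 ≤ t → ∀ i, μ i ^ m * |X t i| ≤ B) ∧
      ∀ t, 0 ≤ t → ∀ i, HasDerivWithinAt (fun s => X s i)
        (-(ρ i) * X t i + C (X t) (X t) i) (Ici 0) t := by
  classical
  set F : ℕ → Finset ι := fun N => (hμ.finite N).toFinset with hF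
  have hmem : ∀ i, ∀ᶠ N : ℕ in atTop, i ∈ F N := by
    intro i
    filter_upwards [(tendsto_natCast_atTop_atTop (R := ℝ)).eventually_ge_atTop (μ i)] with N hN
    simpa [hF] using hN
  have hx0r : ∀ N : ℕ, ∀ i, i ∉ F N → (if i ∈ F N then x0 i else 0) = 0 := fun N i hi => if_neg hi
  choose x hx0 hx using fun N : ℕ => gsolR hμ hC hE hρ (F N) (fun i => if i ∈ F N then x0 i else 0)
    (hx0r N) (Nat.cast_nonneg N)
  have hxr : ∀ N t, RD μ (x N t) := fun N t => (hx N).rd t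
  -- uniform bounds
  have hB : ∀ m : ℕ, ∃ B : ℝ, ∀ N : ℕ, ∀ t ∈ Icc (0 : ℝ) N, ∀ i, μ i ^ m * |x N t i| ≤ B := by
    intro m
    obtain ⟨B, hB⟩ := hap m
    refine ⟨B, fun N t ht i => hB N (F N) (x N) (Nat.cast_nonneg N) (hx N) (fun i => ?_) t ht i⟩
    rw [hx0 N]
    show |if i ∈ F N then x0 i else 0| ≤ |x0 i|
    split_ifs
    · exact le_rfl
    · rw [abs_zero]; exact abs_nonneg _
  -- the right hand side
  set g : ℕ → ℝ → ι → ℝ := fun N t i => -(ρ i) * x N t i + C (x N t) (x N t) i with hg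
  have hgB : ∀ m : ℕ, ∃ B : ℝ, 0 ≤ B ∧ ∀ N : ℕ, ∀ t ∈ Icc (0 : ℝ) N, ∀ i, μ i ^ m * |g N t i| ≤ B := by
    intro m
    obtain ⟨n, ν, hν, hn⟩ := hρr
    obtain ⟨B1, h1⟩ := hB (m + n)
    obtain ⟨m', h2⟩ := hC.unif hμ m
    obtain ⟨B2, hB2⟩ := hB m'
    obtain ⟨B3, h3⟩ := h2 B2 B2
    refine ⟨|ν * B1 + B3|, abs_nonneg _, fun N t ht i => ?_⟩
    refine le_trans ?_ (le_abs_self _)
    have p0 : 0 ≤ μ i ^ m := (pow_pos (hμ.pos i) m).le
    have e1 : |g N t i| ≤ ν * μ i ^ n * |x N t i| + |C (x N t) (x N t) i| := by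
      simp only [hg]
      refine (abs_add_le _ _).trans (add_le_add ?_ le_rfl)
      rw [abs_mul, abs_neg, abs_of_nonneg (hρ i)]
      exact mul_le_mul_of_nonneg_right (hn i) (abs_nonneg _)
    have e2 := h3 (x N t) (x N t) (hxr N t) (hxr N t) (hB2 N t ht) (hB2 N t ht) i
    have e3 := h1 N t ht i
    calc μ i ^ m * |g N t i| ≤ μ i ^ m * (ν * μ i ^ n * |x N t i| + |C (x N t) (x N t) i|) :=
          mul_le_mul_of_nonneg_left e1 p0
      _ = ν * (μ i ^ (m + n) * |x N t i|) + μ i ^ m * |C (x N t) (x N t) i| := by rw [pow_add]; ring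
      _ ≤ ν * B1 + B3 := add_le_add (mul_le_mul_of_nonneg_left e3 hν) e2
  have hderiv : ∀ (N : ℕ) i, ∀ t ∈ Icc (0 : ℝ) N, i ∈ F N → HasDerivWithinAt (fun s => x N s i) (g N t i) (Icc 0 N) t :=
    fun N i t ht hi => (hx N).eq t ht i hi
  -- Lipschitz in time
  have hLip : ∀ m : ℕ, ∃ B : ℝ, 0 ≤ B ∧ ∀ N : ℕ, ∀ t ∈ Icc (0 : ℝ) N, ∀ t' ∈ Icc (0 : ℝ) N, ∀ i,
      μ i ^ m * |x N t i - x N t' i| ≤ B * |t - t'| := by
    intro m
    obtain ⟨B, hB0, h1⟩ := hgB m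
    refine ⟨B, hB0, fun N t ht t' ht' i => ?_⟩
    by_cases hi : i ∈ F N
    · have p0 : 0 < μ i ^ m := pow_pos (hμ.pos i) m
      have h2 := Convex.norm_image_sub_le_of_norm_hasDerivWithin_le (s := Icc (0 : ℝ) N)
        (f := fun s => x N s i) (f' := fun t => g N t i) (C := B / μ i ^ m) (x := t') (y := t)
        (fun s hs => hderiv N i s hs hi) (fun s hs => ?_) (convex_Icc _ _) ht' ht
      · rw [Real.norm_eq_abs, Real.norm_eq_abs] at h2
        calc μ i ^ m * |x N t i - x N t' i| ≤ μ i ^ m * (B / μ i ^ m * |t - t'|) :=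
              mul_le_mul_of_nonneg_left h2 p0.le
          _ = B * |t - t'| := by field_simp
      · rw [Real.norm_eq_abs, le_div_iff₀ p0, mul_comm]
        exact h1 N s hs i
    · rw [(hx N).supp t i hi, (hx N).supp t' i hi, sub_zero, abs_zero, mul_zero]
      positivity
  have hgLip : ∀ i, ∃ M : ℝ, ∀ N : ℕ, ∀ t ∈ Icc (0 : ℝ) N, ∀ t' ∈ Icc (0 : ℝ) N, |g N t i - g N t' i| ≤ M * |t - t'| := by
    intro i
    obtain ⟨K, hK0, hK⟩ := hC.bdd hμ
    obtain ⟨m1, A1, hA1, h1⟩ := hμ.nrm_le (5 / 4)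
    obtain ⟨B1, hB1⟩ := hB m1
    obtain ⟨L, hL0, hL⟩ := hLip m1
    obtain ⟨L0, hL00, hL0'⟩ := hLip 0
    refine ⟨ρ i * L0 + (K * ((L * A1) * (|B1| * A1)) + K * ((|B1| * A1) * (L * A1))), fun N t ht t' ht' => ?_⟩
    have hd : RD μ (fun i => x N t i - x N t' i) := RD.sub hμ (hxr N t) (hxr N t')
    have n1 : nrm μ (5 / 4) (fun i => x N t i - x N t' i) ≤ (L * |t - t'|) * A1 := by
      have := h1 (fun i => x N t i - x N t' i) (L * |t - t'|) (hL N t ht t' ht')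
      rwa [abs_of_nonneg (by positivity)] at this
    have n2 : ∀ t ∈ Icc (0 : ℝ) N, nrm μ (5 / 4) (x N t) ≤ |B1| * A1 := fun t ht => h1 _ B1 (hB1 N t ht)
    have e1 : C (x N t) (x N t) i - C (x N t') (x N t') i =
        C (fun i => x N t i - x N t' i) (x N t) i + C (x N t') (fun i => x N t i - x N t' i) i := by
      rw [hC.sub_left (hxr N t) (hxr N t') (hxr N t), hC.sub_right (hxr N t') (hxr N t) (hxr N t')]
      ring
    have e2 : g N t i - g N t' i = -(ρ i) * (x N t i - x N t' i) +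
        (C (fun i => x N t i - x N t' i) (x N t) i + C (x N t') (fun i => x N t i - x N t' i) i) := by
      rw [← e1]; simp only [hg]; ring
    have e3 : |x N t i - x N t' i| ≤ L0 * |t - t'| := by
      have := hL0' N t ht t' ht' i
      rwa [pow_zero, one_mul] at this
    have p := hρ i
    have f1 : |-(ρ i) * (x N t i - x N t' i)| ≤ ρ i * (L0 * |t - t'|) := by
      rw [abs_mul, abs_neg, abs_of_nonneg p]
      exact mul_le_mul_of_nonneg_left e3 p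
    have f2 : |C (fun i => x N t i - x N t' i) (x N t) i| ≤ K * (((L * |t - t'|) * A1) * (|B1| * A1)) := by
      refine (hK _ _ hd (hxr N t) i).trans (mul_le_mul_of_nonneg_left ?_ hK0)
      exact mul_le_mul n1 (n2 t ht) (nrm_nonneg _ _) (by positivity)
    have f3 : |C (x N t') (fun i => x N t i - x N t' i) i| ≤ K * ((|B1| * A1) * ((L * |t - t'|) * A1)) := by
      refine (hK _ _ (hxr N t') hd i).trans (mul_le_mul_of_nonneg_left ?_ hK0)
      exact mul_le_mul (n2 t' ht') n1 (nrm_nonneg _ _) (by positivity)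
    rw [e2]
    refine (abs_add_le _ _).trans ((add_le_add f1 ((abs_add_le _ _).trans (add_le_add f2 f3))).trans (le_of_eq ?_))
    ring
  -- the limit
  obtain ⟨l, hl⟩ : ∃ l : Ultrafilter ℕ, (l : Filter ℕ) ≤ atTop := Ultrafilter.exists_le atTop
  have hlim : ∀ t i, ∃ a, 0 ≤ t → Tendsto (fun N => x N t i) l (𝓝 a) := by
    intro t i
    by_cases ht : 0 ≤ t
    · obtain ⟨B, hB'⟩ := hB 0
      obtain ⟨a, ha⟩ := ultra_lim (l := l) (f := fun N => x N t i) (B := B) (by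
        refine hl ?_
        filter_upwards [(tendsto_natCast_atTop_atTop (R := ℝ)).eventually_ge_atTop t] with N hN
        have := hB' N t ⟨ht, hN⟩ i
        rwa [pow_zero, one_mul] at this)
      exact ⟨a, fun _ => ha⟩
    · exact ⟨0, fun h => absurd h ht⟩
  choose X hX using hlim
  have hXB : ∀ m : ℕ, ∃ B : ℝ, ∀ t, 0 ≤ t → ∀ i, μ i ^ m * |X t i| ≤ B := by
    intro m
    obtain ⟨B, hB'⟩ := hB m
    refine ⟨B, fun t ht i => ?_⟩
    refine le_of_tendsto (((hX t i ht).abs).const_mul (μ i ^ m)) (hl ?_)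
    filter_upwards [(tendsto_natCast_atTop_atTop (R := ℝ)).eventually_ge_atTop t] with N hN
    exact hB' N t ⟨ht, hN⟩ i
  have hXr : ∀ t, 0 ≤ t → RD μ (X t) := fun t ht m => by
    obtain ⟨B, h⟩ := hXB m
    exact ⟨B, h t ht⟩
  have hUB : ∀ t, 0 ≤ t → UB μ (l : Filter ℕ) fun N => x N t := by
    intro t ht m
    obtain ⟨B, hB'⟩ := hB m
    refine ⟨B, hl ?_⟩
    filter_upwards [(tendsto_natCast_atTop_atTop (R := ℝ)).eventually_ge_atTop t] with N hN
    exact fun i => hB' N t ⟨ht, hN⟩ i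
  refine ⟨X, ?_, hXB, fun t ht i => ?_⟩
  · funext i
    refine tendsto_nhds_unique (hX 0 i le_rfl) ?_
    refine Tendsto.congr' ?_ tendsto_const_nhds
    refine hl ?_
    filter_upwards [hmem i] with N hN
    rw [hx0 N]
    exact (if_pos hN).symm
  · obtain ⟨M, hM⟩ := hgLip i
    refine limit_deriv (l := (l : Filter ℕ)) hl (f := fun N s => x N s i) (g := fun N s => g N s i)
      (f' := fun s => X s i) (g' := fun s' => -(ρ i) * X s' i + C (X s') (X s') i) (M := M)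
      ?_ (Eventually.of_forall fun N t ht t' ht' => hM N t ht t' ht') (fun t ht => hX t i ht) (fun t ht => ?_) ht
    · filter_upwards [hmem i] with N hN t ht
      exact hderiv N i t ht hN
    · exact ((hX t i ht).const_mul _).add (tend_C hμ hC (fun N => hxr N t) (fun N => hxr N t) (hUB t ht) (hUB t ht)
        (hXr t ht) (hXr t ht) (fun i => hX t i ht) (fun i => hX t i ht) i)

/-- **Global solutions, differentiable in time to all orders.** -/
theorem exists_smoothR (hμ : Wt μ) (hC : Bil μ C) (hE : ∀ x, RD μ x → ∑' i, C x x i * x i = 0) {ρ : ι → ℝ}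
    (hρ : ∀ i, 0 ≤ ρ i) (hρr : ∃ (r : ℕ) (A : ℝ), 0 ≤ A ∧ ∀ i, ρ i ≤ A * μ i ^ r) {x0 : ι → ℝ} (hap : APri μ C ρ x0) :
    ∃ X : ℝ → ι → ℝ, X 0 = x0 ∧ (∀ n, Tn μ n X) ∧
      ∀ t, 0 < t → ∀ i, HasDerivAt (fun s => X s i) (-(ρ i) * X t i + C (X t) (X t) i) t := by
  obtain ⟨Y, hY0, hYB, hYd⟩ := exists_globalR hμ hC hE hρ hρr hap
  set X : ℝ → ι → ℝ := fun t => Y (max t 0) with hX
  have hXrd : RDt μ X := fun m => by
    obtain ⟨B, hB⟩ := hYB m
    exact ⟨B, fun t i => hB _ (le_max_right _ _) i⟩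
  have hXc : ∀ i, Continuous fun t => X t i := by
    intro i
    have h1 : ContinuousOn (fun t => Y t i) (Ici 0) := fun t ht => (hYd t ht i).continuousWithinAt
    exact h1.comp_continuous (continuous_id.max continuous_const) fun t => mem_Ici.2 (le_max_right _ _)
  have hXd : ∀ t, 0 < t → ∀ i, HasDerivAt (fun s => X s i) (-(ρ i) * X t i + C (X t) (X t) i) t := by
    intro t ht i
    have h1 := (hYd t ht.le i).hasDerivAt (Ici_mem_nhds ht)
    have h2 : (fun s => X s i) =ᶠ[𝓝 t] fun s => Y s i := by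
      filter_upwards [lt_mem_nhds ht] with s hs
      simp only [hX, max_eq_left hs.le]
    have h3 : X t = Y t := by simp only [hX, max_eq_left ht.le]
    rw [h3]
    exact h1.congr_of_eventuallyEq h2
  obtain ⟨r, A, hA, hr⟩ := hρr
  have hp : ∀ i, |-(ρ i)| ≤ A * μ i ^ r := by
    intro i
    rw [abs_neg, abs_of_nonneg (hρ i)]
    exact hr i
  refine ⟨X, by simp only [hX, max_self]; exact hY0, fun n => ?_, hXd⟩
  induction n with
  | zero => exact ⟨hXrd, hXc⟩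
  | succ n ih =>
    exact ⟨hXrd, hXc, fun t i => -(ρ i) * X t i + C (X t) (X t) i, fun i t ht => hXd t ht i,
      (ih.fac hμ hp).add hμ (ih.bil hμ hC ih)⟩

end Pool.Agent.H39.Log
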