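import Pool.Agent.H39.Dy.Max
import Pool.Agent.H39.Log.Defs

/-!
# Local existence for dyadic models with variable coefficients
-/

open Set Filter Topology MeasureTheory intervalIntegral

namespace Pool.Agent.H39.Log

open Pool.Agent.H39.Dy (prev Q Q_bound Q_lip Q_lin_bound prev_abs_le prev_sub_abs_le ext ext_continuous ext_abs_le
  comparison propagate Bd)

/-- bounded coefficients -/
def Cf (a b c d : ℕ → ℝ) (Λ : ℝ) : Prop := ∀ n, |a n| + |b n| + |c n| + |d n| ≤ Λ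

theorem Cf.nonneg {a b c d : ℕ → ℝ} {Λ : ℝ} (h : Cf a b c d Λ) : 0 ≤ Λ := le_trans (by positivity) (h 0)

theorem Cf.bound {a b c d : ℕ → ℝ} {Λ : ℝ} (h : Cf a b c d Λ) (n : ℕ) {p y z R : ℝ} (hp : |p| ≤ R) (hy : |y| ≤ R)
    (hz : |z| ≤ R) : |Q (a n) (b n) (c n) (d n) p y z| ≤ Λ * R ^ 2 :=
  (Q_bound hp hy hz).trans (mul_le_mul_of_nonneg_right (h n) (sq_nonneg R))

theorem Cf.lip {a b c d : ℕ → ℝ} {Λ : ℝ} (h : Cf a b c d Λ) (n : ℕ) {p y z p' y' z' R δ : ℝ} (hp : |p| ≤ R)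
    (hy : |y| ≤ R) (hz : |z| ≤ R) (hp' : |p'| ≤ R) (hy' : |y'| ≤ R) (hz' : |z'| ≤ R)
    (dp : |p - p'| ≤ δ) (dy : |y - y'| ≤ δ) (dz : |z - z'| ≤ δ) :
    |Q (a n) (b n) (c n) (d n) p y z - Q (a n) (b n) (c n) (d n) p' y' z'| ≤ 2 * Λ * R * δ := by
  have hR : 0 ≤ R := (abs_nonneg _).trans hp
  have hδ : 0 ≤ δ := (abs_nonneg _).trans dp
  refine (Q_lip hp hy hz hp' hy' hz' dp dy dz).trans ?_
  have := h n
  gcongr

theorem Cf.lin {a b c d : ℕ → ℝ} {Λ : ℝ} (h : Cf a b c d Λ) (n : ℕ) {p y z R : ℝ} (hp : |p| ≤ R) (hy : |y| ≤ R)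
    (hz : |z| ≤ R) : |Q (a n) (b n) (c n) (d n) p y z| ≤ Λ * R * (|p| + |y| + |z|) := by
  have hR : 0 ≤ R := (abs_nonneg _).trans hp
  refine (Q_lin_bound hp hy hz).trans ?_
  have := h n
  gcongr

section Picard

variable {T : ℝ} (hT : 0 ≤ T) (a b c d : ℕ → ℝ) (cc : ℕ → ℝ) (y : ℕ → ℝ)

/-- the nonlinearity along `Y` -/
noncomputable def force (Y : BoundedContinuousFunction (ℕ × Icc (0 : ℝ) T) ℝ) (n : ℕ) (s : ℝ) : ℝ :=
  Q (a n) (b n) (c n) (d n) (prev (fun k => ext hT Y k s) n) (ext hT Y n s) (ext hT Y (n + 1) s)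

theorem force_continuous (Y : BoundedContinuousFunction (ℕ × Icc (0 : ℝ) T) ℝ) (n : ℕ) :
    Continuous (force hT a b c d Y n) := by
  have h1 : Continuous fun s => prev (fun k => ext hT Y k s) n := by
    cases n with
    | zero => simpa [prev] using continuous_const
    | succ m => exact ext_continuous hT Y m
  have h2 := ext_continuous hT Y n
  have h3 := ext_continuous hT Y (n + 1)
  unfold force Q
  fun_prop

/-- the Duhamel map at a real time -/
noncomputable def duh (Y : BoundedContinuousFunction (ℕ × Icc (0 : ℝ) T) ℝ) (n : ℕ) (t : ℝ) : ℝ :=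
  Real.exp (-(cc n) * t) * (y n + ∫ s in (0 : ℝ)..t, Real.exp (cc n * s) * force hT a b c d Y n s)

theorem duh_hasDerivAt (Y : BoundedContinuousFunction (ℕ × Icc (0 : ℝ) T) ℝ) (n : ℕ) (t : ℝ) :
    HasDerivAt (duh hT a b c d cc y Y n)
      (force hT a b c d Y n t - cc n * duh hT a b c d cc y Y n t) t := by
  have hcont : Continuous fun s => Real.exp (cc n * s) * force hT a b c d Y n s := by
    have := force_continuous hT a b c d Y n
    fun_prop
  have h1 : HasDerivAt (fun t => ∫ s in (0 : ℝ)..t, Real.exp (cc n * s) * force hT a b c d Y n s)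
      (Real.exp (cc n * t) * force hT a b c d Y n t) t :=
    integral_hasDerivAt_right (hcont.intervalIntegrable _ _)
      (hcont.stronglyMeasurableAtFilter _ _) hcont.continuousAt
  have h2 : HasDerivAt (fun t : ℝ => -(cc n) * t) (-(cc n)) t := by
    simpa using (hasDerivAt_id' t).const_mul (-(cc n))
  have h3 := h2.exp.mul (h1.const_add (y n))
  refine h3.congr_deriv ?_
  unfold duh
  have e : Real.exp (-(cc n) * t) * Real.exp (cc n * t) = 1 := by
    rw [← Real.exp_add]; simp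
  linear_combination (force hT a b c d Y n t) * e

theorem duh_zero (Y : BoundedContinuousFunction (ℕ × Icc (0 : ℝ) T) ℝ) (n : ℕ) :
    duh hT a b c d cc y Y n 0 = y n := by
  simp [duh]

variable {a b c d cc y} {Λ : ℝ}

theorem duh_bound (hΛ : Cf a b c d Λ) (hcc : ∀ n, 0 ≤ cc n) {K : ℝ} (hy : ∀ n, |y n| ≤ K)
    {Y : BoundedContinuousFunction (ℕ × Icc (0 : ℝ) T) ℝ} {R : ℝ} (hR : ‖Y‖ ≤ R) (n : ℕ) :
    ∀ t ∈ Icc 0 T, |duh hT a b c d cc y Y n t| ≤ K + Λ * R ^ 2 * t := by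
  have hR0 : 0 ≤ R := (norm_nonneg _).trans hR
  apply comparison (hcc n) (fun t _ => (duh_hasDerivAt hT a b c d cc y Y n t).hasDerivWithinAt)
    (g := fun _ => Λ * R ^ 2)
  · intro t _
    apply HasDerivAt.hasDerivWithinAt
    simpa using ((hasDerivAt_id' t).const_mul (Λ * R ^ 2)).const_add K
  · intro t _
    have h := fun k => (ext_abs_le hT Y k t).trans hR
    exact hΛ.bound n (prev_abs_le hR0 h n) (h n) (h (n + 1))
  · rw [duh_zero]
    simpa using hy n

theorem duh_lip (hΛ : Cf a b c d Λ) (hcc : ∀ n, 0 ≤ cc n)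
    {Y Z : BoundedContinuousFunction (ℕ × Icc (0 : ℝ) T) ℝ} {R : ℝ} (hY : ‖Y‖ ≤ R) (hZ : ‖Z‖ ≤ R)
    (n : ℕ) :
    ∀ t ∈ Icc 0 T, |duh hT a b c d cc y Y n t - duh hT a b c d cc y Z n t| ≤
      2 * Λ * R * ‖Y - Z‖ * t := by
  have hR0 : 0 ≤ R := (norm_nonneg _).trans hY
  apply comparison (hcc n) (z := fun t => duh hT a b c d cc y Y n t - duh hT a b c d cc y Z n t)
    (f := fun t => force hT a b c d Y n t - force hT a b c d Z n t)
    (g := fun _ => 2 * Λ * R * ‖Y - Z‖)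
  · intro t _
    apply HasDerivAt.hasDerivWithinAt
    refine ((duh_hasDerivAt hT a b c d cc y Y n t).sub
      (duh_hasDerivAt hT a b c d cc y Z n t)).congr_deriv ?_
    ring
  · intro t _
    apply HasDerivAt.hasDerivWithinAt
    simpa using ((hasDerivAt_id' t).const_mul (2 * Λ * R * ‖Y - Z‖))
  · intro t _
    have h := fun k => (ext_abs_le hT Y k t).trans hY
    have h' := fun k => (ext_abs_le hT Z k t).trans hZ
    have hd : ∀ k, |ext hT Y k t - ext hT Z k t| ≤ ‖Y - Z‖ := by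
      intro k
      have := (Y - Z).norm_coe_le_norm (k, projIcc 0 T hT t)
      simpa [Dy.ext] using this
    exact hΛ.lip n (prev_abs_le hR0 h n) (h n) (h (n + 1)) (prev_abs_le hR0 h' n) (h' n) (h' (n + 1))
      (prev_sub_abs_le (norm_nonneg _) hd n) (hd n) (hd (n + 1))
  · simp [duh_zero]

variable (a b c d)

/-- the Duhamel map as a self map of the space of bounded continuous functions -/
noncomputable def duhMap (hΛ : Cf a b c d Λ) (hcc : ∀ n, 0 ≤ cc n) {K : ℝ} (hy : ∀ n, |y n| ≤ K)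
    (Y : BoundedContinuousFunction (ℕ × Icc (0 : ℝ) T) ℝ) :
    BoundedContinuousFunction (ℕ × Icc (0 : ℝ) T) ℝ :=
  BoundedContinuousFunction.ofNormedAddCommGroup
    (fun p => duh hT a b c d cc y Y p.1 p.2)
    (by
      rw [continuous_prod_of_discrete_left]
      intro n
      have h : Continuous (duh hT a b c d cc y Y n) :=
        continuous_iff_continuousAt.mpr fun t => (duh_hasDerivAt hT a b c d cc y Y n t).continuousAt
      exact h.comp continuous_subtype_val)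
    (K + Λ * ‖Y‖ ^ 2 * T)
    (by
      rintro ⟨n, t⟩
      have h1 := duh_bound hT hΛ hcc hy (le_refl ‖Y‖) n t t.2
      have h2 : Λ * ‖Y‖ ^ 2 * (t : ℝ) ≤
          Λ * ‖Y‖ ^ 2 * T := by
        have := t.2.2
        have := hΛ.nonneg
        gcongr
      exact h1.trans (by linarith))

end Picard

/-- Local existence: the time of existence depends only on the bound `K` of the data. -/
theorem local_exist {a b c d : ℕ → ℝ} {Λ : ℝ} (hΛ : Cf a b c d Λ) {cc : ℕ → ℝ} (hcc : ∀ n, 0 ≤ cc n) {K : ℝ} (hK : 0 ≤ K)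
    {T : ℝ} (hT : 0 ≤ T) (hTK : 8 * Λ * (K + 1) * T ≤ 1)
    {y : ℕ → ℝ} (hy : ∀ n, |y n| ≤ K) :
    ∃ Y : ℕ → ℝ → ℝ, (∀ n, ∀ t ∈ Icc 0 T, HasDerivWithinAt (Y n)
      (Q (a n) (b n) (c n) (d n) (prev (fun k => Y k t) n) (Y n t) (Y (n + 1) t) - cc n * Y n t) (Icc 0 T) t) ∧
      (∀ n, Y n 0 = y n) ∧ ∀ n, ∀ t ∈ Icc 0 T, |Y n t| ≤ 2 * (K + 1) := by
  have hΛ0 : 0 ≤ Λ := hΛ.nonneg
  set R := 2 * (K + 1) with hR
  have hR0 : 0 ≤ R := by positivity
  set Φ := duhMap hT a b c d hΛ hcc hy with hΦ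
  have hΦval : ∀ Y (n : ℕ) (t : Icc (0 : ℝ) T), Φ Y (n, t) = duh hT a b c d cc y Y n t :=
    fun Y n t => rfl
  have hmaps : MapsTo Φ (Metric.closedBall 0 R) (Metric.closedBall 0 R) := by
    intro Y hY
    rw [mem_closedBall_zero_iff] at hY ⊢
    rw [BoundedContinuousFunction.norm_le hR0]
    rintro ⟨n, t⟩
    rw [hΦval]
    have h1 := duh_bound hT hΛ hcc hy hY n t t.2
    have h2 : Λ * R ^ 2 * (t : ℝ) ≤ Λ * R ^ 2 * T := by
      have := t.2.2
      gcongr
    have h3 : Λ * R ^ 2 * T = (8 * Λ * (K + 1) * T) * (K + 1) / 2 := by rw [hR]; ring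
    have h4 : (8 * Λ * (K + 1) * T) * (K + 1) ≤ 1 * (K + 1) := by gcongr
    refine h1.trans ?_
    linarith
  have hlip : ∀ Y ∈ Metric.closedBall (0 : BoundedContinuousFunction (ℕ × Icc (0 : ℝ) T) ℝ) R,
      ∀ Z ∈ Metric.closedBall (0 : BoundedContinuousFunction (ℕ × Icc (0 : ℝ) T) ℝ) R,
      dist (Φ Y) (Φ Z) ≤ (1 / 2 : ℝ) * dist Y Z := by
    intro Y hY Z hZ
    rw [mem_closedBall_zero_iff] at hY hZ
    rw [dist_eq_norm, dist_eq_norm, BoundedContinuousFunction.norm_le (by positivity)]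
    rintro ⟨n, t⟩
    rw [BoundedContinuousFunction.coe_sub, Pi.sub_apply, hΦval, hΦval]
    have h1 := duh_lip hT (y := y) hΛ hcc hY hZ n t t.2
    have h2 : 2 * Λ * R * ‖Y - Z‖ * (t : ℝ) ≤ 2 * Λ * R * ‖Y - Z‖ * T := by
      have := t.2.2
      gcongr
    have h3 : 2 * Λ * R * ‖Y - Z‖ * T = (8 * Λ * (K + 1) * T) * ‖Y - Z‖ / 2 := by rw [hR]; ring
    have h4 : (8 * Λ * (K + 1) * T) * ‖Y - Z‖ ≤ 1 * ‖Y - Z‖ := by gcongr
    refine h1.trans ?_
    linarith
  have hcontr : ContractingWith (1 / 2 : NNReal) (hmaps.restrict Φ _ _) := by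
    refine ⟨by norm_num, ?_⟩
    apply LipschitzWith.of_dist_le_mul
    rintro ⟨Y, hY⟩ ⟨Z, hZ⟩
    have := hlip Y hY Z hZ
    change dist (Φ Y) (Φ Z) ≤ ((1 / 2 : NNReal) : ℝ) * dist Y Z
    simpa using this
  obtain ⟨Y, hYmem, hYfix, -⟩ := hcontr.exists_fixedPoint' (f := Φ)
    Metric.isClosed_closedBall.isComplete hmaps
    (x := 0) (by simpa using hR0) (edist_ne_top _ _)
  rw [mem_closedBall_zero_iff] at hYmem
  refine ⟨fun n t => duh hT a b c d cc y Y n t, ?_, fun n => duh_zero hT a b c d cc y Y n, ?_⟩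
  · have hval : ∀ k, ∀ t ∈ Icc 0 T, ext hT Y k t = duh hT a b c d cc y Y k t := by
      intro k t ht
      unfold Dy.ext
      rw [projIcc_of_mem hT ht]
      conv_lhs => rw [← hYfix]
      rfl
    intro n t ht
    have h1 := (duh_hasDerivAt hT a b c d cc y Y n t).hasDerivWithinAt (s := Icc 0 T)
    refine h1.congr_deriv ?_
    congr 1
    unfold force
    rw [hval n t ht, hval (n + 1) t ht]
    congr 1
    cases n with
    | zero => rfl
    | succ m => exact hval m t ht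
  · intro n t ht
    have h1 : duh hT a b c d cc y Y n t = Y (n, ⟨t, ht⟩) := by
      conv_rhs => rw [← hYfix]
      rfl
    change |duh hT a b c d cc y Y n t| ≤ R
    rw [h1]
    exact (Y.norm_coe_le_norm _).trans hYmem

end Pool.Agent.H39.Log
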