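import Pool.Agent.H39.Log.Local

/-!
# Uniqueness, persistence of decay, gluing and the maximal solution for the rescaled dyadic system
-/

open Set Filter Topology

namespace Pool.Agent.H39.Log

open Pool.Agent.H39.Dy (prev Q prev_abs_le prev_sub_abs_le comparison propagate Bd Rapid)

/-- `Y` solves the rescaled system on `[0, T]` -/
def IsT (a b c d : ℕ → ℝ) (cc : ℕ → ℝ) (T : ℝ) (Y : ℕ → ℝ → ℝ) : Prop :=
  ∀ n, ∀ t ∈ Icc 0 T, HasDerivWithinAt (Y n)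
    (Q (a n) (b n) (c n) (d n) (prev (fun k => Y k t) n) (Y n t) (Y (n + 1) t) - cc n * Y n t) (Icc 0 T) t

variable {a b c d : ℕ → ℝ} {cc : ℕ → ℝ} {Λ : ℝ}

theorem IsT.mono {T T' : ℝ} {Y : ℕ → ℝ → ℝ} (h : IsT a b c d cc T Y) (hT : T' ≤ T) :
    IsT a b c d cc T' Y := fun n t ht =>
  (h n t ⟨ht.1, ht.2.trans hT⟩).mono (Icc_subset_Icc_right hT)

/-- Uniqueness in the class of uniformly bounded solutions. -/
theorem IsT.unique (hΛ : Cf a b c d Λ) (hcc : ∀ n, 0 ≤ cc n) {T : ℝ} {Y Z : ℕ → ℝ → ℝ}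
    (hY : IsT a b c d cc T Y) (hZ : IsT a b c d cc T Z) (bY : Bd T Y) (bZ : Bd T Z)
    (h0 : ∀ n, Y n 0 = Z n 0) : ∀ n, ∀ t ∈ Icc 0 T, Y n t = Z n t := by
  intro n t ht
  have hT : 0 ≤ T := ht.1.trans ht.2
  obtain ⟨K₁, hK₁⟩ := bY
  obtain ⟨K₂, hK₂⟩ := bZ
  set R := max K₁ K₂ with hR
  have h1 : ∀ n, ∀ t ∈ Icc 0 T, |Y n t| ≤ R := fun n t ht => (hK₁ n t ht).trans (le_max_left _ _)
  have h2 : ∀ n, ∀ t ∈ Icc 0 T, |Z n t| ≤ R := fun n t ht => (hK₂ n t ht).trans (le_max_right _ _)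
  have hR0 : 0 ≤ R := (abs_nonneg _).trans (h1 0 0 ⟨le_rfl, hT⟩)
  have key := propagate (T := T) (L := 2 * Λ * R) (A := 0) (ρ := 1)
    (C := R + R) (by have := hΛ.nonneg; positivity) le_rfl one_pos hcc
    (z := fun n t => Y n t - Z n t)
    (f := fun n t => Q (a n) (b n) (c n) (d n) (prev (fun k => Y k t) n) (Y n t) (Y (n + 1) t) -
      Q (a n) (b n) (c n) (d n) (prev (fun k => Z k t) n) (Z n t) (Z (n + 1) t)) ?_ ?_ ?_ ?_ n t ht
  · rw [zero_mul, zero_mul] at key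
    exact sub_eq_zero.mp (abs_eq_zero.mp (le_antisymm key (abs_nonneg _)))
  · intro n t ht
    refine ((hY n t ht).sub (hZ n t ht)).congr_deriv ?_
    ring
  · intro n t ht
    have hp : prev (fun k => Y k t - Z k t) n =
        prev (fun k => Y k t) n - prev (fun k => Z k t) n := by
      cases n with
      | zero => simp [prev]
      | succ m => rfl
    rw [hp]
    have a1 := abs_nonneg (prev (fun k => Y k t) n - prev (fun k => Z k t) n)
    have a2 := abs_nonneg (Y n t - Z n t)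
    have a3 := abs_nonneg (Y (n + 1) t - Z (n + 1) t)
    exact hΛ.lip n (prev_abs_le hR0 (fun k => h1 k t ht) n) (h1 n t ht) (h1 (n + 1) t ht)
      (prev_abs_le hR0 (fun k => h2 k t ht) n) (h2 n t ht) (h2 (n + 1) t ht)
      (by linarith) (by linarith) (by linarith)
  · intro n t ht
    refine (abs_sub _ _).trans ?_
    exact add_le_add (h1 n t ht) (h2 n t ht)
  · intro n
    simp [h0 n]

/-- Persistence of geometric decay (or growth) of any rate. -/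
theorem IsT.decay (hΛ : Cf a b c d Λ) (hcc : ∀ n, 0 ≤ cc n) {T K A ρ : ℝ} {Y : ℕ → ℝ → ℝ}
    (hY : IsT a b c d cc T Y) (hK : ∀ n, ∀ t ∈ Icc 0 T, |Y n t| ≤ K) (hA : 0 ≤ A) (hρ : 0 < ρ)
    (h0 : ∀ n, |Y n 0| ≤ A * ρ ^ n) : ∀ n, ∀ t ∈ Icc 0 T,
      |Y n t| ≤ A * ρ ^ n * Real.exp (Λ * K * (1 / ρ + 1 + ρ) * t) := by
  intro n t ht
  have hT : 0 ≤ T := ht.1.trans ht.2
  have hK0 : 0 ≤ K := (abs_nonneg _).trans (hK 0 0 ⟨le_rfl, hT⟩)
  exact propagate (by have := hΛ.nonneg; positivity) hA hρ hcc hY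
    (fun n t ht => hΛ.lin n (prev_abs_le hK0 (fun k => hK k t ht) n) (hK n t ht)
      (hK (n + 1) t ht)) hK h0 n t ht

/-- Gluing two solutions. -/
theorem IsT.glue {T τ : ℝ} (hT : 0 ≤ T) (hτ : 0 ≤ τ) {Y Z : ℕ → ℝ → ℝ}
    (hY : IsT a b c d cc T Y) (hZ : IsT a b c d cc τ Z) (h : ∀ n, Z n 0 = Y n T) :
    IsT a b c d cc (T + τ) (fun n t => if t ≤ T then Y n t else Z n (t - T)) := by
  set W : ℕ → ℝ → ℝ := fun n t => if t ≤ T then Y n t else Z n (t - T) with hW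
  have hW1 : ∀ n, ∀ t ≤ T, W n t = Y n t := fun n t ht => by simp [hW, ht]
  have hW2 : ∀ n, ∀ t, T ≤ t → W n t = Z n (t - T) := by
    intro n t ht
    rcases ht.eq_or_lt with rfl | ht
    · simp [hW, h n]
    · simp [hW, not_le.mpr ht]
  -- the field along `W`
  have hF1 : ∀ n, ∀ t ≤ T, Q (a n) (b n) (c n) (d n) (prev (fun k => W k t) n) (W n t) (W (n + 1) t) - cc n * W n t
      = Q (a n) (b n) (c n) (d n) (prev (fun k => Y k t) n) (Y n t) (Y (n + 1) t) - cc n * Y n t := by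
    intro n t ht
    have : (fun k => W k t) = fun k => Y k t := funext fun k => hW1 k t ht
    rw [this, hW1 n t ht, hW1 (n + 1) t ht]
  have hF2 : ∀ n, ∀ t, T ≤ t →
      Q (a n) (b n) (c n) (d n) (prev (fun k => W k t) n) (W n t) (W (n + 1) t) - cc n * W n t
      = Q (a n) (b n) (c n) (d n) (prev (fun k => Z k (t - T)) n) (Z n (t - T)) (Z (n + 1) (t - T))
        - cc n * Z n (t - T) := by
    intro n t ht
    have : (fun k => W k t) = fun k => Z k (t - T) := funext fun k => hW2 k t ht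
    rw [this, hW2 n t ht, hW2 (n + 1) t ht]
  have d1 : ∀ n, ∀ t ∈ Icc 0 T, HasDerivWithinAt (W n)
      (Q (a n) (b n) (c n) (d n) (prev (fun k => W k t) n) (W n t) (W (n + 1) t) - cc n * W n t) (Icc 0 T) t := by
    intro n t ht
    rw [hF1 n t ht.2]
    exact (hY n t ht).congr (fun s hs => hW1 n s hs.2) (hW1 n t ht.2)
  have d2 : ∀ n, ∀ t ∈ Icc T (T + τ), HasDerivWithinAt (W n)
      (Q (a n) (b n) (c n) (d n) (prev (fun k => W k t) n) (W n t) (W (n + 1) t) - cc n * W n t)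
      (Icc T (T + τ)) t := by
    intro n t ht
    rw [hF2 n t ht.1]
    have hm : t - T ∈ Icc 0 τ := ⟨by linarith [ht.1], by linarith [ht.2]⟩
    have hmaps : MapsTo (fun s : ℝ => s - T) (Icc T (T + τ)) (Icc 0 τ) := by
      intro s hs
      exact ⟨by simpa using hs.1, by
        have := hs.2
        simp only [tsub_le_iff_right]
        linarith⟩
    have h3 : HasDerivWithinAt (fun s : ℝ => s - T) 1 (Icc T (T + τ)) t :=
      ((hasDerivAt_id' t).sub_const T).hasDerivWithinAt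
    have h4 := HasDerivWithinAt.comp t (hZ n (t - T) hm) h3 hmaps
    rw [mul_one] at h4
    exact h4.congr (fun s hs => hW2 n s hs.1) (hW2 n t ht.1)
  intro n t ht
  have hU : Icc (0 : ℝ) (T + τ) = Icc 0 T ∪ Icc T (T + τ) :=
    (Icc_union_Icc_eq_Icc hT (by linarith)).symm
  rcases lt_trichotomy t T with hlt | rfl | hgt
  · refine (d1 n t ⟨ht.1, hlt.le⟩).mono_of_mem_nhdsWithin ?_
    rw [mem_nhdsWithin]
    exact ⟨Iio T, isOpen_Iio, hlt, fun s hs => ⟨hs.2.1, le_of_lt hs.1⟩⟩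
  · rw [hU]
    exact (d1 n t ⟨ht.1, le_rfl⟩).union (d2 n t ⟨le_rfl, ht.2⟩)
  · refine (d2 n t ⟨hgt.le, ht.2⟩).mono_of_mem_nhdsWithin ?_
    rw [mem_nhdsWithin]
    exact ⟨Ioi T, isOpen_Ioi, hgt, fun s hs => ⟨le_of_lt hs.1, hs.2.2⟩⟩

/-- the class of solutions with data `y` on `[0, T]` -/
def SolT (a b c d : ℕ → ℝ) (cc y : ℕ → ℝ) (T : ℝ) (Y : ℕ → ℝ → ℝ) : Prop :=
  IsT a b c d cc T Y ∧ Bd T Y ∧ ∀ n, Y n 0 = y n

theorem SolT.mono {y : ℕ → ℝ} {T T' : ℝ} {Y : ℕ → ℝ → ℝ} (h : SolT a b c d cc y T Y) (hT : T' ≤ T) :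
    SolT a b c d cc y T' Y := ⟨h.1.mono hT, Dy.Bd.mono h.2.1 hT, h.2.2⟩

theorem SolT.congr {y : ℕ → ℝ} {T : ℝ} {Y Z : ℕ → ℝ → ℝ} (hT : 0 ≤ T)
    (h : SolT a b c d cc y T Y) (hYZ : ∀ n, ∀ t ∈ Icc 0 T, Z n t = Y n t) :
    SolT a b c d cc y T Z := by
  refine ⟨?_, ?_, ?_⟩
  · intro n t ht
    have : prev (fun k => Z k t) n = prev (fun k => Y k t) n := by
      cases n with
      | zero => rfl
      | succ m => exact hYZ m t ht
    rw [this, hYZ n t ht, hYZ (n + 1) t ht]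
    exact (h.1 n t ht).congr (hYZ n) (hYZ n t ht)
  · obtain ⟨K, hK⟩ := h.2.1
    exact ⟨K, fun n t ht => by rw [hYZ n t ht]; exact hK n t ht⟩
  · intro n
    rw [hYZ n 0 ⟨le_rfl, hT⟩, h.2.2 n]

/-- Extension of a solution: the additional time depends only on a bound at the final time. -/
theorem SolT.extend (hΛ : Cf a b c d Λ) (hcc : ∀ n, 0 ≤ cc n) {y : ℕ → ℝ} {T K τ : ℝ} {Y : ℕ → ℝ → ℝ} (hT : 0 ≤ T)
    (h : SolT a b c d cc y T Y) (hK0 : 0 ≤ K) (hK : ∀ n, |Y n T| ≤ K) (hτ : 0 ≤ τ)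
    (hτK : 8 * Λ * (K + 1) * τ ≤ 1) :
    ∃ W, SolT a b c d cc y (T + τ) W := by
  obtain ⟨Z, hZ, hZ0, hZb⟩ := local_exist hΛ hcc hK0 hτ hτK hK
  refine ⟨fun n t => if t ≤ T then Y n t else Z n (t - T), h.1.glue hT hτ hZ hZ0, ?_, ?_⟩
  · obtain ⟨K', hK'⟩ := h.2.1
    refine ⟨max K' (2 * (K + 1)), fun n t ht => ?_⟩
    by_cases hc : t ≤ T
    · simp only [hc, if_true]
      exact (hK' n t ⟨ht.1, hc⟩).trans (le_max_left _ _)
    · simp only [hc, if_false]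
      exact (hZb n (t - T) ⟨by linarith [not_le.mp hc], by linarith [ht.2]⟩).trans (le_max_right _ _)
  · intro n
    simp only [hT, if_true]
    exact h.2.2 n

/-- **Maximal solutions.** For bounded data there is either a global solution or a maximal solution
with finite life time which is unbounded. -/
theorem dichotomyT (hΛ : Cf a b c d Λ) (hcc : ∀ n, 0 ≤ cc n) {y : ℕ → ℝ} {K₀ : ℝ} (hy : ∀ n, |y n| ≤ K₀) :
    (∃ Y, ∀ T, 0 ≤ T → SolT a b c d cc y T Y) ∨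
    ∃ T₀ : ℝ, 0 < T₀ ∧ ∃ Y, (∀ T, 0 ≤ T → T < T₀ → SolT a b c d cc y T Y) ∧
      ∀ K : ℝ, ∃ n, ∃ t ∈ Ico 0 T₀, K < |Y n t| := by
  classical
  have hK₀ : 0 ≤ K₀ := (abs_nonneg _).trans (hy 0)
  have hΛ0 : 0 ≤ Λ := hΛ.nonneg
  -- local existence time
  have hloc : ∀ K : ℝ, 0 ≤ K → ∃ τ : ℝ, 0 < τ ∧ 8 * Λ * (K + 1) * τ ≤ 1 := by
    intro K hK
    refine ⟨1 / (8 * Λ * (K + 1) + 1), by positivity, ?_⟩
    rw [mul_one_div, div_le_one (by positivity)]
    linarith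
  set S : Set ℝ := {T | 0 ≤ T ∧ ∃ Y, SolT a b c d cc y T Y} with hS
  obtain ⟨τ₀, hτ₀, hτ₀'⟩ := hloc K₀ hK₀
  have hτS : τ₀ ∈ S := by
    obtain ⟨Y, h1, h2, h3⟩ := local_exist hΛ hcc hK₀ hτ₀.le hτ₀' hy
    exact ⟨hτ₀.le, Y, h1, ⟨_, h3⟩, h2⟩
  have hdown : ∀ T ∈ S, ∀ T', 0 ≤ T' → T' ≤ T → T' ∈ S := by
    rintro T ⟨_, Y, hY⟩ T' h0 h1
    exact ⟨h0, Y, hY.mono h1⟩
  -- a choice of solutions
  choose! X hX using fun (T : ℝ) (hT : T ∈ S) => hT.2
  have huniq : ∀ T ∈ S, ∀ T' ∈ S, ∀ n, ∀ t, 0 ≤ t → t ≤ T → t ≤ T' → X T n t = X T' n t := by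
    intro T hT T' hT' n t h0 h1 h2
    have e1 := (hX T hT).mono h1
    have e2 := (hX T' hT').mono h2
    exact e1.1.unique hΛ hcc e2.1 e1.2.1 e2.2.1 (fun n => by rw [e1.2.2, e2.2.2]) n t ⟨h0, le_rfl⟩
  by_cases hb : BddAbove S
  · right
    set T₀ := sSup S with hT₀
    have hT₀pos : 0 < T₀ := hτ₀.trans_le (le_csSup hb hτS)
    have hlt : ∀ T, 0 ≤ T → T < T₀ → T ∈ S := by
      intro T h0 h1
      obtain ⟨T', hT', h2⟩ := exists_lt_of_lt_csSup ⟨τ₀, hτS⟩ h1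
      exact hdown T' hT' T h0 h2.le
    set Y : ℕ → ℝ → ℝ := fun n t => X ((t + T₀) / 2) n t with hYdef
    have hYX : ∀ T, 0 ≤ T → T < T₀ → ∀ n, ∀ t ∈ Icc 0 T, Y n t = X T n t := by
      intro T h0 h1 n t ht
      have : t < T₀ := ht.2.trans_lt h1
      exact huniq _ (hlt _ (by linarith [ht.1]) (by linarith)) T (hlt T h0 h1) n t ht.1
        (by linarith) ht.2
    have hsol : ∀ T, 0 ≤ T → T < T₀ → SolT a b c d cc y T Y := fun T h0 h1 =>
      (hX T (hlt T h0 h1)).congr h0 (hYX T h0 h1)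
    refine ⟨T₀, hT₀pos, Y, hsol, ?_⟩
    by_contra hcon
    push Not at hcon
    obtain ⟨K, hK⟩ := hcon
    have hK0 : 0 ≤ K := (abs_nonneg _).trans (hK 0 0 ⟨le_rfl, hT₀pos⟩)
    obtain ⟨τ, hτ, hτ'⟩ := hloc K hK0
    set T₁ := max 0 (T₀ - τ / 2) with hT₁
    have hT₁0 : 0 ≤ T₁ := le_max_left _ _
    have hT₁lt : T₁ < T₀ := max_lt hT₀pos (by linarith)
    obtain ⟨W, hW⟩ := (hsol T₁ hT₁0 hT₁lt).extend hΛ hcc hT₁0 hK0
      (fun n => hK n T₁ ⟨hT₁0, hT₁lt⟩) hτ.le hτ'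
    have : T₁ + τ ≤ T₀ := le_csSup hb ⟨by linarith, W, hW⟩
    have h5 : T₀ - τ / 2 ≤ T₁ := le_max_right _ _
    linarith
  · left
    have hall : ∀ T, 0 ≤ T → T ∈ S := by
      intro T h0
      rw [not_bddAbove_iff] at hb
      obtain ⟨T', hT', h2⟩ := hb T
      exact hdown T' hT' T h0 h2.le
    refine ⟨fun n t => X t n t, fun T h0 => (hX T (hall T h0)).congr h0 ?_⟩
    intro n t ht
    exact huniq _ (hall t ht.1) T (hall T h0) n t ht.1 le_rfl ht.2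


/-! ### the original variables -/

theorem fieldS_eq {B : ℝ} (hB : 0 < B) (α β : ℕ → ℝ) (c : ℝ) (x : ℕ → ℝ) (n : ℕ) :
    gainS α β B x n - c * x n - B ^ n * x (n + 1) * (α n * x n + β n * x (n + 1)) =
      (Q (prev α n * B) (prev β n) (-(α n / B)) (-(β n / B ^ 2)) (prev (fun k => B ^ k * x k) n) (B ^ n * x n)
        (B ^ (n + 1) * x (n + 1)) - c * (B ^ n * x n)) / B ^ n := by
  cases n with
  | zero =>
    simp only [gainS, prev, Q]
    field_simp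
    ring
  | succ m =>
    simp only [gainS, prev, Q]
    have : B ^ (m + 1) ≠ 0 := by positivity
    field_simp
    ring

theorem isSolS_iff {α β : ℕ → ℝ} {B T : ℝ} {δ : ℕ → ℝ} (hB : 0 < B) (X : ℕ → ℝ → ℝ) :
    IsSolS α β B δ T X ↔ IsT (fun n => prev α n * B) (fun n => prev β n) (fun n => -(α n / B))
      (fun n => -(β n / B ^ 2)) δ T (fun n t => B ^ n * X n t) := by
  constructor
  · intro h n t ht
    have h1 := (h n t ht).const_mul (B ^ n)
    refine h1.congr_deriv ?_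
    rw [fieldS_eq hB α β (δ n) (fun k => X k t) n]
    field_simp
  · intro h n t ht
    have h1 := (h n t ht).div_const (B ^ n)
    have e : (fun t => B ^ n * X n t / B ^ n) = X n := by
      funext t
      field_simp
    rw [e] at h1
    refine h1.congr_deriv ?_
    rw [fieldS_eq hB α β (δ n) (fun k => X k t) n]

theorem cf_of {α β : ℕ → ℝ} {B K₀ : ℝ} (hB : 0 < B) (hα : ∀ n, |α n| ≤ K₀) (hβ : ∀ n, |β n| ≤ K₀) :
    Cf (fun n => prev α n * B) (fun n => prev β n) (fun n => -(α n / B)) (fun n => -(β n / B ^ 2))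
      (K₀ * B + K₀ + K₀ / B + K₀ / B ^ 2) := by
  intro n
  have hK : 0 ≤ K₀ := (abs_nonneg _).trans (hα 0)
  have h1 : |prev α n| ≤ K₀ := prev_abs_le hK hα n
  have h2 : |prev β n| ≤ K₀ := prev_abs_le hK hβ n
  have h3 : |prev α n * B| ≤ K₀ * B := by
    rw [abs_mul, abs_of_pos hB]
    exact mul_le_mul_of_nonneg_right h1 hB.le
  have h4 : |-(α n / B)| ≤ K₀ / B := by
    rw [abs_neg, abs_div, abs_of_pos hB]
    exact div_le_div_of_nonneg_right (hα n) hB.le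
  have h5 : |-(β n / B ^ 2)| ≤ K₀ / B ^ 2 := by
    rw [abs_neg, abs_div, abs_of_pos (by positivity : 0 < B ^ 2)]
    exact div_le_div_of_nonneg_right (hβ n) (by positivity)
  exact add_le_add (add_le_add (add_le_add h3 h2) h4) h5

/-- **P2a.** -/
theorem p2a : S_P2a := by
  intro α β B K₀ δ hB hα hβ hδ T X X' h h' b b' h0 n t ht
  have hBn : ∀ n, (0 : ℝ) < B ^ n := fun n => by positivity
  have hb : ∀ {X : ℕ → ℝ → ℝ}, (∃ K : ℝ, ∀ n, ∀ t ∈ Icc 0 T, B ^ n * |X n t| ≤ K) →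
      Bd T (fun n t => B ^ n * X n t) := by
    rintro X ⟨K, hK⟩
    refine ⟨K, fun n t ht => ?_⟩
    rw [abs_mul, abs_of_pos (hBn n)]
    exact hK n t ht
  have := IsT.unique (cf_of hB hα hβ) hδ ((isSolS_iff hB X).mp h) ((isSolS_iff hB X').mp h')
    (hb b) (hb b') (fun n => by rw [h0 n]) n t ht
  exact mul_left_cancel₀ (hBn n).ne' this

/-- **P2b.** -/
theorem p2b : S_P2b := by
  intro α β B K₀ δ hB hα hβ hcc x hx
  have hcf := cf_of hB hα hβ
  set Λ := K₀ * B + K₀ + K₀ / B + K₀ / B ^ 2 with hΛ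
  have hΛ0 : 0 ≤ Λ := hcf.nonneg
  have hBn : ∀ n, (0 : ℝ) < B ^ n := fun n => by positivity
  obtain ⟨K₁, hK₁⟩ := hx B hB
  have hy : ∀ n, |B ^ n * x n| ≤ K₁ := by
    intro n
    rw [abs_mul, abs_of_pos (hBn n)]
    exact hK₁ n
  -- translation of the properties of a solution
  have htr : ∀ T, 0 ≤ T → ∀ Y, SolT (fun n => prev α n * B) (fun n => prev β n) (fun n => -(α n / B))
      (fun n => -(β n / B ^ 2)) δ (fun n => B ^ n * x n) T Y → IsSolS α β B δ T (fun n t => Y n t / B ^ n) ∧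
        Rapid T (fun n t => Y n t / B ^ n) := by
    intro T hT Y hY
    have e : (fun (n : ℕ) (t : ℝ) => B ^ n * (Y n t / B ^ n)) = Y := by
      funext n t
      field_simp
    constructor
    · rw [isSolS_iff hB, e]
      exact hY.1
    · intro s hs
      obtain ⟨K, hK⟩ := hY.2.1
      obtain ⟨C, hC⟩ := hx s hs
      have hC0 : 0 ≤ C := (mul_nonneg (by positivity) (abs_nonneg _)).trans (hC 0)
      have hK0 : 0 ≤ K := (abs_nonneg _).trans (hK 0 0 ⟨le_rfl, hT⟩)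
      have h0 : ∀ n, |Y n 0| ≤ C * (B / s) ^ n := by
        intro n
        rw [hY.2.2 n, abs_mul, abs_of_pos (hBn n), div_pow, mul_div_assoc', le_div_iff₀ (by positivity)]
        have := mul_le_mul_of_nonneg_left (hC n) (hBn n).le
        linarith
      have h1 := hY.1.decay hcf hcc hK hC0 (div_pos hB hs) h0
      set κ := Λ * K * (1 / (B / s) + 1 + B / s)
      refine ⟨C * Real.exp (κ * T), fun n t ht => ?_⟩
      have h2 := h1 n t ht
      have hκ : 0 ≤ κ := by positivity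
      have h3 : Real.exp (κ * t) ≤ Real.exp (κ * T) := by
        apply Real.exp_le_exp.mpr
        exact mul_le_mul_of_nonneg_left ht.2 hκ
      rw [abs_div, abs_of_pos (hBn n)]
      calc s ^ n * (|Y n t| / B ^ n) ≤ s ^ n * (C * (B / s) ^ n * Real.exp (κ * T) / B ^ n) := by
            gcongr
            exact h2.trans (by gcongr)
        _ = C * Real.exp (κ * T) := by
            rw [div_pow]
            field_simp
  have h00 : ∀ n, B ^ n * x n / B ^ n = x n := fun n => by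
    have := hBn n
    field_simp
  rcases dichotomyT hcf hcc hy with ⟨Y, hY⟩ | ⟨T₀, hT₀, Y, hY, hunb⟩
  · left
    refine ⟨fun n t => Y n t / B ^ n, fun n => ?_, fun T hT => htr T hT Y (hY T hT)⟩
    simp only
    rw [(hY 0 le_rfl).2.2 n, h00 n]
  · right
    refine ⟨T₀, hT₀, fun n t => Y n t / B ^ n, fun n => ?_, fun T hT hT' => htr T hT Y (hY T hT hT'),
      fun K => ?_⟩
    · simp only
      rw [(hY 0 le_rfl hT₀).2.2 n, h00 n]
    · obtain ⟨n, t, ht, h⟩ := hunb K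
      refine ⟨n, t, ht, ?_⟩
      rw [abs_div, abs_of_pos (hBn n), mul_div_cancel₀ _ (hBn n).ne']
      exact h

end Pool.Agent.H39.Log
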