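import Pool.Agent.H39.Log.UniqD

/-!
# Global regularity with logarithmically supercritical dissipation
-/

open MeasureTheory Set Filter Topology
open scoped ContDiff ENNReal

namespace Pool.Agent.H39.Log

open Pool.Agent.H39.Lions
open H459R3.NS (V K3 Per cube SP pd lap ee fr S N)
open Pool.Agent.H39.PDE (fq sob ip)

theorem fq_zero : fq 0 = 0 := by simp [Pool.Agent.H39.PDE.fq]

theorem one_add_fq_le (k : K3) : 1 + fq k ≤ 2 * mk k ^ 2 := by
  by_cases hk : k = 0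
  · subst hk
    rw [fq_zero, mk_zero]; norm_num
  · rw [mk_sq hk]
    have := one_le_fq hk
    linarith

theorem Sym.of_growth {D : K3 → ℝ} (hev : ∀ k, D (-k) = D k)
    (hgr : ∃ (r : ℕ) (A : ℝ), ∀ k, |D k| ≤ A * (1 + fq k) ^ r) : Sym D := by
  obtain ⟨r, A, hA⟩ := hgr
  refine ⟨hev, 2 * r, |A| * 2 ^ r, fun k => ?_⟩
  have h0 := fq_nonneg k
  calc |D k| ≤ A * (1 + fq k) ^ r := hA k
    _ ≤ |A| * (1 + fq k) ^ r := mul_le_mul_of_nonneg_right (le_abs_self A) (by positivity)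
    _ ≤ |A| * (2 * Lions.mk k ^ 2) ^ r :=
        mul_le_mul_of_nonneg_left (pow_le_pow_left₀ (by positivity) (one_add_fq_le k) r) (abs_nonneg A)
    _ = _ := by rw [mul_pow, ← pow_mul]; ring

theorem log_le (k : K3) (hk : k ≠ 0) : Real.log (2 + fq k) ≤ 2 * (1 + Real.log (mk k)) := by
  have hm := mk_pos k
  have h1 : 2 + fq k ≤ (Real.exp 1 * mk k) ^ 2 := by
    rw [← mk_sq hk, mul_pow, ← Real.exp_nat_mul]
    have h2 := Real.add_one_le_exp (((2 : ℕ) : ℝ) * 1)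
    have h3 := one_le_mk k
    have h4 : 1 ≤ mk k ^ 2 := one_le_pow₀ h3
    push_cast at h2 ⊢
    nlinarith
  have h2 := Real.log_le_log (by have := fq_nonneg k; positivity) h1
  rw [Real.log_pow, Real.log_mul (Real.exp_pos 1).ne' hm.ne', Real.log_exp] at h2
  push_cast at h2
  exact h2

/-- **Part A.** -/
theorem globalD {C : (V → V) → (V → V) → V → V} (hC : CritType C) (θ : ℝ) {ν : ℝ} (hν : 0 < ν) {D : K3 → ℝ}
    (hev : ∀ k, D (-k) = D k) (hgr : ∃ (r : ℕ) (A : ℝ), ∀ k, |D k| ≤ A * (1 + fq k) ^ r)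
    (hlow : ∀ k, k ≠ 0 → ν * fq k ^ (5 / 4 : ℝ) / Real.log (2 + fq k) ≤ D k) {u₀ : V → V} (h0 : Lions.Field u₀) :
    ∃ (u : ℝ → V → V) (p : ℝ → V → ℝ), u 0 = u₀ ∧ (∀ T, SolD θ D C T u p) ∧
      ∀ (T : ℝ) (v : ℝ → V → V) (q : ℝ → V → ℝ), SolD θ D C T v q → v 0 = u₀ → ∀ t ∈ Ico 0 T, v t = u t := by
  classical
  have hD : Sym D := Sym.of_growth hev hgr
  have hCE := hC.toEulerType
  set R : K3 → ℝ := fun k => if k = 0 then ν else D k with hR
  have hRD : ∀ k, k ≠ 0 → R k = D k := fun k hk => if_neg hk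
  have hlog : ∀ k : K3, 0 < 1 + Real.log (mk k) := fun k => by
    have := Real.log_nonneg (one_le_mk k)
    linarith
  have hkey : ∀ k : K3, ν / 2 * mk k ^ (5 / 2 : ℝ) ≤ R k * (1 + Real.log (mk k)) := by
    intro k
    by_cases hk : k = 0
    · subst hk
      simp only [hR, if_true, mk_zero, Real.one_rpow, Real.log_one]
      linarith
    · rw [hRD k hk]
      have h1 := hlow k hk
      have h2 := log_le k hk
      have h3 : fq k ^ (5 / 4 : ℝ) = mk k ^ (5 / 2 : ℝ) := by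
        rw [← mk_rpow hk]; norm_num
      have h4 : 0 < Real.log (2 + fq k) := Real.log_pos (by have := fq_nonneg k; linarith)
      rw [h3, div_le_iff₀ h4] at h1
      have h5 : 0 < mk k ^ (5 / 2 : ℝ) := Real.rpow_pos_of_pos (mk_pos k) _
      have h6 : 0 < D k := by
        have : 0 < ν * mk k ^ (5 / 2 : ℝ) := by positivity
        exact pos_of_mul_pos_left (this.trans_le h1) h4.le
      have h7 := mul_le_mul_of_nonneg_left h2 h6.le
      linarith
  have hR0 : ∀ k, 0 ≤ R k := fun k => by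
    have h1 : 0 < ν / 2 * mk k ^ (5 / 2 : ℝ) := mul_pos (by positivity) (Real.rpow_pos_of_pos (mk_pos k) _)
    exact (pos_of_mul_pos_left (h1.trans_le (hkey k)) (hlog k).le).le
  have hRr : ∃ (r : ℕ) (A : ℝ), 0 ≤ A ∧ ∀ p : K3 × Fin 3, R p.1 ≤ A * mu p ^ r := by
    obtain ⟨r, A, hA⟩ := hD.growth
    refine ⟨r, ν + |A|, by positivity, fun p => ?_⟩
    show R p.1 ≤ (ν + |A|) * mk p.1 ^ r
    have h1 : 1 ≤ mk p.1 ^ r := one_le_pow₀ (one_le_mk p.1)
    have hA0 := abs_nonneg A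
    by_cases hk : p.1 = 0
    · simp only [hR, hk, if_true]
      rw [hk] at h1
      nlinarith
    · rw [hRD _ hk]
      have h2 := (le_abs_self _).trans (hA p.1)
      have h3 : A * mk p.1 ^ r ≤ |A| * mk p.1 ^ r := mul_le_mul_of_nonneg_right (le_abs_self A) (by positivity)
      have h4 : 0 ≤ ν * mk p.1 ^ r := by positivity
      linarith
  have hap : APri mu (opA θ C) (fun p => R p.1) (cf u₀) :=
    aPri wt_mu (opA_bil θ hCE) (opA_crit θ hC) (opA_energy θ hCE) (ν := ν / 2) (by positivity) (rd_cf h0.sp)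
      fun p => hkey p.1
  have hRu : ∀ p : K3 × Fin 3, ν / 10 * mu p ^ (9 / 4 : ℝ) ≤ R p.1 := by
    intro p
    have hm := mk_pos p.1
    have h1 := hkey p.1
    have h2 : Real.log (mk p.1) ≤ mk p.1 ^ (1 / 4 : ℝ) / (1 / 4) := Real.log_le_rpow_div hm.le (by norm_num)
    have h3 : 1 ≤ mk p.1 ^ (1 / 4 : ℝ) := Real.one_le_rpow (one_le_mk _) (by norm_num)
    have h4 : 1 + Real.log (mk p.1) ≤ 5 * mk p.1 ^ (1 / 4 : ℝ) := by linarith
    have h5 := mul_le_mul_of_nonneg_left h4 (hR0 p.1)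
    have h6 : mk p.1 ^ (5 / 2 : ℝ) = mk p.1 ^ (9 / 4 : ℝ) * mk p.1 ^ (1 / 4 : ℝ) := by
      rw [← Real.rpow_add hm]; norm_num
    rw [h6] at h1
    have h7 : ν / 10 * mk p.1 ^ (9 / 4 : ℝ) * mk p.1 ^ (1 / 4 : ℝ) ≤ R p.1 * mk p.1 ^ (1 / 4 : ℝ) := by linarith
    exact le_of_mul_le_mul_right h7 (by linarith)
  obtain ⟨u, p, h1, h2⟩ := exists_solD θ hCE hD hR0 hRD hRr h0 hap
  refine ⟨u, p, h1, h2, fun T v q hv hv0 t ht => ?_⟩
  exact SolD.unique hCE hD hRD (ν := ν / 10) (by positivity) hRu hv (h2 T) (by rw [hv0, h1]) ht.1 ht.2 ht.2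

end Pool.Agent.H39.Log
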