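import Pool.Agent.H39.Log.BlowD
import Pool.Agent.H39.Log.PartA
import Pool.Agent.H39.Log.P2

/-!
# Blow-up with dissipation below the logarithmic threshold
-/

open MeasureTheory Set Filter Topology
open scoped ContDiff ENNReal

namespace Pool.Agent.H39.Log

open Pool.Agent.H39.Lions
open H459R3.NS (V K3 Per cube SP pd lap ee fr S N)
open Pool.Agent.H39.PDE hiding Sol Field
open Pool.Agent.H39.Dy (Rapid)

theorem four_le_sq : (36 : ℝ) ≤ (2 * Real.pi) ^ 2 := by nlinarith [Real.pi_gt_three]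

/-- the logarithm on the modes -/
theorem log_kap (n : ℕ) : (n : ℝ) + 1 ≤ Real.log (2 + fq (kap 2 n)) := by
  rw [fq_kap, Real.le_log_iff_exp_le (by positivity)]
  have h1 : Real.exp ((n : ℝ) + 1) = Real.exp 1 ^ n * Real.exp 1 := by
    rw [← Real.exp_nat_mul, ← Real.exp_add, mul_one]
  have he : Real.exp 1 ≤ 4 := by
    have := Real.exp_one_lt_d9
    linarith
  have h2 : Real.exp 1 ^ n ≤ 4 ^ n := pow_le_pow_left₀ (Real.exp_pos 1).le he n
  have h3 : (2 * Real.pi * ((2 : ℕ) : ℝ) ^ n) ^ 2 = (2 * Real.pi) ^ 2 * 4 ^ n := by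
    rw [mul_pow, ← pow_mul, mul_comm n 2, pow_mul]; norm_num
  rw [h1, h3]
  have h4 := four_le_sq
  have h5 : (0 : ℝ) < 4 ^ n := by positivity
  have h6 : Real.exp 1 ^ n * Real.exp 1 ≤ 4 ^ n * 4 := mul_le_mul h2 he (Real.exp_pos 1).le (by positivity)
  nlinarith

theorem rate_kap {D : K3 → ℝ} {M γ : ℝ} (hM : 0 ≤ M) (hγ : 0 ≤ γ)
    (hD : ∀ k, D k ≤ M * fq k ^ (5 / 4 : ℝ) / Real.log (2 + fq k) ^ γ) (n : ℕ) :
    D (kap 2 n) ≤ M * (2 * Real.pi) ^ (5 / 2 : ℝ) * ((2 : ℝ) ^ (5 / 2 : ℝ)) ^ n / ((n : ℝ) + 1) ^ γ := by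
  refine (hD _).trans ?_
  have h1 : fq (kap 2 n) ^ (5 / 4 : ℝ) = (2 * Real.pi) ^ (5 / 2 : ℝ) * ((2 : ℝ) ^ (5 / 2 : ℝ)) ^ n := by
    rw [fq_kap, mul_sq_rpow]; norm_num
  have h2 : ((n : ℝ) + 1) ^ γ ≤ Real.log (2 + fq (kap 2 n)) ^ γ :=
    Real.rpow_le_rpow (by positivity) (log_kap n) hγ
  have h3 : 0 < ((n : ℝ) + 1) ^ γ := Real.rpow_pos_of_pos (by positivity) _
  rw [h1, ← mul_assoc]
  apply div_le_div_of_nonneg_left _ h3 h2
  have : 0 ≤ (2 * Real.pi) ^ (5 / 2 : ℝ) := Real.rpow_nonneg (by positivity) _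
  positivity

/-- symbols below the threshold are admissible -/
theorem Sym.of_sub {D : K3 → ℝ} (hev : ∀ k, D (-k) = D k) (h0 : ∀ k, 0 ≤ D k) {M γ : ℝ} (hM : 0 ≤ M) (hγ : 0 ≤ γ)
    (hD : ∀ k, D k ≤ M * fq k ^ (5 / 4 : ℝ) / Real.log (2 + fq k) ^ γ) : Sym D := by
  refine Sym.of_growth hev ⟨2, M / Real.log 2 ^ γ, fun k => ?_⟩
  rw [abs_of_nonneg (h0 k)]
  refine (hD k).trans ?_
  have hf := fq_nonneg k
  have hl2 : 0 < Real.log 2 := Real.log_pos (by norm_num)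
  have h1 : Real.log 2 ^ γ ≤ Real.log (2 + fq k) ^ γ :=
    Real.rpow_le_rpow hl2.le (Real.log_le_log (by norm_num) (by linarith)) hγ
  have h2 : 0 < Real.log 2 ^ γ := Real.rpow_pos_of_pos hl2 _
  have h3 : fq k ^ (5 / 4 : ℝ) ≤ (1 + fq k) ^ 2 := by
    calc fq k ^ (5 / 4 : ℝ) ≤ (1 + fq k) ^ (5 / 4 : ℝ) := Real.rpow_le_rpow hf (by linarith) (by norm_num)
      _ ≤ (1 + fq k) ^ (2 : ℝ) := Real.rpow_le_rpow_of_exponent_le (by linarith) (by norm_num)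
      _ = (1 + fq k) ^ 2 := by rw [show (2 : ℝ) = ((2 : ℕ) : ℝ) by norm_num, Real.rpow_natCast]
  calc M * fq k ^ (5 / 4 : ℝ) / Real.log (2 + fq k) ^ γ ≤ M * fq k ^ (5 / 4 : ℝ) / Real.log 2 ^ γ :=
        div_le_div_of_nonneg_left (mul_nonneg hM (Real.rpow_nonneg hf _)) h2 h1
    _ ≤ M * (1 + fq k) ^ 2 / Real.log 2 ^ γ := by gcongr
    _ = _ := by ring

/-- the Beltrami field `(0, cos (2 π x₁), sin (2 π x₁))` -/
noncomputable def bel (A : ℝ) (x : V) : V :=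
  ![0, A * Real.cos (2 * Real.pi * x 0), A * Real.sin (2 * Real.pi * x 0)]

theorem fld_bel (A : ℝ) : fld 2 (fun n => if n = 0 then A else 0) = bel A := by
  funext x i
  unfold fld
  rw [tsum_eq_single 0 fun n hn => by simp [hn]]
  simp only [if_true]
  unfold bel
  fin_cases i
  · simp [psi_zero]
  · simp [psi_one]
  · simp [psi_two]

theorem rs_single (A : ℝ) : RS fun n : ℕ => if n = 0 then A else 0 := by
  intro s hs
  refine ⟨|A|, fun n => ?_⟩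
  by_cases hn : n = 0
  · subst hn; simp
  · simp only [if_neg hn, abs_zero, mul_zero]; exact abs_nonneg A

/-- the coefficients of the cascade are bounded by one -/
theorem alS_le {al : ℕ → ℝ} (h : ∀ n, 0 < al n ∧ al n ≤ 1) (n : ℕ) : |alS al n| ≤ 1 := by
  unfold alS
  split_ifs
  · rw [abs_of_pos (h _).1]; exact (h _).2
  · have h1 : (1 : ℝ) ≤ (2 : ℝ) ^ (5 / 2 : ℝ) := Real.one_le_rpow (by norm_num) (by norm_num)
    rw [abs_of_pos (inv_pos.2 (by linarith))]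
    exact inv_le_one_of_one_le₀ h1

theorem beS_le (n : ℕ) : |beS n| ≤ 1 := by
  unfold beS
  split_ifs <;> simp

/-- scaling of the coefficients -/
theorem isSolS_scale {α β : ℕ → ℝ} {B T κ : ℝ} {d : ℕ → ℝ} {X : ℕ → ℝ → ℝ}
    (h : IsSolS (fun n => κ * α n) (fun n => κ * β n) B d T X) : IsSolS α β B d T fun n t => κ * X n t := by
  intro n t ht
  refine ((h n t ht).const_mul κ).congr_deriv ?_
  cases n with
  | zero => simp only [gainS]; ring
  | succ n => simp only [gainS]; ring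

/-- **Part B.** -/
theorem partB (hP1 : S_P1) {ε : ℝ} (hε : 0 < ε) : ∃ C : (V → V) → (V → V) → V → V, CritType C ∧
    (∀ a b c : ℝ, a + b + c = 5 / 2 → ∀ v w z, Lions.Field v → Lions.Field w → Lions.Field z →
      |ip (C v w) z| ≤ ε * 2 ^ (|a| + |b| + |c|) * (sob a v * sob b w * sob c z)) ∧
    ∀ γ : ℝ, 1 < γ → ∀ M T : ℝ, 0 ≤ M → 0 < T → ∃ A₀ : ℝ, ∀ A, A₀ ≤ A → ∀ D : K3 → ℝ, (∀ k, D (-k) = D k) →
      (∀ k, 0 ≤ D k ∧ D k ≤ M * fq k ^ (5 / 4 : ℝ) / Real.log (2 + fq k) ^ γ) → ∀ θ : ℝ,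
      ∃ T₀, T₀ ≤ T ∧ BlowsUpD θ D C (bel A) T₀ := by
  obtain ⟨al, hal, hblow⟩ := hP1
  set κ : ℝ := ε / 12 with hκ
  have hκ0 : 0 < κ := by positivity
  have hα : ∀ n, |κ * alS al n| ≤ κ := fun n => by
    rw [abs_mul, abs_of_pos hκ0]
    exact mul_le_of_le_one_right hκ0.le (alS_le hal n)
  have hβ : ∀ n, |κ * beS n| ≤ κ := fun n => by
    rw [abs_mul, abs_of_pos hκ0]
    exact mul_le_of_le_one_right hκ0.le (beS_le n)
  have hB : (0 : ℝ) < (2 : ℝ) ^ (5 / 2 : ℝ) := Real.rpow_pos_of_pos (by norm_num) _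
  refine ⟨cascS 2 (((2 : ℕ) : ℝ) ^ (5 / 2 : ℝ)) (fun n => κ * alS al n) (fun n => κ * beS n), crit_cascS hα hβ le_rfl,
    fun a b c habc v w z hv hw hz => ?_, fun γ hγ M T hM hT => ?_⟩
  · have h := cascS_tri hα hβ (le_refl 2) habc hv.sp hw.sp hz.sp
    have e : 12 * κ = ε := by rw [hκ]; ring
    rw [e, Nat.cast_ofNat] at h
    rw [Nat.cast_ofNat]
    exact h
  · obtain ⟨A₀, hA₀⟩ := hblow γ hγ (M * (2 * Real.pi) ^ (5 / 2 : ℝ)) T hT
    refine ⟨A₀ / κ, fun A hA D hev hDD θ => ?_⟩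
    have hA' : A₀ ≤ κ * A := by
      rw [div_le_iff₀ hκ0] at hA
      linarith
    have hD : Sym D := Sym.of_sub hev (fun k => (hDD k).1) hM (by linarith) fun k => (hDD k).2
    have hn := hA₀ (κ * A) hA' (fun n => D (kap 2 n)) fun n => ⟨(hDD _).1,
      rate_kap hM (by linarith) (fun k => (hDD k).2) n⟩
    -- no smooth solution on `[0, T]`
    have hno : ∀ X : ℕ → ℝ → ℝ, IsSolS (fun n => κ * alS al n) (fun n => κ * beS n) ((2 : ℝ) ^ (5 / 2 : ℝ))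
        (fun n => D (kap 2 n)) T X → Rapid T X → (∀ n, X n 0 = if n = 0 then A else 0) → False := by
      intro X hX hr h0
      refine hn ⟨fun n t => κ * X n t, isSolS_scale hX, fun s hs => ?_, ?_, fun n hn' => ?_⟩
      · obtain ⟨C, hC⟩ := hr s hs
        refine ⟨κ * C, fun n t ht => ?_⟩
        rw [abs_mul, abs_of_pos hκ0]
        have := mul_le_mul_of_nonneg_left (hC n t ht) hκ0.le
        linarith
      · simp [h0]
      · have : n ≠ 0 := by omega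
        simp [h0, this]
    have hx := rs_single A
    rcases p2b (fun n => κ * alS al n) (fun n => κ * beS n) _ κ (fun n => D (kap 2 n)) hB hα hβ
      (fun n => (hDD _).1) _ hx with ⟨X, hX0, hX⟩ | ⟨T₀, hbl⟩
    · exact absurd (hno X (hX T hT.le).1 (hX T hT.le).2 hX0) not_false
    · have hT₀ : T₀ ≤ T := by
        by_contra hcon
        push Not at hcon
        obtain ⟨-, X, hX0, hX, -⟩ := hbl
        exact hno X (hX T hT.le hcon).1 (hX T hT.le hcon).2 hX0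
      refine ⟨T₀, hT₀, ?_⟩
      have h := blowsUpD p2a hD (fun k => (hDD k).1) hα hβ (le_refl 2) hx (T₀ := T₀) (by
        rw [Nat.cast_ofNat]; exact hbl) θ
      rwa [fld_bel] at h

end Pool.Agent.H39.Log
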