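import Pool.Agent.H39.Log.BlowE

/-!
# Blow-up and escape of the energy with dissipation below the logarithmic threshold
-/

open MeasureTheory Set Filter Topology
open scoped ContDiff ENNReal

namespace Pool.Agent.H39.Log

open Pool.Agent.H39.Lions
open H459R3.NS (V K3 Per cube SP pd lap ee fr S N)
open Pool.Agent.H39.PDE hiding Sol Field
open Pool.Agent.H39.Dy (Rapid)
open Pool.Agent.H42.LogS (S_P1s)

/-- **Part B** with the escape of the energy. -/
theorem partE (hP1 : S_P1s) {ε : ℝ} (hε : 0 < ε) : ∃ C : (V → V) → (V → V) → V → V, CritType C ∧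
    (∀ a b c : ℝ, a + b + c = 5 / 2 → ∀ v w z, Lions.Field v → Lions.Field w → Lions.Field z →
      |ip (C v w) z| ≤ ε * 2 ^ (|a| + |b| + |c|) * (sob a v * sob b w * sob c z)) ∧
    ∀ γ : ℝ, 1 < γ → ∀ M T : ℝ, 0 ≤ M → 0 < T → ∃ A₀ : ℝ, ∀ A, A₀ ≤ A → ∀ D : K3 → ℝ, (∀ k, D (-k) = D k) →
      (∀ k, 0 ≤ D k ∧ D k ≤ M * fq k ^ (5 / 4 : ℝ) / Real.log (2 + fq k) ^ γ) → ∀ θ : ℝ,
      ∃ T₀, T₀ ≤ T ∧ EnergyEscapes θ D C (bel A) T₀ := by
  obtain ⟨al, hal, hblow⟩ := hP1
  set κ : ℝ := ε / 12 with hκ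
  have hκ0 : 0 < κ := by positivity
  have hα : ∀ n, |κ * alS al n| ≤ κ := fun n => by
    rw [abs_mul, abs_of_pos hκ0]
    exact mul_le_of_le_one_right hκ0.le (alS_le hal n)
  have hβ : ∀ n, |κ * beS n| ≤ κ := fun n => by
    rw [abs_mul, abs_of_pos hκ0]
    exact mul_le_of_le_one_right hκ0.le (beS_le n)
  have hB : (0 : ℝ) < (2 : ℝ) ^ (5 / 2 : ℝ) := Real.rpow_pos_of_pos (by norm_num) _
  refine ⟨cascS 2 (((2 : ℕ) : ℝ) ^ (5 / 2 : ℝ)) (fun n => κ * alS al n) (fun n => κ * beS n), crit_cascS hα hβ le_rfl,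
    fun a b c habc v w z hv hw hz => ?_, fun γ hγ M T hM hT => ?_⟩
  · have h := cascS_tri hα hβ (le_refl 2) habc hv.sp hw.sp hz.sp
    have e : 12 * κ = ε := by rw [hκ]; ring
    rw [e, Nat.cast_ofNat] at h
    rw [Nat.cast_ofNat]
    exact h
  · obtain ⟨A₀, hA₀⟩ := hblow γ hγ (M * (2 * Real.pi) ^ (5 / 2 : ℝ)) T hT
    refine ⟨max 1 (A₀ / κ), fun A hA D hev hDD θ => ?_⟩
    have hA1 : 0 < A := lt_of_lt_of_le one_pos ((le_max_left _ _).trans hA)
    have hA' : A₀ ≤ κ * A := by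
      have := (le_max_right _ _).trans hA
      rw [div_le_iff₀ hκ0] at this
      linarith
    have hD : Sym D := Sym.of_sub hev (fun k => (hDD k).1) hM (by linarith) fun k => (hDD k).2
    obtain ⟨hn, hesc⟩ := hA₀ (κ * A) hA' (fun n => D (kap 2 n)) fun n => ⟨(hDD _).1,
      rate_kap hM (by linarith) (fun k => (hDD k).2) n⟩
    have hrap : ∀ {T' : ℝ} {X : ℕ → ℝ → ℝ}, Rapid T' X → Rapid T' fun n t => κ * X n t := by
      intro T' X hr s hs
      obtain ⟨C, hC⟩ := hr s hs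
      refine ⟨κ * C, fun n t ht => ?_⟩
      rw [abs_mul, abs_of_pos hκ0]
      have := mul_le_mul_of_nonneg_left (hC n t ht) hκ0.le
      linarith
    -- no smooth solution on `[0, T]`
    have hno : ∀ X : ℕ → ℝ → ℝ, IsSolS (fun n => κ * alS al n) (fun n => κ * beS n) ((2 : ℝ) ^ (5 / 2 : ℝ))
        (fun n => D (kap 2 n)) T X → Rapid T X → (∀ n, X n 0 = if n = 0 then A else 0) → False := by
      intro X hX hr h0
      refine hn ⟨fun n t => κ * X n t, isSolS_scale hX, hrap hr, ?_, fun n hn' => ?_⟩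
      · simp [h0]
      · have : n ≠ 0 := by omega
        simp [h0, this]
    have hx := rs_single A
    rcases p2b (fun n => κ * alS al n) (fun n => κ * beS n) _ κ (fun n => D (kap 2 n)) hB hα hβ
      (fun n => (hDD _).1) _ hx with ⟨X, hX0, hX⟩ | ⟨T₀, hbl⟩
    · exact absurd (hno X (hX T hT.le).1 (hX T hT.le).2 hX0) not_false
    · have hT₀ : T₀ ≤ T := by
        by_contra hcon
        push Not at hcon
        obtain ⟨-, X, hX0, hX, -⟩ := hbl
        exact hno X (hX T hT.le hcon).1 (hX T hT.le hcon).2 hX0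
      refine ⟨T₀, hT₀, ?_⟩
      have hbl' := hbl
      obtain ⟨hT00, X, hX0, hX, hunb⟩ := hbl'
      have h := blowsUpD p2a hD (fun k => (hDD k).1) hα hβ (le_refl 2) hx (T₀ := T₀) (by
        rw [Nat.cast_ofNat]; exact hbl) θ
      have h95 : ∀ n, ∃ t ∈ Ico 0 T₀, 95 / 100 * A ≤ X (2 * n) t := by
        intro n
        obtain ⟨t, ht, h1⟩ := hesc T₀ (fun n t => κ * X n t) hT00 (by simp [hX0])
          (fun n hn' => by
            have : n ≠ 0 := by omega
            simp [hX0, this])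
          (fun T' h0 h1 => ⟨isSolS_scale (hX T' h0 h1).1, hrap (hX T' h0 h1).2⟩)
          (fun K' => by
            obtain ⟨m, t, ht, h2⟩ := hunb (K' / κ)
            refine ⟨m, t, ht, ?_⟩
            rw [abs_mul, abs_of_pos hκ0]
            rw [div_lt_iff₀ hκ0] at h2
            linarith) n
        refine ⟨t, ht, ?_⟩
        have h3 : κ * (95 / 100 * A) ≤ κ * X (2 * n) t := by linarith
        exact le_of_mul_le_mul_left h3 hκ0
      have hfin := escapes hD (fun k => (hDD k).1) hα hβ (le_refl 2) hA1 hT00 hX0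
        (fun T' h0 h1 => by
          have := hX T' h0 h1
          rwa [Nat.cast_ofNat]) h95 θ h
      rwa [fld_bel] at hfin

end Pool.Agent.H39.Log
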