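import Mathlib

/-!
# A recursion

`U_(n+1) ≤ (1 - 1 / (κ R_n)) U_n + ε_n`, `c_(n+1) ≤ c_n / 2 + δ_n + H (n + 1) (U_n - U_(n+1))`, `R_n = 1 + G (n+1) c_n`
force exponential decay of `c`.
-/

open Set Filter Topology

namespace Pool.Agent.H39.Log

/-- iteration over a block -/
theorem block {U a ε : ℕ → ℝ} (ha : ∀ n, 0 ≤ a n) (hε : ∀ n, 0 ≤ ε n) (hU : ∀ n, 0 ≤ U n)
    (h : ∀ n, U (n + 1) ≤ (1 - a n) * U n + ε n) (m j : ℕ) :
    U (m + j) ≤ Real.exp (-∑ i ∈ Finset.range j, a (m + i)) * U m + ∑ i ∈ Finset.range j, ε (m + i) := by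
  induction j with
  | zero => simp
  | succ j ih =>
    rw [Finset.sum_range_succ, Finset.sum_range_succ, neg_add, Real.exp_add, ← add_assoc]
    have h1 := h (m + j)
    have h2 : 1 - a (m + j) ≤ Real.exp (-a (m + j)) := by
      have := Real.add_one_le_exp (-a (m + j))
      linarith
    have h3 : (1 - a (m + j)) * U (m + j) ≤ Real.exp (-a (m + j)) * U (m + j) :=
      mul_le_mul_of_nonneg_right h2 (hU _)
    have h4 : Real.exp (-a (m + j)) ≤ 1 := Real.exp_le_one_iff.2 (by linarith [ha (m + j)])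
    have h5 : 0 < Real.exp (-a (m + j)) := Real.exp_pos _
    have h6 : 0 ≤ ∑ i ∈ Finset.range j, ε (m + i) := Finset.sum_nonneg fun i _ => hε _
    have h7 := mul_le_mul_of_nonneg_left ih h5.le
    nlinarith

/-- Cauchy–Schwarz over a block -/
theorem block_cs {R : ℕ → ℝ} (hR : ∀ n, 0 < R n) (m : ℕ) {S : ℝ} (hS0 : 0 < S)
    (hS : ∑ i ∈ Finset.range m, R i ≤ S) : (m : ℝ) ^ 2 / S ≤ ∑ i ∈ Finset.range m, (R i)⁻¹ := by
  have h1 := Finset.sum_sq_le_sum_mul_sum_of_sq_le_mul (Finset.range m) (r := fun _ => (1 : ℝ)) (f := R)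
    (g := fun i => (R i)⁻¹) (fun i _ => (hR i).le) (fun i _ => (inv_pos.2 (hR i)).le)
    (fun i _ => by rw [mul_inv_cancel₀ (hR i).ne']; norm_num)
  simp only [Finset.sum_const, Finset.card_range, nsmul_eq_mul, mul_one] at h1
  have h2 : 0 ≤ ∑ i ∈ Finset.range m, (R i)⁻¹ := Finset.sum_nonneg fun i _ => (inv_pos.2 (hR i)).le
  rw [div_le_iff₀ hS0]
  calc (m : ℝ) ^ 2 ≤ _ := h1
    _ ≤ S * ∑ i ∈ Finset.range m, (R i)⁻¹ := mul_le_mul_of_nonneg_right hS h2
    _ = _ := mul_comm _ _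

/-- linear recursions -/
theorem lin_rec {V : ℕ → ℝ} {η : ℕ → ℝ} {r D s : ℝ} (hr0 : 0 ≤ r) (hrs : r < s) (hs1 : s < 1) (hD : 0 ≤ D)
    (hη : ∀ n, η n ≤ D * s ^ n) (h : ∀ n, V (n + 1) ≤ r * V n + η n) (n : ℕ) :
    V n ≤ (|V 0| + D / (s - r)) * s ^ n := by
  have hs0 : 0 < s := hr0.trans_lt hrs
  have hsr : 0 < s - r := by linarith
  induction n with
  | zero =>
    rw [pow_zero, mul_one]
    have : 0 ≤ D / (s - r) := by positivity
    linarith [le_abs_self (V 0)]
  | succ n ih =>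
    have h1 := h n
    have h2 := hη n
    have h3 := mul_le_mul_of_nonneg_left ih hr0
    have h4 : D = (s - r) * (D / (s - r)) := by field_simp
    have h5 : 0 < s ^ n := by positivity
    rw [pow_succ]
    have h6 : 0 ≤ |V 0| := abs_nonneg _
    calc V (n + 1) ≤ r * ((|V 0| + D / (s - r)) * s ^ n) + D * s ^ n := by linarith
      _ = (r * |V 0| + r * (D / (s - r)) + D) * s ^ n := by ring
      _ = (r * |V 0| + r * (D / (s - r)) + (s - r) * (D / (s - r))) * s ^ n := by rw [← h4]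
      _ ≤ (s * |V 0| + s * (D / (s - r))) * s ^ n := by
          apply mul_le_mul_of_nonneg_right _ h5.le
          nlinarith
      _ = _ := by ring

theorem bdd_mul_pow {x : ℝ} (h0 : 0 ≤ x) (h1 : x < 1) : ∃ B : ℝ, ∀ n : ℕ, ((n : ℝ) + 1) * x ^ n ≤ B := by
  have h2 := tendsto_self_mul_const_pow_of_lt_one h0 h1
  have h3 := tendsto_pow_atTop_nhds_zero_of_lt_one h0 h1
  have h4 : Tendsto (fun n : ℕ => ((n : ℝ) + 1) * x ^ n) atTop (𝓝 (0 + 0)) := by
    refine (h2.add h3).congr fun n => ?_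
    ring
  obtain ⟨B, hB⟩ := h4.bddAbove_range
  exact ⟨B, fun n => hB ⟨n, rfl⟩⟩

/-- **The recursion.** -/
theorem seq_decay {E cb κ G H D : ℝ} (hE : 0 ≤ E) (hcb : 0 ≤ cb) (hκ : 0 < κ) (hG : 0 ≤ G) (hH : 0 ≤ H) (hD : 0 ≤ D) :
    ∃ C q : ℝ, 0 < q ∧ q < 1 ∧ ∀ U c ε δ : ℕ → ℝ, (∀ n, 0 ≤ ε n ∧ ε n ≤ D * (1 / 2) ^ n) →
      (∀ n, 0 ≤ δ n ∧ δ n ≤ D * (1 / 2) ^ n) → (∀ n, 0 ≤ U n) → U 0 ≤ E → (∀ n, U (n + 1) ≤ U n) →
      (∀ n, 0 ≤ c n ∧ c n ≤ cb) →
      (∀ n, U (n + 1) ≤ (1 - (κ * (1 + G * ((n : ℝ) + 1) * c n))⁻¹) * U n + ε n) →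
      (∀ n, c (n + 1) ≤ 1 / 2 * c n + δ n + H * ((n : ℝ) + 1) * (U n - U (n + 1))) → ∀ n, c n ≤ C * q ^ n := by
  set K : ℝ := κ * (1 + 4 * G * cb + 8 * G * D + 8 * G * H) with hK
  have hK0 : 0 < K := by positivity
  set r : ℝ := Real.exp (-(K * (1 + E))⁻¹) with hr
  have hr0 : 0 < r := Real.exp_pos _
  have hr1 : r < 1 := Real.exp_lt_one_iff.2 (neg_neg_of_pos (by positivity))
  obtain ⟨s, hs⟩ : ∃ s, s = max ((1 + r) / 2) (3 / 4) := ⟨_, rfl⟩
  have hrs : r < s := by rw [hs]; exact lt_max_of_lt_left (by linarith)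
  have hs1 : s < 1 := by rw [hs]; exact max_lt (by linarith) (by norm_num)
  have hs2 : (1 / 2 : ℝ) ≤ s := by rw [hs]; exact le_max_of_le_right (by norm_num)
  set C1 : ℝ := E + 2 * D / (s - r) with hC1
  -- the index from which the decay is fast
  obtain ⟨k1, hk1⟩ : ∃ k1 : ℕ, ∀ k, k1 ≤ k → (1 / 2 : ℝ) ^ k + C1 * s ^ k ≤ (K * Real.log 4)⁻¹ := by
    have h1 : Tendsto (fun k : ℕ => (1 / 2 : ℝ) ^ k + C1 * s ^ k) atTop (𝓝 (0 + C1 * 0)) :=
      (tendsto_pow_atTop_nhds_zero_of_lt_one (by norm_num) (by norm_num)).add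
        ((tendsto_pow_atTop_nhds_zero_of_lt_one (by linarith) hs1).const_mul _)
    rw [mul_zero, add_zero] at h1
    have h2 : (0 : ℝ) < (K * Real.log 4)⁻¹ := by
      have := Real.log_pos (show (1 : ℝ) < 4 by norm_num)
      positivity
    obtain ⟨k1, h3⟩ := eventually_atTop.1 (h1.eventually_le_const h2)
    exact ⟨k1, h3⟩
  set C2 : ℝ := 2 ^ k1 * (E + 8 * D) with hC2
  have hC20 : 0 ≤ C2 := by positivity
  set q1 : ℝ := max (Real.exp (-(K * (1 + C2))⁻¹)) (1 / 2) with hq1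
  have hq10 : 0 < q1 := lt_max_of_lt_left (Real.exp_pos _)
  have hq11 : q1 < 1 := max_lt (Real.exp_lt_one_iff.2 (neg_neg_of_pos (by positivity))) (by norm_num)
  set C3 : ℝ := E + 2 * D with hC3
  set q2 : ℝ := q1 ^ (1 / 4 : ℝ) with hq2
  have hq20 : 0 < q2 := Real.rpow_pos_of_pos hq10 _
  have hq21 : q2 < 1 := Real.rpow_lt_one hq10.le hq11 (by norm_num)
  have hq24 : q2 ^ 4 = q1 := by
    rw [hq2, ← Real.rpow_natCast, ← Real.rpow_mul hq10.le]; norm_num
  set C4 : ℝ := (E + 2 * D) / q2 with hC4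
  obtain ⟨s3, hs3⟩ : ∃ s3, s3 = max ((1 + q2) / 2) (3 / 4) := ⟨_, rfl⟩
  have hs30 : q2 < s3 := by rw [hs3]; exact lt_max_of_lt_left (by linarith)
  have hs31 : s3 < 1 := by rw [hs3]; exact max_lt (by linarith) (by norm_num)
  have hs32 : (3 / 4 : ℝ) ≤ s3 := by rw [hs3]; exact le_max_right _ _
  have hs33 : 0 < s3 := by linarith
  obtain ⟨B, hB⟩ := bdd_mul_pow (x := q2 / s3) (by positivity) ((div_lt_one hs33).2 hs30)
  have hB0 : 0 ≤ B := by
    have := hB 0
    simp at this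
    linarith
  set D5 : ℝ := D + H * C4 * B with hD5
  refine ⟨cb + D5 / (s3 - 1 / 2), s3, hs33, hs31, fun U c ε δ hε hδ hU0 hUE hUm hc hb ha => ?_⟩
  have hUanti : Antitone U := antitone_nat_of_succ_le hUm
  -- the block estimate
  have hblk : ∀ k : ℕ, U (2 ^ (k + 1)) ≤ Real.exp (-(2 ^ k / (K * (1 + 2 ^ k * U (2 ^ k))))) * U (2 ^ k) +
      2 * D * (1 / 2) ^ (2 ^ k) := by
    intro k
    set m : ℕ := 2 ^ k with hm
    have hm0 : (0 : ℝ) < m := by rw [hm]; positivity
    have hmR : (m : ℝ) = 2 ^ k := by rw [hm]; push_cast; rfl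
    set a : ℕ → ℝ := fun n => (κ * (1 + G * ((n : ℝ) + 1) * c n))⁻¹ with haa
    have hR0 : ∀ n : ℕ, 0 < κ * (1 + G * ((n : ℝ) + 1) * c n) := fun n => by
      have := (hc n).1
      positivity
    have h1 := block (U := U) (a := a) (ε := ε) (fun n => (inv_pos.2 (hR0 n)).le) (fun n => (hε n).1) hU0 hb m m
    have geo : ∀ f : ℕ → ℝ, (∀ n, f n ≤ D * (1 / 2) ^ n) → ∑ i ∈ Finset.range m, f (m + i) ≤ 2 * D * (1 / 2) ^ m := by
      intro f hf
      calc ∑ i ∈ Finset.range m, f (m + i) ≤ ∑ i ∈ Finset.range m, D * (1 / 2) ^ m * (1 / 2) ^ i :=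
            Finset.sum_le_sum fun i _ => (hf _).trans (le_of_eq (by rw [pow_add]; ring))
        _ = D * (1 / 2) ^ m * ∑ i ∈ Finset.range m, (1 / 2 : ℝ) ^ i := by rw [Finset.mul_sum]
        _ ≤ D * (1 / 2) ^ m * 2 := by
            apply mul_le_mul_of_nonneg_left _ (by positivity)
            rw [geom_sum_eq (by norm_num)]
            have : (0 : ℝ) ≤ (1 / 2) ^ m := by positivity
            have e : ((1 / 2 : ℝ) ^ m - 1) / (1 / 2 - 1) = 2 - 2 * (1 / 2) ^ m := by field_simp; ring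
            rw [e]; linarith
        _ = _ := by ring
    have h2 := geo ε fun n => (hε n).2
    have h3 := geo δ fun n => (hδ n).2
    have hhalf : (1 / 2 : ℝ) ^ m ≤ 1 := pow_le_one₀ (by norm_num) (by norm_num)
    -- the sum of the `c`
    set A : ℝ := ∑ i ∈ Finset.range m, c (m + i) with hA
    have hA0 : 0 ≤ A := Finset.sum_nonneg fun i _ => (hc _).1
    have h4 : ∑ i ∈ Finset.range m, c (m + i + 1) = A - c m + c (m + m) := by
      have e1 := Finset.sum_range_succ (fun i => c (m + i)) m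
      have e2 := Finset.sum_range_succ' (fun i => c (m + i)) m
      simp only [add_zero] at e2
      have e3 : ∑ i ∈ Finset.range m, c (m + i + 1) = ∑ i ∈ Finset.range m, c (m + (i + 1)) :=
        Finset.sum_congr rfl fun i _ => by rw [add_assoc]
      rw [e3]
      linarith
    have h5 : ∑ i ∈ Finset.range m, c (m + i + 1) ≤ 1 / 2 * A + 2 * D + 2 * H * m * U m := by
      have e1 : ∑ i ∈ Finset.range m, c (m + i + 1) ≤ ∑ i ∈ Finset.range m, (1 / 2 * c (m + i) + δ (m + i) +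
          2 * H * m * (U (m + i) - U (m + i + 1))) := by
        refine Finset.sum_le_sum fun i hi => (ha (m + i)).trans ?_
        have h6 : ((m + i : ℕ) : ℝ) + 1 ≤ 2 * m := by
          have := Finset.mem_range.1 hi
          have : m + i + 1 ≤ 2 * m := by omega
          exact_mod_cast this
        have h7 : 0 ≤ U (m + i) - U (m + i + 1) := by linarith [hUm (m + i)]
        have h8 := mul_le_mul_of_nonneg_right (mul_le_mul_of_nonneg_left h6 hH) h7
        linarith
      refine e1.trans ?_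
      rw [Finset.sum_add_distrib, Finset.sum_add_distrib, ← Finset.mul_sum, ← Finset.mul_sum]
      have e2 : ∑ i ∈ Finset.range m, (U (m + i) - U (m + i + 1)) = U m - U (m + m) := by
        have := Finset.sum_range_sub' (fun i => U (m + i)) m
        simpa [add_assoc] using this
      rw [e2]
      have h6 := hU0 (m + m)
      have h7 : 2 * H * m * (U m - U (m + m)) ≤ 2 * H * m * U m :=
        mul_le_mul_of_nonneg_left (by linarith) (by positivity)
      have h8 : 2 * D * (1 / 2) ^ m ≤ 2 * D := mul_le_of_le_one_right (by positivity) hhalf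
      linarith
    have h6 : A ≤ 2 * cb + 4 * D + 4 * H * m * U m := by
      have := (hc m).2
      have := (hc (m + m)).1
      linarith
    have h7 : ∑ i ∈ Finset.range m, (κ * (1 + G * (((m + i : ℕ) : ℝ) + 1) * c (m + i))) ≤ κ * (m * (1 + 2 * G * A)) := by
      have e1 : ∀ i ∈ Finset.range m, κ * (1 + G * (((m + i : ℕ) : ℝ) + 1) * c (m + i)) ≤
          κ * (1 + 2 * G * m * c (m + i)) := by
        intro i hi
        have h6 : ((m + i : ℕ) : ℝ) + 1 ≤ 2 * m := by
          have := Finset.mem_range.1 hi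
          have : m + i + 1 ≤ 2 * m := by omega
          exact_mod_cast this
        apply mul_le_mul_of_nonneg_left _ hκ.le
        have := mul_le_mul_of_nonneg_right (mul_le_mul_of_nonneg_left h6 hG) (hc (m + i)).1
        linarith
      refine (Finset.sum_le_sum e1).trans (le_of_eq ?_)
      rw [← Finset.mul_sum, Finset.sum_add_distrib, ← Finset.mul_sum]
      simp only [Finset.sum_const, Finset.card_range, nsmul_eq_mul, mul_one]
      ring
    have hUm0 := hU0 m
    have h8 : κ * (m * (1 + 2 * G * A)) ≤ m * (K * (1 + m * U m)) := by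
      have e1 : 1 + 2 * G * A ≤ (1 + 4 * G * cb + 8 * G * D + 8 * G * H) * (1 + m * U m) := by
        have e2 := mul_le_mul_of_nonneg_left h6 (show (0 : ℝ) ≤ 2 * G by positivity)
        have e3 : 0 ≤ (m : ℝ) * U m := by positivity
        have e4 : 0 ≤ (1 + 4 * G * cb + 8 * G * D) * (m * U m) := by positivity
        have e5 : 0 ≤ 8 * G * H := by positivity
        nlinarith
      calc κ * (m * (1 + 2 * G * A)) = m * (κ * (1 + 2 * G * A)) := by ring
        _ ≤ m * (κ * ((1 + 4 * G * cb + 8 * G * D + 8 * G * H) * (1 + m * U m))) := by gcongr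
        _ = _ := by rw [hK]; ring
    have h9 := block_cs (R := fun i => κ * (1 + G * (((m + i : ℕ) : ℝ) + 1) * c (m + i))) (fun i => hR0 (m + i)) m
      (S := m * (K * (1 + m * U m))) (by positivity) (h7.trans h8)
    have h10 : (m : ℝ) ^ 2 / (m * (K * (1 + m * U m))) = m / (K * (1 + m * U m)) := by
      rw [sq, mul_div_mul_left _ _ hm0.ne']
    rw [h10] at h9
    have e2 : m + m = 2 ^ (k + 1) := by rw [hm, pow_succ]; ring
    rw [e2] at h1
    refine h1.trans (add_le_add ?_ h2)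
    apply mul_le_mul_of_nonneg_right _ hUm0
    apply Real.exp_le_exp.2
    rw [← hmR]
    exact neg_le_neg h9
  set V : ℕ → ℝ := fun k => U (2 ^ k) with hV
  have hV0 : ∀ k, 0 ≤ V k := fun k => hU0 _
  have hVE : ∀ k, V k ≤ E := fun k => (hUanti (Nat.zero_le _)).trans hUE
  have hpk : ∀ k : ℕ, (1 / 2 : ℝ) ^ (2 ^ k) ≤ (1 / 2) ^ k := fun k =>
    pow_le_pow_of_le_one (by norm_num) (by norm_num) (Nat.lt_two_pow_self).le
  -- step A
  have hA : ∀ k, V k ≤ C1 * s ^ k := by
    intro k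
    have h1 := lin_rec (V := V) (η := fun k => 2 * D * (1 / 2) ^ (2 ^ k)) (r := r) (D := 2 * D) (s := s) hr0.le hrs hs1
      (by positivity) (fun n => ?_) (fun n => ?_) k
    · refine h1.trans ?_
      have : |V 0| ≤ E := by rw [abs_of_nonneg (hV0 0)]; exact hVE 0
      have h2 : 0 ≤ s ^ k := by positivity
      apply mul_le_mul_of_nonneg_right _ h2
      rw [hC1]; linarith
    · apply mul_le_mul_of_nonneg_left _ (by positivity)
      exact (hpk n).trans (pow_le_pow_left₀ (by norm_num) hs2 n)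
    · refine (hblk n).trans (add_le_add ?_ le_rfl)
      apply mul_le_mul_of_nonneg_right _ (hV0 n)
      rw [hr]
      apply Real.exp_le_exp.2
      apply neg_le_neg
      have h2 : (0 : ℝ) < 2 ^ n := by positivity
      have h3 := hV0 n
      rw [inv_eq_one_div, div_le_div_iff₀ (by positivity) (by positivity), one_mul]
      have h4 : (1 : ℝ) ≤ 2 ^ n := one_le_pow₀ (by norm_num)
      have h5 := hVE n
      have h6 : 1 + 2 ^ n * V n ≤ 2 ^ n * (1 + E) := by nlinarith
      calc K * (1 + 2 ^ n * V n) ≤ K * (2 ^ n * (1 + E)) := mul_le_mul_of_nonneg_left h6 hK0.le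
        _ = _ := by ring
  -- step B
  have hBk : ∀ k, 2 ^ k * V k ≤ C2 := by
    have h1 : ∀ j : ℕ, V (k1 + j) ≤ (E + 8 * D) * (1 / 2) ^ j := by
      intro j
      have h2 := lin_rec (V := fun j => V (k1 + j)) (η := fun j => 2 * D * (1 / 2) ^ (2 ^ (k1 + j))) (r := 1 / 4)
        (D := 2 * D) (s := 1 / 2) (by norm_num) (by norm_num) (by norm_num) (by positivity) (fun n => ?_)
        (fun n => ?_) j
      · refine h2.trans ?_
        apply mul_le_mul_of_nonneg_right _ (by positivity)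
        have : |V (k1 + 0)| ≤ E := by rw [abs_of_nonneg (hV0 _)]; exact hVE _
        norm_num at this ⊢
        linarith
      · apply mul_le_mul_of_nonneg_left _ (by positivity)
        refine (hpk (k1 + n)).trans ?_
        exact pow_le_pow_of_le_one (by norm_num) (by norm_num) (by omega)
      · refine (hblk (k1 + n)).trans (add_le_add ?_ le_rfl)
        apply mul_le_mul_of_nonneg_right _ (hV0 _)
        have h3 : Real.exp (-Real.log 4) = 1 / 4 := by
          rw [Real.exp_neg, Real.exp_log (by norm_num)]; norm_num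
        rw [← h3]
        apply Real.exp_le_exp.2
        apply neg_le_neg
        have h4 : (0 : ℝ) < 2 ^ (k1 + n) := by positivity
        have h5 := hk1 (k1 + n) (Nat.le_add_right _ _)
        have h6 := hA (k1 + n)
        have h7 : (1 / 2 : ℝ) ^ (k1 + n) + V (k1 + n) ≤ (K * Real.log 4)⁻¹ := by linarith
        have hl4 := Real.log_pos (show (1 : ℝ) < 4 by norm_num)
        rw [le_div_iff₀ (by have := hV0 (k1 + n); positivity)]
        have h8 : (1 + 2 ^ (k1 + n) * V (k1 + n)) = 2 ^ (k1 + n) * ((1 / 2 : ℝ) ^ (k1 + n) + V (k1 + n)) := by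
          rw [mul_add, ← mul_pow]; norm_num
        rw [h8]
        calc Real.log 4 * (K * (2 ^ (k1 + n) * ((1 / 2 : ℝ) ^ (k1 + n) + V (k1 + n)))) =
            (K * Real.log 4) * ((1 / 2 : ℝ) ^ (k1 + n) + V (k1 + n)) * 2 ^ (k1 + n) := by ring
          _ ≤ (K * Real.log 4) * (K * Real.log 4)⁻¹ * 2 ^ (k1 + n) := by gcongr
          _ = 2 ^ (k1 + n) := by rw [mul_inv_cancel₀ (by positivity), one_mul]
    intro k
    rcases le_total k1 k with h | h
    · obtain ⟨j, rfl⟩ := Nat.exists_eq_add_of_le h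
      have h2 := h1 j
      calc 2 ^ (k1 + j) * V (k1 + j) ≤ 2 ^ (k1 + j) * ((E + 8 * D) * (1 / 2) ^ j) := by gcongr
        _ = 2 ^ k1 * (E + 8 * D) * (2 ^ j * (1 / 2) ^ j) := by rw [pow_add]; ring
        _ = C2 := by rw [← mul_pow]; norm_num; rw [hC2]
    · have h2 : (2 : ℝ) ^ k ≤ 2 ^ k1 := pow_le_pow_right₀ (by norm_num) h
      calc 2 ^ k * V k ≤ 2 ^ k1 * (E + 8 * D) := by
            apply mul_le_mul h2 _ (hV0 k) (by positivity)
            linarith [hVE k]
        _ = C2 := hC2.symm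
  -- step C
  have hCk : ∀ k : ℕ, V (k + 1) ≤ C3 * q1 ^ (2 ^ k) := by
    intro k
    refine (hblk k).trans ?_
    have h1 : Real.exp (-(2 ^ k / (K * (1 + 2 ^ k * U (2 ^ k))))) ≤ q1 ^ (2 ^ k) := by
      have h2 : Real.exp (-(2 ^ k / (K * (1 + 2 ^ k * U (2 ^ k))))) ≤ Real.exp (-(K * (1 + C2))⁻¹) ^ (2 ^ k) := by
        rw [← Real.exp_nat_mul]
        apply Real.exp_le_exp.2
        push_cast
        rw [mul_neg]
        apply neg_le_neg
        rw [← div_eq_mul_inv]
        have h3 := hBk k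
        have h4 := hV0 k
        apply div_le_div_of_nonneg_left (by positivity) (by positivity)
        apply mul_le_mul_of_nonneg_left _ hK0.le
        linarith
      exact h2.trans (pow_le_pow_left₀ (Real.exp_pos _).le (le_max_left _ _) _)
    have h5 : (1 / 2 : ℝ) ^ (2 ^ k) ≤ q1 ^ (2 ^ k) := pow_le_pow_left₀ (by norm_num) (le_max_right _ _) _
    have h6 := hV0 k
    have h7 := hVE k
    have h8 : 0 < q1 ^ (2 ^ k) := by positivity
    calc Real.exp (-(2 ^ k / (K * (1 + 2 ^ k * U (2 ^ k))))) * U (2 ^ k) + 2 * D * (1 / 2) ^ (2 ^ k) ≤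
        q1 ^ (2 ^ k) * E + 2 * D * q1 ^ (2 ^ k) := by
          apply add_le_add
          · exact mul_le_mul h1 h7 h6 h8.le
          · exact mul_le_mul_of_nonneg_left h5 (by positivity)
      _ = _ := by rw [hC3]; ring
  -- step D
  have hDn : ∀ n, U n ≤ C4 * q2 ^ n := by
    intro n
    rcases Nat.lt_or_ge n 2 with hn | hn
    · have h1 : U n ≤ E := (hUanti (Nat.zero_le _)).trans hUE
      have h2 : q2 ≤ q2 ^ n := by
        interval_cases n
        · rw [pow_zero]; exact hq21.le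
        · rw [pow_one]
      calc U n ≤ E + 2 * D := by linarith
        _ = C4 * q2 := by rw [hC4]; field_simp
        _ ≤ C4 * q2 ^ n := mul_le_mul_of_nonneg_left h2 (by positivity)
    · obtain ⟨k, hk1', hk2'⟩ : ∃ k, 2 ^ (k + 1) ≤ n ∧ n < 2 ^ (k + 2) := by
        have hne : n ≠ 0 := by omega
        have h1 := Nat.pow_log_le_self 2 hne
        have h2 := Nat.lt_pow_succ_log_self (b := 2) (by norm_num) n
        have h3 : 1 ≤ Nat.log 2 n := Nat.log_pos (by norm_num) hn
        refine ⟨Nat.log 2 n - 1, ?_, ?_⟩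
        · rwa [Nat.sub_add_cancel h3]
        · rw [show Nat.log 2 n - 1 + 2 = (Nat.log 2 n).succ by omega]; exact h2
      have h1 : U n ≤ V (k + 1) := hUanti hk1'
      have h2 : q1 ^ (2 ^ k) ≤ q2 ^ n := by
        rw [← hq24, ← pow_mul]
        apply pow_le_pow_of_le_one hq20.le hq21.le
        rw [show 2 ^ (k + 2) = 4 * 2 ^ k by rw [pow_add]; ring] at hk2'
        omega
      have h3 : C3 ≤ C4 := by
        rw [hC3, hC4, le_div_iff₀ hq20]
        exact mul_le_of_le_one_right (by positivity) hq21.le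
      calc U n ≤ C3 * q1 ^ (2 ^ k) := h1.trans (hCk k)
        _ ≤ C3 * q2 ^ n := mul_le_mul_of_nonneg_left h2 (by positivity)
        _ ≤ _ := mul_le_mul_of_nonneg_right h3 (by positivity)
  -- step E
  intro n
  have hC40 : 0 ≤ C4 := by positivity
  have h1 := lin_rec (V := c) (η := fun n => δ n + H * ((n : ℝ) + 1) * (U n - U (n + 1))) (r := 1 / 2)
    (D := D5) (s := s3) (by norm_num) (by linarith) hs31 (by positivity) (fun n => ?_) (fun n => ?_) n
  · refine h1.trans ?_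
    have : |c 0| ≤ cb := by rw [abs_of_nonneg (hc 0).1]; exact (hc 0).2
    apply mul_le_mul_of_nonneg_right _ (by positivity)
    linarith
  · have e1 : δ n ≤ D * s3 ^ n := (hδ n).2.trans
      (mul_le_mul_of_nonneg_left (pow_le_pow_left₀ (by norm_num) (by linarith) n) hD)
    have e2 : U n - U (n + 1) ≤ C4 * q2 ^ n := by linarith [hDn n, hU0 (n + 1)]
    have e3 := hB n
    have e4 : ((n : ℝ) + 1) * q2 ^ n ≤ B * s3 ^ n := by
      rw [div_pow, ← mul_div_assoc, div_le_iff₀ (by positivity)] at e3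
      exact e3
    have e5 : H * ((n : ℝ) + 1) * (U n - U (n + 1)) ≤ H * C4 * B * s3 ^ n := by
      calc H * ((n : ℝ) + 1) * (U n - U (n + 1)) ≤ H * ((n : ℝ) + 1) * (C4 * q2 ^ n) :=
            mul_le_mul_of_nonneg_left e2 (by positivity)
        _ = H * C4 * (((n : ℝ) + 1) * q2 ^ n) := by ring
        _ ≤ H * C4 * (B * s3 ^ n) := mul_le_mul_of_nonneg_left e4 (by positivity)
        _ = _ := by ring
    calc δ n + H * ((n : ℝ) + 1) * (U n - U (n + 1)) ≤ D * s3 ^ n + H * C4 * B * s3 ^ n := add_le_add e1 e5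
      _ = _ := by rw [hD5]; ring
  · have := ha n
    linarith

end Pool.Agent.H39.Log
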