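import Pool.Agent.H39.PDE.Smooth
import Pool.Agent.H39.Log.Defs

/-!
# Regularity in time of solutions of the dyadic systems with variable coefficients
-/

open MeasureTheory Set Filter Topology
open scoped ContDiff

namespace Pool.Agent.H39.Log

open Pool.Agent.H39.PDE
open Pool.Agent.H39.Dy (Rapid)

variable {T : ℝ} {α β : ℕ → ℝ} {B : ℝ}

/-- the right hand side of the dyadic system, as a family -/
theorem TDl_rhsS {K C R : ℝ} (hα : ∀ n, |α n| ≤ K) (hβ : ∀ n, |β n| ≤ K) (hB : 0 < B) {d : ℕ → ℝ} (hR : 0 < R)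
    (hd : ∀ n, |d n| ≤ C * R ^ n) {k : ℕ} {X : ℕ → ℝ → ℝ} (h : TDl T k X) :
    TDl T k (fun n t => gainS α β B (fun k => X k t) n - d n * X n t -
      B ^ n * X (n + 1) t * (α n * X n t + β n * X (n + 1) t)) := by
  have c : ∀ {a : ℕ → ℝ}, (∀ n, |a n| ≤ K) → ∀ n : ℕ, |a n| ≤ K * (1 : ℝ) ^ n := fun h n => by
    rw [one_pow, mul_one]; exact h n
  have hBn : ∀ n : ℕ, |B ^ n| ≤ 1 * B ^ n := fun n => by rw [abs_of_pos (by positivity), one_mul]
  have hDn : ∀ n : ℕ, |-(d n)| ≤ C * R ^ n := fun n => by rw [abs_neg]; exact hd n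
  have h1 : TDl T k (fun n t => B ^ n * (X n t * (α n * X n t + β n * X (n + 1) t))) :=
    TDl.fac hB hBn (h.mul ((TDl.fac one_pos (c hα) h).add (TDl.fac one_pos (c hβ) h.succ)))
  have h2 : TDl T k (fun n t => -(d n) * X n t) := TDl.fac hR hDn h
  have h3 : TDl T k (fun n t => (-1) * (B ^ n * (X (n + 1) t * (α n * X n t + β n * X (n + 1) t)))) :=
    TDl.fac (C := 1) one_pos (fun n => by norm_num) (TDl.fac hB hBn (h.succ.mul ((TDl.fac one_pos (c hα) h).add
      (TDl.fac one_pos (c hβ) h.succ))))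
  have h4 := (h1.pre.add h2).add h3
  have e : (fun n t => gainS α β B (fun k => X k t) n - d n * X n t -
      B ^ n * X (n + 1) t * (α n * X n t + β n * X (n + 1) t)) = fun n t =>
      (PDE.pre (fun n t => B ^ n * (X n t * (α n * X n t + β n * X (n + 1) t))) n t + -(d n) * X n t) +
      (-1) * (B ^ n * (X (n + 1) t * (α n * X n t + β n * X (n + 1) t))) := by
    funext n t
    cases n with
    | zero => simp only [gainS, PDE.pre]; ring
    | succ n => simp only [gainS, PDE.pre]; ring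
  rw [e]
  exact h4

theorem TDl_clampS {K C R : ℝ} (hα : ∀ n, |α n| ≤ K) (hβ : ∀ n, |β n| ≤ K) (hB : 0 < B) {d : ℕ → ℝ} (hR : 0 < R)
    (hd : ∀ n, |d n| ≤ C * R ^ n) (hT : 0 ≤ T) {X : ℕ → ℝ → ℝ}
    (h : IsSolS α β B d T X) (hr : Rapid T X) (k : ℕ) : TDl T k (clamp hT X) := by
  have hrd : RDD (clamp hT X) := by
    intro s hs
    obtain ⟨C, hC⟩ := hr s hs
    exact ⟨C, fun n t => hC n _ (projIcc 0 T hT t).2⟩
  have hct : ∀ n, Continuous (clamp hT X n) := fun n => by
    have h1 : ContinuousOn (X n) (Icc 0 T) := fun t ht => (h n t ht).continuousWithinAt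
    exact (h1.domRestrict).comp continuous_projIcc
  induction k with
  | zero => exact ⟨hrd, hct⟩
  | succ k ih =>
    refine ⟨hrd, hct, _, fun n t ht htT => ?_, TDl_rhsS hα hβ hB hR hd ih⟩
    have hI : t ∈ Icc 0 T := ⟨ht.le, htT.le⟩
    have h1 := (h n t hI).hasDerivAt (Icc_mem_nhds ht htT)
    have e : clamp hT X n =ᶠ[𝓝 t] X n := by
      filter_upwards [Icc_mem_nhds ht htT] with s hs
      exact clamp_eq hT X n hs
    refine (h1.congr_of_eventuallyEq e).congr_deriv ?_
    simp only [clamp_eq hT X _ hI]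

end Pool.Agent.H39.Log
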