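import Pool.Agent.H39.Log.FracD
import Pool.Agent.H39.Log.SmoothS
import Pool.Agent.H39.Log.CascC

/-!
# Reduction of the equation to the dyadic system
-/

open MeasureTheory Set Filter Topology
open scoped ContDiff ENNReal

namespace Pool.Agent.H39.Log

open Pool.Agent.H39.Lions
open H459R3.NS (V K3 Per cube SP pd lap ee fr S N)
open Pool.Agent.H39.PDE hiding Sol Field
open Pool.Agent.H39.Dy (Rapid)
open Pool.Agent.K1H11.NS (Ev.SF)

variable {θ T : ℝ} {D : K3 → ℝ} {lam : ℕ} {B : ℝ} {α β : ℕ → ℝ} {K : ℝ} {u : ℝ → V → V} {p : ℝ → V → ℝ}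

theorem SolD.SFp {C : (V → V) → (V → V) → V → V} (h : SolD θ D C T u p) : Ev.SF T p := ⟨h.smooth_p, h.per_p⟩

theorem mlt_shift {f : V → ℝ} (hf : SP f) (D : K3 → ℝ) (e : V) (x : V) :
    mlt D (fun y => f (y + e)) x = mlt D f (x + e) := by
  have hfr : ∀ k, fr (fun y => f (y + e)) k = ee k e * fr f k := by
    intro k
    have hS := fun x => H459R3.NS.S_fr hf x
    have hsum := (H459R3.NS.rap_fr hf).summable
    have h1 : ∀ y, ((f (y + e) : ℝ) : ℂ) = S (fun k => ee k e * fr f k) y := by
      intro y
      rw [← hS (y + e)]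
      unfold H459R3.NS.S
      refine tsum_congr fun k => ?_
      rw [H459R3.NS.ee_add]; ring
    have hsum' : Summable fun k => ee k e * fr f k := by
      refine Summable.of_norm_bounded hsum.norm fun k => ?_
      rw [norm_mul, H459R3.NS.norm_ee, one_mul]
    have h2 := H459R3.NS.integral_ee_S (-k) hsum'
    rw [neg_neg] at h2
    rw [← h2]
    unfold H459R3.NS.fr H459R3.NS.fc
    congr 1
    funext y
    have := h1 y
    unfold H459R3.NS.fr H459R3.NS.fc at this
    exact congrArg (fun z => ee (-k) y * z) this
  unfold mlt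
  congr 1
  refine tsum_congr fun k => ?_
  rw [hfr, H459R3.NS.ee_add]
  ring

/-- Solutions whose datum does not depend on `x₂`, `x₃` and has vanishing first component stay in this class. -/
theorem SolD.shear (hD : Sym D) (hD0 : ∀ k, 0 ≤ D k) (h : SolD θ D (cascS lam B α β) T u p)
    (h0 : ∀ j : Fin 3, j ≠ 0 → ∀ (r : ℝ) x, u 0 (x + Pi.single j r) = u 0 x) :
    ∀ t ∈ Ico 0 T, ∀ x i, ∑ j, u t x j * pd j (fun y => u t y i) x = 0 := by
  -- invariance by uniqueness
  have hinv : ∀ j : Fin 3, j ≠ 0 → ∀ (r : ℝ), ∀ t ∈ Ico 0 T, ∀ x, u t (x + Pi.single j r) = u t x := by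
    intro j hj r t ht
    set e : V := Pi.single j r with he
    have hpd : ∀ (g : V → ℝ) (i : Fin 3) (x : V), pd i (fun y => g (y + e)) x = pd i g (x + e) := by
      intro g i x
      unfold H459R3.NS.pd
      rw [fderiv_comp_add_right]
    have hA : ContDiff ℝ ∞ fun z : ℝ × V => ((z.1, z.2 + e) : ℝ × V) := by fun_prop
    have s1 : FSolD θ D T (fun t => cascS lam B α β (u t) (u t)) u p :=
      ⟨h.smooth_u, h.smooth_p, fun t ht i x => funext fun l => ((h.field t ht).sp l).per i x, h.per_p,
        fun t ht => (h.field t ht).div, fun t ht x i => by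
        have := h.momentum t ht x i
        linarith⟩
    have s2 : FSolD θ D T (fun t => cascS lam B α β (u t) (u t)) (fun t x => u t (x + e)) (fun t x => p t (x + e)) := by
      refine ⟨?_, ?_, fun t ht i x => ?_, fun t ht i x => ?_, fun t ht x => ?_, fun t ht x i => ?_⟩
      · exact h.smooth_u.comp hA.contDiffOn fun z hz => ⟨hz.1, mem_univ _⟩
      · exact h.smooth_p.comp hA.contDiffOn fun z hz => ⟨hz.1, mem_univ _⟩
      · show u t (x + Pi.single i 1 + e) = u t (x + e)
        rw [add_right_comm]
        exact funext fun l => ((h.field t ht).sp l).per i (x + e)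
      · show p t (x + Pi.single i 1 + e) = p t (x + e)
        rw [add_right_comm, h.per_p t ht]
      · have := (h.field t ht).div (x + e)
        simp only [← hpd] at this
        exact this
      · have := h.momentum t ht (x + e) i
        have hc : cascS lam B α β (u t) (u t) (x + e) i = cascS lam B α β (u t) (u t) x i := by
          unfold cascS
          refine tsum_congr fun n => ?_
          rw [he, psi_shift n x hj r]
        rw [hc] at this
        have hp1 : ∀ j', pd j' (fun y => u t (y + e) i) x = pd j' (fun y => u t y i) (x + e) :=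
          fun j' => hpd (fun y => u t y i) j' x
        simp only [hp1]
        rw [hpd (p t) i x, mlt_shift ((h.field t ⟨ht.1.le, ht.2⟩).sp i)]
        linarith
    have hu := FSolD.unique hD hD0 s2 s1 (by
      funext x
      exact h0 j hj r x) ht
    intro x
    exact congrFun hu x
  -- vanishing derivatives in the directions `2` and `3`
  have hpdz : ∀ j : Fin 3, j ≠ 0 → ∀ t ∈ Ico 0 T, ∀ i x, pd j (fun y => u t y i) x = 0 := by
    intro j hj t ht i x
    have hd : DifferentiableAt ℝ (fun y => u t y i) x := ((h.field t ht).sp i).diff x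
    have h2 : HasDerivAt (fun r : ℝ => u t (x + r • Pi.single j 1) i) (pd j (fun y => u t y i) x) 0 := by
      have := hd.hasFDerivAt.hasLineDerivAt (Pi.single j (1 : ℝ))
      exact this
    have h3 : (fun r : ℝ => u t (x + r • Pi.single j 1) i) = fun _ => u t x i := by
      funext r
      have e1 : r • (Pi.single j (1 : ℝ) : V) = Pi.single j r := by
        rw [← Pi.single_smul]; simp
      rw [e1, hinv j hj r t ht x]
    rw [h3] at h2
    exact h2.unique (hasDerivAt_const _ _)
  -- the first component is constant in space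
  have hpd0 : ∀ t ∈ Ico 0 T, ∀ j x, pd j (fun y => u t y 0) x = 0 := by
    intro t ht j x
    by_cases hj : j = 0
    · subst hj
      have := (h.field t ht).div x
      rw [Fin.sum_univ_three, hpdz 1 (by decide) t ht, hpdz 2 (by decide) t ht] at this
      linarith
    · exact hpdz j hj t ht 0 x
  have hconst : ∀ t ∈ Ico 0 T, ∀ x, u t x 0 = u t 0 0 := by
    intro t ht x
    have hf : ∀ x, fderiv ℝ (fun y => u t y 0) x = 0 := by
      intro x
      refine ContinuousLinearMap.coe_injective (LinearMap.pi_ext fun j r => ?_)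
      have h2 := hpd0 t ht j x
      unfold H459R3.NS.pd at h2
      have e1 : (Pi.single j r : V) = r • Pi.single j 1 := by
        rw [← Pi.single_smul]; simp
      show fderiv ℝ (fun y => u t y 0) x (Pi.single j r) = 0
      rw [e1, map_smul, h2, smul_zero]
    have := is_const_of_fderiv_eq_zero (𝕜 := ℝ) (f := fun y => u t y 0)
      (((h.field t ht).sp 0).smooth.differentiable (by norm_cast)) hf x 0
    exact this
  -- and vanishes, since it has mean zero
  have hzero : ∀ t ∈ Ico 0 T, ∀ x, u t x 0 = 0 := by
    intro t ht x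
    have hm := (h.field t ht).mean 0
    simp_rw [hconst t ht] at hm
    rw [hconst t ht x]
    simpa [Measure.real, H459R3.NS.volume_cube] using hm
  intro t ht x i
  rw [Fin.sum_univ_three, hzero t ht x, hpdz 1 (by decide) t ht, hpdz 2 (by decide) t ht]
  ring

/-- If the convection term vanishes, the coefficients solve the dyadic system. -/
theorem dyadicS (hD : Sym D) (hα : ∀ n, |α n| ≤ K) (hβ : ∀ n, |β n| ≤ K) (hlam : 2 ≤ lam) (hB : 0 < B)
    (h : SolD θ D (cascS lam B α β) T u p)
    (hz : ∀ t ∈ Ico 0 T, ∀ x i, ∑ j, u t x j * pd j (fun y => u t y i) x = 0) {b : ℝ} (hb : b < T) :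
    IsSolS α β B (fun n => D (kap lam n)) b (fun n t => co lam (u t) n) := by
  have hu : ∀ i, Ev.SF T fun t x => u t x i := h.SF
  have hp : Ev.SF T p := h.SFp
  set X : ℕ → ℝ → ℝ := fun n t => co lam (u t) n with hX
  set f : ℕ → ℝ → ℝ := fun n t => gainS α β B (fun k => X k t) n -
    D (kap lam n) * X n t - B ^ n * X (n + 1) t * (α n * X n t + β n * X (n + 1) t)
    with hf
  have hder : ∀ n, ∀ t ∈ Ioo 0 T, HasDerivAt (X n) (f n t) t := by
    intro n t ht
    refine (co_hasDerivAt hu ht n).congr_deriv ?_
    have hI : t ∈ Ico 0 T := ⟨ht.1.le, ht.2⟩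
    have hsp : ∀ i, SP fun x => u t x i := fun i => (hu i).sp hI
    have hfl : ∀ i, SP (mlt D fun y => u t y i) := fun i => sp_mlt hD (hsp i)
    have hrs : RS (shS α β B (co lam (u t)) (co lam (u t))) :=
      RSshS hα hβ hB (co_RS hlam hsp) (co_RS hlam hsp)
    have e1 : (fun x i => deriv (fun s => u s x i) t) = fun x i =>
        (-1 * mlt D (fun y => u t y i) x + (-1) * pd i (p t) x) + cascS lam B α β (u t) (u t) x i := by
      funext x i
      have h1 := h.momentum t ht x i
      rw [hz t hI x i] at h1
      linarith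
    have hs1 : ∀ i, IntegrableOn (fun x => (-1 * mlt D (fun y => u t y i) x + (-1) * pd i (p t) x) * psi lam n x i) cube := by
      intro i
      refine H459R3.NS.integrableOn_cube ?_
      exact ((continuous_const.mul (hfl i).cont).add (continuous_const.mul ((hp.sp hI).pd i).cont)).mul
        (sp_psi n i).cont
    have hcc : ∀ i, Continuous fun x => cascS lam B α β (u t) (u t) x i := by
      intro i
      refine continuous_tsum (fun n => continuous_const.mul (sp_psi n i).cont) hrs.summable_abs fun n x => ?_
      rw [Real.norm_eq_abs, abs_mul]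
      exact mul_le_of_le_one_right (abs_nonneg _) (abs_psi_le n x i)
    have hs2 : ∀ i, IntegrableOn (fun x => cascS lam B α β (u t) (u t) x i * psi lam n x i) cube := fun i =>
      H459R3.NS.integrableOn_cube ((hcc i).mul (sp_psi n i).cont)
    have e2 : co lam (fun x i => (-1 * mlt D (fun y => u t y i) x + (-1) * pd i (p t) x) +
        cascS lam B α β (u t) (u t) x i) n = co lam (fun x i => -1 * mlt D (fun y => u t y i) x + (-1) * pd i (p t) x) n +
        co lam (cascS lam B α β (u t) (u t)) n := by
      unfold co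
      rw [← integral_add]
      · congr 1
        funext x
        rw [← Finset.sum_add_distrib]
        exact Finset.sum_congr rfl fun i _ => by ring
      · exact integrable_finsetSum _ fun i _ => hs1 i
      · exact integrable_finsetSum _ fun i _ => hs2 i
    have spc : ∀ (a : ℝ) {g : V → ℝ}, SP g → SP fun x => a * g x := fun a g hg =>
      ⟨contDiff_const.mul hg.smooth, fun i x => by simp only [hg.per i x]⟩
    rw [e1, e2, co_cascS hα hβ hlam hB hsp hsp, co_add (v := fun x i => -1 * mlt D (fun y => u t y i) x)
      (w := fun x i => (-1) * pd i (p t) x) (fun i => spc (-1) (hfl i)) (fun i => spc (-1) ((hp.sp hI).pd i)),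
      co_smul (fun x i => mlt D (fun y => u t y i) x), co_mlt hD hsp, co_smul (fun x i => pd i (p t) x),
      co_grad (hp.sp hI), shS_self]
    simp only [hf, hX]
    ring
  have hcont : ∀ n, ContinuousOn (X n) (Ico 0 T) := fun n => co_continuousOn hu n
  have hfc : ∀ n, ContinuousOn (f n) (Ico 0 T) := by
    intro n
    have hg : ContinuousOn (fun t => gainS α β B (fun k => X k t) n) (Ico 0 T) := by
      cases n with
      | zero => exact continuousOn_const
      | succ m =>
        exact (continuousOn_const.mul (hcont m)).mul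
          ((continuousOn_const.mul (hcont m)).add (continuousOn_const.mul (hcont (m + 1))))
    exact (hg.sub (continuousOn_const.mul (hcont n))).sub ((continuousOn_const.mul (hcont (n + 1))).mul
      ((continuousOn_const.mul (hcont n)).add (continuousOn_const.mul (hcont (n + 1)))))
  intro n t ht
  have hT : t < T := ht.2.trans_lt hb
  rcases ht.1.eq_or_lt with h0 | h0
  · subst h0
    have hI : Ioo 0 T ∈ 𝓝[>] (0 : ℝ) := Ioo_mem_nhdsGT hT
    have h1 : HasDerivWithinAt (X n) (f n 0) (Ici 0) 0 := by
      refine hasDerivWithinAt_Ici_of_tendsto_deriv (s := Ioo 0 T)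
        (fun s hs => (hder n s hs).differentiableAt.differentiableWithinAt)
        (((hcont n) 0 ⟨le_rfl, hT⟩).mono Ioo_subset_Ico_self) hI ?_
      have h2 : Tendsto (f n) (𝓝[>] 0) (𝓝 (f n 0)) := by
        have h3 : ContinuousWithinAt (f n) (Ioo 0 T) 0 := ((hfc n) 0 ⟨le_rfl, hT⟩).mono Ioo_subset_Ico_self
        have h4 : 𝓝[Ioo 0 T] (0 : ℝ) = 𝓝[>] 0 := nhdsWithin_Ioo_eq_nhdsGT hT
        unfold ContinuousWithinAt at h3
        rwa [h4] at h3
      refine h2.congr' ?_
      filter_upwards [hI] with s hs
      exact (hder n s hs).deriv.symm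
    exact h1.mono fun s hs => hs.1
  · exact (hder n t ⟨h0, hT⟩).hasDerivWithinAt

end Pool.Agent.H39.Log
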