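import Pool.Agent.H39.Log.Flux
import Pool.Agent.H39.Log.Seq

/-!
# Decay of the tail energies of Galerkin solutions
-/

open Set Filter Topology

namespace Pool.Agent.H39.Log

open Pool.Agent.H39.Lions

variable {ι : Type*} {μ : ι → ℝ} {C : (ι → ℝ) → (ι → ℝ) → ι → ℝ}

/-- Galerkin solutions with the dissipation rates `ρ`: supported in `F`, on the time interval `[0, T]` -/
structure GSolR (C : (ι → ℝ) → (ι → ℝ) → ι → ℝ) (ρ : ι → ℝ) (T : ℝ) (F : Finset ι) (x : ℝ → ι → ℝ) : Prop where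
  supp : ∀ t i, i ∉ F → x t i = 0
  eq : ∀ t ∈ Icc 0 T, ∀ i ∈ F, HasDerivWithinAt (fun s => x s i) (-(ρ i) * x t i + C (x t) (x t) i) (Icc 0 T) t

/-- antiderivatives on intervals -/
theorem antideriv {T : ℝ} (hT : 0 ≤ T) {f : ℝ → ℝ} (hf : ContinuousOn f (Icc 0 T)) :
    ∃ R : ℝ → ℝ, R 0 = 0 ∧ ∀ t ∈ Icc 0 T, HasDerivWithinAt R (f t) (Icc 0 T) t := by
  set g : ℝ → ℝ := fun s => f (projIcc 0 T hT s) with hg
  have hgc : Continuous g := hf.comp_continuous (continuous_subtype_val.comp continuous_projIcc) fun s => (projIcc 0 T hT s).2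
  refine ⟨fun t => ∫ s in (0 : ℝ)..t, g s, intervalIntegral.integral_same, fun t ht => ?_⟩
  have h1 := (hgc.integral_hasStrictDerivAt 0 t).hasDerivAt.hasDerivWithinAt (s := Icc 0 T)
  have h2 : g t = f t := by simp only [hg, projIcc_of_mem hT ht]
  rwa [h2] at h1

/-- the second weight -/
noncomputable def omt (r : ℝ) : ℝ := if r < 1 then r ^ (1 / 4 : ℝ) else r ^ (-(1 / 4) : ℝ)

/-- the potential -/
noncomputable def vv (r : ℝ) : ℝ := if r < 1 then r ^ (1 / 4 : ℝ) else 2 - r ^ (-(1 / 4) : ℝ)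

theorem omt_pos {r : ℝ} (hr : 0 < r) : 0 < omt r := by
  unfold omt
  split_ifs <;> exact Real.rpow_pos_of_pos hr _

theorem omt_le_one {r : ℝ} (hr : 0 < r) : omt r ≤ 1 := by
  unfold omt
  split_ifs with h
  · exact Real.rpow_le_one hr.le h.le (by norm_num)
  · exact Real.rpow_le_one_of_one_le_of_nonpos (not_lt.1 h) (by norm_num)

theorem vv_nonneg {r : ℝ} (hr : 0 < r) : 0 ≤ vv r := by
  unfold vv
  split_ifs with h
  · exact (Real.rpow_pos_of_pos hr _).le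
  · have := Real.rpow_le_one_of_one_le_of_nonpos (not_lt.1 h) (show (-(1 / 4) : ℝ) ≤ 0 by norm_num)
    linarith

theorem vv_le_two {r : ℝ} (hr : 0 < r) : vv r ≤ 2 := by
  unfold vv
  split_ifs with h
  · have := Real.rpow_le_one hr.le h.le (show (0 : ℝ) ≤ 1 / 4 by norm_num)
    linarith
  · have := Real.rpow_pos_of_pos hr (-(1 / 4) : ℝ)
    linarith

theorem vv_le {r : ℝ} (hr : 0 < r) : vv r ≤ 2 * (if r < 1 then 0 else 1) + omt r := by
  by_cases h : r < 1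
  · unfold vv omt
    rw [if_pos h, if_pos h, if_pos h]; linarith
  · rw [if_neg h]
    have := vv_le_two hr
    have := omt_pos hr
    linarith

/-- the constant `1 - 2 ^ (-1/4)` -/
noncomputable def kc : ℝ := 1 - (2 : ℝ) ^ (-(1 / 4) : ℝ)

theorem kc_pos : 0 < kc := by
  unfold kc
  have : (2 : ℝ) ^ (-(1 / 4) : ℝ) < 1 := Real.rpow_lt_one_of_one_lt_of_neg (by norm_num) (by norm_num)
  linarith

theorem kc_lt_one : kc < 1 := by
  unfold kc
  have : 0 < (2 : ℝ) ^ (-(1 / 4) : ℝ) := Real.rpow_pos_of_pos (by norm_num) _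
  linarith

theorem vv_sub {r : ℝ} (hr : 0 < r) : kc * omt r ≤ vv r - vv (r / 2) := by
  set κ : ℝ := (2 : ℝ) ^ (-(1 / 4) : ℝ) with hκ
  have hκ0 : 0 < κ := Real.rpow_pos_of_pos (by norm_num) _
  have hκ1 : κ < 1 := Real.rpow_lt_one_of_one_lt_of_neg (by norm_num) (by norm_num)
  have hkc : kc = 1 - κ := rfl
  set q : ℝ := r ^ (1 / 4 : ℝ) with hq
  have hq0 : 0 < q := Real.rpow_pos_of_pos hr _
  have hqi : r ^ (-(1 / 4) : ℝ) = q⁻¹ := Real.rpow_neg hr.le _
  have hq2 : (r / 2) ^ (1 / 4 : ℝ) = κ * q := by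
    rw [Real.div_rpow hr.le (by norm_num), ← hq, hκ, Real.rpow_neg (by norm_num)]
    field_simp
  have hq2i : (r / 2) ^ (-(1 / 4) : ℝ) = (κ * q)⁻¹ := by
    rw [Real.rpow_neg (by positivity), hq2]
  rw [hkc]
  unfold omt vv
  rw [hqi, hq2i, hq2]
  by_cases h1 : r < 1
  · have h2 : r / 2 < 1 := by linarith
    rw [if_pos h1, if_pos h1, if_pos h2]
    linarith
  · have hq1 : 1 ≤ q := Real.one_le_rpow (not_lt.1 h1) (by norm_num)
    by_cases h2 : r / 2 < 1
    · rw [if_neg h1, if_neg h1, if_pos h2]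
      have h3 : κ * q ≤ 1 := by
        rw [← hq2]
        exact Real.rpow_le_one (by positivity) h2.le (by norm_num)
      have h4 : (1 - κ) * q⁻¹ * q ≤ (2 - q⁻¹ - κ * q) * q := by
        have e1 : (1 - κ) * q⁻¹ * q = 1 - κ := by field_simp
        have e2 : (2 - q⁻¹ - κ * q) * q = 2 * q - 1 - κ * q * q := by field_simp
        rw [e1, e2]
        nlinarith [mul_nonneg (sub_nonneg.2 hq1) (show 0 ≤ 2 - κ * (q + 1) by nlinarith)]
      exact le_of_mul_le_mul_right h4 hq0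
    · rw [if_neg h1, if_neg h1, if_neg h2]
      have h3 : (1 - κ) * q⁻¹ ≤ (1 - κ) * (κ * q)⁻¹ := by
        apply mul_le_mul_of_nonneg_left _ (by linarith)
        apply inv_anti₀ (by positivity)
        nlinarith
      have h4 : (1 - κ) * (κ * q)⁻¹ = (κ * q)⁻¹ - q⁻¹ := by field_simp
      linarith

theorem vv_half_le {r : ℝ} (hr : 0 < r) : vv (r / 2) ≤ vv r := by
  have := vv_sub hr
  have := mul_pos kc_pos (omt_pos hr)
  linarith

/-- the logarithm costs a factor `n + 1` and a power -/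
theorem om_log {m : ℝ} (hm : 1 ≤ m) (n : ℕ) :
    om (m / 2 ^ n) * (1 + Real.log m) ≤ 5 * ((n : ℝ) + 1) * omt (m / 2 ^ n) := by
  set r : ℝ := m / 2 ^ n with hr
  have h2n : (0 : ℝ) < 2 ^ n := by positivity
  have hr0 : 0 < r := by positivity
  have hlog : Real.log m = Real.log r + n * Real.log 2 := by
    rw [hr, Real.log_div (by positivity) h2n.ne', Real.log_pow]; ring
  have hl2 : Real.log 2 ≤ 1 := by
    have := Real.log_two_lt_d9
    linarith
  have hn : (0 : ℝ) ≤ n := Nat.cast_nonneg n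
  have e1 : 1 + Real.log m ≤ (n : ℝ) + 1 + |Real.log r| := by
    rw [hlog]
    have := le_abs_self (Real.log r)
    nlinarith
  have e2 : om r = omt r * omt r := by
    unfold om omt
    split_ifs
    · rw [← Real.rpow_add hr0]; norm_num
    · rw [← Real.rpow_add hr0]; norm_num
  have e3 : |Real.log r| * omt r ≤ 4 := by
    unfold omt
    split_ifs with h
    · have h3 := Real.add_one_le_exp (-(Real.log r) / 4)
      rw [abs_of_nonpos (Real.log_nonpos hr0.le h.le), Real.rpow_def_of_pos hr0]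
      have h4 : Real.exp (-(Real.log r) / 4) * Real.exp (Real.log r * (1 / 4)) = 1 := by
        rw [← Real.exp_add]; ring_nf; exact Real.exp_zero
      have h5 := Real.exp_pos (Real.log r * (1 / 4))
      nlinarith
    · have h3 := Real.add_one_le_exp (Real.log r / 4)
      rw [abs_of_nonneg (Real.log_nonneg (not_lt.1 h)), Real.rpow_def_of_pos hr0]
      have h4 : Real.exp (Real.log r / 4) * Real.exp (Real.log r * -(1 / 4)) = 1 := by
        rw [← Real.exp_add]; ring_nf; exact Real.exp_zero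
      have h5 := Real.exp_pos (Real.log r * -(1 / 4))
      nlinarith
  have h1 := omt_pos hr0
  have h2 := omt_le_one hr0
  have hlog0 := Real.log_nonneg hm
  rw [e2]
  calc omt r * omt r * (1 + Real.log m) ≤ omt r * omt r * ((n : ℝ) + 1 + |Real.log r|) := by gcongr
    _ = omt r * (omt r * ((n : ℝ) + 1) + |Real.log r| * omt r) := by ring
    _ ≤ omt r * (1 * ((n : ℝ) + 1) + 4) := by gcongr
    _ ≤ omt r * (5 * ((n : ℝ) + 1)) := by
        apply mul_le_mul_of_nonneg_left _ h1.le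
        linarith
    _ = _ := by ring

/-- a quadratic inequality -/
theorem quad {c c' e b : ℝ} (hc : 0 ≤ c) (hc' : 0 ≤ c') (he : 0 ≤ e) (hb : 0 ≤ b)
    (h : c' ^ 2 ≤ c ^ 2 / 5 + e + b * c) : c' ≤ 1 / 2 * c + Real.sqrt (5 * e) + 10 * b := by
  have hs := Real.sqrt_nonneg (5 * e)
  have hs2 : Real.sqrt (5 * e) * Real.sqrt (5 * e) = 5 * e := Real.mul_self_sqrt (by positivity)
  by_contra hcon
  push Not at hcon
  have h1 : c < 2 * c' := by linarith
  have h2 : c' ^ 2 ≤ 5 * e + 10 * b * c' := by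
    have h3 : c ^ 2 ≤ (2 * c') ^ 2 := pow_le_pow_left₀ hc h1.le 2
    have h4 : b * c ≤ b * (2 * c') := mul_le_mul_of_nonneg_left h1.le hb
    nlinarith
  have h3 : Real.sqrt (5 * e) + 10 * b < c' := by linarith
  nlinarith

section galerkin

variable {ρ : ι → ℝ} {T : ℝ} {F : Finset ι} {x : ℝ → ι → ℝ}

theorem GSolR.rd (h : GSolR C ρ T F x) (t : ℝ) : RD μ (x t) := RD.fin F (h.supp t)

theorem GSolR.cont (h : GSolR C ρ T F x) (i : ι) : ContinuousOn (fun t => x t i) (Icc 0 T) := by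
  by_cases hi : i ∈ F
  · exact fun t ht => (h.eq t ht i hi).continuousWithinAt
  · have : (fun t => x t i) = fun _ => 0 := funext fun t => h.supp t i hi
    rw [this]
    exact continuousOn_const

/-- the dissipated energies -/
structure Diss (ρ : ι → ℝ) (T : ℝ) (F : Finset ι) (x : ℝ → ι → ℝ) (R : ι → ℝ → ℝ) : Prop where
  zero : ∀ i, R i 0 = 0
  der : ∀ i, ∀ t ∈ Icc 0 T, HasDerivWithinAt (R i) (x t i ^ 2) (Icc 0 T) t

theorem GSolR.exists_diss (h : GSolR C ρ T F x) (hT : 0 ≤ T) : ∃ R, Diss ρ T F x R := by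
  choose R hR0 hR using fun i => antideriv hT ((h.cont i).pow 2)
  exact ⟨R, hR0, hR⟩

variable {R : ι → ℝ → ℝ}

theorem Diss.mono (hR : Diss ρ T F x R) (i : ι) : MonotoneOn (R i) (Icc 0 T) := by
  have h1 := antitone_of_deriv (T := T) (f := fun t => -R i t) (f' := fun t => -(x t i ^ 2))
    (fun t ht => (hR.der i t ht).fun_neg) fun t _ => by have := sq_nonneg (x t i); linarith
  intro a ha b hb hab
  have := h1 ha hb hab
  simp only at this
  linarith

theorem Diss.nonneg (hR : Diss ρ T F x R) (i : ι) {t : ℝ} (ht : t ∈ Icc 0 T) : 0 ≤ R i t := by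
  have h1 := hR.mono i (⟨le_rfl, ht.1.trans ht.2⟩ : (0 : ℝ) ∈ Icc 0 T) ht ht.1
  rwa [hR.zero i] at h1

/-- derivatives of weighted energies -/
theorem GSolR.deriv (h : GSolR C ρ T F x) (w : ι → ℝ) {t : ℝ} (ht : t ∈ Icc 0 T) :
    HasDerivWithinAt (fun t => ∑ i ∈ F, w i * x t i ^ 2)
      (-2 * ∑ i ∈ F, w i * (ρ i * x t i ^ 2) + 2 * ∑ i ∈ F, w i * (C (x t) (x t) i * x t i)) (Icc 0 T) t := by
  have h1 : HasDerivWithinAt (fun t => ∑ i ∈ F, w i * x t i ^ 2)
      (∑ i ∈ F, w i * (((2 : ℕ) : ℝ) * x t i ^ (2 - 1) * (-(ρ i) * x t i + C (x t) (x t) i))) (Icc 0 T) t :=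
    HasDerivWithinAt.fun_sum fun i hi => ((h.eq t ht i hi).pow 2).const_mul _
  refine h1.congr_deriv ?_
  rw [Finset.mul_sum, Finset.mul_sum, ← Finset.sum_add_distrib]
  refine Finset.sum_congr rfl fun i _ => ?_
  simp only [Nat.cast_ofNat, Nat.add_one_sub_one, pow_one]
  ring

/-- the energy identity -/
theorem GSolR.energy (hE : ∀ x, RD μ x → ∑' i, C x x i * x i = 0) (h : GSolR C ρ T F x) (hR : Diss ρ T F x R)
    {t : ℝ} (ht : t ∈ Icc 0 T) :
    ∑ i ∈ F, x t i ^ 2 + 2 * ∑ i ∈ F, ρ i * R i t ≤ ∑ i ∈ F, x 0 i ^ 2 := by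
  have h1 := antitone_of_deriv (T := T) (f := fun t => ∑ i ∈ F, 1 * x t i ^ 2 + 2 * ∑ i ∈ F, ρ i * R i t)
    (f' := fun t => (-2 * ∑ i ∈ F, 1 * (ρ i * x t i ^ 2) + 2 * ∑ i ∈ F, 1 * (C (x t) (x t) i * x t i)) +
      2 * ∑ i ∈ F, ρ i * x t i ^ 2)
    (fun t ht => (h.deriv (fun _ => 1) ht).add ((HasDerivWithinAt.fun_sum fun i _ =>
      (hR.der i t ht).const_mul (ρ i)).const_mul 2)) fun t ht => by
      have h2 := hE (x t) (h.rd t)
      rw [tsum_eq_sum (s := F) fun i hi => by rw [h.supp t i hi, mul_zero]] at h2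
      simp only [one_mul]
      rw [h2]
      linarith
  have h2 := h1 (⟨le_rfl, ht.1.trans ht.2⟩ : (0 : ℝ) ∈ Icc 0 T) ht ht.1
  simp only [one_mul, hR.zero, mul_zero, Finset.sum_const_zero, add_zero] at h2
  exact h2

/-- **The tail energies.** -/
theorem GSolR.tail (hμ : Wt μ) {K : ℝ} (hK : ∀ (F : Finset ι) (y : ι → ℝ) (Λ : ℝ), (∀ i, i ∉ F → y i = 0) → 0 < Λ →
      |∑ i ∈ F, C y y i * hi μ Λ y i| ≤ K * (Λ ^ (-(5 / 4) : ℝ) * nrm μ (5 / 4) (lo μ Λ y)) * Qf μ F Λ y)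
    (hK0 : 0 ≤ K) (h : GSolR C ρ T F x) (hR : Diss ρ T F x R) {Λ c : ℝ} (hΛ : 0 < Λ)
    (hc : ∀ t ∈ Icc 0 T, Λ ^ (-(5 / 4) : ℝ) * nrm μ (5 / 4) (lo μ Λ (x t)) ≤ c) {t : ℝ} (ht : t ∈ Icc 0 T) :
    ∑ i ∈ F, (if μ i < Λ then 0 else 1) * x t i ^ 2 + 2 * ∑ i ∈ F, (if μ i < Λ then 0 else 1) * (ρ i * R i t) ≤
      ∑ i ∈ F, (if μ i < Λ then 0 else 1) * x 0 i ^ 2 +
      2 * K * c * ∑ i ∈ F, om (μ i / Λ) * (μ i ^ (5 / 2 : ℝ) * R i t) := by
  set w : ι → ℝ := fun i => if μ i < Λ then 0 else 1 with hw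
  have h1 := antitone_of_deriv (T := T) (f := fun t => ∑ i ∈ F, w i * x t i ^ 2 + 2 * ∑ i ∈ F, w i * (ρ i * R i t) -
      2 * K * c * ∑ i ∈ F, om (μ i / Λ) * (μ i ^ (5 / 2 : ℝ) * R i t))
    (f' := fun t => (-2 * ∑ i ∈ F, w i * (ρ i * x t i ^ 2) + 2 * ∑ i ∈ F, w i * (C (x t) (x t) i * x t i)) +
      2 * ∑ i ∈ F, w i * (ρ i * x t i ^ 2) - 2 * K * c * ∑ i ∈ F, om (μ i / Λ) * (μ i ^ (5 / 2 : ℝ) * x t i ^ 2))
    (fun t ht => ((h.deriv w ht).add ((HasDerivWithinAt.fun_sum fun i _ =>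
      ((hR.der i t ht).const_mul (ρ i)).const_mul (w i)).const_mul 2)).sub ((HasDerivWithinAt.fun_sum fun i _ =>
      ((hR.der i t ht).const_mul (μ i ^ (5 / 2 : ℝ))).const_mul (om (μ i / Λ))).const_mul (2 * K * c))) fun t ht => by
      have h2 := (le_abs_self _).trans (hK F (x t) Λ (h.supp t) hΛ)
      have e1 : ∑ i ∈ F, w i * (C (x t) (x t) i * x t i) = ∑ i ∈ F, C (x t) (x t) i * hi μ Λ (x t) i := by
        refine Finset.sum_congr rfl fun i _ => ?_
        simp only [hw, hi]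
        split_ifs <;> ring
      have h3 : K * (Λ ^ (-(5 / 4) : ℝ) * nrm μ (5 / 4) (lo μ Λ (x t))) * Qf μ F Λ (x t) ≤ K * c * Qf μ F Λ (x t) :=
        mul_le_mul_of_nonneg_right (mul_le_mul_of_nonneg_left (hc t ht) hK0) (Qf_nonneg hμ hΛ)
      rw [e1]
      unfold Qf at h3
      unfold Qf at h2
      linarith
  have h2 := h1 (⟨le_rfl, ht.1.trans ht.2⟩ : (0 : ℝ) ∈ Icc 0 T) ht ht.1
  simp only [hR.zero, mul_zero, Finset.sum_const_zero, add_zero, sub_zero] at h2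
  linarith

end galerkin

end Pool.Agent.H39.Log
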