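import Pool.Agent.H39.Log.ExD

/-!
# Uniqueness of smooth solutions with a general dissipation
-/

open MeasureTheory Set Filter Topology
open scoped ContDiff ENNReal

namespace Pool.Agent.H39.Log

open Pool.Agent.H39.Lions
open H459R3.NS (V K3 Per cube SP pd lap ee fr S N)
open Pool.Agent.H39.PDE (fq sob ip)
open Pool.Agent.K1H11.NS (Ev.SF)

variable {θ T : ℝ} {D R : K3 → ℝ} {C : (V → V) → (V → V) → V → V} {u : ℝ → V → V} {p : ℝ → V → ℝ}

theorem SolD.SF (h : SolD θ D C T u p) (i : Fin 3) : Ev.SF T fun τ y => u τ y i :=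
  ⟨(contDiffOn_pi.1 h.smooth_u) i, fun τ hτ j x => ((h.field τ hτ).sp i).per j x⟩

/-- **The equation in coefficients.** -/
theorem SolD.coord (hC : EulerType C) (hD : Sym D) (hRD : ∀ k, k ≠ 0 → R k = D k) (h : SolD θ D C T u p) {t : ℝ} (ht : t ∈ Ioo 0 T) (q : K3 × Fin 3) :
    HasDerivAt (fun τ => cf (u τ) q) (-(R q.1) * cf (u t) q + opA θ C (cf (u t)) (cf (u t)) q) t := by
  have hI : t ∈ Ico 0 T := ⟨ht.1.le, ht.2⟩
  have hF := h.field t hI
  set W : V → V := fun x i => deriv (fun τ => u τ x i) t with hW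
  have hWsp : ∀ i, SP fun x => W x i := fun i => sp_dt (h.SF i) ht
  have hd : ∀ q, HasDerivAt (fun τ => cf (u τ) q) (cf W q) t := by
    intro q
    have h1 := ha_hasDerivAt (h.SF q.2) ht q.1
    have h2 : cf W q = ∫ x in cube, deriv (fun τ => u τ x q.2) t * cas q.1 x := ha_int (hWsp q.2).cont q.1
    rw [h2]
    exact h1
  have hpW : pr (cf W) = cf W := by
    funext q
    have h1 := pr_deriv hd q
    have h2 : (fun τ => pr (cf (u τ)) q) =ᶠ[𝓝 t] fun τ => cf (u τ) q := by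
      filter_upwards [Ioo_mem_nhds ht.1 ht.2] with τ hτ
      rw [(h.field τ ⟨hτ.1.le, hτ.2⟩).pr_cf]
    exact h1.unique ((hd q).congr_of_eventuallyEq h2)
  have hpsp : SP (p t) := by
    refine ⟨H459R3.NS.contDiff_slice (f := p) h.smooth_p hI, h.per_p t hI⟩
  have hcv := sp_cv hF.sp hF.sp
  have hCu := hC.field _ _ hF hF
  -- coefficients of the equation
  have e1 : ∀ q, cf W q = ((-(D q.1) * cf (u t) q + cf (C (u t) (u t)) q) + (-θ) * cf (cv (u t) (u t)) q) +
      q.1 q.2 * (2 * Real.pi * ha (p t) (-q.1)) := by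
    rintro ⟨k, i⟩
    have m1 : (fun x => W x i) = fun x => ((-1 * mlt D (fun y => u t y i) x + C (u t) (u t) x i) +
        (-θ) * cv (u t) (u t) x i) + (-1) * pd i (p t) x := by
      funext x
      have := h.momentum t ht x i
      simp only [hW, cv]
      linarith
    have q1 := SP.smul (sp_mlt hD (hF.sp i)) (-1)
    have q2 := hCu.sp i
    have q3 := SP.smul (hcv i) (-θ)
    have q4 := SP.smul (hpsp.pd i) (-1)
    show ha (fun x => W x i) k = _
    rw [m1, ha_add ((q1.add q2).add q3) q4, ha_add (q1.add q2) q3, ha_add q1 q2, ha_smul, ha_smul, ha_smul,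
      ha_mlt hD (hF.sp i), ha_pd hpsp]
    simp only [cf]
    ring
  have e2 : cf W = fun q => ((-(D q.1) * cf (u t) q + cf (C (u t) (u t)) q) + (-θ) * cf (cv (u t) (u t)) q) +
      q.1 q.2 * (2 * Real.pi * ha (p t) (-q.1)) := funext e1
  have e3 : cf W = fun q => (-(D q.1) * cf (u t) q + cf (C (u t) (u t)) q) + (-θ) * pr (cf (cv (u t) (u t))) q := by
    have a1 := pr_add (fun q => ((-(D q.1) * cf (u t) q + cf (C (u t) (u t)) q) + (-θ) * cf (cv (u t) (u t)) q))
      (fun q => q.1 q.2 * (2 * Real.pi * ha (p t) (-q.1)))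
    have a2 := pr_add (fun q => -(D q.1) * cf (u t) q + cf (C (u t) (u t)) q)
      (fun q => (-θ) * cf (cv (u t) (u t)) q)
    have a3 := pr_add (fun q => -(D q.1) * cf (u t) q) (cf (C (u t) (u t)))
    have a4 := pr_mult (fun k => -(D k)) (cf (u t))
    have a5 := pr_smul (-θ) (cf (cv (u t) (u t)))
    have a6 := pr_gr (fun k => 2 * Real.pi * ha (p t) (-k))
    rw [← hpW, e2, a1, a2, a3, a4, a5, a6, hF.pr_cf, hCu.pr_cf]
    funext q
    ring
  have hq := hd q
  rw [e3] at hq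
  refine hq.congr_deriv ?_
  have e4 : opC C (cf (u t)) (cf (u t)) q = cf (C (u t) (u t)) q := by
    unfold opC
    rw [hF.pr_cf, hF.fd]
  have e5 : opG (cf (u t)) (cf (u t)) = cf (cv (u t) (u t)) := by
    unfold opG
    rw [hF.pr_cf, hF.fd]
  have e6 : R q.1 * cf (u t) q = D q.1 * cf (u t) q := by
    by_cases hk : q.1 = 0
    · have : cf (u t) q = 0 := by
        rw [← hF.pr_cf, show q = (q.1, q.2) from rfl, hk, pr_zero]
      rw [this, mul_zero, mul_zero]
    · rw [hRD q.1 hk]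
  simp only [opA]
  rw [e4, e5]
  linear_combination e6

theorem SolD.unif (h : SolD θ D C T u p) {b : ℝ} (hb : b < T) (m : ℕ) :
    ∃ B : ℝ, ∀ t ∈ Icc 0 b, ∀ q, mu q ^ m * |cf (u t) q| ≤ B := by
  choose B hB using fun i => ha_unif (h.SF i) hb m
  refine ⟨∑ i, |B i|, fun t ht q => (hB q.2 t ht q.1).trans ((le_abs_self _).trans ?_)⟩
  exact Finset.single_le_sum (f := fun i => |B i|) (fun i _ => abs_nonneg _) (Finset.mem_univ q.2)

theorem SolD.coord' (hC : EulerType C) (hD : Sym D) (hRD : ∀ k, k ≠ 0 → R k = D k) (h : SolD θ D C T u p) {b : ℝ} (hb : b < T) {t : ℝ} (ht : t ∈ Icc 0 b)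
    (q : K3 × Fin 3) :
    HasDerivWithinAt (fun τ => cf (u τ) q) (-(R q.1) * cf (u t) q + opA θ C (cf (u t)) (cf (u t)) q)
      (Icc 0 b) t := by
  have hT : t < T := ht.2.trans_lt hb
  rcases ht.1.eq_or_lt with h0 | h0
  · subst h0
    have hI : Ioo 0 T ∈ 𝓝[>] (0 : ℝ) := Ioo_mem_nhdsGT hT
    set f : ℝ → ℝ := fun t => -(R q.1) * cf (u t) q + opA θ C (cf (u t)) (cf (u t)) q with hf
    have hcont : ∀ q, ContinuousOn (fun τ => cf (u τ) q) (Ico 0 T) := fun q => ha_continuousOn (h.SF q.2) q.1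
    have hr0 : RD mu (cf (u 0)) := rd_cf (h.field 0 ⟨le_rfl, hT⟩).sp
    have h1 : HasDerivWithinAt (fun τ => cf (u τ) q) (f 0) (Ici 0) 0 := by
      refine hasDerivWithinAt_Ici_of_tendsto_deriv (s := Ioo 0 T)
        (fun s hs => (h.coord hC hD hRD hs q).differentiableAt.differentiableWithinAt)
        (((hcont q) 0 ⟨le_rfl, hT⟩).mono Ioo_subset_Ico_self) hI ?_
      have h2 : Tendsto f (𝓝[>] 0) (𝓝 (f 0)) := by
        have h4 : 𝓝[Ioo 0 T] (0 : ℝ) = 𝓝[>] 0 := nhdsWithin_Ioo_eq_nhdsGT hT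
        have h5 : ∀ q, Tendsto (fun τ => cf (u τ) q) (𝓝[>] 0) (𝓝 (cf (u 0) q)) := fun q => by
          have h3 : ContinuousWithinAt (fun τ => cf (u τ) q) (Ioo 0 T) 0 :=
            ((hcont q) 0 ⟨le_rfl, hT⟩).mono Ioo_subset_Ico_self
          unfold ContinuousWithinAt at h3
          rwa [h4] at h3
        -- replace the family by one which is rapidly decreasing for all parameters
        classical
        set y : ℝ → K3 × Fin 3 → ℝ := fun τ => if τ ∈ Ico 0 T then cf (u τ) else 0 with hy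
        have hyr : ∀ τ, RD mu (y τ) := fun τ => by
          simp only [hy]
          split_ifs with hτ
          · exact rd_cf (h.field τ hτ).sp
          · exact RD.zero
        obtain ⟨b', hb1, hb2⟩ := exists_between hT
        have hyub : UB mu (𝓝[>] (0 : ℝ)) y := fun m => by
          obtain ⟨B, hB⟩ := h.unif hb2 m
          refine ⟨B, ?_⟩
          filter_upwards [Ioo_mem_nhdsGT hb1] with τ hτ q
          simp only [hy, if_pos (show τ ∈ Ico 0 T from ⟨hτ.1.le, hτ.2.trans hb2⟩)]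
          exact hB τ ⟨hτ.1.le, hτ.2.le⟩ q
        have hye : ∀ᶠ τ in 𝓝[>] (0 : ℝ), y τ = cf (u τ) := by
          filter_upwards [hI] with τ hτ
          simp only [hy, if_pos (show τ ∈ Ico 0 T from ⟨hτ.1.le, hτ.2⟩)]
        have hyt : ∀ q, Tendsto (fun τ => y τ q) (𝓝[>] 0) (𝓝 (cf (u 0) q)) := fun q =>
          (h5 q).congr' (hye.mono fun τ hτ => by simp only [hτ])
        have h6 := tend_C wt_mu (opA_bil θ hC) hyr hyr hyub hyub hr0 hr0 hyt hyt q
        have h7 := ((hyt q).const_mul (-(R q.1))).add h6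
        refine h7.congr' ?_
        filter_upwards [hye] with τ hτ
        simp only [hf, hτ]
      refine h2.congr' ?_
      filter_upwards [hI] with τ hτ
      exact (h.coord hC hD hRD hτ q).deriv.symm
    exact h1.mono fun τ hτ => hτ.1
  · exact (h.coord hC hD hRD ⟨h0, hT⟩ q).hasDerivWithinAt

/-- **Uniqueness.** -/
theorem SolD.unique (hC : EulerType C) (hD : Sym D) (hRD : ∀ k, k ≠ 0 → R k = D k) {ν : ℝ} (hν : 0 < ν)
    (hR : ∀ p : K3 × Fin 3, ν * mu p ^ (9 / 4 : ℝ) ≤ R p.1) (h : SolD θ D C T u p) {T' : ℝ} {v : ℝ → V → V}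
    {q : ℝ → V → ℝ} (h' : SolD θ D C T' v q) (h0 : u 0 = v 0) {t : ℝ} (ht : 0 ≤ t) (hT : t < T) (hT' : t < T') :
    u t = v t := by
  have h1 := uniqR wt_mu (opA_bil θ hC) (ρ := fun p => R p.1) (b := t) hν hR (fun m => h.unif hT m) (fun m => h'.unif hT' m)
    (fun τ hτ q => h.coord' hC hD hRD hT hτ q) (fun τ hτ q => h'.coord' hC hD hRD hT' hτ q) (by rw [h0]) ⟨ht, le_rfl⟩
  rw [← (h.field t ⟨ht, hT⟩).fd, ← (h'.field t ⟨ht, hT'⟩).fd]
  exact congrArg fd h1

end Pool.Agent.H39.Log
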